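import Mathlib

/-!
# Hat guessing number versus chromatic number for dense graphs (MP_1818ed_co)

All statements (`...Stmt : Prop`) of the proof of:

THEOREM (`MainStmt`). For every `k` there is `n₀` such that every graph on `n ≥ n₀` vertices in
which all but at most `k` vertices (the set `X`) have at most `k` non-neighbours (outside `X`)
satisfies `χ(G) ≤ HG(G)`. (In particular all but finitely many graphs with `χ(G) ≥ n - k`.)

Every module of this folder proves one `...Stmt`, possibly from other `...Stmt`s given as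
hypotheses. The complete proof of each statement is in its docstring.

`Win G A`: there is a winning strategy in the hat guessing game on `G` with colour set `A`.
`Good G`: `χ(G) ≤ HG(G)`.
-/

set_option autoImplicit false

namespace Pool.Agent.Lib.MP_1818ed_co

open Finset

/-- a winning strategy with the colour set `A` exists -/
def Win {V : Type} (G : SimpleGraph V) (A : Type) : Prop :=
  ∃ f : V → (V → A) → A,
    (∀ (v : V) (c c' : V → A), (∀ u : V, G.Adj v u → c u = c' u) → f v c = f v c') ∧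
    ∀ c : V → A, ∃ v : V, f v c = c v

/-- `χ(G) ≤ HG(G)` -/
def Good {V : Type} (G : SimpleGraph V) : Prop :=
  ∀ q : ℕ, ¬ Win G (Fin q) → G.Colorable (q - 1)

/-- every vertex of `U` is adjacent to all other vertices -/
def Univ {V : Type} (G : SimpleGraph V) (U : Finset V) : Prop :=
  ∀ u ∈ U, ∀ v, v ≠ u → G.Adj u v

/-- FEWER COLOURS are easier.
PROOF. `f' v c = e⁻¹ (f v (e ∘ c))`, and an arbitrary element of `B` if `f v (e ∘ c)` is not in the
range of `e`. -/
def ColorsStmt : Prop :=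
  ∀ (V A B : Type) (G : SimpleGraph V) (e : B → A), Nonempty B → Function.Injective e →
    Win G A → Win G B

/-- BIGGER GRAPHS are easier.
PROOF. The vertex `φ w` guesses `f w (c ∘ φ)`; the vertices outside the range of `φ` guess
something fixed. -/
def GraphStmt : Prop :=
  ∀ (V W A : Type) (G : SimpleGraph V) (H : SimpleGraph W) (φ : W → V), Nonempty A →
    Function.Injective φ → (∀ a b, H.Adj a b → G.Adj (φ a) (φ b)) → Win H A → Win G A

/-- ADDING VERTICES to a colouring.
PROOF. Colour `S` with the colours `< a` and give the vertices outside `S` the remaining `b`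
colours injectively. -/
def ColAddStmt : Prop :=
  ∀ (V : Type) [Fintype V] (G : SimpleGraph V) (S : Set V) (a b : ℕ), (G.induce S).Colorable a →
    Sᶜ.ncard ≤ b → G.Colorable (a + b)

/-- BLOW UP. Disjoint cliques `Q i b` (`b ∈ B`), completely joined to each other if `i, i'` are
adjacent in `G'`.

PROOF. Let `f` be the strategy for `G'`, colours `A`. For a colouring `c` of `V` by `A × B` put
`α i = Σ_b (c (Q i b)).1 ∈ A`. The vertex `Q i b` guesses
`(f i α - Σ_{b' ≠ b} (c (Q i b')).1, b - Σ_{b' ≠ b} (c (Q i b')).2)`: `f i α` depends only on the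
`α j` with `j` adjacent to `i` in `G'`, so this depends only on the neighbours of `Q i b`
(formally use `f i (fun j => if G'.Adj i j then α j else 0)`, which is `f i α`). All other vertices
guess `0`. Given `c` choose `i` with `f i α = α i` and `b = Σ_b (c (Q i b)).2`; then the guess of
`Q i b` is right. -/
def BlowStmt : Prop :=
  ∀ (V ι A B : Type) [Fintype B] [AddCommGroup A] [AddCommGroup B]
    (G : SimpleGraph V) (G' : SimpleGraph ι) (Q : ι → B → V),
    (∀ i i' b b', Q i b = Q i' b' → i = i' ∧ b = b') →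
    (∀ i b b', b ≠ b' → G.Adj (Q i b) (Q i b')) →
    (∀ i i', G'.Adj i i' → ∀ b b', G.Adj (Q i b) (Q i' b')) →
    Win G' A → Win G (A × B)

/-- MATRIX STRATEGY. `F = ZMod p`. The vertices have labels `x i ∈ F^(h+1)` that represent all
points of the projective space, and no label lies in the span of the labels of the other
non-neighbours.

PROOF. For each `i` there is a linear form `ℓ i` on `F^(h+1)` with `ℓ i (x i) = 1` and
`ℓ i (x j) = 0` for all `j ≠ i` not adjacent to `i` (`Submodule.exists_le_ker_of_notMem` or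
similar). Given a colouring `α : R → F^h`, the linear map `w ↦ Σ_j ℓ j w • α j` from `F^(h+1)` to
`F^h` has a nonzero vector `w` in its kernel; `w = a • x i` with `a ≠ 0`, so
`Σ_j ℓ j (x i) • α j = 0`, i.e. `α i = - Σ_{j adjacent to i} ℓ j (x i) • α j`, because
`ℓ j (x i) = 0` if `j ≠ i` is not adjacent to `i`. So it is enough that `i` guesses
`- Σ_{j adjacent to i} ℓ j (x i) • α j`. -/
def MatStmt : Prop :=
  ∀ (p h : ℕ) [Fact p.Prime] (R : Type) [Fintype R] (G' : SimpleGraph R)
    (x : R → (Fin (h + 1) → ZMod p)),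
    (∀ w : Fin (h + 1) → ZMod p, w ≠ 0 → ∃ (i : R) (a : ZMod p), w = a • x i) →
    (∀ i, x i ∉ Submodule.span (ZMod p) (x '' {j | j ≠ i ∧ ¬ G'.Adj i j})) →
    Win G' (Fin h → ZMod p)

/-- PLACING LABELS. `H` is a graph with degrees at most `D`. The labels `x ∈ R` can be placed at
distinct vertices `π x` such that no label is in the span of the labels of its neighbours.

PROOF. `N = card V`, `N[w] = {w} ∪ {neighbours of w}` (at most `D + 1` vertices). Place the labels
one after the other. A state is a set `P ⊆ R` of placed labels with `π` injective on `P` and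
(a) for every vertex `w` the labels placed on `N[w]` are linearly independent,
`LinearIndepOn (ZMod p) id {x | x ∈ P ∧ (π x = w ∨ H.Adj w (π x))}`.
Put `conf y = #{w : y ∈ span (labels placed on N[w])}` (for all `y ∈ E`). We also keep a set
`Hv ⊆ P` with
(b) `Th ≤ conf x` for `x ∈ Hv` (`conf` only grows with `P`), so
`|Hv| Th ≤ Σ_{y ∈ R} conf y ≤ N p^(D+1)` (a span of at most `D + 1` vectors has at most `p^(D+1)`
elements), `|Hv| ≤ N p^(D+1) / Th`;
(c) `conf y ≤ Th + (D+1) (1 + |Hv|)` for all `y ∈ R \ P`.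
STEP. If `P ≠ R` choose `y ∈ R \ P` with `conf y ≥ Th` if there is one, otherwise any `y ∈ R \ P`.
The vertices `v` that are occupied or lie in `N[w]` for some `w` with `y ∈ span (labels on N[w])`
are at most `|P| + (D+1) conf y < N` many, by (b), (c) and the hypothesis (`|P| < |R|`). Put `y` on
another vertex `v`. (a) holds since `y` is not in the spans of `N[w]`, `w ∈ N[v]`, the only ones that
change (`v ∈ N[w] ↔ w ∈ N[v]`). `conf` grows by at most `|N[v]| ≤ D + 1`. In the first case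
(`conf y ≥ Th`) put `Hv' = Hv ∪ {y}`; in the second case `Hv' = Hv`, all unplaced labels had
`conf < Th` and have `conf ≤ Th + (D + 1)` now. So (b), (c) hold again.
At the end `P = R`, and `x ∉ span {y ∈ R | H.Adj (π x) (π y)}` because the labels on `N[π x]` are
linearly independent. -/
def PlaceStmt : Prop :=
  ∀ (p : ℕ) [Fact p.Prime] (E V : Type) [AddCommGroup E] [Module (ZMod p) E] [Fintype V]
    (H : SimpleGraph V) (D Th : ℕ) (R : Finset E),
    (∀ v, {u | H.Adj v u}.ncard ≤ D) → (0 : E) ∉ R → 0 < Th →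
    R.card + (D + 1) * (Th + (D + 1) * (1 + Fintype.card V * p ^ (D + 1) / Th)) ≤
      Fintype.card V →
    ∃ π : E → V, Set.InjOn π (R : Set E) ∧
      ∀ x ∈ R, x ∉ Submodule.span (ZMod p) {y | y ∈ R ∧ H.Adj (π x) (π y)}

/-- REPRESENTATIVES of the points of the projective space.

PROOF. `R` = vectors with `x 0 = 1` (`p^h` of them), vectors with `x 0 = 0, x 1 = 1` (`p^(h-1)`),
nonzero vectors with `x 0 = x 1 = 0` (at most `p^(h-1)`). Then
`|R| p ≤ (p^h + 2 p^(h-1)) p = p^h (p + 2)`. -/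
def RepsStmt : Prop :=
  ∀ (p h : ℕ) [Fact p.Prime], 1 ≤ h → ∃ R : Finset (Fin (h + 1) → ZMod p), 0 ∉ R ∧
    (∀ w : Fin (h + 1) → ZMod p, w ≠ 0 → ∃ x ∈ R, ∃ a : ZMod p, w = a • x) ∧
    R.card * p ≤ p ^ h * (p + 2)

/-- CHUNKS. Disjoint independent sets of exactly `s` vertices that cover all but at most
`s (Δ + 1)` vertices of a graph with degrees at most `Δ`.

PROOF. Take `L` maximal such that `L` disjoint independent sets of `s` vertices exist (`L ≤ card V`
as `s > 0`). If more than `s (Δ+1)` vertices remain, choose one after the other `s` pairwise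
non-adjacent vertices among the remaining ones (each choice kills at most `Δ + 1` vertices):
contradiction. So `card V ≤ s L + s (Δ + 1)`. -/
def ChunksStmt : Prop :=
  ∀ (V : Type) [Fintype V] (H : SimpleGraph V) (Δ s : ℕ),
    (∀ v, {u | H.Adj v u}.ncard ≤ Δ) → 0 < s →
    ∃ (L : ℕ) (Q : Fin L → Fin s → V), (∀ i i' b b', Q i b = Q i' b' → i = i' ∧ b = b') ∧
      (∀ i b b', ¬ H.Adj (Q i b) (Q i b')) ∧ Fintype.card V ≤ s * (L + Δ + 1)

/-- THE PARAMETERS for dense graphs.

PROOF. Choose a prime `p ≥ 16 M` (`Nat.exists_infinite_primes`), `S = 16 M`, `D = p S Δ`,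
`C₀ = (D+1)^2 (1 + 32 M (D+1) p^(D+1))` and `n₁` large (in terms of these numbers). For `n ≥ n₁` let
`h ≥ 1` with `p^h S ≤ n < p^(h+1) S` (`h = Nat.log p (n / S)`), `a = p^h`,
`s = 2 M n / (a (2M+1))` (rounded down). `1 ≤ s` because `n / a ≥ S`, and `s ≤ n / a < p S`, so
`s Δ ≤ D`. Colours: `a s > 2Mn/(2M+1) - a ≥ n (1 - 1/(2M) - 1/(16M)) ≥ (1 - 1/M) n` since
`a ≤ n / (16 M)`. Let `n ≤ s (L + Δ + 1)`: `L + Δ + 1 ≥ n / s ≥ a (1 + 1/(2M))`. Let
`Th = L / (16 M (D+1))` (rounded down, `Th ≥ L / (32 M (D+1)) > 0` as `L` is large, because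
`a > n / (p S)` is large). Then `(D+1) Th ≤ L/(16M)`, `(D+1)^2 (1 + L p^(D+1)/Th) ≤ C₀`,
`r ≤ a (1 + 2/p) ≤ a (1 + 1/(8M))` and
`L (1 - 1/(16M)) ≥ (a (1 + 1/(2M)) - Δ - 1)(1 - 1/(16M)) ≥ a (1 + 1/(8M)) + C₀` for large `a`,
since `(1 + 1/(2M))(1 - 1/(16M)) - 1 - 1/(8M) = 5/(16M) - 1/(32 M²) > 1/(4M)`
(so `a ≥ 4 M (C₀ + Δ + 1)` is enough). -/
def ArithStmt : Prop :=
  ∀ (Δ M : ℕ), 1 ≤ M → ∃ p n₁ : ℕ, p.Prime ∧ ∀ n, n₁ ≤ n → ∃ h s D : ℕ, 1 ≤ h ∧ 1 ≤ s ∧
    s * Δ ≤ D ∧ (M - 1) * n ≤ M * (p ^ h * s) ∧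
    ∀ L, n ≤ s * (L + Δ + 1) → ∃ Th, 0 < Th ∧ ∀ r, r * p ≤ p ^ h * (p + 2) →
      r + (D + 1) * (Th + (D + 1) * (1 + L * p ^ (D + 1) / Th)) ≤ L

/-- DENSE GRAPHS: if every vertex has at most `Δ` non-neighbours then `HG(G) ≥ (1 - 1/M) n`.

PROOF (from Arith, Colors, Graph, Blow, Mat, Place, Reps, Chunks). Take `p, n₁` and (for
`n = card V`) `h, s, D` from `Arith`. `Chunks` with `H = Gᶜ` gives `Q : Fin L → Fin s → V` with
`n ≤ s (L + Δ + 1)`; let `Th` be as in `Arith`. Let `G'` on `Fin L` be: `i ~ i'` iff `i ≠ i'` and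
`G.Adj (Q i b) (Q i' b')` for all `b, b'`. The complement `H' = G'ᶜ` has degrees at most
`s Δ ≤ D` (`i` has `s` members, each has at most `Δ` non-neighbours). Let `R` be as in `Reps`. `Place`
with `H'` gives `π : (Fin (h+1) → ZMod p) → Fin L`. Apply `Mat` to the graph
`G'.comap (fun i : R => π i)` on the subtype `R`, `x i = i`; a non-neighbour `j ≠ i` of `i` in that
graph is one with `H'.Adj (π i) (π j)`, so the second hypothesis holds. By `Graph`,
`Win G' (Fin h → ZMod p)`. By `Blow` with `B = Fin s` (an additive commutative group as `s ≠ 0`)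
`Win G ((Fin h → ZMod p) × Fin s)`; the number of colours is
`p^h s ≥ q` since `M q ≤ (M-1) n ≤ M p^h s`. By `Colors`, `Win G (Fin q)`. -/
def DenseStmt : Prop :=
  ∀ (Δ M : ℕ), 1 ≤ M → ∃ n₁ : ℕ, ∀ (V : Type) [Fintype V] (G : SimpleGraph V),
    (∀ v, {u | u ≠ v ∧ ¬ G.Adj v u}.ncard ≤ Δ) → n₁ ≤ Fintype.card V →
    ∀ q : ℕ, 1 ≤ q → M * q ≤ (M - 1) * Fintype.card V → Win G (Fin q)

open Classical in
/-- HELPERS. `U` is a set of universal vertices. The vertices outside `U` have a family of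
strategies `f v σ c` (`σ : ZMod q`), local outside `U`, such that for every `c` at most `|U|` of
these strategies fail.

PROOF. The vertices `v ∉ U` use `σ = Σ_{u ∈ U} c u` (they see all of `U`), i.e. guess `f v σ c`.
Let `Bad c = {σ : ∀ v ∉ U, f v σ c ≠ c v}`; it depends only on `c` outside `U`, so all vertices of
`U` know it. Choose for each finite set `T ⊆ ZMod q` with `|T| ≤ |U|` a surjection from `U` onto `T`
(if `T` is nonempty; e.g. by `Finset.exists_surjOn_of_card_le` or an injection `T → U`), i.e. a map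
`g T : V → ZMod q` such that every `σ ∈ T` is `g T u` for some `u ∈ U`. The vertex `u ∈ U` guesses
`g (Bad c) u - Σ_{u' ∈ U, u' ≠ u} c u'`. If `σ = Σ_U c` is not bad some `v ∉ U` is right, otherwise
the `u ∈ U` with `g (Bad c) u = σ` is right. -/
def HelperStmt : Prop :=
  ∀ (V : Type) [Fintype V] (G : SimpleGraph V) (U : Finset V) (q : ℕ) [NeZero q]
    (f : V → ZMod q → (V → ZMod q) → ZMod q), Univ G U →
    (∀ v, v ∉ U → ∀ σ c c', (∀ u, u ∉ U → G.Adj v u → c u = c' u) → f v σ c = f v σ c') →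
    (∀ c, (Finset.univ.filter (fun σ => ∀ v, v ∉ U → f v σ c ≠ c v)).card ≤ U.card) →
    Win G (ZMod q)

open Classical in
/-- TRANSLATIONS. The vertices outside `U` are partitioned into cliques by `κ`.

PROOF (from Helper). For `v ∉ U` let `S_j(c)` be the sum of `c` over the `v' ∉ U` with `κ v' = j`
and `f v σ c = t v + σ - (S_{κ v}(c) - c v)` (write the bracket as a sum over the other members of
the clique, all adjacent to `v`). `v` is right iff `σ = S_{κ v}(c) - t v`. So the number of good `σ`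
is the size of the image of `v ↦ S_{κ v}(c) - t v`, which is the size of the image of
`v ↦ t v + s (κ v)` for `s j = - S_j(c)`; the number of bad `σ` is `q` minus this, `≤ |U|`. -/
def WinTrStmt : Prop :=
  ∀ (V J : Type) [Fintype V] (G : SimpleGraph V) (U : Finset V) (q : ℕ) [NeZero q]
    (κ : V → J) (t : V → ZMod q), Univ G U →
    (∀ v, v ∉ U → ∀ v', v' ∉ U → v ≠ v' → κ v = κ v' → G.Adj v v') →
    (∀ s : J → ZMod q, q ≤ U.card + ((Finset.univ \ U).image (fun v => t v + s (κ v))).card) →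
    Win G (ZMod q)

/-- MULTIPLICATION. The graph outside `U` wins with `q'` colours.

PROOF (from Helper). Let `g` be a winning strategy with `q'` colours on the graph induced on the
complement of `U`. Write a colour `x : ZMod q` as `x.val = κ (x.val / κ) + x.val % κ`, with
`x.val / κ < q'` because `x.val < q ≤ κ q'`. For `v ∉ U` and `σ : ZMod q` put
`f v σ c = κ * g_v (c / κ) + (σ.val % κ)` as an element of `ZMod q`. For every `c` some `v ∉ U` has
`g_v (c / κ) = (c v) / κ`; it is right for all `σ` with `σ.val % κ = (c v).val % κ`; at least `q / κ`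
elements `σ` have this property (`(c v).val % κ + i κ` for `i < q / κ`; the number is less than
`κ + (q/κ - 1) κ ≤ q`). So at most `q - q / κ ≤ |U|` elements are bad. -/
def WinMultStmt : Prop :=
  ∀ (V : Type) [Fintype V] (G : SimpleGraph V) (U : Finset V) (q q' κ : ℕ) [NeZero q],
    Univ G U → 0 < κ → q ≤ κ * q' → q ≤ U.card + q / κ →
    Win (G.induce {v | v ∉ U}) (Fin q') → Win G (ZMod q)

/-- DISSOCIATED SHIFTS.

PROOF. Let `N = S.card ≥ 1`, `B = N^N`, number the elements of `S` by `idx : S → {0, ..., N-1}` and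
put `t v = (B+1)^(idx v)`. Suppose for some `s` that `b + r ≤ N`, `b = |κ(S)|`, `r = |x(S)|` with
`x v = t v + s (κ v)`; `r ≥ 1`. Consider the functions `z : S → {0, ..., B}`: there are `(B+1)^N`.
To `z` attach the `b` sums `Σ_{v ∈ S, κ v = j} z v` (`j ∈ κ(S)`) and the sums
`Σ_{v ∈ S, x v = y} z v` for all `y ∈ x(S)` except one `y₀`. These are `b + r - 1 ≤ N - 1` numbers
in `{0, ..., N B}`, so at most `(N B + 1)^(N-1) ≤ N^(N-1) (B+1)^(N-1) < (B+1)^N` possibilities
(`N^(N-1) ≤ B`). So two different `z, z'` have the same sums; the sums for `y₀` agree as well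
because the total sum is the sum over the classes of `κ`. Hence in `ZMod q`
`Σ_v z v t v = Σ_v z v x v - Σ_v z v s (κ v) = Σ_y y Σ_{x v = y} z v - Σ_j s j Σ_{κ v = j} z v` is
the same for `z` and `z'`. But `Σ_v z v (B+1)^(idx v)` is a natural number `< (B+1)^N ≤ q` with the
digits `z v` in base `B + 1`, so `z = z'`: contradiction. -/
def DissStmt : Prop :=
  ∀ (V J : Type) [DecidableEq V] [DecidableEq J] (S : Finset V) (κ : V → J) (q : ℕ) [NeZero q],
    S.Nonempty → (S.card ^ S.card + 1) ^ S.card ≤ q →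
    ∃ t : V → ZMod q, ∀ s : J → ZMod q,
      S.card + 1 ≤ (S.image κ).card + (S.image (fun v => t v + s (κ v))).card

/-- NORDHAUS-GADDUM.

PROOF by induction on `n = card V`. `n = 0`: `b = 0`. Otherwise remove a vertex `v`: `b' ≤ n`,
`Gᶜ - v` has a `b'`-colouring, `G - v` an `(n - b')`-colouring. If fewer than `n - b'` vertices are
adjacent to `v` then the colouring of `G - v` extends to `v`; take `b = b' + 1` (new colour for `v`
in `Gᶜ`). Otherwise fewer than `b'` vertices are adjacent to `v` in `Gᶜ` (the sum of the two degrees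
is `n - 1`), the colouring of `Gᶜ - v` extends; take `b = b'`. -/
def NGStmt : Prop :=
  ∀ (V : Type) [Fintype V] (G : SimpleGraph V), ∃ b, b ≤ Fintype.card V + 1 ∧
    Gᶜ.Colorable b ∧ G.Colorable (Fintype.card V + 1 - b)

/-- SAVING COLOURS.

PROOF. Take a maximal set of `ν` disjoint pairs of non-adjacent (distinct) vertices; give the two
vertices of each pair the same colour: `card V - ν` colours. Every vertex with a non-neighbour is in
a pair or is a non-neighbour of a vertex in a pair (maximality). Each of the `2ν` vertices in a pair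
has at most `Δ` non-neighbours, one of them its partner. So the number of vertices with a
non-neighbour is at most `2ν + 2ν (Δ - 1) = 2 Δ ν` (`Δ ≥ 1` if `ν ≥ 1`). -/
def ChiStmt : Prop :=
  ∀ (V : Type) [Fintype V] (G : SimpleGraph V) (Δ : ℕ),
    (∀ v, {u | u ≠ v ∧ ¬ G.Adj v u}.ncard ≤ Δ) →
    ∃ ν, {v | ∃ u, u ≠ v ∧ ¬ G.Adj v u}.ncard ≤ 2 * Δ * ν ∧ ν ≤ Fintype.card V ∧
      G.Colorable (Fintype.card V - ν)

/-- FREE VERTICES. `X₀, X₁` disjoint, `I` disjoint from both, the vertices of `I` are adjacent to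
all other vertices outside `X₀ ∪ X₁`, every `x ∈ X₁` has at least `|X₀| + |X₁|` non-neighbours in
`I`. Then a colouring of `G - X₁` can be extended.

PROOF. Let `c` be a colouring of `G - X₁` with `m` colours and `I'` the set of the `i ∈ I` whose
colour class is `{i}`. If `i ∈ I \ I'` there is `x ≠ i` with `c x = c i`, `x ∉ X₁`, and `x ∈ X₀`
because `i` is adjacent to everything else; different `i` have different colours, so
`|I \ I'| ≤ |X₀|`. So every `x ∈ X₁` has at least `|X₁|` non-neighbours in `I'`, and by Hall's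
theorem (`Finset.all_card_le_biUnion_card_iff_exists_injective`) there is an injective
`g : X₁ → I'` with `g x` not adjacent to `x`. Put `c x = c (g x)` for `x ∈ X₁`. This is proper: if
`x ∈ X₁` is adjacent to `y` and `c x = c y`: for `y ∈ X₁` we get `g x = g y` (distinct elements of
`I` have distinct colours) and `x = y`; for `y ∉ X₁` we get `y = g x` because the class of `g x` is a
singleton, but `g x` is not adjacent to `x`. -/
def FreeStmt : Prop :=
  ∀ (V : Type) [Fintype V] (G : SimpleGraph V) (X₀ X₁ I : Finset V) (m : ℕ),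
    Disjoint X₀ X₁ → Disjoint I X₀ → Disjoint I X₁ →
    (∀ i ∈ I, ∀ v, v ≠ i → v ∉ X₀ → v ∉ X₁ → G.Adj i v) →
    (∀ x ∈ X₁, X₀.card + X₁.card ≤ {i | i ∈ I ∧ ¬ G.Adj x i}.ncard) →
    (G.induce {v | v ∉ X₁}).Colorable m → G.Colorable m

/-- CASE 1: many non-universal vertices.

PROOF (from Colors, Graph, ColAdd, Dense, Chi). We may assume `k, A ≥ 1`
(for `A = 0` the hypothesis gives `card V = 0`, excluded by `n₀ ≥ 1`; if `k = 0` then
`{v ∉ X with ...}` is empty and again `card V = 0`). `M = 4 k A`, `n₁` from `Dense` for `(k, M)`,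
`n₀ = n₁ + k + k M + 1`. Let `Y = Xᶜ` with the induced graph `G_Y`, `|Y| ≥ n - k ≥ n₁`, all
non-degrees in `G_Y` are at most `k`. `Chi` gives `ν` with `N' ≤ 2 k ν` and `G_Y` is
`(|Y| - ν)`-colourable, so `G` is `(n - ν)`-colourable (`ColAdd`). Let `q` with `¬ Win G (Fin q)`.
`q ≥ 1` because `Win G (Fin 0)` holds (`V` is nonempty). If `q ≤ n - ν`, then
`n ≤ N' A ≤ 2 k A ν`, so `M q ≤ M n - M ν ≤ M n - 2 n` and
`(M - 1)|Y| ≥ (M-1)(n - k) ≥ M n - n - M k ≥ M n - 2 n` as `n ≥ k M`: `Dense` gives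
`Win G_Y (Fin q)` and then `Win G (Fin q)` by `Graph`: contradiction. So `n - ν ≤ q - 1` and `G` is
`(q-1)`-colourable. -/
def Case1Stmt : Prop :=
  ∀ k A : ℕ, ∃ n₀ : ℕ, ∀ (V : Type) [Fintype V] (G : SimpleGraph V) (X : Finset V),
    X.card ≤ k → (∀ v, v ∉ X → {u | u ∉ X ∧ u ≠ v ∧ ¬ G.Adj v u}.ncard ≤ k) →
    Fintype.card V ≤ {v | v ∉ X ∧ ∃ u, u ∉ X ∧ u ≠ v ∧ ¬ G.Adj v u}.ncard * A →
    n₀ ≤ Fintype.card V → Good G

/-- CASE 2a: all but at most `C` vertices are universal.

PROOF (from Colors, ColAdd, WinTr, Diss, NG). `m₀ = (C^C + 1)^C + 1`. Let `m = |U| ≥ m₀`,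
`V₀ = V \ U`, `N₀ = |V₀| ≤ C`, and `q` with `¬ Win G (Fin q)`; `q ≥ 1` since `V` is nonempty.
If `q ≤ m`: `WinTr` with `κ = id`, `t = 0` gives `Win G (ZMod q)`, `Colors` gives `Win G (Fin q)`
(`ZMod q` has `q` elements): contradiction. So `q > m`. If `V₀` is empty `G` has `m ≤ q - 1`
vertices, done. Otherwise `NG` for the graph induced on `V₀` gives `b`: a partition of `V₀` into `b`
cliques (`κ : V₀ → Fin b`, a colouring of the complement) and a colouring of `G[V₀]` with
`N₀ + 1 - b` colours, hence `G` is `(N₀ + 1 - b + m)`-colourable (`ColAdd`). If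
`N₀ + 1 - b + m ≤ q - 1` we are done. Otherwise `q ≤ m + N₀ + 1 - b`. `Diss` with `S = V₀`
(`(N₀^N₀ + 1)^N₀ ≤ (C^C+1)^C ≤ m ≤ q`; `0^0 = 1`, and `x^x` is monotone for `x ≥ 1`; `C ≥ 1` here)
gives `t` with `N₀ + 1 ≤ b + |image|` for all `s`, so `q ≤ m + |image|` and `WinTr` gives a winning
strategy: contradiction. -/
def Case2aStmt : Prop :=
  ∀ C : ℕ, ∃ m₀ : ℕ, ∀ (V : Type) [Fintype V] (G : SimpleGraph V) (U : Finset V), Univ G U →
    Fintype.card V ≤ U.card + C → m₀ ≤ U.card → Good G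

/-- CASE 2b: `V = U ∪ W ∪ E`, `U` universal, every vertex of the core `W` has at least one and at
most `k` non-neighbours in `W`, `E` has at most `e` elements, `|W|` is large, and `U` is much larger
than `W`.

PROOF (from Colors, Graph, ColAdd, WinMult, Dense, Chi). We may assume `k ≥ 1` (if `k = 0` then `W`
is empty, excluded by `C ≥ 1`). `M = 32 k`, `n₁` from `Dense` for `(k, M)`,
`C = n₁ + 4 k e + 64 k + 1`. Let `m = |U|`, `w = |W| ≥ C`, `m ≥ 64 k w`. `Chi` for `G[W]`: `ν` with
`w ≤ 2 k ν` and `G[W]` is `(w - ν)`-colourable, so `G` is `(w - ν + m + |E|)`-colourable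
(`ColAdd`). Let `q` with `¬ Win G (Fin q)`. If `w - ν + m + |E| ≤ q - 1` we are done. Otherwise
`q ≤ m + w - ν + e`, so `4 k q ≤ 4 k m + 4 k w - 2 w + 4 k e ≤ 4 k m + 4 k w - w`. `q ≥ 1` because
`Win G (Fin 0)` holds (`V` is nonempty). By `Colors` we may replace `q` by `max q (m + 1)` (the
bound `4 k q ≤ 4 k m + 4 k w - w` still holds because `4 k ≤ 4 k w - w`): so let `q ≥ m + 1`. Choose `Z ⊆ U` with `|Z| = w` and put `U' = U \ Z`, `T = W ∪ Z`: `G[T]` has
`2 w ≥ n₁` vertices and non-degrees at most `k`; with `q' = (M - 1) 2 w / M` (rounded down, `≥ 1`)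
`Dense` gives `Win G[T] (Fin q')`. Let `V' = U' ∪ T = U ∪ W` and work in the graph induced on `V'`
(`U'` is universal there and its complement is `T`). Let `κ = q / q' + 1`: `q ≤ κ q'`. Further
`q/κ ≥ q q'/(q + q') - 1 ≥ q' - q'^2/q - 1` and `q'^2/q ≤ (2w)^2/(64 k w) = w/(16 k)`,
`q' ≥ 2w - 2w/(32k) - 1`, so `q / κ ≥ 2 w - w/(16k) - w/(16k) - 2 ≥ 2 w - w/(4k)` as
`w/(8k) ≥ 2`, and `q ≤ m + w - w/(4k) = |U'| + 2 w - w/(4k) ≤ |U'| + q/κ`. So `WinMult` gives
`Win G[V'] (ZMod q)` and `Graph`, `Colors` give `Win G (Fin q)`: contradiction. -/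
def Case2bStmt : Prop :=
  ∀ k e : ℕ, ∃ C : ℕ, ∀ (V : Type) [Fintype V] (G : SimpleGraph V) (U W : Finset V), Univ G U →
    Disjoint U W → Fintype.card V ≤ U.card + W.card + e → C ≤ W.card →
    64 * k * W.card ≤ U.card →
    (∀ v ∈ W, {u | u ∈ W ∧ u ≠ v ∧ ¬ G.Adj v u}.ncard ≤ k) →
    (∀ v ∈ W, ∃ u ∈ W, u ≠ v ∧ ¬ G.Adj v u) → Good G

/-- MAIN THEOREM under the additional hypothesis that all `x ∈ X` have less than `2k`
non-neighbours in the set `I` of the vertices outside `X` that are adjacent to everything else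
outside `X`.

PROOF (from Case1, Case2a, Case2b). We may assume `k ≥ 1` (if `k = 0` then `X` is empty, all
vertices are universal: `Case2a` with `C = 0`). Let `C` be from `Case2b` for `(k, e = k + 2 k^2)`,
`m₀` from `Case2a` for `C + k + 2k^2`, `n₀'` from `Case1` for `A = 128 k`,
`n₀ = n₀' + m₀ + C + 4 (k + 2k^2) + 1`. Let `W` be the set of the `v ∉ X` with a non-neighbour
outside `X`, `I` the other vertices outside `X`, `U` the set of the `v ∈ I` adjacent to all `x ∈ X`;
`|I \ U| ≤ 2 k^2`, `U` is universal. If `n ≤ 128 k |W|` use `Case1`. If `|W| ≤ C` use `Case2a`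
(`|U| ≥ n - C - k - 2k^2 ≥ m₀`). Otherwise use `Case2b`: `|U| ≥ n - |W| - k - 2k^2 ≥ n/2 ≥ 64 k |W|`
because `n ≥ 128 k |W| ≥ 4|W|` and `n ≥ 4 (k + 2k^2)`. (The non-neighbours of `v ∈ W` outside `X`
are themselves in `W`.) -/
def MainAStmt : Prop :=
  ∀ k : ℕ, ∃ n₀ : ℕ, ∀ (V : Type) [Fintype V] (G : SimpleGraph V) (X : Finset V),
    n₀ ≤ Fintype.card V → X.card ≤ k →
    (∀ v, v ∉ X → {u | u ∉ X ∧ u ≠ v ∧ ¬ G.Adj v u}.ncard ≤ k) →
    (∀ x ∈ X, {i | i ∉ X ∧ (∀ v, v ∉ X → v ≠ i → G.Adj i v) ∧ ¬ G.Adj x i}.ncard < 2 * k) →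
    Good G

/-- MAIN THEOREM.

PROOF (from MainA, Free, Graph). We may replace `k` by `k + 1`, so `k ≥ 1`. `n₀ = n₀(MainA) + k`,
`n₀ ≥ 1`. Let `I` be the set of the `i ∉ X` adjacent to all other vertices outside `X`, `X₁` the set
of the `x ∈ X` with at least `2k` non-neighbours in `I`, `X₀ = X \ X₁`. `MainA` for the graph
induced on `V \ X₁` and the set `X₀` (its `I` is the same) shows that `G - X₁` is good; if
`¬ Win G (Fin q)` then `q ≥ 1` (`V` is nonempty), `¬ Win (G - X₁) (Fin q)` by `Graph`, `G - X₁` is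
`(q - 1)`-colourable, and `G` is by `Free` (`|X₀| + |X₁| ≤ k ≤ 2 k`). -/
def MainStmt : Prop :=
  ∀ k : ℕ, ∃ n₀ : ℕ, ∀ (V : Type) [Fintype V] (G : SimpleGraph V) (X : Finset V),
    n₀ ≤ Fintype.card V → X.card ≤ k →
    (∀ v, v ∉ X → {u | u ∉ X ∧ u ≠ v ∧ ¬ G.Adj v u}.ncard ≤ k) → Good G

end Pool.Agent.Lib.MP_1818ed_co
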