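import Mathlib
import Pool.Agent.Lib.MP_1818ed_co.Defs

/-!
# Hat guessing number versus chromatic number: graphs with `χ(G) ≥ (4/5) n` (MP_1818ed_co)

All statements (`...Stmt : Prop`) of the proof of:

THEOREM (`FourFifthsStmt`). There is `n₀` such that every graph on `n ≥ n₀` vertices with
`χ(G) ≥ (4/5) n` satisfies `χ(G) ≤ HG(G)`.

Outline. (1) A graph that is not `r`-colourable contains a clique with `r + 1` vertices or a set `U`
of `m ≤ r - 2` vertices adjacent to all other vertices of `U ∪ W` with `3 (r + 1 - m) ≤ 2 |W| + 1`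
(`ReduceStmt`; from a lemma on critical graphs, `CritStmt`). (2) The graph `U ∪ W` (all vertices of
`U` universal, the edges inside `W` are not used) has a winning strategy for `q = m + a` colours
under a numerical condition (`BookStmt`): hash the colours of `U` into a finite abelian group `P`
along pairwise independent directions; the vertices of `W` guess random functions on `P`; the points
of `P` where all of them fail are distributed by Hall's theorem to the lines through them.
(3) Numbers.

Every module proves one `...Stmt`, possibly from other `...Stmt`s given as hypotheses. The complete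
proof of each statement is in its docstring. `Win`, `Good` and basic statements: `Defs.lean`.
-/

set_option autoImplicit false

namespace Pool.Agent.Lib.MP_1818ed_co

open Finset

/-- `U` is a clique and every vertex of `U` is adjacent to every vertex of `W`. -/
def Spine {V : Type} (G : SimpleGraph V) (U W : Finset V) : Prop :=
  ∀ u ∈ U, ∀ v, v ∈ U ∨ v ∈ W → v ≠ u → G.Adj u v

/-- NO VIOLATORS. `G` is not `r`-colourable but `G - v` is for every `v`; every vertex has a
non-neighbour. `S` is a clique and `Y` contains all non-neighbours of the elements of `S`. Then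
`|S| ≤ |Y|`.

PROOF. For `Z ⊆ S` let `N(Z)` be the set of all `y` that are not adjacent to some `s ∈ Z`, `y ≠ s`.
`N(Z) ⊆ Y`, and `N(Z)` is disjoint from `S` because `S` is a clique. Suppose `|Y| < |S|`, so
`|N(S)| < |S|`. Let `T ⊆ S` be a minimal set with `|N(T)| < |T|` (`T` is nonempty), `s₀ ∈ T`. By
minimality `|Z| ≤ |N(Z)|` for all `Z ⊆ T \ {s₀}`, so by Hall's theorem
(`Finset.all_card_le_biUnion_card_iff_exists_injective`) there is an injective
`f : T \ {s₀} → N(T)` with `f s` a non-neighbour of `s`; as `|N(T)| ≤ |T| - 1`, `f` is onto `N(T)`: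
for every `y ∈ N(T)` there is `g y ∈ T`, `g y` not adjacent to `y`, and `g` is injective. `N(T)` is
nonempty (every vertex has a non-neighbour); choose `y₀ ∈ N(T)` and an `r`-colouring `c` of
`G - y₀`. Define `c'(v) = c(v)` for `v ∉ N(T)` and `c'(y) = c(g y)` for `y ∈ N(T)` (`g y ∈ S` is not
in `N(T)`, so `g y ≠ y₀`). `c'` is proper: an element `s ∈ T` is adjacent to all vertices outside
`N(T) ∪ {s}`, so `c(s) ≠ c(v)` for all `v ∉ N(T)`, `v ≠ s`. If `y ∈ N(T)` is adjacent to `v ∉ N(T)`
then `v ≠ g y` and `c(g y) ≠ c(v)`; if `y ≠ y'` are in `N(T)` then `g y ≠ g y'` are different elements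
of `T`, which have different colours. So `G` is `r`-colourable: contradiction. -/
def ViolStmt : Prop :=
  ∀ (V : Type) [Fintype V] (G : SimpleGraph V) (r : ℕ) (S Y : Finset V),
    (∀ v, ∃ u, u ≠ v ∧ ¬ G.Adj v u) → ¬ G.Colorable r →
    (∀ v, (G.induce {u | u ≠ v}).Colorable r) →
    (∀ s ∈ S, ∀ t ∈ S, s ≠ t → G.Adj s t) → (∀ s ∈ S, ∀ y, y ≠ s → ¬ G.Adj s y → y ∈ Y) →
    S.card ≤ Y.card

/-- CRITICAL GRAPHS without universal vertices have at least `(3 χ - 1)/2` vertices.

PROOF (from Viol). Write `n = card V`. `V` is nonempty because `G` is not `r`-colourable. Fix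
`x ∈ V`. `x` has a non-neighbour, so `G - x` has a vertex and `r ≥ 1`. `G - x` is not
`(r-1)`-colourable (otherwise give `x` a new colour and `G` is `r`-colourable) [*]. Among all proper
colourings `c : V \ {x} → Fin r` of `G - x` choose one with the minimal number of singletons, where
`s` is a singleton if no other vertex of `V \ {x}` has the colour `c s`. By [*] all colours are
used. Let `S` be the set of the singletons.
(i) `S` is a clique: if `s ≠ t` in `S` were not adjacent, give `s` the colour of `t`; then the colour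
`c s` is not used any more, contradiction to [*]. `x` is adjacent to all `s ∈ S`: otherwise give `x`
the colour `c s`, and `G` is `r`-colourable.
(ii) Let `s ∈ S`, `y ≠ s` not adjacent to `s`. Then `y ≠ x`, `y ∉ S` by (i). The class of `y` has
exactly two elements: if it has at least three, change the colour of `y` to `c s`: still proper, all
singletons of the new colouring are singletons of the old one different from `s` (the class
`{s, y}` has two elements and the old class of `y` still has at least two): contradiction to the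
choice of `c`. Let `{y, z}` be the class of `y`.
(iii) `z` is adjacent to all `t ∈ S`: if `z` is not adjacent to `s`: give `y` and `z` the colour
`c s` (`s, y, z` are pairwise non-adjacent), the old colour of `y` is not used any more,
contradiction to [*]. If `z` is not adjacent to `t ∈ S`, `t ≠ s`: give `y` the colour `c s` and `z`
the colour `c t`; again the old colour of `y` is not used any more.
Let `Y` be the set of all `y` as in (ii) (for all `s ∈ S`), `π y = z`. By (iii) `π y ∉ Y`; `π` is
injective on `Y` (the classes have two elements and contain at most one element of `Y`), and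
`S, Y, π(Y)` are disjoint subsets of `V \ {x}`: `|S| + 2|Y| ≤ n - 1`. `Viol` gives `|S| ≤ |Y|`, so
`3 |S| ≤ n - 1`. Counting the classes: all colours are used, exactly `|S|` classes have one element,
the others at least two, so `|S| + 2 (r - |S|) ≤ n - 1`, i.e. `2 r ≤ n - 1 + |S|` and
`6 r ≤ 3 (n - 1) + (n - 1)`, `3 r ≤ 2 (n - 1)`. -/
def CritStmt : Prop :=
  ∀ (V : Type) [Fintype V] (G : SimpleGraph V) (r : ℕ),
    (∀ v, ∃ u, u ≠ v ∧ ¬ G.Adj v u) → ¬ G.Colorable r →
    (∀ v, (G.induce {u | u ≠ v}).Colorable r) → 3 * (r + 1) ≤ 2 * Fintype.card V + 1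

/-- REDUCTION to a spine.

PROOF (from ColAdd, Crit). Let `V'` be a subset of `V`, minimal (with respect to cardinality) such
that the graph induced on `V'` is not `r`-colourable. Let `U` be the set of the `u ∈ V'` that are
adjacent to all other elements of `V'`, `W = V' \ U`, `m = |U|`. If `r + 1 ≤ m` we are done. So let
`m ≤ r`, `r₀ = r - m`.
(a) `G[W]` is not `r₀`-colourable, otherwise `G[V']` is `(r₀ + m)`-colourable (`ColAdd`).
(b) `G[W] - w` is `r₀`-colourable for every `w ∈ W`: `G[V' \ {w}]` is `r`-colourable by minimality;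
the `m` colours of the elements of `U` are distinct and do not occur on `W \ {w}`, so only
`r - m` colours occur on `W \ {w}`.
(c) Every `w ∈ W` has a non-neighbour `≠ w` in `W` (it has one in `V'`, not in `U`).
`Crit` for `G[W]` gives `3 (r₀ + 1) ≤ 2 |W| + 1`, i.e. `3 (r + 1) ≤ 3 m + 2 |W| + 1`.
`r₀ ≥ 2`: if `r₀ = 0`, then `W` is nonempty by (a) and has at most one element by (b), contradiction
to (c). If `r₀ = 1`, then there are adjacent `w, w' ∈ W` by (a); by (b) `W` has no further element
`w''` (the edge `w w'` remains in `G[W] - w''`, so this is not `1`-colourable): contradiction to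
(c). -/
def ReduceStmt : Prop :=
  ∀ (V : Type) [Fintype V] (G : SimpleGraph V) (r : ℕ), ¬ G.Colorable r →
    ∃ U W : Finset V, Disjoint U W ∧ Spine G U W ∧
      (r + 1 ≤ U.card ∨
        (U.card + 3 ≤ r + 1 ∧ 3 * (r + 1) ≤ 3 * U.card + 2 * W.card + 1))

/-- ORIENTATION. `m = |U| ≥ 1`, `P` a finite abelian group, `v i : ZMod q →+ P` injective for
`i ∈ U`, `Bad ⊆ P`. The line of direction `i` through `p` is `{p + v i t : t}`. If for every
`p ∈ Bad` the lines through `p` contain together at most `m^2` points of `Bad` (`p` counted `m`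
times), then one can choose for every `p ∈ Bad` a direction `O p ∈ U` such that no line of direction
`i` contains two points `p` with `O p = i`.

PROOF. For `p ∈ Bad` and `i ∈ U` let `b i p = #{t : p + v i t ∈ Bad} ≥ 1`, the number of points of
`Bad` on the line of direction `i` through `p` (`v i` is injective). By Cauchy-Schwarz
`Σ_{i ∈ U} 1 / b i p ≥ m^2 / Σ_{i ∈ U} b i p ≥ 1`.
HALL: for every set `B ⊆ Bad` the number of pairs (direction `i ∈ U`, line of direction `i`) meeting
`B` is at least `|B|`: `|B| ≤ Σ_{p ∈ B} Σ_i 1 / b i p = Σ_{(i, λ)} |B ∩ λ| / |Bad ∩ λ|` (sum over the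
pairs with `λ` meeting `B`) and each term is at most `1`. So there is an injective map `Λ` on `Bad`
with `Λ p = (i, λ)`, `i ∈ U`, `λ` the line of direction `i` through `p`
(`Finset.all_card_le_biUnion_card_iff_exists_injective`; represent the line by the `Finset` of its
points, the index set is `V × Finset P`). Put `O p = i`. If `p ≠ p'` in `Bad` have `O p = O p' = i`
and `p' = p + v i t`, then the lines of direction `i` through `p` and `p'` are the same (the range
of `v i` is a subgroup), so `Λ p = Λ p'`: contradiction. -/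
def OrientStmt : Prop :=
  ∀ (V P : Type) [Fintype V] [DecidableEq V] [Fintype P] [DecidableEq P] [AddCommGroup P]
    (U : Finset V) (q : ℕ) [NeZero q] (v : V → (ZMod q →+ P)) (Bad : Finset P),
    U.Nonempty → (∀ i ∈ U, Function.Injective (v i)) →
    (∀ p ∈ Bad, ∑ i ∈ U, (univ.filter (fun t : ZMod q => p + v i t ∈ Bad)).card ≤ U.card ^ 2) →
    ∃ O : P → V, (∀ p ∈ Bad, O p ∈ U) ∧
      ∀ p ∈ Bad, ∀ t : ZMod q, p + v (O p) t ∈ Bad → O (p + v (O p) t) = O p → v (O p) t = 0

open Classical in
/-- THE DETERMINISTIC PART of the strategy. `m = |U| ≥ 1`, `q = m + a` colours, `P` a finite abelian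
group, `v i : ZMod q →+ P` injective for `i ∈ U`.

PROOF (from Orient). For a colouring `x` (of `V`) let `φ x = Σ_{i ∈ U} v i (x i) ∈ P`. The vertices
`w ∈ W` guess `g w (φ x)` (they see all of `U`). For `c : V → ZMod q` (only the values on `W`
matter; formally first replace `c` by `0` outside `W`) let `Bad_c = {p : ∀ w ∈ W, g w p ≠ c w}`. For
every `p`, by the hypothesis, `Σ_{i ∈ U} #{t : p + v i t ∈ Bad_c} ≤ m q - m a = m^2` (the pairs
`(i, t)`, `i ∈ U`, with `p + v i t ∉ Bad_c` are at least `m a` many). Let `O_c` be from `Orient`.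
The vertex `i ∈ U` knows `c` on `W` and `s = Σ_{j ∈ U, j ≠ i} v j (x j)`. If there is `t` with
`s + v i t ∈ Bad_c` and `O_c (s + v i t) = i` it guesses this `t`, otherwise `0`; `t` is unique: if
`t'` is another one, `p = s + v i t` and `p + v i (t' - t) = s + v i t'` are in `Bad_c` and both have
`O_c = i`, so `v i (t' - t) = 0` and `t' = t`. All other vertices guess `0`.
WINNING: let `x` be a colouring, `c = x` on `W`, `p = φ x`. If `p ∉ Bad_c` some `w ∈ W` guesses
right. Otherwise let `i = O_c p ∈ U`; then `p = s + v i (x i)`, so `t = x i` is the unique `t` and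
`i` guesses right.
LOCALITY: `i ∈ U` is adjacent to all other vertices of `U` and of `W` (`U`, `W` are disjoint), the
vertices of `W` are adjacent to all vertices of `U`. -/
def BookDetStmt : Prop :=
  ∀ (V P : Type) [Fintype V] [Fintype P] [AddCommGroup P] (G : SimpleGraph V) (U W : Finset V)
    (q a : ℕ) [NeZero q] (v : V → (ZMod q →+ P)) (g : V → P → ZMod q),
    Disjoint U W → Spine G U W → U.Nonempty → q = U.card + a →
    (∀ i ∈ U, Function.Injective (v i)) →
    (∀ (c : V → ZMod q) (p : P), U.card * a ≤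
      ((U ×ˢ (univ.erase (0 : ZMod q))).filter
        (fun it => ∃ w ∈ W, g w (p + v it.1 it.2) = c w)).card) →
    Win G (ZMod q)

open Classical in
/-- THE RANDOM PART. `θ = 1 - (1 - 1/q)^|W|` is the probability that a random vector in
`(ZMod q)^W` agrees with a given one in at least one coordinate.

PROOF. Let `Q = q^|W|` be the number of functions `W → ZMod q`. Consider all functions
`h : P → (W → ZMod q)` (`g w y = h y w`), `Q^|P|` many. For `c, p` let
`F(h) = #{j : ∃ w, h (st p j) w = c w}`. As `st p` is injective, `Σ_h u^F(h)` is a product over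
`y ∈ P` (`Finset.prod_univ_sum`, `Fintype.piFinset`): the factor is `Q` if `y` is not in the range of
`st p`, and `Σ_{ρ : W → ZMod q} u^[∃ w, ρ w = c w] = (q-1)^|W| + u (Q - (q-1)^|W|)
= Q (1 - (1-u) θ)` if it is. So `Σ_h u^F(h) = Q^|P| (1 - (1-u) θ)^|ι|`. Summing over the `|P|`
points `p` and the `Q` functions `c`: `Σ_h Σ_{p,c} u^F = Q^|P| |P| Q (1 - (1-u)θ)^|ι| < Q^|P| u^K`.
So some `h` has `Σ_{p,c} u^(F_{p,c}(h)) < u^K`; then all `F_{p,c}(h) ≥ K` (otherwise one term is at
least `u^K`, as `0 < u ≤ 1`). -/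
def BookRandStmt : Prop :=
  ∀ (W P ι : Type) [Fintype W] [Fintype P] [Fintype ι] (q K : ℕ) [NeZero q] (st : P → ι → P)
    (u : ℝ), (∀ p, Function.Injective (st p)) → 0 < u → u ≤ 1 →
    (Fintype.card P : ℝ) * (q : ℝ) ^ (Fintype.card W) *
      (1 - (1 - u) * (1 - (1 - 1 / (q : ℝ)) ^ (Fintype.card W))) ^ (Fintype.card ι) < u ^ K →
    ∃ g : W → P → ZMod q, ∀ (c : W → ZMod q) (p : P),
      K ≤ (univ.filter (fun j : ι => ∃ w, g w (st p j) = c w)).card

/-- DIRECTIONS.

PROOF. Number the elements of `U` by `0, ..., |U| - 1 < 2^d` and put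
`v i t = (t, t β_1(i), ..., t β_d(i))` with the binary digits `β_k(i) ∈ {0, 1}` of the number of `i`
(or: an injective map `U → (Fin d → Bool)`, which exists because `|U| ≤ 2^d`). If
`v i s = v j t` the coordinate `0` gives `s = t`; if moreover `i ≠ j` they differ in some digit, and
this coordinate gives `s = 0` or `t = 0`. -/
def VecStmt : Prop :=
  ∀ (V : Type) [Fintype V] (U : Finset V) (q d : ℕ) [NeZero q], U.card ≤ 2 ^ d →
    ∃ v : V → (ZMod q →+ (Fin (d + 1) → ZMod q)), ∀ i ∈ U, ∀ j ∈ U, ∀ s t : ZMod q,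
      v i s = v j t → (s = t ∧ (s = 0 ∨ i = j))

/-- THE BOOK STRATEGY: if `U` is a spine then `G` wins with `q = |U| + a` colours under the
numerical condition.

PROOF (from BookDet, BookRand, Vec). Let `v` be from `Vec`, `P = Fin (d+1) → ZMod q`
(`q^(d+1)` elements), `ι = {i // i ∈ U} × {t : ZMod q // t ≠ 0}` (`|U| (q - 1)` elements),
`st p (i, t) = p + v i t`, injective by `Vec` (`v i s = v j t`, `s ≠ 0` gives `s = t`, `i = j`).
`BookRand` with the type `{w // w ∈ W}` and `K = |U| a` gives `g`; extend it by `0` to `V`. `v i` is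
injective for `i ∈ U` (`Vec` with `j = i`). The pairs counted in `BookRand` correspond to those in
`BookDet`. `U` is nonempty: otherwise the numerical condition says `q^(d+1) q^|W| < 1`. -/
def BookStmt : Prop :=
  ∀ (V : Type) [Fintype V] (G : SimpleGraph V) (U W : Finset V) (q a d : ℕ) [NeZero q] (u : ℝ),
    Disjoint U W → Spine G U W → q = U.card + a → U.card ≤ 2 ^ d → 0 < u → u ≤ 1 →
    (q : ℝ) ^ (d + 1) * (q : ℝ) ^ W.card *
      (1 - (1 - u) * (1 - (1 - 1 / (q : ℝ)) ^ W.card)) ^ (U.card * (q - 1)) <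
        u ^ (U.card * a) →
    Win G (ZMod q)

/-- HALF OF THE NUMBERS: the expected number of good points on a line is at least `(1 + 1/40) a`.

PROOF. Write `y = N / q`, `E(y) = 1 + y + y²/2 + y³/6 ≤ exp y`. `(1 - 1/q)^N ≤ exp (-y) ≤ 1/E(y)`.
`N ≥ 4` because `a ≥ 3`, and `y ≤ 3/4 + 1/q`: `4 N ≤ m + 5 a = q + 4 a ≤ q + 4 (2N+1)/3`, so
`4 N ≤ 3 q + 4`. For `0 ≤ y ≤ 76/100` we have `1 - 1/E(y) ≥ (695/1000) y`, because
`E(y) (1 - 0.695 y) - 1 = y (0.305 - 0.195 y - 0.18083.. y² - 0.11583.. y³) ≥ 0`.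
If `N ≥ 89` and `q` is large (`q ≥ 100` is enough for `y ≤ 76/100`): the left side is at least
`(q - 1)(0.695 N / q) ≥ 0.695 N - 0.695 · 0.76`, the right side is at most
`(41/40)(2N+1)/3 ≤ 0.68334 N + 0.3417`, and `0.01166 N ≥ 1.03 ≥ 0.53 + 0.35`.
If `N ≤ 88` and `q ≥ q₀` is large: `y` is small, `1 - 1/E(y) ≥ (99/100) y`, the left side is at least
`0.98 N`, the right side at most `(41/40)(2N+1)/3 ≤ (41/40)(3/4) N` (`N ≥ 4`). -/
def NumAStmt : Prop :=
  ∃ q₀ : ℕ, ∀ m N a q : ℕ, q = m + a → q₀ ≤ q → 3 ≤ a → 3 * a ≤ 2 * N + 1 →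
    4 * N ≤ m + 5 * a →
    (41 / 40 : ℝ) * (a : ℝ) ≤ ((q : ℝ) - 1) * (1 - (1 - 1 / (q : ℝ)) ^ N)

/-- THE NUMBERS.

PROOF (from NumA). Take `u = 1 - δ`, `δ = 1/80`, `θ = 1 - (1 - 1/q)^N`, `d` with
`m ≤ 2^d ≤ 2 q` (`d = Nat.clog 2 m`). `(1 - δ θ)^(q-1) ≤ exp (- δ θ (q-1)) ≤ exp (- δ (41/40) a)` by
`NumA`, and `log (1/u) ≤ δ + δ²` (`- log (1 - δ) ≤ δ / (1 - δ) ≤ δ + 2 δ²` is also enough). So
`(1 - δ θ)^(m (q-1)) ≤ exp (- m a δ (41/40))` and `u^(m a) ≥ exp (- m a (δ + 2 δ²))`, and
`δ (41/40) - δ - 2 δ² = δ (1/40 - 2 δ)`: this is `0` for `δ = 1/80`, so with the weaker bound take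
`δ = 1/160`, which gives `δ (1/40 - 2/160) = δ / 80 = 1/12800`. It is enough that
`(d + 1 + N) log q < m a / 12800`. As `N ≤ 2 a` and `a ≥ 1`, `d + 1 + N ≤ a (d + 3)`, and
`d ≤ 1 + log_2 (2 q)`; `m ≥ 4 N - 5 a ≥ 2 (3 a - 1) - 5 a = a - 2`, so `q ≤ 2 m + 2`. So it is enough
that `(6 + log_2 q) log q < (q - 2) / 25600`, true for large `q`. -/
def NumStmt : Prop :=
  ∃ q₀ : ℕ, ∀ m N a q : ℕ, q = m + a → q₀ ≤ q → 3 ≤ a → 3 * a ≤ 2 * N + 1 →
    4 * N ≤ m + 5 * a → N ≤ 2 * a →
    ∃ (d : ℕ) (u : ℝ), m ≤ 2 ^ d ∧ 0 < u ∧ u ≤ 1 ∧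
      (q : ℝ) ^ (d + 1) * (q : ℝ) ^ N *
        (1 - (1 - u) * (1 - (1 - 1 / (q : ℝ)) ^ N)) ^ (m * (q - 1)) < u ^ (m * a)

/-- MAIN THEOREM: `χ(G) ≥ (4/5) n` and `n` large imply `χ(G) ≤ HG(G)`.

PROOF (from Colors, Graph, Helper, Reduce, Book, Num). Let `q₀` be from `Num`, `n₀ = 2 q₀ + 1`.
Suppose `¬ Win G (Fin q)` but `G` is not `(q-1)`-colourable. Let `χ` be the least number of colours of
a proper colouring; `4 n ≤ 5 χ`, `q ≤ χ` (otherwise `χ ≤ q - 1`) and `q ≥ 1` (`Win G (Fin 0)` holds
as `V` is nonempty). We show `Win G (Fin χ)`; then `Colors` gives `Win G (Fin q)`, a contradiction.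
`G` is not `(χ-1)`-colourable (`χ ≥ 1`); `Reduce` with `r = χ - 1` gives `U, W`. If `χ ≤ |U|` choose
`U' ⊆ U` with `χ` elements; `Helper` for the graph induced on `U'`, with the set `univ` of
universal vertices (there are no other vertices, any `f`; there are at most `χ = |univ|` bad `σ`)
gives `Win (G[U']) (ZMod χ)`, and `Graph`, `Colors` (`ZMod χ` and `Fin χ` have the same number of
elements) give `Win G (Fin χ)`. Otherwise let `m = |U|`, `a = χ - m ≥ 3`, `3 a ≤ 2 |W| + 1`, and
`4 (m + |W|) ≤ 4 n ≤ 5 χ = 5 (m + a)`, so `4 |W| ≤ m + 5 a`. Choose `W' ⊆ W` with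
`N = min |W| (2 a)` elements: `3 a ≤ 2 N + 1`, `4 N ≤ m + 5 a`, `N ≤ 2 a`. `q := χ ≥ 4 n / 5 ≥ q₀`.
`Num` and `Book` (for `U, W'`) give `Win G (ZMod χ)`, so `Win G (Fin χ)`. -/
def FourFifthsStmt : Prop :=
  ∃ n₀ : ℕ, ∀ (V : Type) [Fintype V] (G : SimpleGraph V), n₀ ≤ Fintype.card V →
    (∀ r : ℕ, G.Colorable r → 4 * Fintype.card V ≤ 5 * r) → Good G

end Pool.Agent.Lib.MP_1818ed_co
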