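import Mathlib
import Pool.Agent.Lib.MP_1818ed_co.Defs2

/-!
# Hat guessing number versus chromatic number: complement degrees `O(n / log n)` (MP_1818ed_co)

All statements (`...Stmt : Prop`) of the proof of:

THEOREM (`MainDStmt`). There are `C, n₀` such that every graph on `n ≥ n₀` vertices in which, for
some set `X` of at most `n / 6` vertices and some `Δ` with `C Δ log₂ n ≤ n`, all vertices outside
`X` have at most `Δ` non-neighbours outside `X`, satisfies `χ(G) ≤ HG(G)`.

Main step (`DenseLogStmt`): if every vertex has at most `Δ` non-neighbours, `C Δ log₂ n ≤ n`,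
`n ≥ n₁`, then `HG(G) ≥ (1 - 1/M) n`.

Outline. (1) `GreedyGameStmt`, `GreedyProbStmt`: the vertices with colour `< σ` are special
(`σ ≈ C log n`). A clique of `σ` special vertices is found greedily; its members play the sum game
modulo `σ`. This strategy fails only if there are fewer than `σ` members, with probability at most
`n^(-8)`. (2) `AmpStmt`: a strategy that fails with a tiny probability is amplified to a winning one
with the help of a clique of about `log₂ n` vertices adjacent to everything: the big part shifts its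
colours by a random function `τ` of the colours of the small clique; the colourings where it still
fails form small trees in the Hamming graph, which can be oriented (`CubeStmt`). (3) Numbers.

Every module proves one `...Stmt`, possibly from other `...Stmt`s given as hypotheses. The complete
proof of each statement is in its docstring. `Win`, `Good`: `Defs.lean`; `Spine`: `Defs2.lean`.
-/

set_option autoImplicit false

namespace Pool.Agent.Lib.MP_1818ed_co

open Finset

/-- CUBE LEMMA. `Bad` is a set of points of the Hamming graph `(I → ZMod q)`. Either one can choose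
for every `p ∈ Bad` a direction `O p` such that no line of direction `i` contains two points
`p ∈ Bad` with `O p = i`, or there is a sequence of `2^|I|` different points of `Bad` in which every
point except the first differs from an earlier one in (at most) one coordinate.

PROOF. The line of direction `i` through `p` is represented by `(i, Function.update p i 0)`; let
`L p` be the set of the `|I|` lines through `p`. If there is an injective map `Λ` on `Bad` with
`Λ p ∈ L p` let `O p` be the direction of `Λ p`: if `O p = O p' = i` and `p = p'` off `i`, then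
`Λ p = Λ p'` and `p = p'`. Otherwise Hall's condition
(`Finset.all_card_le_biUnion_card_iff_exists_injective`) fails: there is a set `B ⊆ Bad` with
`|⋃_{p ∈ B} L p| < |B|`; take `B` with minimal cardinality (it is nonempty). CLAIM: for all `p ∈ B`,
`i : I` there is `ν p i ∈ B`, different from `p`, which agrees with `p` off `i`. Otherwise the line
`(i, update p i 0)` is in no `L p'` with `p' ∈ B \ {p}`, so
`|⋃_{B \ {p}} L| ≤ |⋃_B L| - 1 < |B| - 1`, a contradiction to the minimality of `B`.
LIST LEMMA: for every `S : Finset I` and `p ∈ B` there is an injective sequence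
`s : Fin (2^|S|) → (I → ZMod q)` of points of `B` with `s 0 = p`, all of them agree with `p` off `S`,
and every `s j`, `j > 0`, agrees off one coordinate with some `s i`, `i < j`. Induction on `S`:
`S = ∅` is clear. For `S = S' ∪ {i}` take first the sequence for `(S', p)`, all of whose elements
have the `i`-th coordinate `p i`, and then the one for `(S', ν p i)`, all of whose elements have the
`i`-th coordinate `ν p i i ≠ p i`; the first element of the second part is `ν p i`, which differs
from `s 0 = p` only in the coordinate `i`. (It may be easier to work with lists: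
`List.Nodup`, a predicate for the parents, and to convert at the end.) Use `S = univ`. -/
def CubeStmt : Prop :=
  ∀ (I : Type) [Fintype I] [DecidableEq I] (q : ℕ) [NeZero q] (Bad : Finset (I → ZMod q)),
    Nonempty I →
    (∃ O : (I → ZMod q) → I, ∀ p ∈ Bad, ∀ p' ∈ Bad, O p = O p' →
      (∀ j, j ≠ O p → p j = p' j) → p = p') ∨
    (∃ s : Fin (2 ^ Fintype.card I) → (I → ZMod q), Function.Injective s ∧ (∀ j, s j ∈ Bad) ∧
      ∀ j, 0 < j.val → ∃ i, i < j ∧ ∃ k : I, ∀ k', k' ≠ k → s j k' = s i k')

/-- AMPLIFICATION, deterministic part. `f` is a strategy for the graph induced on `W`, `B` contains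
all colourings of `W` for which it fails. `τ p` is the shift used for the colouring `p` of `U`.

PROOF. For `c : W → ZMod q` let `Bad_c = {p : c - τ p ∈ B}` and `O_c` as in the last hypothesis. Let
`x` be a colouring of `V`, `p` and `c` its restrictions to `U` and `W`. A vertex `w ∈ W` sees all of
`U` and guesses `f w (c - τ p) + τ p w`. A vertex `u ∈ U` knows `c` and `p` off `u`. If there is `t`
with `update p u t ∈ Bad_c` and `O_c (update p u t) = u` it guesses such a `t` (chosen in a way that
depends only on `c` and on `p` off `u`, e.g. write everything with `update p u 0`), otherwise `0`.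
All other vertices guess `0`. WINNING: if `c - τ p ∉ B` some `w ∈ W` has
`f w (c - τ p) = c w - τ p w`, so it guesses `c w`. Otherwise let `u = O_c p`; `t = p u` satisfies
`update p u t = p ∈ Bad_c` and `O_c p = u`. If `t'` is another one then `update p u t'` and `p` agree
off `u`, so they are equal by the property of `O_c`, i.e. `t' = p u`: the guess of `u` is right.
LOCALITY: `u ∈ U` is adjacent to all other vertices of `U ∪ W`, `w ∈ W` is adjacent to all of `U`
(`U`, `W` are disjoint), and `f w` depends only on the colours of the neighbours of `w` in `W`. -/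
def AmpDetStmt : Prop :=
  ∀ (V : Type) [Fintype V] (G : SimpleGraph V) (U W : Finset V) (q : ℕ) [NeZero q]
    (f : {w // w ∈ W} → ({w // w ∈ W} → ZMod q) → ZMod q)
    (B : Finset ({w // w ∈ W} → ZMod q))
    (τ : ({u // u ∈ U} → ZMod q) → ({w // w ∈ W} → ZMod q)),
    Disjoint U W → Spine G U W →
    (∀ (w : {w // w ∈ W}) (c c' : {w // w ∈ W} → ZMod q),
      (∀ u : {w // w ∈ W}, G.Adj w.1 u.1 → c u = c' u) → f w c = f w c') →
    (∀ y, y ∉ B → ∃ w, f w y = y w) →
    (∀ c : {w // w ∈ W} → ZMod q, ∃ O : ({u // u ∈ U} → ZMod q) → {u // u ∈ U},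
      ∀ p p' : {u // u ∈ U} → ZMod q, c - τ p ∈ B → c - τ p' ∈ B → O p = O p' →
        (∀ j, j ≠ O p → p j = p' j) → p = p') →
    Win G (ZMod q)

/-- AMPLIFICATION, random part. `P = (I → ZMod q)`, `m = |I| ≥ 1`, `Y` a finite group.

PROOF. Call a sequence `s : Fin K → P` a tree if it is injective and every `s j`, `j > 0`, agrees
off one coordinate with an earlier `s i`. The number of trees is at most `q^m (K m q)^K`: attach to
`s` its first element and for every `j` the triple `(i, k, s j k) ∈ Fin K × I × ZMod q` (for `j = 0`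
an arbitrary triple); the sequence can be recovered (strong induction on `j`). For given `c : Y` and
a tree `s` the number of functions `τ : P → Y` with `c - τ (s j) ∈ B` for all `j` is
`|B|^K |Y|^(|P| - K)` (`s` is injective; `Fintype.piFinset`, `Finset.prod`; `|P| ≥ K` if there is a
tree). So the number of `τ` that are bad for some `(c, s)` is at most
`|Y| q^m (K m q)^K |B|^K |Y|^(|P| - K) < |Y|^|P|` by the hypothesis (`|Y| > 0`). -/
def AmpRandStmt : Prop :=
  ∀ (I Y : Type) [Fintype I] [DecidableEq I] [Fintype Y] [AddCommGroup Y] (q K : ℕ) [NeZero q]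
    (B : Finset Y), Nonempty I → 1 ≤ K →
    Fintype.card Y * q ^ Fintype.card I * (K * Fintype.card I * q) ^ K * B.card ^ K <
      Fintype.card Y ^ K →
    ∃ τ : (I → ZMod q) → Y, ∀ (c : Y) (s : Fin K → (I → ZMod q)), Function.Injective s →
      (∀ j : Fin K, 0 < j.val → ∃ i : Fin K, i < j ∧ ∃ k : I, ∀ k', k' ≠ k → s j k' = s i k') →
      ∃ j, c - τ (s j) ∉ B

/-- AMPLIFICATION.

PROOF (from Cube, AmpDet, AmpRand). `AmpRand` with `I = {u // u ∈ U}`, `Y = ({w // w ∈ W} → ZMod q)`
(`q^|W|` elements) gives `τ`. For `c : Y` apply `Cube` to `Bad_c = {p : c - τ p ∈ B}`. The second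
alternative of `Cube` is impossible: the first `K ≤ 2^|U|` elements (`Fin.castLE`) of the sequence
would contradict the property of `τ`. So the first alternative holds, and `AmpDet` gives the
winning strategy. -/
def AmpStmt : Prop :=
  ∀ (V : Type) [Fintype V] (G : SimpleGraph V) (U W : Finset V) (q K : ℕ) [NeZero q]
    (f : {w // w ∈ W} → ({w // w ∈ W} → ZMod q) → ZMod q)
    (B : Finset ({w // w ∈ W} → ZMod q)),
    Disjoint U W → Spine G U W → U.Nonempty →
    (∀ (w : {w // w ∈ W}) (c c' : {w // w ∈ W} → ZMod q),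
      (∀ u : {w // w ∈ W}, G.Adj w.1 u.1 → c u = c' u) → f w c = f w c') →
    (∀ y, y ∉ B → ∃ w, f w y = y w) →
    1 ≤ K → K ≤ 2 ^ U.card →
    q ^ W.card * q ^ U.card * (K * U.card * q) ^ K * B.card ^ K < (q ^ W.card) ^ K →
    Win G (ZMod q)

open Classical in
/-- The greedy clique: go through the list and insert the vertex `v` if it satisfies `A`, is adjacent
to all vertices inserted before, and fewer than `s` vertices have been inserted. -/
noncomputable def greedy {X : Type} (G : SimpleGraph X) (A : X → Prop) (s : ℕ) :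
    List X → Finset X → Finset X
  | [], C => C
  | v :: l, C =>
    if C.card < s ∧ A v ∧ ∀ u ∈ C, G.Adj v u then greedy G A s l (insert v C)
    else greedy G A s l C

/-- THE SUM GAME on the greedy clique of special vertices.

PROOF. For a colouring `y` let `A y v` mean `(y v).val < σ` and `K y = greedy G (A y) σ l ∅`.
(i) `K y` is a clique whose elements satisfy `A y`, with at most `σ` elements (invariants of the
recursion, for a general start `C` that is a clique with at most `σ` elements satisfying `A y`).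
(ii) VIEW LEMMA: let `A' v` mean `A v ∧ (v = w ∨ G.Adj w v)`. If `w ∈ greedy G A s l C` and all
elements of `C` are equal or adjacent to `w` (true for `C = ∅`; more precisely: if `C` is a clique and
`w ∈ greedy G A s l C`), then `greedy G A' s l C = greedy G A s l C`. Induction on the list: both
runs have the same set `C` at every step. If `v` is inserted in the run for `A`, then `v` and `w` are
both in the final set, which is a clique, so `v = w` or `G.Adj w v` and `v` is inserted in the run
for `A'` too; if `v` is not inserted in the run for `A` it is not inserted in the run for `A'`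
because `A'` implies `A`.
STRATEGY: choose for every finite set `K ⊆ X` with `σ` elements a bijection `r_K` from `K` onto
`ZMod σ` (as a function `X → ZMod σ`, `NeZero σ`). The vertex `w` forms
`A_w v := (v = w) ∨ ((y v).val < σ ∧ G.Adj w v)` and `K_w = greedy G A_w σ l ∅`. If `w ∈ K_w` and
`|K_w| = σ` it guesses `((r_{K_w} w - Σ_{k ∈ K_w, k ≠ w} ((y k).val : ZMod σ)).val : ZMod q)`,
otherwise `0`. It depends only on the neighbours of `w`: `A_w` does, and all elements `k ≠ w` of
`K_w` satisfy `A_w k`, so they are neighbours of `w`.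
WINNING: let `K = K y` have `σ` elements and `S = Σ_{k ∈ K} ((y k).val : ZMod σ)`; let `w ∈ K` be the
element with `r_K w = S`. `w` satisfies `A y`, so `A_w` is `A'` from (ii) and `K_w = K`. Hence `w`
guesses `(((y w).val : ZMod σ).val : ZMod q) = y w` because `(y w).val < σ`. -/
def GreedyGameStmt : Prop :=
  ∀ (X : Type) [Fintype X] (G : SimpleGraph X) (l : List X) (q σ : ℕ) [NeZero q],
    1 ≤ σ → σ ≤ q →
    ∃ f : X → (X → ZMod q) → ZMod q,
      (∀ (w : X) (c c' : X → ZMod q), (∀ u : X, G.Adj w u → c u = c' u) → f w c = f w c') ∧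
      ∀ y : X → ZMod q, (greedy G (fun v => (y v).val < σ) σ l ∅).card = σ → ∃ w, f w y = y w

open Classical in
/-- THE GREEDY CLIQUE IS LARGE with high probability.

PROOF. `N = card X`, `ρ = 1 - (σ/q)(1 - z) ∈ [0, 1]`. For a list `l` without repetitions and a
finite set `C` disjoint from `l`, `|C| ≤ s`, let
`T(l, C) = Σ_y [|greedy (y) s l C| < s] z^|greedy (y) s l C|` (sum over all colourings `y`) and
`avail(l, C)` the number of `v` in `l` that are adjacent to all `u ∈ C`. CLAIM:
`T(l, C) ≤ q^N z^|C| ρ^(avail(l, C) - (s - |C|) Δ)` (subtractions of natural numbers).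
Induction on `l`. For `l = []` the exponent is `0`: clear. If `|C| = s` nothing is inserted and
`T = 0`. Let `|C| < s` and `l = v :: l'`. If `v` is not adjacent to some `u ∈ C` it is not inserted,
`T(l, C) = T(l', C)` and `avail` is the same. Otherwise the colour of `v` is independent of the rest
(`v ∉ l'`, so the run on `l'` does not depend on `y v`), hence
`T(l, C) = (σ/q) T(l', C ∪ {v}) + (1 - σ/q) T(l', C)` (formally: the fibres of the map forgetting
`y v`; among the `q` colours exactly `σ` have `val < σ`, as `σ ≤ q`). With `e = avail(l, C) -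
(s - |C|) Δ`: the exponent for `(l', C)` is `e - 1` (natural subtraction), and the one for
`(l', C ∪ {v})` is at least `e - 1`, because `avail(l', C ∪ {v}) ≥ avail(l, C) - 1 - Δ` (at most `Δ`
vertices different from `v` are not adjacent to `v`) and `(s - |C| - 1) Δ = (s - |C|) Δ - Δ`. As
`0 ≤ ρ ≤ 1`, `T(l, C) ≤ q^N z^|C| ρ^(e-1) ((σ/q) z + 1 - σ/q) = q^N z^|C| ρ^(e-1) ρ ≤ q^N z^|C| ρ^e`.
For `C = ∅`: `avail = l.length`, and `z^s ≤ z^|greedy|` if `|greedy| < s` (`0 < z ≤ 1`), so the left
side is at most `T(l, ∅)`. -/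
def GreedyProbStmt : Prop :=
  ∀ (X : Type) [Fintype X] (G : SimpleGraph X) (l : List X) (q σ s Δ : ℕ) [NeZero q] (z : ℝ),
    l.Nodup → σ ≤ q → (∀ v, {u | u ≠ v ∧ ¬ G.Adj v u}.ncard ≤ Δ) → 0 < z → z ≤ 1 →
    ((Finset.univ.filter (fun y : X → ZMod q =>
        (greedy G (fun v => (y v).val < σ) s l ∅).card < s)).card : ℝ) * z ^ s ≤
      (q : ℝ) ^ (Fintype.card X) * (1 - (σ : ℝ) / (q : ℝ) * (1 - z)) ^ (l.length - s * Δ)

/-- A CLIQUE joined to almost everything.

PROOF. Induction on `m`: there is a clique `U` with `m` elements such that the set `W` of the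
vertices outside `U` that are adjacent to all elements of `U` satisfies
`card V ≤ |W| + m (Δ + 1)`. Step: `(m + 1)(Δ + 1) ≤ card V`, so `W` is nonempty; add some `v ∈ W` to
`U`; the new `W` is `{w ∈ W : w ≠ v, G.Adj v w}` and has at least `|W| - 1 - Δ` elements. -/
def ClqStmt : Prop :=
  ∀ (V : Type) [Fintype V] (G : SimpleGraph V) (Δ m : ℕ),
    (∀ v, {u | u ≠ v ∧ ¬ G.Adj v u}.ncard ≤ Δ) → m * (Δ + 1) ≤ Fintype.card V →
    ∃ U W : Finset V, Disjoint U W ∧ Spine G U W ∧ U.card = m ∧
      Fintype.card V ≤ W.card + m * (Δ + 1)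

/-- THE NUMBERS.

PROOF. `C = 2064 M^3`. Let `L = Nat.log 2 n`, `q = (M - 1) n / M` (rounded down), `m = L + 1`,
`K = n`, `σ = 128 M^2 (L + 1)`, `z = 1 - δ`, `δ = 1/(8M)`; `n` is large in terms of `M` (so
`L + 1 ≤ n / (8M)`, `σ ≤ n / 4 ≤ q`, `L ≥ 1`). `n < 2^(L+1)` gives `K ≤ 2^m`, and `log n ≤ L + 1`.
(1) `m (Δ + 1) + σ Δ ≤ (L + 1)(129 M^2 Δ + 1) ≤ 258 M^2 L Δ + (L + 1) ≤ n/(8M) + n/(8M) = n/(4M)`
because `2064 M^3 Δ L ≤ n`.
(2) Let `N, B` be as in the last hypothesis. `N - σ Δ ≥ n - m (Δ + 1) - σ Δ ≥ n (1 - 1/(4M))`, and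
`q ≤ n (1 - 1/M)`, so `(N - σ Δ)/q ≥ (1 - 1/(4M))/(1 - 1/M) ≥ 1 + 3/(4M)`. With
`(1 - x) ≤ exp (-x)` and `log (1/z) = - log (1 - δ) ≤ δ/(1 - δ) ≤ δ + 2 δ^2`:
`B / q^N ≤ exp (- σ (δ (N - σ Δ)/q - δ - 2 δ^2)) ≤ exp (- σ δ (3/(4M) - 2/(8M))) =
exp (- σ /(16 M^2)) = exp (- 8 (L + 1)) ≤ n^(-8)`.
(3) So `B n^8 ≤ q^N`, and (with `q, m, N ≤ n`, `K = n`)
`q^N q^m (K m q)^K B^K n^(8n) ≤ n^n n^n (n^3)^n (q^N)^n = n^(5n) (q^N)^n`, hence the left side of the
goal times `n^(3n)` is at most `(q^N)^n`, and `n^(3n) > 1`, the right side is positive. -/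
def NumLogStmt : Prop :=
  ∀ M : ℕ, 2 ≤ M → ∃ C n₁ : ℕ, ∀ n Δ : ℕ, n₁ ≤ n → C * Δ * Nat.log 2 n ≤ n →
    ∃ (q m K σ : ℕ) (z : ℝ), 1 ≤ q ∧ (∀ q' : ℕ, M * q' ≤ (M - 1) * n → q' ≤ q) ∧ 1 ≤ m ∧
      1 ≤ K ∧ K ≤ 2 ^ m ∧ 1 ≤ σ ∧ σ ≤ q ∧ 0 < z ∧ z ≤ 1 ∧ m * (Δ + 1) ≤ n ∧
      ∀ N B : ℕ, N ≤ n → n ≤ N + m * (Δ + 1) →
        (B : ℝ) * z ^ σ ≤ (q : ℝ) ^ N * (1 - (σ : ℝ) / (q : ℝ) * (1 - z)) ^ (N - σ * Δ) →
        q ^ N * q ^ m * (K * m * q) ^ K * B ^ K < (q ^ N) ^ K

/-- DENSE GRAPHS: if every vertex has at most `Δ ≤ n / (C log₂ n)` non-neighbours then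
`HG(G) ≥ (1 - 1/M) n`.

PROOF (from Colors, Amp, GreedyGame, GreedyProb, Clq, NumLog). Let `C, n₁` be from `NumLog`,
`n = card V`, and let `q₁, m, K, σ, z` be the numbers (`q₁` is the `q` of `NumLog`; `q ≤ q₁`). `Clq`
gives `U, W`. Let `X = {w // w ∈ W}` with the graph `G.comap Subtype.val` (non-degrees at most `Δ`),
`l = univ.toList` (`l.length = |W|`), `f` from `GreedyGame` (for `q₁, σ`) and `B` the finite set of
the colourings `y` of `X` with fewer than `σ` elements in the greedy clique (`s = σ`). If `y ∉ B`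
the greedy clique has exactly `σ` elements (never more than `σ` vertices are inserted: an easy
induction), so some `w` guesses right. `GreedyProb` and `NumLog` (`N = |W| ≤ n`) give the numerical
condition of `Amp` (`U.card = m`). So `Win G (ZMod q₁)` and by `Colors` `Win G (Fin q)`
(`q ≤ q₁ = |ZMod q₁|`, `Fin q` is nonempty). -/
def DenseLogStmt : Prop :=
  ∀ M : ℕ, 2 ≤ M → ∃ C n₁ : ℕ, ∀ (V : Type) [Fintype V] (G : SimpleGraph V) (Δ : ℕ),
    (∀ v, {u | u ≠ v ∧ ¬ G.Adj v u}.ncard ≤ Δ) → n₁ ≤ Fintype.card V →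
    C * Δ * Nat.log 2 (Fintype.card V) ≤ Fintype.card V →
    ∀ q : ℕ, 1 ≤ q → M * q ≤ (M - 1) * Fintype.card V → Win G (Fin q)

/-- MAIN THEOREM.

PROOF (from Graph, DenseLog, FourFifths). Let `n₁` be from `FourFifths`, `C', n₂` from `DenseLog`
with `M = 30`, `C = 2 C'`, `n₀ = n₁ + 2 n₂ + 1000`. Let `n = card V` and `q` with
`¬ Win G (Fin q)`. If every proper colouring of `G` has at least `4n/5` colours use `FourFifths`.
Otherwise `G` is `r`-colourable with `5 r < 4 n`. `q ≥ 1` because `Win G (Fin 0)` holds (there is no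
colouring of the nonempty set `V` by `Fin 0`). Let `Y = Xᶜ` (as a subtype) with the induced graph
`G.induce {v | v ∉ X}`, `n' = |Y| ≥ 5n/6 ≥ n₂`; its non-degrees are at most `Δ`, and
`C' Δ log₂ n' ≤ C' Δ log₂ n ≤ n/2 ≤ n'`. By `Graph` `¬ Win G_Y (Fin q)`, so `DenseLog` gives
`29 n' < 30 q`. Hence `30 q > 29 · 5 n / 6`, `q > 145 n/180 > 0.805 n`, and `r < 0.8 n ≤ q - 1`
because `n ≥ 1000`. So `G` is `(q-1)`-colourable (`SimpleGraph.Colorable.mono`). -/
def MainDStmt : Prop :=
  ∃ C n₀ : ℕ, ∀ (V : Type) [Fintype V] (G : SimpleGraph V) (X : Finset V) (Δ : ℕ),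
    n₀ ≤ Fintype.card V → 6 * X.card ≤ Fintype.card V →
    (∀ v, v ∉ X → {u | u ∉ X ∧ u ≠ v ∧ ¬ G.Adj v u}.ncard ≤ Δ) →
    C * Δ * Nat.log 2 (Fintype.card V) ≤ Fintype.card V → Good G

end Pool.Agent.Lib.MP_1818ed_co
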