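import Mathlib
import Pool.Agent.Lib.MP_1818ed_co.Defs3

/-! Amplification (from the cube lemma, the deterministic and the random part). -/

set_option autoImplicit false

namespace Pool.Agent.Lib.MP_1818ed_co

open Finset

theorem amp (h1 : CubeStmt) (h2 : AmpDetStmt) (h3 : AmpRandStmt) : AmpStmt := by
  intro V _ G U W q K _ f B hd hs hU hloc hB hK1 hK2 hnum
  classical
  have hIne : Nonempty {u // u ∈ U} := by
    obtain ⟨u, hu⟩ := hU
    exact ⟨⟨u, hu⟩⟩
  have hY : Fintype.card ({w // w ∈ W} → ZMod q) = q ^ W.card := by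
    rw [Fintype.card_fun, ZMod.card, Fintype.card_coe]
  have hI : Fintype.card {u // u ∈ U} = U.card := Fintype.card_coe U
  have hnum' : Fintype.card ({w // w ∈ W} → ZMod q) * q ^ Fintype.card {u // u ∈ U} *
      (K * Fintype.card {u // u ∈ U} * q) ^ K * B.card ^ K <
      Fintype.card ({w // w ∈ W} → ZMod q) ^ K := by
    rw [hY, hI]
    exact hnum
  obtain ⟨τ, hτ⟩ := h3 {u // u ∈ U} ({w // w ∈ W} → ZMod q) q K B hIne hK1 hnum'
  refine h2 V G U W q f B τ hd hs hloc hB ?_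
  intro c
  have hK2' : K ≤ 2 ^ Fintype.card {u // u ∈ U} := by
    rw [hI]
    exact hK2
  rcases h1 {u // u ∈ U} q (Finset.univ.filter (fun p => c - τ p ∈ B)) hIne with
    ⟨O, hO⟩ | ⟨s, hsinj, hsB, hsp⟩
  · refine ⟨O, ?_⟩
    intro p p' hp hp' hOO hj
    exact hO p (Finset.mem_filter.2 ⟨Finset.mem_univ _, hp⟩) p'
      (Finset.mem_filter.2 ⟨Finset.mem_univ _, hp'⟩) hOO hj
  · exfalso
    obtain ⟨j, hj⟩ := hτ c (fun j => s (Fin.castLE hK2' j))
      (hsinj.comp (Fin.castLE_injective hK2')) (by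
        intro j hj
        obtain ⟨i, hij, k, hk⟩ := hsp (Fin.castLE hK2' j) hj
        have hij' : i.val < j.val := hij
        exact ⟨⟨i.val, hij'.trans j.isLt⟩, hij', k, hk⟩)
    exact hj (Finset.mem_filter.1 (hsB (Fin.castLE hK2' j))).2

end Pool.Agent.Lib.MP_1818ed_co
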