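import Mathlib
import Pool.Agent.Lib.MP_1818ed_co.Defs3

/-!
# AmpDet: the deterministic part of the amplification
-/

set_option autoImplicit false
set_option linter.unusedVariables false

namespace Pool.Agent.Lib.MP_1818ed_co

open Finset

namespace AmpDetM

/-- restriction of a colouring to a finite set -/
def res {V A : Type} (U : Finset V) (x : V → A) : {u // u ∈ U} → A := fun u => x u.1

open Classical in
/-- the guess of the vertex `u` of the small clique -/
noncomputable def gu {I Y : Type} [AddCommGroup Y] (q : ℕ) [NeZero q] (B : Finset Y)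
    (τ : (I → ZMod q) → Y) (O : Y → (I → ZMod q) → I) (u : I) (p : I → ZMod q) (c : Y) :
    ZMod q :=
  if h : ∃ t, c - τ (Function.update (Function.update p u 0) u t) ∈ B ∧
    O c (Function.update (Function.update p u 0) u t) = u then h.choose else 0

theorem gu_congr {I Y : Type} [AddCommGroup Y] (q : ℕ) [NeZero q] (B : Finset Y)
    (τ : (I → ZMod q) → Y) (O : Y → (I → ZMod q) → I) (u : I) (p p' : I → ZMod q) (c : Y)
    (h : ∀ j, j ≠ u → p j = p' j) : gu q B τ O u p c = gu q B τ O u p' c := by
  classical
  have h1 : Function.update p u 0 = Function.update p' u 0 := by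
    funext j
    by_cases hj : j = u
    · subst hj; simp
    · rw [Function.update_of_ne hj, Function.update_of_ne hj, h j hj]
  unfold gu
  have h2 : ∀ t, Function.update (Function.update p u 0) u t =
      Function.update (Function.update p' u 0) u t := fun t => by rw [h1]
  convert rfl using 3
  all_goals first
    | rfl
    | (rw [h1])

theorem gu_win {I Y : Type} [AddCommGroup Y] (q : ℕ) [NeZero q] (B : Finset Y)
    (τ : (I → ZMod q) → Y) (O : Y → (I → ZMod q) → I) (p : I → ZMod q) (c : Y)
    (hc : c - τ p ∈ B)
    (hO : ∀ p p' : I → ZMod q, c - τ p ∈ B → c - τ p' ∈ B → O c p = O c p' →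
        (∀ j, j ≠ O c p → p j = p' j) → p = p') :
    gu q B τ O (O c p) p c = p (O c p) := by
  classical
  have hup : ∀ t, Function.update (Function.update p (O c p) 0) (O c p) t =
      Function.update p (O c p) t := fun t => by
    funext j
    by_cases hj : j = O c p
    · rw [hj]; simp
    · rw [Function.update_of_ne hj, Function.update_of_ne hj, Function.update_of_ne hj]
  have hself : Function.update (Function.update p (O c p) 0) (O c p) (p (O c p)) = p := by
    rw [hup, Function.update_eq_self]
  have hex : ∃ t, c - τ (Function.update (Function.update p (O c p) 0) (O c p) t) ∈ B ∧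
      O c (Function.update (Function.update p (O c p) 0) (O c p) t) = O c p :=
    ⟨p (O c p), by rw [hself]; exact hc, by rw [hself]⟩
  have hval : gu q B τ O (O c p) p c = hex.choose := by
    unfold gu
    rw [dif_pos]
  rw [hval]
  obtain ⟨h1, h2⟩ := hex.choose_spec
  have h3 := hO _ p h1 hc h2 (fun j hj => by
    rw [h2] at hj
    rw [Function.update_of_ne hj, Function.update_of_ne hj])
  have h4 := congrFun h3 (O c p)
  rwa [Function.update_self] at h4

end AmpDetM

open AmpDetM in
theorem ampDet : AmpDetStmt := by
  intro V _ G U W q _ f B τ hUW hS hf hB hO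
  classical
  choose O hO' using hO
  refine ⟨fun v x => if hv : v ∈ U then gu q B τ O ⟨v, hv⟩ (res U x) (res W x) else
    if hw : v ∈ W then f ⟨v, hw⟩ (res W x - τ (res U x)) + τ (res U x) ⟨v, hw⟩ else 0, ?_, ?_⟩
  · intro v c c' hcc
    by_cases hv : v ∈ U
    · simp only [hv, dif_pos]
      have hW : res W c = res W c' := by
        funext w
        refine hcc w.1 (hS v hv w.1 (Or.inr w.2) ?_)
        intro h
        exact (Finset.disjoint_left.1 hUW hv) (h ▸ w.2)
      rw [hW]
      refine gu_congr q B τ O _ _ _ _ (fun j hj => ?_)
      refine hcc j.1 (hS v hv j.1 (Or.inl j.2) ?_)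
      intro h
      exact hj (Subtype.ext h)
    · by_cases hw : v ∈ W
      · simp only [hv, hw, dif_pos, dif_neg, not_false_eq_true]
        have hU : res U c = res U c' := by
          funext u
          refine hcc u.1 (hS u.1 u.2 v (Or.inr hw) ?_).symm
          intro h
          exact hv (h ▸ u.2)
        rw [hU]
        congr 1
        refine hf ⟨v, hw⟩ _ _ (fun u hu => ?_)
        show c u.1 - τ (res U c') u = c' u.1 - τ (res U c') u
        rw [hcc u.1 hu]
      · simp only [hv, hw, dif_neg, not_false_eq_true]
  · intro x
    by_cases hp : res W x - τ (res U x) ∈ B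
    · have h1 := gu_win q B τ O (res U x) (res W x) hp (hO' (res W x))
      refine ⟨(O (res W x) (res U x)).1, ?_⟩
      have hu : (O (res W x) (res U x)).1 ∈ U := (O (res W x) (res U x)).2
      simp only [hu, dif_pos]
      exact h1
    · obtain ⟨w, hw⟩ := hB _ hp
      refine ⟨w.1, ?_⟩
      have hwU : w.1 ∉ U := fun h => (Finset.disjoint_left.1 hUW h) w.2
      have hwW : w.1 ∈ W := w.2
      simp only [hwU, hwW, dif_pos, dif_neg, not_false_eq_true]
      rw [hw]
      show x w.1 - τ (res U x) w + τ (res U x) w = x w.1
      ring

end Pool.Agent.Lib.MP_1818ed_co
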