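import Mathlib
import Pool.Agent.Lib.MP_1818ed_co.Defs3

/-!
# MP_1818ed_co: module AmpRand
-/

set_option autoImplicit false

namespace Pool.Agent.Lib.MP_1818ed_co

open Finset

namespace AmpRand

/-- the condition on the sequences -/
def Tr {I : Type} {q K : ℕ} (s : Fin K → (I → ZMod q)) : Prop :=
  ∀ j : Fin K, 0 < j.val → ∃ i : Fin K, i < j ∧ ∃ k : I, ∀ k', k' ≠ k → s j k' = s i k'

theorem exEnc {I : Type} {q K : ℕ} (hI : Nonempty I) (s : Fin K → (I → ZMod q)) :
    ∃ g : Fin K → Fin K × I × ZMod q, Tr s → ∀ j : Fin K, 0 < j.val →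
      (g j).1 < j ∧ (g j).2.2 = s j (g j).2.1 ∧
        ∀ k', k' ≠ (g j).2.1 → s j k' = s (g j).1 k' := by
  classical
  obtain ⟨k0⟩ := hI
  by_cases hs : Tr s
  · have h : ∀ j : Fin K, ∃ x : Fin K × I × ZMod q, 0 < j.val →
        x.1 < j ∧ x.2.2 = s j x.2.1 ∧ ∀ k', k' ≠ x.2.1 → s j k' = s x.1 k' := by
      intro j
      by_cases hj : 0 < j.val
      · obtain ⟨i, hi, k, hk⟩ := hs j hj
        exact ⟨(i, k, s j k), fun _ => ⟨hi, rfl, hk⟩⟩
      · exact ⟨(j, k0, 0), fun h => absurd h hj⟩
    choose g hg using h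
    exact ⟨g, fun _ => hg⟩
  · exact ⟨fun j => (j, k0, 0), fun h => absurd h hs⟩

theorem tree_card {I : Type} [Fintype I] [DecidableEq I] {q K : ℕ} [NeZero q] (hI : Nonempty I)
    (hK : 1 ≤ K) (T : Finset (Fin K → (I → ZMod q))) (hT : ∀ s ∈ T, Tr s) :
    T.card ≤ q ^ Fintype.card I * (K * Fintype.card I * q) ^ K := by
  classical
  choose g hg using fun s : Fin K → (I → ZMod q) => exEnc hI s
  have h0 : 0 < K := hK
  have h1 : T.card ≤ (univ : Finset ((I → ZMod q) × (Fin K → Fin K × I × ZMod q))).card := by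
    refine Finset.card_le_card_of_injOn (fun s => (s ⟨0, h0⟩, g s)) (fun _ _ => mem_coe.mpr (mem_univ _)) ?_
    intro s hs s' hs' hss
    have e1 : s ⟨0, h0⟩ = s' ⟨0, h0⟩ := congrArg Prod.fst hss
    have e2 : g s = g s' := congrArg Prod.snd hss
    have hS := hg s (hT s (mem_coe.mp hs))
    have hS' := hg s' (hT s' (mem_coe.mp hs'))
    have key : ∀ n : ℕ, ∀ j : Fin K, j.val = n → s j = s' j := by
      intro n
      induction n using Nat.strong_induction_on with
      | _ n ih =>
        intro j hj
        rcases Nat.eq_zero_or_pos j.val with h | h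
        · have : j = ⟨0, h0⟩ := Fin.ext h
          rw [this, e1]
        · obtain ⟨a1, a2, a3⟩ := hS j h
          obtain ⟨b1, b2, b3⟩ := hS' j h
          rw [← e2] at b1 b2 b3
          have h3 := ih (g s j).1.val (by rw [← hj]; exact a1) (g s j).1 rfl
          funext k
          by_cases hk : k = (g s j).2.1
          · rw [hk, ← a2, ← b2]
          · rw [a3 k hk, b3 k hk, h3]
    funext j
    exact key j.val j rfl
  refine h1.trans (le_of_eq ?_)
  rw [Finset.card_univ, Fintype.card_prod, Fintype.card_fun, Fintype.card_fun, ZMod.card,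
    Fintype.card_prod, Fintype.card_prod, ZMod.card, Fintype.card_fin, mul_assoc K]

theorem bad_card {P Y : Type} [Fintype P] [DecidableEq P] [Fintype Y] [DecidableEq Y]
    [AddCommGroup Y] {K : ℕ} (B : Finset Y) (c : Y) (s : Fin K → P) (hs : Function.Injective s) :
    (univ.filter (fun τ : P → Y => ∀ j, c - τ (s j) ∈ B)).card * Fintype.card Y ^ K =
      B.card ^ K * Fintype.card Y ^ Fintype.card P := by
  have h1 : univ.filter (fun τ : P → Y => ∀ j, c - τ (s j) ∈ B) =
      Fintype.piFinset (fun p => if p ∈ univ.image s then B.image (fun b => c - b) else univ) := by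
    ext τ
    rw [mem_filter, Fintype.mem_piFinset]
    constructor
    · rintro ⟨-, h⟩ p
      by_cases hp : p ∈ univ.image s
      · rw [if_pos hp]
        obtain ⟨j, -, rfl⟩ := mem_image.mp hp
        exact mem_image.mpr ⟨_, h j, by abel⟩
      · rw [if_neg hp]
        exact mem_univ _
    · intro h
      refine ⟨mem_univ _, fun j => ?_⟩
      have h2 := h (s j)
      rw [if_pos (mem_image_of_mem s (mem_univ j))] at h2
      obtain ⟨b, hb, h3⟩ := mem_image.mp h2
      rw [← h3, sub_sub_cancel]
      exact hb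
  have h2 : (univ.image s).card = K := by
    rw [card_image_of_injective _ hs, card_univ, Fintype.card_fin]
  have h3 : ∀ p : P, (if p ∈ univ.image s then B.image (fun b => c - b) else univ).card =
      if p ∈ univ.image s then B.card else Fintype.card Y := by
    intro p
    split_ifs
    · exact card_image_of_injective _ (fun a b hab => by simpa using hab)
    · exact card_univ
  have h4 : (univ.filter (fun p : P => p ∈ univ.image s)).card = K := by
    refine Eq.trans ?_ h2
    congr 1
    ext p
    simp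
  have h5 := card_filter_add_card_filter_not (s := (univ : Finset P)) (fun p => p ∈ univ.image s)
  rw [h1, Fintype.card_piFinset, prod_congr rfl (fun p _ => h3 p), prod_ite, prod_const,
    prod_const, h4]
  rw [h4, card_univ] at h5
  rw [← h5, pow_add]
  ring

end AmpRand

theorem ampRand : AmpRandStmt := by
  intro I Y _ _ _ _ q K _ B hI hK hlt
  classical
  by_contra hcon
  push Not at hcon
  set T : Finset (Fin K → (I → ZMod q)) :=
    univ.filter (fun s => Function.Injective s ∧ AmpRand.Tr s) with hT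
  have hTc := AmpRand.tree_card hI hK T (fun s hs => (mem_filter.mp hs).2.2)
  have hcov : (univ : Finset ((I → ZMod q) → Y)) ⊆ (univ : Finset Y).biUnion (fun c =>
      T.biUnion (fun s => univ.filter (fun τ : (I → ZMod q) → Y => ∀ j, c - τ (s j) ∈ B))) := by
    intro τ _
    obtain ⟨c, s, h1, h2, h3⟩ := hcon τ
    rw [mem_biUnion]
    refine ⟨c, mem_univ c, ?_⟩
    rw [mem_biUnion]
    exact ⟨s, mem_filter.mpr ⟨mem_univ _, h1, h2⟩, mem_filter.mpr ⟨mem_univ _, h3⟩⟩
  have h1 : Fintype.card Y ^ Fintype.card (I → ZMod q) ≤ ∑ c : Y, ∑ s ∈ T,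
      (univ.filter (fun τ : (I → ZMod q) → Y => ∀ j, c - τ (s j) ∈ B)).card := by
    have h2 := card_le_card hcov
    rw [card_univ, Fintype.card_fun] at h2
    refine h2.trans (card_biUnion_le.trans (sum_le_sum fun c _ => card_biUnion_le))
  have h2 : Fintype.card Y ^ Fintype.card (I → ZMod q) * Fintype.card Y ^ K ≤
      Fintype.card Y * (T.card * (B.card ^ K * Fintype.card Y ^ Fintype.card (I → ZMod q))) := by
    refine (Nat.mul_le_mul_right _ h1).trans (le_of_eq ?_)
    rw [sum_mul]
    have h3 : ∀ c ∈ (univ : Finset Y), (∑ s ∈ T,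
        (univ.filter (fun τ : (I → ZMod q) → Y => ∀ j, c - τ (s j) ∈ B)).card) *
          Fintype.card Y ^ K =
        T.card * (B.card ^ K * Fintype.card Y ^ Fintype.card (I → ZMod q)) := by
      intro c _
      rw [sum_mul, sum_congr rfl (fun s hs => AmpRand.bad_card B c s (mem_filter.mp hs).2.1),
        sum_const, smul_eq_mul]
    rw [sum_congr rfl h3, sum_const, smul_eq_mul, card_univ]
  have hY : 0 < Fintype.card Y := Fintype.card_pos_iff.mpr ⟨0⟩
  have h4 : Fintype.card Y ^ K ≤ Fintype.card Y * (T.card * B.card ^ K) := by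
    have h6 : Fintype.card Y ^ Fintype.card (I → ZMod q) * Fintype.card Y ^ K ≤
        Fintype.card Y ^ Fintype.card (I → ZMod q) * (Fintype.card Y * (T.card * B.card ^ K)) := by
      refine h2.trans (le_of_eq ?_)
      ring
    exact Nat.le_of_mul_le_mul_left h6 (pow_pos hY _)
  have h5 : Fintype.card Y * (T.card * B.card ^ K) ≤
      Fintype.card Y * q ^ Fintype.card I * (K * Fintype.card I * q) ^ K * B.card ^ K := by
    have h6 := Nat.mul_le_mul_right (B.card ^ K) hTc
    have h7 := Nat.mul_le_mul_left (Fintype.card Y) h6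
    refine h7.trans (le_of_eq ?_)
    ring
  omega

end Pool.Agent.Lib.MP_1818ed_co
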