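import Mathlib
import Pool.Agent.Lib.MP_1818ed_co.Defs

/-!
# The choice of the parameters for dense graphs
-/

set_option autoImplicit false

namespace Pool.Agent.Lib.MP_1818ed_co

/-- The final inequality. -/
private lemma arith_final (Δ M p D a s n L Th r W : ℕ) (hM : 1 ≤ M) (hp : 16 * M ≤ p)
    (hs : 1 ≤ s) (hs1 : s * (a * (2 * M + 1)) ≤ 2 * M * n) (hL : n ≤ s * (L + Δ + 1))
    (hTh0 : 0 < Th) (hTh : 16 * M * (D + 1) * Th ≤ L) (hTh2 : L < 16 * M * (D + 1) * (Th + 1))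
    (hr : r * p ≤ a * (p + 2))
    (ha : 4 * M * ((D + 1) * ((D + 1) * (1 + 2 * (16 * M * (D + 1)) * W)) + Δ + 1) ≤ a) :
    r + (D + 1) * (Th + (D + 1) * (1 + L * W / Th)) ≤ L := by
  set C₀ : ℕ := (D + 1) * ((D + 1) * (1 + 2 * (16 * M * (D + 1)) * W)) with hC₀
  -- the quotient
  have h1 : L * W / Th ≤ 2 * (16 * M * (D + 1)) * W := by
    apply Nat.div_le_of_le_mul
    have h2 : L ≤ 2 * (16 * M * (D + 1)) * Th := by
      have h3 : 16 * M * (D + 1) * (Th + 1) ≤ 16 * M * (D + 1) * (2 * Th) :=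
        Nat.mul_le_mul_left _ (by omega)
      have h4 : 16 * M * (D + 1) * (2 * Th) = 2 * (16 * M * (D + 1)) * Th := by ring
      omega
    calc L * W ≤ 2 * (16 * M * (D + 1)) * Th * W := Nat.mul_le_mul_right _ h2
      _ = Th * (2 * (16 * M * (D + 1)) * W) := by ring
  have h2 : (D + 1) * (Th + (D + 1) * (1 + L * W / Th)) ≤ (D + 1) * Th + C₀ := by
    rw [hC₀, Nat.mul_add]
    apply Nat.add_le_add_left
    apply Nat.mul_le_mul_left
    apply Nat.mul_le_mul_left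
    exact Nat.add_le_add_left h1 1
  -- inequality I1
  have h3 : a * (2 * M + 1) ≤ 2 * M * (L + Δ + 1) := by
    have h4 : s * (a * (2 * M + 1)) ≤ s * (2 * M * (L + Δ + 1)) := by
      calc s * (a * (2 * M + 1)) ≤ 2 * M * n := hs1
        _ ≤ 2 * M * (s * (L + Δ + 1)) := Nat.mul_le_mul_left _ hL
        _ = s * (2 * M * (L + Δ + 1)) := by ring
    exact Nat.le_of_mul_le_mul_left h4 hs
  -- inequality I2
  have h4 : 16 * M * r ≤ (16 * M + 2) * a := by
    by_cases hra : r ≤ a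
    · nlinarith
    · obtain ⟨d, rfl⟩ : ∃ d, r = a + d := ⟨r - a, by omega⟩
      have h5 : d * p ≤ 2 * a := by nlinarith
      have h6 : d * (16 * M) ≤ d * p := Nat.mul_le_mul_left _ hp
      nlinarith
  have h5 : 16 * M * ((D + 1) * Th) ≤ L := by
    calc 16 * M * ((D + 1) * Th) = 16 * M * (D + 1) * Th := by ring
      _ ≤ L := hTh
  -- combine
  have h6 : 2 * M * (16 * M * (r + (D + 1) * Th + C₀)) ≤ 2 * M * (16 * M * L) := by
    have e1 : 2 * M * (16 * M * (r + (D + 1) * Th + C₀)) =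
        2 * M * (16 * M * r) + 2 * M * (16 * M * ((D + 1) * Th)) + 32 * M * M * C₀ := by ring
    have e2 : 2 * M * (16 * M * r) ≤ 2 * M * ((16 * M + 2) * a) := Nat.mul_le_mul_left _ h4
    have e3 : 2 * M * (16 * M * ((D + 1) * Th)) ≤ 2 * M * L := Nat.mul_le_mul_left _ h5
    obtain ⟨m, rfl⟩ : ∃ m, M = m + 1 := ⟨M - 1, by omega⟩
    -- (16M - 1) * I1
    have e4 : (16 * (m + 1) - 1) * (a * (2 * (m + 1) + 1)) ≤
        (16 * (m + 1) - 1) * (2 * (m + 1) * (L + Δ + 1)) := Nat.mul_le_mul_left _ h3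
    have e5 : 16 * (m + 1) - 1 = 16 * m + 15 := by omega
    rw [e5] at e4
    have e6 : 9 * (m + 1) * (4 * (m + 1) * (C₀ + Δ + 1)) ≤ 9 * (m + 1) * a :=
      Nat.mul_le_mul_left _ ha
    rw [e1]
    nlinarith [Nat.zero_le (m * a), Nat.zero_le (m * m * C₀), Nat.zero_le (m * C₀),
      Nat.zero_le (m * m * Δ), Nat.zero_le (m * Δ), Nat.zero_le (m * m)]
  have h7 : r + (D + 1) * Th + C₀ ≤ L := by
    have h8 : 0 < 2 * M := by omega
    have h9 : 0 < 16 * M := by omega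
    exact Nat.le_of_mul_le_mul_left (Nat.le_of_mul_le_mul_left h6 h8) h9
  omega

theorem arith : ArithStmt := by
  intro Δ M hM
  obtain ⟨p, hp1, hp⟩ := Nat.exists_infinite_primes (16 * M)
  obtain ⟨S, hS⟩ : ∃ S, S = 16 * M := ⟨_, rfl⟩
  obtain ⟨D, hD⟩ : ∃ D, D = p * S * Δ := ⟨_, rfl⟩
  obtain ⟨q, hq⟩ : ∃ q, q = 16 * M * (D + 1) := ⟨_, rfl⟩
  obtain ⟨W, hW⟩ : ∃ W, W = p ^ (D + 1) := ⟨_, rfl⟩
  obtain ⟨A₀, hA₀⟩ : ∃ A₀, A₀ = 4 * M * ((D + 1) * ((D + 1) *
    (1 + 2 * (16 * M * (D + 1)) * W)) + Δ + 1) + q + Δ + 1 := ⟨_, rfl⟩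
  have hp0 : 0 < p := hp.pos
  have hp2 : 1 < p := hp.one_lt
  have hS0 : 0 < S := by omega
  refine ⟨p, p * S * A₀, hp, ?_⟩
  intro n hn
  have hA₀1 : 1 ≤ A₀ := by omega
  have hnS : p ≤ n / S := by
    rw [Nat.le_div_iff_mul_le hS0]
    calc p * S = p * S * 1 := by ring
      _ ≤ p * S * A₀ := Nat.mul_le_mul_left _ hA₀1
      _ ≤ n := hn
  have hnS0 : n / S ≠ 0 := by omega
  obtain ⟨h, hh⟩ : ∃ h, h = Nat.log p (n / S) := ⟨_, rfl⟩
  obtain ⟨a, ha⟩ : ∃ a, a = p ^ h := ⟨_, rfl⟩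
  have h1 : a * S ≤ n := by
    have := Nat.pow_log_le_self p hnS0
    rw [Nat.le_div_iff_mul_le hS0, ← hh, ← ha] at this
    exact this
  have h2 : n < a * p * S := by
    have := Nat.lt_pow_succ_log_self hp2 (n / S)
    rw [Nat.div_lt_iff_lt_mul hS0, ← hh, Nat.succ_eq_add_one, pow_succ, ← ha] at this
    exact this
  have ha0 : 0 < a := by rw [ha]; exact Nat.pow_pos hp0
  have haA : A₀ < a := by
    have h3 : p * S * A₀ < p * S * a := by
      calc p * S * A₀ ≤ n := hn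
        _ < a * p * S := h2
        _ = p * S * a := by ring
    exact Nat.lt_of_mul_lt_mul_left h3
  obtain ⟨s, hs⟩ : ∃ s, s = 2 * M * n / (a * (2 * M + 1)) := ⟨_, rfl⟩
  have hden : 0 < a * (2 * M + 1) := Nat.mul_pos ha0 (by omega)
  have hs1 : 1 ≤ s := by
    rw [hs, Nat.le_div_iff_mul_le hden, one_mul]
    calc a * (2 * M + 1) ≤ a * (2 * M * S) := by
          apply Nat.mul_le_mul_left
          nlinarith
      _ = 2 * M * (a * S) := by ring
      _ ≤ 2 * M * n := Nat.mul_le_mul_left _ h1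
  have hs2 : s * (a * (2 * M + 1)) ≤ 2 * M * n := by rw [hs]; exact Nat.div_mul_le_self _ _
  have hs3 : 2 * M * n < (s + 1) * (a * (2 * M + 1)) := by
    have := Nat.lt_mul_div_succ (2 * M * n) hden
    rw [← hs] at this
    linarith
  have hspS : s ≤ p * S := by
    have h3 : s * (2 * M + 1) * a ≤ 2 * M * (p * S) * a := by
      calc s * (2 * M + 1) * a = s * (a * (2 * M + 1)) := by ring
        _ ≤ 2 * M * n := hs2
        _ ≤ 2 * M * (a * p * S) := Nat.mul_le_mul_left _ h2.le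
        _ = 2 * M * (p * S) * a := by ring
    have h4 : s * (2 * M + 1) ≤ 2 * M * (p * S) := Nat.le_of_mul_le_mul_right h3 ha0
    have h5 : s * (2 * M + 1) ≤ p * S * (2 * M + 1) := by
      refine h4.trans ?_
      rw [Nat.mul_comm (2 * M) (p * S)]
      exact Nat.mul_le_mul_left _ (by omega)
    exact Nat.le_of_mul_le_mul_right h5 (by omega)
  refine ⟨h, s, D, ?_, hs1, ?_, ?_, ?_⟩
  · rw [hh]
    exact Nat.log_pos hp2 hnS
  · rw [hD]; exact Nat.mul_le_mul_right _ hspS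
  · -- `(M - 1) n ≤ M a s`
    rw [← ha]
    obtain ⟨m, rfl⟩ : ∃ m, M = m + 1 := ⟨M - 1, by omega⟩
    rw [Nat.add_sub_cancel]
    have h3 : (2 * (m + 1) + 1) * (m * n) ≤ (2 * (m + 1) + 1) * ((m + 1) * (a * s)) := by
      have h4 : (m + 1) * (2 * (m + 1) * n) ≤ (m + 1) * ((s + 1) * (a * (2 * (m + 1) + 1))) :=
        Nat.mul_le_mul_left _ hs3.le
      have h5 : a * (16 * (m + 1)) ≤ n := by rw [← hS]; exact h1
      linarith [Nat.mul_le_mul_left (m + 2) h5, Nat.zero_le (m * a), Nat.zero_le (m * m * a)]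
    exact Nat.le_of_mul_le_mul_left h3 (by omega)
  · intro L hL
    have hLq : q ≤ L := by
      have h3 : s * (a * (2 * M + 1)) ≤ s * (2 * M * (L + Δ + 1)) := by
        calc s * (a * (2 * M + 1)) ≤ 2 * M * n := hs2
          _ ≤ 2 * M * (s * (L + Δ + 1)) := Nat.mul_le_mul_left _ hL
          _ = s * (2 * M * (L + Δ + 1)) := by ring
      have h4 : a * (2 * M + 1) ≤ 2 * M * (L + Δ + 1) := Nat.le_of_mul_le_mul_left h3 hs1
      have h5 : 2 * M * a ≤ 2 * M * (L + Δ + 1) := by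
        refine le_trans ?_ h4
        rw [Nat.mul_comm (2 * M) a]
        exact Nat.mul_le_mul_left _ (by omega)
      have h6 : a ≤ L + Δ + 1 := Nat.le_of_mul_le_mul_left h5 (by omega)
      omega
    have hq0 : 0 < q := by rw [hq]; positivity
    refine ⟨L / q, Nat.div_pos hLq hq0, ?_⟩
    intro r hr
    rw [← ha] at hr
    rw [← hW]
    refine arith_final Δ M p D a s n L (L / q) r W hM hp1 hs1 hs2 hL
      (Nat.div_pos hLq hq0) ?_ ?_ hr (by omega)
    · rw [← hq]; exact Nat.mul_div_le L q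
    · rw [← hq]; exact Nat.lt_mul_div_succ L hq0

end Pool.Agent.Lib.MP_1818ed_co
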