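import Mathlib
import Pool.Agent.Lib.MP_1818ed_co.Defs

/-! Basic facts: fewer colours, bigger graphs, adding vertices to a colouring. -/

set_option autoImplicit false

namespace Pool.Agent.Lib.MP_1818ed_co

open Finset

theorem colors : ColorsStmt := by
  intro V A B G e hB he h
  obtain ⟨f, hloc, hwin⟩ := h
  classical
  refine ⟨fun v c => if h : ∃ b, e b = f v (fun u => e (c u)) then h.choose
    else Classical.choice hB, ?_, ?_⟩
  · intro v c c' hcc
    have h1 : f v (fun u => e (c u)) = f v (fun u => e (c' u)) :=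
      hloc v _ _ (fun u hu => by rw [hcc u hu])
    simp only [h1]
  · intro c
    obtain ⟨v, hv⟩ := hwin (fun u => e (c u))
    refine ⟨v, ?_⟩
    have h1 : ∃ b, e b = f v (fun u => e (c u)) := ⟨c v, hv.symm⟩
    have h2 : (if h : ∃ b, e b = f v (fun u => e (c u)) then h.choose
      else Classical.choice hB) = h1.choose := dif_pos h1
    exact h2.trans (he (h1.choose_spec.trans hv))

theorem graph : GraphStmt := by
  intro V W A G H φ hA hφ hadj h
  obtain ⟨f, hloc, hwin⟩ := h
  classical
  refine ⟨fun v c => if h : ∃ w, φ w = v then f h.choose (fun w => c (φ w))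
    else Classical.choice hA, ?_, ?_⟩
  · intro v c c' hcc
    by_cases h1 : ∃ w, φ w = v
    · simp only [dif_pos h1]
      refine hloc _ _ _ (fun u hu => ?_)
      have h2 := hadj _ _ hu
      rw [h1.choose_spec] at h2
      exact hcc _ h2
    · simp only [dif_neg h1]
  · intro c
    obtain ⟨w, hw⟩ := hwin (fun w => c (φ w))
    refine ⟨φ w, ?_⟩
    have h1 : ∃ w', φ w' = φ w := ⟨w, rfl⟩
    have h2 : h1.choose = w := hφ h1.choose_spec
    simp only [dif_pos h1, h2]
    exact hw

theorem colAdd : ColAddStmt := by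
  intro V _ G S a b hS hb
  classical
  obtain ⟨C⟩ := hS
  have hfin : Finite (↥Sᶜ) := inferInstance
  have hcard : Nat.card (↥Sᶜ) ≤ b := by
    rw [Nat.card_coe_set_eq]
    exact hb
  have : Fintype (↥Sᶜ) := Fintype.ofFinite _
  rw [Nat.card_eq_fintype_card] at hcard
  obtain ⟨g⟩ : Nonempty (↥Sᶜ ↪ Fin b) := by
    apply Function.Embedding.nonempty_of_card_le
    simpa using hcard
  have hcol : G.Coloring (Fin a ⊕ Fin b) := SimpleGraph.Coloring.mk
    (fun v => if h : v ∈ S then Sum.inl (C ⟨v, h⟩) else Sum.inr (g ⟨v, h⟩)) (by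
      intro v w hvw
      by_cases hv : v ∈ S <;> by_cases hw : w ∈ S
      · rw [dif_pos hv, dif_pos hw]
        intro h
        have h1 : C ⟨v, hv⟩ = C ⟨w, hw⟩ := Sum.inl_injective h
        exact C.valid (v := ⟨v, hv⟩) (w := ⟨w, hw⟩) (by simpa using hvw) h1
      · rw [dif_pos hv, dif_neg hw]
        simp
      · rw [dif_neg hv, dif_pos hw]
        simp
      · rw [dif_neg hv, dif_neg hw]
        intro h
        have h1 : g ⟨v, hv⟩ = g ⟨w, hw⟩ := Sum.inr_injective h
        have h2 := g.injective h1
        have h3 : v = w := congrArg Subtype.val h2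
        exact hvw.ne h3)
  have := hcol.colorable
  simpa using this

end Pool.Agent.Lib.MP_1818ed_co
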