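import Mathlib
import Pool.Agent.Lib.MP_1818ed_co.Defs

/-!
# The blow up of a winning strategy
-/

set_option autoImplicit false

namespace Pool.Agent.Lib.MP_1818ed_co

open Finset

open Classical in
/-- The guess of the vertex `Q i b`. -/
noncomputable def blowGuess {V ι A B : Type} [Fintype B] [AddCommGroup A] [AddCommGroup B]
    (G' : SimpleGraph ι) (Q : ι → B → V) (f : ι → (ι → A) → A) (i : ι) (b : B)
    (c : V → A × B) : A × B :=
  (f i (fun j => if G'.Adj i j then ∑ b', (c (Q j b')).1 else 0) -
      ∑ b' ∈ Finset.univ.erase b, (c (Q i b')).1,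
    b - ∑ b' ∈ Finset.univ.erase b, (c (Q i b')).2)

theorem blow : BlowStmt := by
  classical
  intro V ι A B _ _ _ G G' Q hinj hcl hadj hwin
  obtain ⟨f, hf, hw⟩ := hwin
  have hch : ∀ (i : ι) (b : B) (h : ∃ p : ι × B, Q p.1 p.2 = Q i b),
      h.choose.1 = i ∧ h.choose.2 = b := by
    intro i b h
    exact hinj _ _ _ _ h.choose_spec
  refine ⟨fun v c => if h : ∃ p : ι × B, Q p.1 p.2 = v then
    blowGuess G' Q f h.choose.1 h.choose.2 c else 0, ?_, ?_⟩
  · intro v c c' hc
    by_cases h : ∃ p : ι × B, Q p.1 p.2 = v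
    · simp only [dif_pos h]
      have hv : Q h.choose.1 h.choose.2 = v := h.choose_spec
      generalize h.choose.1 = i at *
      generalize h.choose.2 = b at *
      have e1 : (fun j => if G'.Adj i j then ∑ b', (c (Q j b')).1 else 0) =
          (fun j => if G'.Adj i j then ∑ b', (c' (Q j b')).1 else 0) := by
        funext j
        by_cases hij : G'.Adj i j
        · rw [if_pos hij, if_pos hij]
          refine Finset.sum_congr rfl fun b' _ => ?_
          rw [hc (Q j b') (hv ▸ hadj i j hij b b')]
        · rw [if_neg hij, if_neg hij]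
      have e2 : ∀ b' ∈ (Finset.univ.erase b : Finset B), c (Q i b') = c' (Q i b') := by
        intro b' hb'
        exact hc _ (hv ▸ hcl i b b' (Finset.ne_of_mem_erase hb').symm)
      unfold blowGuess
      rw [e1, Finset.sum_congr rfl (fun b' hb' => by rw [e2 b' hb'])]
      congr 2
      exact Finset.sum_congr rfl (fun b' hb' => by rw [e2 b' hb'])
    · simp only [dif_neg h]
  · intro c
    obtain ⟨i, hi⟩ := hw (fun j => ∑ b, (c (Q j b)).1)
    refine ⟨Q i (∑ b, (c (Q i b)).2), ?_⟩
    have hex : ∃ p : ι × B, Q p.1 p.2 = Q i (∑ b, (c (Q i b)).2) := ⟨(i, _), rfl⟩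
    obtain ⟨k1, k2⟩ := hch i _ hex
    beta_reduce
    rw [dif_pos hex, k1, k2]
    have hmask : f i (fun j => if G'.Adj i j then ∑ b', (c (Q j b')).1 else 0) =
        ∑ b, (c (Q i b)).1 := by
      rw [← hi]
      apply hf
      intro u hu
      simp [hu]
    have h1 := Finset.add_sum_erase Finset.univ (fun b => (c (Q i b)).1)
      (Finset.mem_univ (∑ b, (c (Q i b)).2))
    have h2 := Finset.add_sum_erase Finset.univ (fun b => (c (Q i b)).2)
      (Finset.mem_univ (∑ b, (c (Q i b)).2))
    unfold blowGuess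
    refine Prod.ext ?_ ?_
    · show _ - _ = _
      rw [hmask, sub_eq_iff_eq_add]
      exact h1.symm
    · show _ - _ = _
      rw [sub_eq_iff_eq_add]
      exact h2.symm

end Pool.Agent.Lib.MP_1818ed_co
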