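import Mathlib
import Pool.Agent.Lib.MP_1818ed_co.Defs2

/-!
# The book strategy (assembly)
-/

set_option autoImplicit false

namespace Pool.Agent.Lib.MP_1818ed_co

open Finset

theorem book (h1 : BookDetStmt) (h2 : BookRandStmt) (h3 : VecStmt) : BookStmt := by
  classical
  intro V _ G U W q a d _ u hUW hsp hq hd hu0 hu1 hnum
  obtain ⟨v, hv⟩ := h3 V U q d hd
  have hq1 : 1 ≤ q := Nat.one_le_iff_ne_zero.2 (NeZero.ne q)
  -- `U` is nonempty
  have hU : U.Nonempty := by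
    rw [Finset.nonempty_iff_ne_empty]
    intro h0
    rw [h0] at hnum
    simp only [Finset.card_empty, zero_mul, pow_zero, mul_one] at hnum
    have hq1' : (1 : ℝ) ≤ (q : ℝ) := by exact_mod_cast hq1
    have e1 : (1 : ℝ) ≤ (q : ℝ) ^ (d + 1) := one_le_pow₀ hq1'
    have e2 : (1 : ℝ) ≤ (q : ℝ) ^ W.card := one_le_pow₀ hq1'
    have e3 : (1 : ℝ) ≤ (q : ℝ) ^ (d + 1) * (q : ℝ) ^ W.card := one_le_mul_of_one_le_of_one_le e1 e2
    linarith
  -- the spaces
  let P : Type := Fin (d + 1) → ZMod q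
  let ι : Type := {i : V // i ∈ U} × {t : ZMod q // t ≠ 0}
  let st : P → ι → P := fun p j => p + v j.1.1 j.2.1
  have hst : ∀ p, Function.Injective (st p) := by
    rintro p ⟨⟨i, hi⟩, ⟨t, ht⟩⟩ ⟨⟨j, hj⟩, ⟨s, hs⟩⟩ h
    have h' : v i t = v j s := add_left_cancel (a := p) h
    obtain ⟨e1, e2⟩ := hv i hi j hj t s h'
    have e3 : i = j := e2.resolve_left ht
    subst e1
    subst e3
    rfl
  have hvinj : ∀ i ∈ U, Function.Injective (v i) := fun i hi s t h => (hv i hi i hi s t h).1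
  have cP : Fintype.card P = q ^ (d + 1) := by
    show Fintype.card (Fin (d + 1) → ZMod q) = q ^ (d + 1)
    rw [Fintype.card_fun, ZMod.card, Fintype.card_fin]
  have cW : Fintype.card {w : V // w ∈ W} = W.card := Fintype.card_coe W
  have c0 : Fintype.card {t : ZMod q // t ≠ 0} = q - 1 := by
    rw [Fintype.card_subtype, Finset.filter_ne', Finset.card_erase_of_mem (Finset.mem_univ _),
      Finset.card_univ, ZMod.card]
  have cι : Fintype.card ι = U.card * (q - 1) := by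
    show Fintype.card ({i : V // i ∈ U} × {t : ZMod q // t ≠ 0}) = U.card * (q - 1)
    rw [Fintype.card_prod, Fintype.card_coe, c0]
  have hnum' : (Fintype.card P : ℝ) * (q : ℝ) ^ (Fintype.card {w : V // w ∈ W}) *
      (1 - (1 - u) * (1 - (1 - 1 / (q : ℝ)) ^ (Fintype.card {w : V // w ∈ W}))) ^
        (Fintype.card ι) < u ^ (U.card * a) := by
    rw [cP, cW, cι, Nat.cast_pow]
    exact hnum
  obtain ⟨g, hg⟩ := h2 {w : V // w ∈ W} P ι q (U.card * a) st u hst hu0 hu1 hnum'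
  let g' : V → P → ZMod q := fun w p => if h : w ∈ W then g ⟨w, h⟩ p else 0
  refine h1 V P G U W q a v g' hUW hsp hU hq hvinj ?_
  intro c p
  refine (hg (fun w => c w.1) p).trans ?_
  refine Finset.card_le_card_of_injOn (fun j : ι => ((j.1.1, j.2.1) : V × ZMod q)) ?_ ?_
  · intro j hj
    have hj' := (Finset.mem_filter.1 (Finset.mem_coe.1 hj)).2
    obtain ⟨w, hw⟩ := hj'
    refine Finset.mem_coe.2 (Finset.mem_filter.2 ⟨?_, w.1, w.2, ?_⟩)
    · rw [Finset.mem_product]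
      exact ⟨j.1.2, Finset.mem_erase.2 ⟨j.2.2, Finset.mem_univ _⟩⟩
    · show (if h : w.1 ∈ W then g ⟨w.1, h⟩ (p + v j.1.1 j.2.1) else 0) = c w.1
      rw [dif_pos w.2]
      exact hw
  · rintro ⟨⟨i, hi⟩, ⟨t, ht⟩⟩ _ ⟨⟨j, hj⟩, ⟨s, hs⟩⟩ _ h
    have e1 : i = j := congrArg Prod.fst h
    have e2 : t = s := congrArg Prod.snd h
    subst e1
    subst e2
    rfl

end Pool.Agent.Lib.MP_1818ed_co
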