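import Mathlib
import Pool.Agent.Lib.MP_1818ed_co.Defs2

/-!
# BookDet: the deterministic part of the book strategy
-/

set_option autoImplicit false

namespace Pool.Agent.Lib.MP_1818ed_co

open Finset

namespace BookDetM

open Classical in
/-- the points where all pages fail -/
noncomputable def bad {V P A : Type} [Fintype P] (W : Finset V) (g : V → P → A) (c : V → A) :
    Finset P :=
  univ.filter (fun p => ∀ w ∈ W, g w p ≠ c w)

theorem notMem_bad {V P A : Type} [Fintype P] (W : Finset V) (g : V → P → A) (c : V → A) (y : P) :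
    y ∉ bad W g c ↔ ∃ w ∈ W, g w y = c w := by
  simp [bad]

open Classical in
/-- the colouring restricted to the pages -/
noncomputable def cut {V : Type} (W : Finset V) (q : ℕ) [NeZero q] (x : V → ZMod q) :
    V → ZMod q :=
  fun w => if w ∈ W then x w else 0

open Classical in
/-- the sum over the other elements of the spine -/
noncomputable def sums {V P : Type} [AddCommGroup P] (U : Finset V) (q : ℕ)
    (v : V → (ZMod q →+ P)) (i : V) (x : V → ZMod q) : P :=
  ∑ j ∈ U.erase i, v j (x j)

open Classical in
/-- the guess of the vertex `i` of the spine -/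
noncomputable def gu {V P : Type} [AddCommGroup P] [Fintype P] (W : Finset V) (q : ℕ) [NeZero q]
    (v : V → (ZMod q →+ P)) (g : V → P → ZMod q) (O : (V → ZMod q) → P → V) (i : V) (s : P)
    (c : V → ZMod q) : ZMod q :=
  if h : ∃ t, s + v i t ∈ bad W g c ∧ O c (s + v i t) = i then h.choose else 0

theorem sum_bound {V P : Type} [Fintype V] [Fintype P] [AddCommGroup P] [DecidableEq V]
    [DecidableEq P] (U W : Finset V) (q a : ℕ) [NeZero q] (v : V → (ZMod q →+ P))
    (g : V → P → ZMod q) (hq : q = U.card + a) (c : V → ZMod q) (p : P) (B : Finset P)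
    (hB : ∀ y, y ∉ B ↔ ∃ w ∈ W, g w y = c w)
    (T : Finset (V × ZMod q)) (hT : ∀ it ∈ T, it.1 ∈ U ∧ ∃ w ∈ W, g w (p + v it.1 it.2) = c w)
    (hc : U.card * a ≤ T.card) :
    ∑ i ∈ U, (univ.filter (fun t : ZMod q => p + v i t ∈ B)).card ≤ U.card ^ 2 := by
  have h1 : ∑ i ∈ U, (univ.filter (fun t : ZMod q => p + v i t ∈ B)).card +
      ∑ i ∈ U, (univ.filter (fun t : ZMod q => ¬ p + v i t ∈ B)).card = U.card * q := by
    rw [← Finset.sum_add_distrib]
    have : ∀ i ∈ U, (univ.filter (fun t : ZMod q => p + v i t ∈ B)).card +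
        (univ.filter (fun t : ZMod q => ¬ p + v i t ∈ B)).card = q := by
      intro i _
      rw [Finset.card_filter_add_card_filter_not, Finset.card_univ, ZMod.card]
    rw [Finset.sum_congr rfl this, Finset.sum_const, smul_eq_mul]
  have h2 : T.card ≤ ∑ i ∈ U, (univ.filter (fun t : ZMod q => ¬ p + v i t ∈ B)).card := by
    have h3 : T ⊆ (U.sigma (fun i => univ.filter (fun t : ZMod q => ¬ p + v i t ∈ B))).map
        (Equiv.sigmaEquivProd V (ZMod q)).toEmbedding := by
      intro it hit
      obtain ⟨h4, h5⟩ := hT it hit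
      rw [Finset.mem_map]
      refine ⟨⟨it.1, it.2⟩, ?_, rfl⟩
      rw [Finset.mem_sigma, Finset.mem_filter]
      exact ⟨h4, Finset.mem_univ _, (hB _).2 h5⟩
    have h4 := Finset.card_le_card h3
    rw [Finset.card_map, Finset.card_sigma] at h4
    exact h4
  have h3 : U.card * q = U.card ^ 2 + U.card * a := by rw [hq]; ring
  omega

end BookDetM

open BookDetM in
theorem bookDet (h : OrientStmt) : BookDetStmt := by
  classical
  intro V P _ _ _ G U W q a _ v g hUW hS hU hq hinj hnum
  have hbad : ∀ (c : V → ZMod q) (y : P), y ∉ bad W g c ↔ ∃ w ∈ W, g w y = c w :=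
    fun c y => notMem_bad W g c y
  have hOr : ∀ c : V → ZMod q, ∃ O : P → V, (∀ p ∈ bad W g c, O p ∈ U) ∧
      ∀ p ∈ bad W g c, ∀ t : ZMod q, p + v (O p) t ∈ bad W g c →
        O (p + v (O p) t) = O p → v (O p) t = 0 := by
    intro c
    refine h V P U q v (bad W g c) hU hinj fun p _ => ?_
    refine sum_bound U W q a v g hq c p (bad W g c) (hbad c) _ ?_ (hnum c p)
    intro it hit
    rw [Finset.mem_filter, Finset.mem_product] at hit
    exact ⟨hit.1.1, hit.2⟩
  choose O hO1 hO2 using hOr
  have hcutW : ∀ (x : V → ZMod q) (w : V), w ∈ W → cut W q x w = x w := fun x w hw => by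
    unfold cut
    rw [if_pos hw]
  refine ⟨fun i x => if i ∈ U then gu W q v g O i (sums U q v i x) (cut W q x) else
    if i ∈ W then g i (∑ j ∈ U, v j (x j)) else 0, ?_, ?_⟩
  · intro i c c' hcc
    by_cases hi : i ∈ U
    · simp only [hi, if_true]
      have h1 : sums U q v i c = sums U q v i c' := by
        unfold sums
        refine Finset.sum_congr ?_ fun j hj => ?_
        · rfl
        · have hj' := Finset.mem_erase.1 hj
          rw [hcc j (hS i hi j (Or.inl hj'.2) hj'.1)]
      have h2 : cut W q c = cut W q c' := by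
        funext w
        unfold cut
        by_cases hw : w ∈ W
        · rw [if_pos hw, if_pos hw]
          refine hcc w (hS i hi w (Or.inr hw) ?_)
          rintro rfl
          exact (Finset.disjoint_left.1 hUW hi) hw
        · rw [if_neg hw, if_neg hw]
      rw [h1, h2]
    · by_cases hw : i ∈ W
      · simp only [hi, hw, if_true, if_false]
        congr 1
        refine Finset.sum_congr rfl fun j hj => ?_
        rw [hcc j]
        refine (hS j hj i (Or.inr hw) ?_).symm
        rintro rfl
        exact hi hj
      · simp only [hi, hw, if_false]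
  · intro x
    by_cases hp : ∑ j ∈ U, v j (x j) ∈ bad W g (cut W q x)
    · set c := cut W q x with hc
      set p := ∑ j ∈ U, v j (x j) with hpdef
      have hiU := hO1 c p hp
      set i := O c p with hi
      refine ⟨i, ?_⟩
      simp only [hiU, if_true]
      have hs : sums U q v i x + v i (x i) = p := by
        unfold sums
        rw [hpdef]
        convert Finset.sum_erase_add U (fun j => v j (x j)) hiU
      have hex : ∃ t, sums U q v i x + v i t ∈ bad W g c ∧
          O c (sums U q v i x + v i t) = i := ⟨x i, by rw [hs]; exact hp, by rw [hs]⟩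
      unfold gu
      rw [dif_pos hex]
      obtain ⟨h1, h2⟩ := hex.choose_spec
      set t := hex.choose with ht
      have h3 : p + v i (t - x i) = sums U q v i x + v i t := by
        rw [← hs, map_sub]
        abel
      have h4 := hO2 c p hp (t - x i) (by rw [← hi, h3]; exact h1) (by rw [← hi, h3]; exact h2)
      rw [← hi] at h4
      have h5 : t - x i = 0 := hinj i hiU (by rw [h4, map_zero])
      exact sub_eq_zero.1 h5
    · obtain ⟨w, hw, h1⟩ := (hbad _ _).1 hp
      refine ⟨w, ?_⟩
      have hwU : w ∉ U := fun h2 => (Finset.disjoint_left.1 hUW h2) hw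
      simp only [hwU, hw, if_true, if_false]
      rw [h1, hcutW x w hw]

end Pool.Agent.Lib.MP_1818ed_co
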