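import Mathlib
import Pool.Agent.Lib.MP_1818ed_co.Defs2

/-!
# MP_1818ed_co : the random part of the book strategy
-/

set_option autoImplicit false

namespace Pool.Agent.Lib.MP_1818ed_co

open Finset

namespace BookRandAux

open Classical in
/-- A product over the range of an injective map. -/
lemma prod_range {P ι : Type} [Fintype P] [Fintype ι] (st : ι → P) (hst : Function.Injective st)
    (f : P → ℝ) : ∏ y : P, (if y ∈ univ.image st then f y else 1) = ∏ j : ι, f (st j) := by
  rw [Finset.prod_ite_mem, Finset.univ_inter, Finset.prod_image fun a _ b _ h => hst h]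

open Classical in
/-- The number of functions which differ from `c` everywhere. -/
lemma card_avoid {W : Type} [Fintype W] {q : ℕ} [NeZero q] (c : W → ZMod q) :
    ((univ.filter (fun ρ : W → ZMod q => ¬ ∃ w, ρ w = c w)).card : ℝ) =
      ((q : ℝ) - 1) ^ Fintype.card W := by
  have h1 : univ.filter (fun ρ : W → ZMod q => ¬ ∃ w, ρ w = c w) =
      Fintype.piFinset (fun w => univ.erase (c w)) := by
    ext ρ
    simp [Fintype.mem_piFinset]
  have h2 : 1 ≤ q := Nat.one_le_iff_ne_zero.2 (NeZero.ne q)
  rw [h1, Fintype.card_piFinset]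
  simp [Finset.card_erase_of_mem, ZMod.card, Nat.cast_sub h2]

open Classical in
/-- One factor. -/
lemma factor {W : Type} [Fintype W] {q : ℕ} [NeZero q] (c : W → ZMod q) (u : ℝ) :
    ∑ ρ : W → ZMod q, (if ∃ w, ρ w = c w then u else 1) =
      (q : ℝ) ^ Fintype.card W *
        (1 - (1 - u) * (1 - (1 - 1 / (q : ℝ)) ^ (Fintype.card W))) := by
  have hq : (q : ℝ) ≠ 0 := Nat.cast_ne_zero.2 (NeZero.ne q)
  have h1 : (q : ℝ) ^ Fintype.card W * (1 - 1 / (q : ℝ)) ^ (Fintype.card W) =
      ((q : ℝ) - 1) ^ Fintype.card W := by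
    rw [← mul_pow]
    congr 1
    field_simp
  have h2 : ∑ ρ : W → ZMod q, (if ∃ w, ρ w = c w then u else 1) =
      ((univ.filter (fun ρ : W → ZMod q => ∃ w, ρ w = c w)).card : ℝ) * u +
        ((univ.filter (fun ρ : W → ZMod q => ¬ ∃ w, ρ w = c w)).card : ℝ) := by
    rw [Finset.sum_ite, Finset.sum_const, Finset.sum_const, nsmul_eq_mul, nsmul_eq_mul, mul_one]
  have h3 : ((univ.filter (fun ρ : W → ZMod q => ∃ w, ρ w = c w)).card : ℝ) +
      ((univ.filter (fun ρ : W → ZMod q => ¬ ∃ w, ρ w = c w)).card : ℝ) =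
      (q : ℝ) ^ Fintype.card W := by
    rw [← Nat.cast_add, Finset.card_filter_add_card_filter_not]
    simp [ZMod.card]
  rw [card_avoid] at h2 h3
  rw [h2]
  have h4 : (q : ℝ) ^ Fintype.card W *
        (1 - (1 - u) * (1 - (1 - 1 / (q : ℝ)) ^ (Fintype.card W))) =
      (q : ℝ) ^ Fintype.card W - (1 - u) * ((q : ℝ) ^ Fintype.card W -
        (q : ℝ) ^ Fintype.card W * (1 - 1 / (q : ℝ)) ^ (Fintype.card W)) := by ring
  rw [h4, h1, ← h3]
  ring

open Classical in
/-- The exponential moment. -/
lemma moment {W P ι : Type} [Fintype W] [Fintype P] [Fintype ι] {q : ℕ} [NeZero q]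
    (st : ι → P) (hst : Function.Injective st) (c : W → ZMod q) (u : ℝ) :
    ∑ h : P → W → ZMod q, u ^ (univ.filter (fun j : ι => ∃ w, h (st j) w = c w)).card =
      ((q : ℝ) ^ Fintype.card W) ^ Fintype.card P *
        (1 - (1 - u) * (1 - (1 - 1 / (q : ℝ)) ^ (Fintype.card W))) ^ (Fintype.card ι) := by
  have h1 : ∀ h : P → W → ZMod q,
      u ^ (univ.filter (fun j : ι => ∃ w, h (st j) w = c w)).card =
        ∏ y : P, (if y ∈ univ.image st then (if ∃ w, h y w = c w then u else 1) else 1) := by
    intro h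
    rw [prod_range st hst (fun y => if ∃ w, h y w = c w then u else 1), Finset.prod_ite,
      Finset.prod_const, Finset.prod_const_one, mul_one]
  rw [Finset.sum_congr rfl fun h _ => h1 h]
  have h2 : ∑ h : P → W → ZMod q,
      ∏ y : P, (if y ∈ univ.image st then (if ∃ w, h y w = c w then u else 1) else (1 : ℝ)) =
      ∏ y : P, ∑ ρ : W → ZMod q,
        (if y ∈ univ.image st then (if ∃ w, ρ w = c w then u else 1) else (1 : ℝ)) := by
    rw [Finset.prod_univ_sum, Fintype.piFinset_univ]
  rw [h2]
  set T : ℝ := 1 - (1 - u) * (1 - (1 - 1 / (q : ℝ)) ^ (Fintype.card W)) with hT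
  have h3 : ∀ y : P, ∑ ρ : W → ZMod q,
        (if y ∈ univ.image st then (if ∃ w, ρ w = c w then u else 1) else (1 : ℝ)) =
      (q : ℝ) ^ Fintype.card W * (if y ∈ univ.image st then T else 1) := by
    intro y
    by_cases hy : y ∈ univ.image st
    · simp only [if_pos hy]
      rw [factor, hT]
    · simp only [if_neg hy]
      simp [ZMod.card]
  rw [Finset.prod_congr rfl fun y _ => h3 y, Finset.prod_mul_distrib,
    prod_range st hst (fun _ => T), Finset.prod_const, Finset.prod_const, Finset.card_univ,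
    Finset.card_univ]

end BookRandAux

open BookRandAux in
theorem bookRand : BookRandStmt := by
  classical
  intro W P ι _ _ _ q K _ st u hst hu0 hu1 hnum
  by_contra hcon
  push Not at hcon
  -- every `h` has a bad pair
  have hbad : ∀ h : P → W → ZMod q, ∃ (c : W → ZMod q) (p : P),
      (univ.filter (fun j : ι => ∃ w, h (st p j) w = c w)).card < K := by
    intro h
    obtain ⟨c, p, hcp⟩ := hcon (fun w y => h y w)
    exact ⟨c, p, by convert hcp⟩
  have hq : (q : ℝ) ≠ 0 := Nat.cast_ne_zero.2 (NeZero.ne q)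
  have hqpos : (0 : ℝ) < q := by
    have : 0 < q := Nat.pos_of_ne_zero (NeZero.ne q)
    exact_mod_cast this
  set Q : ℝ := (q : ℝ) ^ Fintype.card W with hQ
  have hQpos : 0 < Q := by positivity
  set T : ℝ := 1 - (1 - u) * (1 - (1 - 1 / (q : ℝ)) ^ (Fintype.card W)) with hT
  -- upper bound
  have hup : ∑ h : P → W → ZMod q, ∑ p : P, ∑ c : W → ZMod q,
      u ^ (univ.filter (fun j : ι => ∃ w, h (st p j) w = c w)).card =
        Q ^ Fintype.card P * ((Fintype.card P : ℝ) * Q * T ^ Fintype.card ι) := by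
    rw [Finset.sum_comm]
    have h1 : ∀ p : P, ∑ h : P → W → ZMod q, ∑ c : W → ZMod q,
        u ^ (univ.filter (fun j : ι => ∃ w, h (st p j) w = c w)).card =
        Q * (Q ^ Fintype.card P * T ^ Fintype.card ι) := by
      intro p
      rw [Finset.sum_comm]
      rw [Finset.sum_congr rfl fun c _ => moment (st p) (hst p) c u]
      rw [Finset.sum_const, nsmul_eq_mul, Finset.card_univ]
      simp only [Fintype.card_fun, ZMod.card]
      rw [Nat.cast_pow]
    rw [Finset.sum_congr rfl fun p _ => h1 p, Finset.sum_const, nsmul_eq_mul, Finset.card_univ]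
    ring
  -- lower bound
  have hlow : Q ^ Fintype.card P * u ^ K ≤ ∑ h : P → W → ZMod q, ∑ p : P, ∑ c : W → ZMod q,
      u ^ (univ.filter (fun j : ι => ∃ w, h (st p j) w = c w)).card := by
    have h1 : Q ^ Fintype.card P * u ^ K = ∑ _h : P → W → ZMod q, u ^ K := by
      rw [Finset.sum_const, nsmul_eq_mul, Finset.card_univ]
      simp only [Fintype.card_fun, ZMod.card]
      rw [hQ]
      push_cast
      ring
    rw [h1]
    apply Finset.sum_le_sum
    intro h _
    obtain ⟨c, p, hcp⟩ := hbad h
    have h2 : u ^ K ≤ u ^ (univ.filter (fun j : ι => ∃ w, h (st p j) w = c w)).card :=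
      pow_le_pow_of_le_one hu0.le hu1 hcp.le
    refine h2.trans ?_
    have h3 : u ^ (univ.filter (fun j : ι => ∃ w, h (st p j) w = c w)).card ≤
        ∑ c : W → ZMod q, u ^ (univ.filter (fun j : ι => ∃ w, h (st p j) w = c w)).card :=
      Finset.single_le_sum
        (f := fun c : W → ZMod q =>
          u ^ (univ.filter (fun j : ι => ∃ w, h (st p j) w = c w)).card)
        (fun c _ => pow_nonneg hu0.le _) (Finset.mem_univ c)
    refine h3.trans ?_
    exact Finset.single_le_sum
        (f := fun p : P => ∑ c : W → ZMod q,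
          u ^ (univ.filter (fun j : ι => ∃ w, h (st p j) w = c w)).card)
        (fun p _ => Finset.sum_nonneg fun c _ => pow_nonneg hu0.le _) (Finset.mem_univ p)
  rw [hup] at hlow
  have h4 : u ^ K ≤ (Fintype.card P : ℝ) * Q * T ^ Fintype.card ι :=
    le_of_mul_le_mul_left hlow (by positivity)
  exact absurd hnum (not_lt.2 h4)

end Pool.Agent.Lib.MP_1818ed_co
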