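import Mathlib
import Pool.Agent.Lib.MP_1818ed_co.Defs3

/-! The sum game on the greedy clique of special vertices. -/

set_option autoImplicit false

namespace Pool.Agent.Lib.MP_1818ed_co

open Finset

namespace GreedyGameM

variable {X : Type} (G : SimpleGraph X)

def GGClq (C : Finset X) : Prop := ∀ u ∈ C, ∀ v ∈ C, u ≠ v → G.Adj u v

open Classical in
theorem gg_clq_insert {C : Finset X} (hC : GGClq G C) {v : X} (hv : ∀ u ∈ C, G.Adj v u) :
    GGClq G (insert v C) := by
  intro a ha b hb hab
  rw [Finset.mem_insert] at ha hb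
  rcases ha with rfl | ha <;> rcases hb with rfl | hb
  · exact absurd rfl hab
  · exact hv b hb
  · exact (hv a ha).symm
  · exact hC a ha b hb hab

theorem gg_greedy_clq (A : X → Prop) (s : ℕ) (l : List X) : ∀ C : Finset X, GGClq G C →
    GGClq G (greedy G A s l C) := by
  classical
  induction l with
  | nil => intro C hC; exact hC
  | cons v l ih =>
    intro C hC
    unfold greedy
    split_ifs with h
    · apply ih
      convert gg_clq_insert G hC h.2.2
    · exact ih C hC

theorem gg_greedy_sub (A : X → Prop) (s : ℕ) (l : List X) : ∀ C : Finset X,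
    C ⊆ greedy G A s l C := by
  classical
  induction l with
  | nil => intro C; exact Finset.Subset.refl C
  | cons v l ih =>
    intro C
    unfold greedy
    split_ifs with h
    · exact (Finset.subset_insert v C).trans (ih _)
    · exact ih C

theorem gg_greedy_A (A : X → Prop) (s : ℕ) (l : List X) : ∀ C : Finset X,
    ∀ u ∈ greedy G A s l C, u ∈ C ∨ A u := by
  classical
  induction l with
  | nil => intro C u hu; exact Or.inl hu
  | cons v l ih =>
    intro C u hu
    unfold greedy at hu
    split_ifs at hu with h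
    · rcases ih _ u hu with h1 | h1
      · rcases Finset.mem_insert.1 h1 with rfl | h2
        · exact Or.inr h.2.1
        · exact Or.inl h2
      · exact Or.inr h1
    · exact ih C u hu

theorem gg_view (A : X → Prop) (s : ℕ) (w : X) (l : List X) : ∀ C : Finset X, GGClq G C →
    w ∈ greedy G A s l C →
    greedy G (fun v => A v ∧ (v = w ∨ G.Adj w v)) s l C = greedy G A s l C := by
  classical
  induction l with
  | nil => intro C _ _; rfl
  | cons v l ih =>
    intro C hC hw
    by_cases h : C.card < s ∧ A v ∧ ∀ u ∈ C, G.Adj v u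
    · have e1 : greedy G A s (v :: l) C = greedy G A s l (insert v C) := by
        rw [greedy, if_pos h]
      have hC' : GGClq G (insert v C) := gg_clq_insert G hC h.2.2
      rw [e1] at hw ⊢
      have hfin := gg_greedy_clq G A s l (insert v C) hC'
      have hv : v ∈ greedy G A s l (insert v C) :=
        gg_greedy_sub G A s l _ (Finset.mem_insert_self v C)
      have h2 : v = w ∨ G.Adj w v := by
        by_cases hvw : v = w
        · exact Or.inl hvw
        · exact Or.inr (hfin w hw v hv (fun h => hvw h.symm))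
      have e2 : greedy G (fun v => A v ∧ (v = w ∨ G.Adj w v)) s (v :: l) C =
          greedy G (fun v => A v ∧ (v = w ∨ G.Adj w v)) s l (insert v C) := by
        rw [greedy, if_pos ⟨h.1, ⟨h.2.1, h2⟩, h.2.2⟩]
      rw [e2]
      exact ih _ hC' hw
    · have e1 : greedy G A s (v :: l) C = greedy G A s l C := by
        rw [greedy, if_neg h]
      rw [e1] at hw ⊢
      have e2 : greedy G (fun v => A v ∧ (v = w ∨ G.Adj w v)) s (v :: l) C =
          greedy G (fun v => A v ∧ (v = w ∨ G.Adj w v)) s l C := by
        rw [greedy, if_neg]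
        rintro ⟨h1, h2, h3⟩
        exact h ⟨h1, h2.1, h3⟩
      rw [e2]
      exact ih _ hC hw

theorem gg_exists_r (σ : ℕ) [NeZero σ] (K : Finset X) (hK : K.card = σ) :
    ∃ r : X → ZMod σ, ∀ t : ZMod σ, ∃ w ∈ K, r w = t := by
  classical
  have h1 : Fintype.card {x // x ∈ K} = Fintype.card (ZMod σ) := by
    rw [ZMod.card, Fintype.card_coe, hK]
  let e := Fintype.equivOfCardEq h1
  refine ⟨fun x => if h : x ∈ K then e ⟨x, h⟩ else 0, fun t => ?_⟩
  refine ⟨(e.symm t).1, (e.symm t).2, ?_⟩
  show (if h : (e.symm t).1 ∈ K then e ⟨(e.symm t).1, h⟩ else 0) = t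
  rw [dif_pos (e.symm t).2]
  exact e.apply_symm_apply t

end GreedyGameM

open GreedyGameM in
theorem greedyGame : GreedyGameStmt := by
  intro X _ G l q σ _ hσ hσq
  classical
  haveI : NeZero σ := ⟨by omega⟩
  have hr : ∀ K : Finset X, ∃ r : X → ZMod σ, K.card = σ → ∀ t : ZMod σ, ∃ w ∈ K, r w = t := by
    intro K
    by_cases hK : K.card = σ
    · obtain ⟨r, hr⟩ := gg_exists_r σ K hK
      exact ⟨r, fun _ => hr⟩
    · exact ⟨fun _ => 0, fun h => absurd h hK⟩
  choose r hr using hr
  obtain ⟨Aw, hAw⟩ : ∃ Aw : X → (X → ZMod q) → X → Prop, Aw = fun w y v =>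
    v = w ∨ ((y v).val < σ ∧ G.Adj w v) := ⟨_, rfl⟩
  obtain ⟨Kw, hKw⟩ : ∃ Kw : X → (X → ZMod q) → Finset X, Kw = fun w y =>
    greedy G (Aw w y) σ l ∅ := ⟨_, rfl⟩
  refine ⟨fun w y => if w ∈ Kw w y ∧ (Kw w y).card = σ then
    (((r (Kw w y) w - ∑ k ∈ (Kw w y).erase w, ((y k).val : ZMod σ)).val : ℕ) : ZMod q) else 0,
    ?_, ?_⟩
  · intro w c c' hcc
    have h1 : Aw w c = Aw w c' := by
      rw [hAw]
      funext v
      apply propext
      dsimp only
      by_cases hv : G.Adj w v
      · rw [hcc v hv]
      · simp [hv]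
    have h2 : Kw w c = Kw w c' := by
      rw [hKw]
      dsimp only
      rw [h1]
    dsimp only
    rw [h2]
    have h3 : ∑ k ∈ (Kw w c').erase w, ((c k).val : ZMod σ) =
        ∑ k ∈ (Kw w c').erase w, ((c' k).val : ZMod σ) := by
      refine Finset.sum_congr rfl fun k hk => ?_
      rw [Finset.mem_erase] at hk
      have h4 : k ∈ greedy G (Aw w c') σ l ∅ := by
        have := hk.2
        rw [hKw] at this
        exact this
      rcases gg_greedy_A G _ _ _ _ k h4 with h5 | h5
      · simp at h5
      · rw [hAw] at h5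
        rcases h5 with h5 | h5
        · exact absurd h5 hk.1
        · rw [hcc k h5.2]
    rw [h3]
  · intro y hy
    set K := greedy G (fun v => (y v).val < σ) σ l ∅ with hK
    obtain ⟨w, hwK, hw⟩ := hr K hy (∑ k ∈ K, ((y k).val : ZMod σ))
    have hw1 : (y w).val < σ := by
      rcases gg_greedy_A G _ _ _ _ w hwK with h | h
      · simp at h
      · exact h
    have h1 : Kw w y = K := by
      rw [hKw, hK]
      dsimp only
      rw [← gg_view G (fun v => (y v).val < σ) σ w l ∅ (fun u hu => by simp at hu) hwK]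
      congr 1
      funext v
      apply propext
      rw [hAw]
      dsimp only
      constructor
      · rintro (h | ⟨h, h'⟩)
        · subst h; exact ⟨hw1, Or.inl rfl⟩
        · exact ⟨h, Or.inr h'⟩
      · rintro ⟨h, h' | h'⟩
        · exact Or.inl h'
        · exact Or.inr ⟨h, h'⟩
    refine ⟨w, ?_⟩
    dsimp only
    rw [h1, if_pos ⟨hwK, hy⟩, hw]
    have h2 : ∑ k ∈ K, ((y k).val : ZMod σ) - ∑ k ∈ K.erase w, ((y k).val : ZMod σ) =
        ((y w).val : ZMod σ) := by
      rw [← Finset.add_sum_erase K _ hwK]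
      ring
    rw [h2, ZMod.val_cast_of_lt hw1, ZMod.natCast_zmod_val]

end Pool.Agent.Lib.MP_1818ed_co
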