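import Mathlib
import Pool.Agent.Lib.MP_1818ed_co.Defs2

/-! The main theorem for graphs with `χ(G) ≥ (4/5) n`. -/

set_option autoImplicit false

namespace Pool.Agent.Lib.MP_1818ed_co

open Finset

theorem main45_win_zero {V : Type} (G : SimpleGraph V) (v₀ : V) : Win G (Fin 0) :=
  ⟨fun v c => c v, fun v c _ _ => (c v).elim0, fun c => (c v₀).elim0⟩

theorem main45_win_zmod (h1 : ColorsStmt) {V : Type} (G : SimpleGraph V) (n : ℕ) [NeZero n]
    (h : Win G (ZMod n)) : Win G (Fin n) := by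
  have e : Fin n ≃ ZMod n := Fintype.equivOfCardEq (by rw [Fintype.card_fin, ZMod.card])
  exact h1 V (ZMod n) (Fin n) G e ⟨⟨0, Nat.pos_of_ne_zero (NeZero.ne n)⟩⟩ e.injective h

/-- a clique with `n` vertices wins with `n` colours -/
theorem main45_clique (h2 : GraphStmt) (h3 : HelperStmt) {V : Type} [Fintype V]
    (G : SimpleGraph V) (U : Finset V) (n : ℕ) [NeZero n] (hn : n ≤ U.card)
    (hU : ∀ u ∈ U, ∀ v ∈ U, v ≠ u → G.Adj u v) : Win G (ZMod n) := by
  classical
  obtain ⟨U', hU', hcard⟩ := Finset.exists_subset_card_eq hn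
  have hw : Win (G.comap (fun u : {u // u ∈ U'} => u.1)) (ZMod n) := by
    refine h3 {u // u ∈ U'} _ Finset.univ n (fun _ _ _ => 0) ?_ ?_ ?_
    · intro u _ v hvu
      exact hU u.1 (hU' u.2) v.1 (hU' v.2) fun h => hvu (Subtype.ext h)
    · intro v hv
      exact absurd (Finset.mem_univ v) hv
    · intro c
      have h : ∀ s : Finset (ZMod n), s.card ≤ (Finset.univ : Finset {u // u ∈ U'}).card := by
        intro s
        refine (Finset.card_le_univ s).trans (le_of_eq ?_)
        rw [Finset.card_univ, ZMod.card, Fintype.card_coe, hcard]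
      exact h _
  exact h2 V {u // u ∈ U'} (ZMod n) G _ (fun u => u.1) ⟨0⟩ Subtype.val_injective
    (fun a b hab => hab) hw

theorem main45 (h1 : ColorsStmt) (h2 : GraphStmt) (h3 : HelperStmt) (h4 : ReduceStmt)
    (h5 : BookStmt) (h6 : NumStmt) : FourFifthsStmt := by
  classical
  obtain ⟨q₀, hnum⟩ := h6
  refine ⟨2 * q₀ + 1, ?_⟩
  intro V _ G hn hχ q hq
  by_contra hcol
  obtain ⟨v₀⟩ : Nonempty V := by
    rw [← Fintype.card_pos_iff]
    omega
  have hq0 : q ≠ 0 := by
    rintro rfl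
    exact hq (main45_win_zero G v₀)
  have hex : ∃ r, G.Colorable r := ⟨_, G.colorable_of_fintype⟩
  obtain ⟨χ, hχc, hχmin⟩ : ∃ χ, G.Colorable χ ∧ ∀ r, G.Colorable r → χ ≤ r :=
    ⟨Nat.find hex, Nat.find_spec hex, fun r hr => Nat.find_min' hex hr⟩
  have h4n := hχ χ hχc
  have hqχ : q ≤ χ := by
    by_contra hcon
    exact hcol (hχc.mono (by omega))
  have hχ0 : χ ≠ 0 := by omega
  have : NeZero χ := ⟨hχ0⟩
  have hqq : q₀ ≤ χ := by omega
  -- it is enough to win with `χ` colours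
  suffices hw : Win G (ZMod χ) by
    refine hq (h1 V (Fin χ) (Fin q) G (Fin.castLE hqχ) ⟨⟨0, Nat.pos_of_ne_zero hq0⟩⟩ ?_
      (main45_win_zmod h1 G χ hw))
    exact Fin.castLE_injective hqχ
  have hnot : ¬ G.Colorable (χ - 1) := by
    intro h
    have := hχmin _ h
    omega
  obtain ⟨U, W, hd, hsp, hcase⟩ := h4 V G (χ - 1) hnot
  rw [Nat.sub_add_cancel (Nat.one_le_iff_ne_zero.2 hχ0)] at hcase
  rcases hcase with hc | ⟨hc1, hc2⟩
  · exact main45_clique h2 h3 G U χ hc fun u hu v hv hvu => hsp u hu v (Or.inl hv) hvu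
  · have hUW : U.card + W.card ≤ Fintype.card V := by
      rw [← Finset.card_union_of_disjoint hd]
      exact Finset.card_le_univ _
    obtain ⟨a, ha⟩ : ∃ a, χ = U.card + a := ⟨χ - U.card, by omega⟩
    obtain ⟨W', hW', hWc⟩ := Finset.exists_subset_card_eq (min_le_left W.card (2 * a))
    have hN1 : W'.card ≤ W.card := by rw [hWc]; exact min_le_left _ _
    have hN2 : W'.card ≤ 2 * a := by rw [hWc]; exact min_le_right _ _
    have hN3 : 3 * a ≤ 2 * W'.card + 1 := by
      rw [hWc]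
      rcases le_total W.card (2 * a) with h | h
      · rw [min_eq_left h]; omega
      · rw [min_eq_right h]; omega
    obtain ⟨d, u, hd1, hu0, hu1, hlt⟩ := hnum U.card W'.card a χ ha hqq (by omega) hN3 (by omega) hN2
    refine h5 V G U W' χ a d u (Finset.disjoint_of_subset_right hW' hd) ?_ ha hd1 hu0 hu1 hlt
    intro x hx v hv hvx
    exact hsp x hx v (hv.imp id fun h => hW' h) hvx

end Pool.Agent.Lib.MP_1818ed_co
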