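import Mathlib
import Pool.Agent.Lib.MP_1818ed_co.Defs

/-!
# MP_1818ed_co, Case 1: many vertices with a non-neighbour
-/

set_option autoImplicit false

namespace Pool.Agent.Lib.MP_1818ed_co

open Finset

private theorem case1_win_zero {V : Type} [Nonempty V] (G : SimpleGraph V) : Win G (Fin 0) := by
  refine ⟨fun v c => c v, fun v c _ _ => (c v).elim0, fun c => ?_⟩
  exact (c (Classical.arbitrary V)).elim0

theorem case1 (_h1 : ColorsStmt) (h2 : GraphStmt) (h3 : ColAddStmt) (h4 : DenseStmt)
    (h5 : ChiStmt) : Case1Stmt := by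
  classical
  intro k A
  obtain ⟨n₁, hn₁⟩ := h4 k (4 * k * A + 1) (by omega)
  refine ⟨n₁ + k + k * (4 * k * A + 1) + 1, ?_⟩
  intro V _ G X hX hdeg hmany hn q hq
  set n := Fintype.card V with hndef
  have hne : Nonempty V := Fintype.card_pos_iff.1 (by omega)
  have hq1 : 1 ≤ q := by
    by_contra h0
    have h0' : q = 0 := by omega
    subst h0'
    exact hq (case1_win_zero G)
  -- the graph outside X
  set S : Set V := {v | v ∉ X} with hS
  have hcardS : Fintype.card S + X.card = n := by
    have h6 : Fintype.card S = Fintype.card V - X.card := by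
      rw [← Fintype.card_coe X, ← Fintype.card_subtype_compl (fun v => v ∈ X)]
      exact Fintype.card_congr (Equiv.refl _)
    have h7 : X.card ≤ Fintype.card V := Finset.card_le_univ X
    omega
  have hdegS : ∀ v : S, {u : S | u ≠ v ∧ ¬ (G.induce S).Adj v u}.ncard ≤ k := by
    intro v
    rw [← Set.ncard_image_of_injective _ Subtype.val_injective]
    refine (Set.ncard_le_ncard ?_ (Set.toFinite _)).trans (hdeg v.1 v.2)
    rintro _ ⟨u, ⟨hu1, hu2⟩, rfl⟩
    exact ⟨u.2, fun h => hu1 (Subtype.ext h), fun h => hu2 h⟩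
  obtain ⟨ν, hν1, hν2, hν3⟩ := h5 S (G.induce S) k hdegS
  have hN : {v | v ∉ X ∧ ∃ u, u ∉ X ∧ u ≠ v ∧ ¬ G.Adj v u}.ncard ≤ 2 * k * ν := by
    refine le_trans ?_ hν1
    rw [← Set.ncard_image_of_injective _ Subtype.val_injective]
    refine Set.ncard_le_ncard ?_ (Set.toFinite _)
    rintro v ⟨hv, u, hu, huv, huadj⟩
    exact ⟨⟨v, hv⟩, ⟨⟨u, hu⟩, fun h => huv (congrArg Subtype.val h), fun h => huadj h⟩, rfl⟩
  have hcol : G.Colorable (n - ν) := by
    have h6 := h3 V G S (Fintype.card S - ν) X.card hν3 (by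
      have h7 : Sᶜ = (X : Set V) := by
        ext v
        simp [hS]
      rw [h7, Set.ncard_coe_finset])
    have h8 : Fintype.card S - ν + X.card = n - ν := by omega
    rwa [h8] at h6
  by_cases hle : n - ν ≤ q - 1
  · exact hcol.mono hle
  exfalso
  have hqν : q + ν ≤ n := by omega
  have hnA : n ≤ 2 * k * ν * A := hmany.trans (Nat.mul_le_mul_right A hN)
  have hwin : Win (G.induce S) (Fin q) := by
    apply hn₁ S (G.induce S) hdegS (by omega) q hq1
    have h9 : 4 * k * A + 1 - 1 = 4 * k * A := by omega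
    rw [h9]
    -- arithmetic
    have e1 : (4 * k * A + 1) * (q + ν) ≤ (4 * k * A + 1) * n := Nat.mul_le_mul_left _ hqν
    have e2 : 2 * n ≤ 4 * k * A * ν := by
      calc 2 * n ≤ 2 * (2 * k * ν * A) := Nat.mul_le_mul_left 2 hnA
        _ = 4 * k * A * ν := by ring
    have e3 : (4 * k * A) * (Fintype.card S + X.card) = (4 * k * A) * n := by rw [hcardS]
    have e4 : (4 * k * A) * X.card ≤ (4 * k * A) * k := Nat.mul_le_mul_left _ hX
    have e5 : k * (4 * k * A + 1) = (4 * k * A) * k + k := by ring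
    have e6 : (4 * k * A + 1) * (q + ν) = (4 * k * A + 1) * q + (4 * k * A * ν + ν) := by ring
    have e7 : (4 * k * A + 1) * n = 4 * k * A * n + n := by ring
    have e8 : (4 * k * A) * (Fintype.card S + X.card) =
        4 * k * A * Fintype.card S + 4 * k * A * X.card := by ring
    rw [e6, e7] at e1
    rw [e8] at e3
    rw [e5] at hn
    omega
  have : Nonempty (Fin q) := ⟨⟨0, hq1⟩⟩
  exact hq (h2 V S (Fin q) G (G.induce S) Subtype.val inferInstance Subtype.val_injective
    (fun a b h => h) hwin)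

end Pool.Agent.Lib.MP_1818ed_co
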