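import Mathlib
import Pool.Agent.Lib.MP_1818ed_co.Defs

/-!
# Case2a: all but boundedly many vertices are universal
-/

set_option autoImplicit false

namespace Pool.Agent.Lib.MP_1818ed_co

open Finset

private lemma case2a_zero {V : Type} (G : SimpleGraph V) (hV : Nonempty V) : Win G (Fin 0) := by
  refine ⟨fun v c => c v, fun v c c' _ => (c v).elim0, fun c => ?_⟩
  obtain ⟨v⟩ := hV
  exact (c v).elim0

private lemma case2a_zmod {V : Type} (G : SimpleGraph V) (q : ℕ) (hq : 0 < q)
    (h : Win G (ZMod q)) : Win G (Fin q) := by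
  obtain ⟨n, rfl⟩ : ∃ n, q = n + 1 := ⟨q - 1, by omega⟩
  exact h

private lemma case2a_pow (N C : ℕ) (h1 : 1 ≤ N) (h2 : N ≤ C) :
    (N ^ N + 1) ^ N ≤ (C ^ C + 1) ^ C := by
  have h3 : N ^ N ≤ C ^ C :=
    (Nat.pow_le_pow_left h2 N).trans (Nat.pow_le_pow_right (by omega) h2)
  exact (Nat.pow_le_pow_left (by omega) N).trans (Nat.pow_le_pow_right (by omega) h2)

/-- `G` is good if all but boundedly many vertices are universal and there are many of them. -/
theorem case2a (_h1 : ColorsStmt) (h2 : ColAddStmt) (h3 : WinTrStmt) (h4 : DissStmt)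
    (h5 : NGStmt) : Case2aStmt := by
  classical
  intro C
  refine ⟨(C ^ C + 1) ^ C + 1, ?_⟩
  intro V _ G U hU hC hm q hq
  have hUpos : 0 < U.card := by omega
  have hV : Nonempty V := by
    obtain ⟨v, _⟩ := Finset.card_pos.1 hUpos
    exact ⟨v⟩
  have hq0 : 0 < q := by
    rcases Nat.eq_zero_or_pos q with h | h
    · exact absurd (h ▸ case2a_zero G hV) hq
    · exact h
  have hNZ : NeZero q := ⟨hq0.ne'⟩
  have hnW : ¬ Win G (ZMod q) := fun h => hq (case2a_zmod G q hq0 h)
  have hqm : U.card < q := by
    by_contra hcon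
    push Not at hcon
    apply hnW
    refine h3 V V G U q id (fun _ => 0) hU ?_ ?_
    · intro v _ v' _ hne h
      exact absurd h hne
    · intro s
      omega
  obtain ⟨V₀, hV₀⟩ : ∃ V₀ : Finset V, V₀ = Finset.univ \ U := ⟨_, rfl⟩
  have hmem : ∀ v, v ∈ V₀ ↔ v ∉ U := by
    intro v
    rw [hV₀]
    simp
  have hcard : V₀.card + U.card = Fintype.card V := by
    rw [hV₀]
    have := Finset.card_sdiff_add_card_eq_card (Finset.subset_univ U)
    rw [Finset.card_univ] at this
    exact this
  rcases V₀.eq_empty_or_nonempty with he | hne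
  · have h0 : V₀.card = 0 := by rw [he]; rfl
    have h1 : Fintype.card V ≤ q - 1 := by omega
    exact (SimpleGraph.colorable_of_fintype G).mono h1
  · have hN1 : 1 ≤ V₀.card := Finset.card_pos.2 hne
    have hNC : V₀.card ≤ C := by omega
    have hScard : Fintype.card ↥({v | v ∉ U} : Set V) = V₀.card := by
      rw [← Set.toFinset_card]
      congr 1
      ext v
      rw [Set.mem_toFinset, hmem]
      exact Iff.rfl
    obtain ⟨b, hb, hcol1, hcol2⟩ := h5 _ (G.induce ({v | v ∉ U} : Set V))
    rw [hScard] at hb hcol2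
    have hcomp : (({v | v ∉ U} : Set V)ᶜ).ncard ≤ U.card := by
      have : (({v | v ∉ U} : Set V)ᶜ) = (U : Set V) := by
        ext v
        simp
      rw [this, Set.ncard_coe_finset]
    have hcol := h2 V G ({v | v ∉ U} : Set V) _ _ hcol2 hcomp
    by_cases hle : V₀.card + 1 - b + U.card ≤ q - 1
    · exact hcol.mono hle
    · exfalso
      apply hnW
      obtain ⟨col⟩ := hcol1
      obtain ⟨κ, hκ⟩ : ∃ κ : V → ℕ, ∀ v (h : v ∉ U), κ v = (col ⟨v, h⟩).val := by
        refine ⟨fun v => if h : v ∉ U then (col ⟨v, h⟩).val else 0, ?_⟩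
        intro v h
        exact dif_pos h
      have hpow : (V₀.card ^ V₀.card + 1) ^ V₀.card ≤ q :=
        (case2a_pow _ _ hN1 hNC).trans (by omega)
      obtain ⟨t, ht⟩ := h4 V ℕ V₀ κ q hne hpow
      have himg : (V₀.image κ).card ≤ b := by
        have hsub : V₀.image κ ⊆ Finset.range b := by
          intro x hx
          rw [Finset.mem_image] at hx
          obtain ⟨v, hv, rfl⟩ := hx
          rw [Finset.mem_range, hκ v ((hmem v).1 hv)]
          exact (col ⟨v, (hmem v).1 hv⟩).isLt
        have := Finset.card_le_card hsub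
        rwa [Finset.card_range] at this
      refine h3 V ℕ G U q κ t hU ?_ ?_
      · intro v hv v' hv' hne' hkk
        rw [hκ v hv, hκ v' hv'] at hkk
        by_contra hadj
        have hval : col ⟨v, hv⟩ ≠ col ⟨v', hv'⟩ := by
          apply col.valid
          rw [SimpleGraph.compl_adj]
          refine ⟨fun h => hne' (congrArg Subtype.val h), ?_⟩
          intro h
          exact hadj h
        exact hval (Fin.ext hkk)
      · intro s
        have h6 := ht s
        rw [hV₀] at h6
        have h7 : ((Finset.univ \ U).image κ).card ≤ b := by rw [← hV₀]; exact himg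
        have h8 : (Finset.univ \ U).card + 1 ≤
            b + ((Finset.univ \ U).image (fun v => t v + s (κ v))).card := by
          omega
        have h9 : (Finset.univ \ U).card = V₀.card := by rw [hV₀]
        have h10 : q ≤ U.card +
            ((Finset.univ \ U).image (fun v => t v + s (κ v))).card := by
          omega
        convert h10 using 3

end Pool.Agent.Lib.MP_1818ed_co
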