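import Mathlib
import Pool.Agent.Lib.MP_1818ed_co.Defs

/-!
# MP_1818ed_co: case 2b (large core, many universal vertices)
-/

set_option autoImplicit false

namespace Pool.Agent.Lib.MP_1818ed_co

/-- the arithmetic of case 2b: `q / κ` is large -/
theorem case2b_arith (k w Q q' : ℕ) (hk : 1 ≤ k) (hw : 64 * k + 1 ≤ w)
    (hQ : 64 * k * w ≤ Q) (hq' : q' = (32 * k - 1) * (2 * w) / (32 * k)) :
    1 ≤ q' ∧ 8 * k * w ≤ 4 * k * (Q / (Q / q' + 1)) + w := by
  have hM : 0 < 32 * k := by omega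
  obtain ⟨a, ha⟩ : ∃ a, 32 * k = a + 1 := ⟨32 * k - 1, by omega⟩
  have ha' : 32 * k - 1 = a := by omega
  rw [ha', ha] at hq'
  have h1 : a * (2 * w) < (a + 1) * (q' + 1) := by
    rw [hq']
    exact Nat.lt_mul_div_succ _ (by omega)
  have h2 : (a + 1) * q' ≤ a * (2 * w) := by
    rw [hq']
    exact Nat.mul_div_le _ _
  have haw : 2 * (a + 1) ≤ w := by omega
  have ha31 : 31 ≤ a := by omega
  have hq1 : 1 ≤ q' := by
    by_contra hcon
    have : q' = 0 := by omega
    subst this
    nlinarith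
  refine ⟨hq1, ?_⟩
  have hq2 : q' ≤ 2 * w := by
    by_contra hcon
    have : 2 * w + 1 ≤ q' := by omega
    nlinarith
  set κ := Q / q' + 1 with hκ
  set r := Q / κ with hr
  have h3 : Q < κ * (r + 1) := Nat.lt_mul_div_succ _ (Nat.succ_pos _)
  have h4 : (Q / q') * q' ≤ Q := Nat.div_mul_le_self _ _
  have h5 : κ * q' ≤ Q + q' := by
    rw [hκ]; nlinarith
  have h6 : Q * q' < (r + 1) * (Q + q') := by
    calc Q * q' < κ * (r + 1) * q' := Nat.mul_lt_mul_of_pos_right h3 (by omega)
      _ = (r + 1) * (κ * q') := by ring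
      _ ≤ (r + 1) * (Q + q') := Nat.mul_le_mul_left _ h5
  -- `16 k (q' - r - 1) < w`
  have h7 : 16 * k * q' ≤ 16 * k * (r + 1) + w := by
    by_contra hcon
    push Not at hcon
    have hrq : r + 1 < q' := by
      by_contra hc
      push Not at hc
      have : 16 * k * q' ≤ 16 * k * (r + 1) := Nat.mul_le_mul_left _ hc
      omega
    obtain ⟨d, hd⟩ : ∃ d, q' = r + 1 + d := ⟨q' - (r + 1), by omega⟩
    have hdw : w < 16 * k * d := by
      rw [hd] at hcon
      nlinarith
    -- `d Q < (r+1) q' ≤ 4 w²`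
    have h8 : Q * d < (r + 1) * q' := by
      rw [hd] at h6
      rw [hd]
      nlinarith
    have h9 : (r + 1) * q' ≤ (2 * w) * (2 * w) := Nat.mul_le_mul (by omega) hq2
    have h10 : 64 * k * w * d ≤ Q * d := Nat.mul_le_mul_right _ hQ
    have h11 : 4 * w * w < 64 * k * w * d := by
      have : 4 * w * w < 4 * w * (16 * k * d) := Nat.mul_lt_mul_of_pos_left hdw (by omega)
      calc 4 * w * w < 4 * w * (16 * k * d) := this
        _ = 64 * k * w * d := by ring
    nlinarith
  -- `32 k q' ≥ (32 k - 1) 2 w - 32 k`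
  have h12 : 64 * k * w ≤ 32 * k * q' + 32 * k + 2 * w := by
    have e1 : a * (2 * w) + 2 * w = 32 * k * (2 * w) := by rw [ha]; ring
    have e2 : (a + 1) * (q' + 1) = 32 * k * q' + 32 * k := by rw [← ha]; ring
    rw [e2] at h1
    nlinarith
  have e3 : 64 * k * w = 8 * (8 * k * w) := by ring
  have e4 : 32 * k * q' = 2 * (16 * k * q') := by ring
  have e5 : 16 * k * (r + 1) = 4 * (4 * k * r) + 16 * k := by ring
  omega

/-- **Case 2b.** -/
theorem case2b (h1 : ColorsStmt) (h2 : GraphStmt) (h3 : ColAddStmt) (h4 : WinMultStmt)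
    (h5 : DenseStmt) (h6 : ChiStmt) : Case2bStmt := by
  classical
  intro k e
  rcases Nat.eq_zero_or_pos k with hk0 | hk
  · -- `k = 0`
    refine ⟨1, ?_⟩
    intro V _ G U W hU hdis hcard hC hm hdeg hex
    exfalso
    obtain ⟨v, hv⟩ := Finset.card_pos.mp (show 0 < W.card by omega)
    obtain ⟨u, hu, huv, hadj⟩ := hex v hv
    have hpos : 0 < {u | u ∈ W ∧ u ≠ v ∧ ¬ G.Adj v u}.ncard :=
      (Set.ncard_pos (Set.toFinite _)).mpr ⟨u, hu, huv, hadj⟩
    have := hdeg v hv
    omega
  obtain ⟨n₁, hn₁⟩ := h5 k (32 * k) (by omega)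
  refine ⟨n₁ + 4 * k * e + 64 * k + 1, ?_⟩
  intro V _ G U W hU hdis hcard hC hm hdeg hex q hq
  have hwpos : 0 < W.card := by omega
  obtain ⟨v₀, hv₀⟩ := Finset.card_pos.mp hwpos
  have : Nonempty V := ⟨v₀⟩
  -- `q ≥ 1`
  have hq1 : 1 ≤ q := by
    by_contra hcon
    have : q = 0 := by omega
    subst this
    exact hq ⟨fun v c => (c v).elim0, fun v c => (c v).elim0, fun c => (c v₀).elim0⟩
  -- the colouring
  obtain ⟨ν, hν1, hν2, hν3⟩ := h6 {v // v ∈ W} (G.induce {v | v ∈ W}) k (by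
    intro v
    have hinj : Function.Injective (Subtype.val : {v // v ∈ W} → V) := Subtype.val_injective
    have : (Subtype.val '' {u : {v // v ∈ W} | u ≠ v ∧ ¬ (G.induce {v | v ∈ W}).Adj v u}) ⊆
        {u | u ∈ W ∧ u ≠ v.1 ∧ ¬ G.Adj v.1 u} := by
      rintro _ ⟨u, ⟨hu1, hu2⟩, rfl⟩
      refine ⟨u.2, fun h => hu1 (Subtype.ext h), ?_⟩
      intro h
      exact hu2 (by simpa using h)
    have h' := Set.ncard_le_ncard this (Set.toFinite _)
    rw [Set.ncard_image_of_injective _ hinj] at h'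
    exact h'.trans (hdeg v.1 v.2))
  have hcW : Fintype.card {v // v ∈ W} = W.card := Fintype.card_coe W
  rw [hcW] at hν2 hν3
  have hwν : W.card ≤ 2 * k * ν := by
    refine le_trans ?_ hν1
    have : {v : {v // v ∈ W} | ∃ u, u ≠ v ∧ ¬ (G.induce {v | v ∈ W}).Adj v u} = Set.univ := by
      ext v
      simp only [Set.mem_ofPred_eq, Set.mem_univ, iff_true]
      obtain ⟨u, hu, huv, hadj⟩ := hex v.1 v.2
      refine ⟨⟨u, hu⟩, fun h => huv (congrArg Subtype.val h), ?_⟩
      intro h
      exact hadj (by simpa using h)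
    rw [this, Set.ncard_univ, Nat.card_eq_fintype_card, hcW]
  have hcol : G.Colorable ((W.card - ν) + (U.card + e)) := by
    refine h3 V G {v | v ∈ W} _ _ hν3 ?_
    have hcompl : ({v | v ∈ W}ᶜ : Set V) = ((Wᶜ : Finset V) : Set V) := by
      ext v; simp
    rw [hcompl, Set.ncard_coe_finset, Finset.card_compl]
    omega
  by_cases hle : (W.card - ν) + (U.card + e) ≤ q - 1
  · exact hcol.mono hle
  exfalso
  push Not at hle
  -- the bound for `q`
  obtain ⟨m, hmdef⟩ : ∃ m, m = U.card := ⟨_, rfl⟩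
  obtain ⟨w, hwdef⟩ : ∃ w, w = W.card := ⟨_, rfl⟩
  rw [← hmdef] at hcard hm hcol hle
  rw [← hwdef] at hcard hC hm hwpos hcW hν2 hν3 hwν hcol hle
  obtain ⟨w', hw'⟩ : ∃ w', w = w' + ν := ⟨w - ν, by omega⟩
  have hw's : w - ν = w' := by omega
  rw [hw's] at hle
  have hw65 : 64 * k + 1 ≤ w := by omega
  have hkw : 4 * w ≤ 4 * k * w := by nlinarith
  have hbound1 : 4 * k * q + w ≤ 4 * k * m + 4 * k * w := by
    have hq' : q ≤ w' + (m + e) := by omega
    have e1 : 4 * k * q ≤ 4 * k * (w' + (m + e)) := Nat.mul_le_mul_left _ hq'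
    have e2 : 4 * k * (w' + (m + e)) + 4 * k * ν = 4 * k * w + 4 * k * m + 4 * k * e := by
      rw [hw']; ring
    have e3 : 4 * k * ν = 2 * (2 * k * ν) := by ring
    omega
  have hbound2 : 4 * k * (m + 1) + w ≤ 4 * k * m + 4 * k * w := by
    have : 4 * k * (m + 1) = 4 * k * m + 4 * k := by ring
    omega
  obtain ⟨Q, hQdef⟩ : ∃ Q, Q = max q (m + 1) := ⟨_, rfl⟩
  have hQq : q ≤ Q := by omega
  have hQm : m + 1 ≤ Q := by omega
  have hbound : 4 * k * Q + w ≤ 4 * k * m + 4 * k * w := by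
    rcases max_choice q (m + 1) with h | h
    · rw [hQdef, h]; exact hbound1
    · rw [hQdef, h]; exact hbound2
  have : NeZero Q := ⟨by omega⟩
  -- it is enough to win with `ZMod Q`
  suffices hwin : Win G (ZMod Q) by
    apply hq
    have hcQ : Fintype.card (Fin q) ≤ Fintype.card (ZMod Q) := by
      rw [Fintype.card_fin, ZMod.card]; exact hQq
    obtain ⟨φ⟩ := Function.Embedding.nonempty_of_card_le hcQ
    exact h1 V (ZMod Q) (Fin q) G φ ⟨⟨0, by omega⟩⟩ φ.injective hwin
  -- the numbers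
  obtain ⟨q', hq'def⟩ : ∃ q', q' = (32 * k - 1) * (2 * w) / (32 * k) := ⟨_, rfl⟩
  obtain ⟨hq'1, har⟩ := case2b_arith k w Q q' hk hw65 (by omega) hq'def
  -- `Z`
  have hwm : w ≤ U.card := by
    rw [← hmdef]
    nlinarith
  obtain ⟨Z, hZU, hZc⟩ := Finset.exists_subset_card_eq hwm
  have hZdis : Disjoint W Z := (hdis.mono_left hZU).symm
  -- dense graph on `T = W ∪ Z`
  have hTc : Fintype.card {v // v ∈ W ∪ Z} = 2 * w := by
    rw [Fintype.card_coe, Finset.card_union_of_disjoint hZdis, hZc, ← hwdef]; omega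
  have hwinT : Win (G.induce {v | v ∈ W ∪ Z}) (Fin q') := by
    refine hn₁ {v // v ∈ W ∪ Z} (G.induce {v | v ∈ W ∪ Z}) ?_ ?_ q' hq'1 ?_
    · intro v
      have hinj : Function.Injective (Subtype.val : {v // v ∈ W ∪ Z} → V) :=
        Subtype.val_injective
      rcases Finset.mem_union.mp v.2 with hv | hv
      · have : (Subtype.val ''
            {u : {v // v ∈ W ∪ Z} | u ≠ v ∧ ¬ (G.induce {v | v ∈ W ∪ Z}).Adj v u}) ⊆
            {u | u ∈ W ∧ u ≠ v.1 ∧ ¬ G.Adj v.1 u} := by
          rintro _ ⟨u, ⟨hu1, hu2⟩, rfl⟩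
          have huv : u.1 ≠ v.1 := fun h => hu1 (Subtype.ext h)
          have hnadj : ¬ G.Adj v.1 u.1 := fun h => hu2 (by simpa using h)
          rcases Finset.mem_union.mp u.2 with hu | hu
          · exact ⟨hu, huv, hnadj⟩
          · exact absurd (hU u.1 (hZU hu) v.1 (Ne.symm huv)).symm hnadj
        have h' := Set.ncard_le_ncard this (Set.toFinite _)
        rw [Set.ncard_image_of_injective _ hinj] at h'
        exact h'.trans (hdeg v.1 hv)
      · have : {u : {v // v ∈ W ∪ Z} |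
            u ≠ v ∧ ¬ (G.induce {v | v ∈ W ∪ Z}).Adj v u} = ∅ := by
          ext u
          simp only [Set.mem_ofPred_eq, Set.mem_empty_iff_false, iff_false, not_and, not_not]
          intro huv
          have := hU v.1 (hZU hv) u.1 (fun h => huv (Subtype.ext h))
          simpa using this
        rw [this, Set.ncard_empty]
        exact Nat.zero_le _
    · rw [hTc]; omega
    · rw [hTc, hq'def]
      exact Nat.mul_div_le _ _
  -- the graph on `U ∪ W`
  obtain ⟨κ, hκdef⟩ : ∃ κ, κ = Q / q' + 1 := ⟨_, rfl⟩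
  have hUW : Win (G.induce {v | v ∈ U ∪ W}) (ZMod Q) := by
    refine h4 {v // v ∈ U ∪ W} (G.induce {v | v ∈ U ∪ W})
      (Finset.univ.filter (fun v => v.1 ∈ U \ Z)) Q q' κ ?_ ?_ ?_ ?_ ?_
    · intro u hu v hvu
      have hu' : u.1 ∈ U \ Z := (Finset.mem_filter.mp hu).2
      have := hU u.1 (Finset.mem_sdiff.mp hu').1 v.1 (fun h => hvu (Subtype.ext h))
      simpa using this
    · rw [hκdef]; exact Nat.succ_pos _
    · have := Nat.lt_mul_div_succ Q (show 0 < q' by omega)
      rw [← hκdef, mul_comm] at this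
      exact this.le
    · have hcard' : (Finset.univ.filter (fun v : {v // v ∈ U ∪ W} => v.1 ∈ U \ Z)).card =
          m - w := by
        have hinj : Function.Injective (Subtype.val : {v // v ∈ U ∪ W} → V) :=
          Subtype.val_injective
        rw [← Finset.card_image_of_injective _ hinj]
        have : (Finset.univ.filter (fun v : {v // v ∈ U ∪ W} => v.1 ∈ U \ Z)).image
            Subtype.val = U \ Z := by
          ext v
          simp only [Finset.mem_image, Finset.mem_filter, Finset.mem_univ, true_and]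
          constructor
          · rintro ⟨u, hu, rfl⟩
            exact hu
          · intro hv
            exact ⟨⟨v, Finset.mem_union_left _ (Finset.mem_sdiff.mp hv).1⟩, hv, rfl⟩
        rw [this, Finset.card_sdiff_of_subset hZU, hZc, hmdef]
      rw [hcard', hκdef]
      -- `4k Q ≤ 4k (m - w + Q/κ)`
      have hwm' : w ≤ m := by rw [hmdef]; exact hwm
      obtain ⟨r, hr⟩ : ∃ r, r = Q / (Q / q' + 1) := ⟨_, rfl⟩
      rw [← hr] at har ⊢
      obtain ⟨d, hd⟩ : ∃ d, m = w + d := ⟨m - w, by omega⟩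
      have hmd : m - w = d := by omega
      rw [hmd]
      by_contra hcon
      push Not at hcon
      have e1 : 4 * k * (d + r + 1) ≤ 4 * k * Q := Nat.mul_le_mul_left _ hcon
      have e2 : 4 * k * m = 4 * k * w + 4 * k * d := by rw [hd]; ring
      have e3 : 4 * k * (d + r + 1) = 4 * k * d + 4 * k * r + 4 * k := by ring
      have e4 : 8 * k * w = 2 * (4 * k * w) := by ring
      omega
    · -- the complement of `U \ Z` contains `T`
      have hmem : ∀ t : {v // v ∈ W ∪ Z}, t.1 ∈ U ∪ W := by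
        intro t
        rcases Finset.mem_union.mp t.2 with h | h
        · exact Finset.mem_union_right _ h
        · exact Finset.mem_union_left _ (hZU h)
      have hmem2 : ∀ t : {v // v ∈ W ∪ Z},
          (⟨t.1, hmem t⟩ : {v // v ∈ U ∪ W}) ∉
            Finset.univ.filter (fun v : {v // v ∈ U ∪ W} => v.1 ∈ U \ Z) := by
        intro t ht
        have ht' : t.1 ∈ U \ Z := (Finset.mem_filter.mp ht).2
        rw [Finset.mem_sdiff] at ht'
        rcases Finset.mem_union.mp t.2 with h | h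
        · exact Finset.disjoint_left.mp hdis ht'.1 h
        · exact ht'.2 h
      refine h2 _ {v // v ∈ W ∪ Z} (Fin q') _ (G.induce {v | v ∈ W ∪ Z})
        (fun t => ⟨⟨t.1, hmem t⟩, hmem2 t⟩) ⟨⟨0, by omega⟩⟩ ?_ ?_ hwinT
      · intro a b hab
        have := congrArg (fun x => x.1.1) hab
        exact Subtype.ext this
      · intro a b hab
        simpa using hab
  exact h2 V {v // v ∈ U ∪ W} (ZMod Q) G (G.induce {v | v ∈ U ∪ W}) Subtype.val ⟨0⟩
    Subtype.val_injective (fun a b hab => by simpa using hab) hUW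

end Pool.Agent.Lib.MP_1818ed_co
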