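import Mathlib
import Pool.Agent.Lib.MP_1818ed_co.Defs

/-!
# Saving colours (module Chi)
-/

set_option autoImplicit false

namespace Pool.Agent.Lib.MP_1818ed_co

open Finset

/-- disjoint pairs of non-adjacent vertices -/
def ChiP {V : Type} (G : SimpleGraph V) (M : Finset (V × V)) : Prop :=
  (∀ p ∈ M, p.1 ≠ p.2 ∧ ¬ G.Adj p.1 p.2) ∧
  ∀ p ∈ M, ∀ q ∈ M, p ≠ q → p.1 ≠ q.1 ∧ p.1 ≠ q.2 ∧ p.2 ≠ q.1 ∧ p.2 ≠ q.2

theorem chi : ChiStmt := by
  classical
  intro V _ G Δ hΔ
  obtain ⟨M, hM, hmax⟩ := (univ.filter (fun M : Finset (V × V) => ChiP G M)).exists_max_image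
    (fun M => M.card) ⟨∅, by simp [ChiP]⟩
  rw [mem_filter] at hM
  obtain ⟨-, hM1, hM2⟩ := hM
  set S : Finset V := M.image Prod.snd with hS
  have hinj : Set.InjOn Prod.snd (M : Set (V × V)) := by
    intro p hp q hq h
    by_contra hpq
    exact (hM2 p hp q hq hpq).2.2.2 h
  have hScard : S.card = M.card := card_image_of_injOn hinj
  refine ⟨M.card, ?_, ?_, ?_⟩
  · -- the number of vertices with a non-neighbour
    let N : V → Finset V := fun v => univ.filter (fun u => u ≠ v ∧ ¬ G.Adj v u)
    have hN : ∀ v, (N v).card ≤ Δ := by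
      intro v
      have h := hΔ v
      rw [Set.ncard_eq_toFinset_card'] at h
      refine le_trans (le_of_eq ?_) h
      congr 1
      ext u
      simp [N]
    set T : Finset V := M.image Prod.fst ∪ M.image Prod.snd with hT
    have hTcard : T.card ≤ 2 * M.card := by
      calc T.card ≤ (M.image Prod.fst).card + (M.image Prod.snd).card := card_union_le _ _
        _ ≤ M.card + M.card := Nat.add_le_add card_image_le card_image_le
        _ = 2 * M.card := by ring
    have hsub : (univ.filter (fun v => ∃ u, u ≠ v ∧ ¬ G.Adj v u)) ⊆ T.biUnion N := by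
      intro v hv
      obtain ⟨u, huv, hadj⟩ := (mem_filter.1 hv).2
      rw [mem_biUnion]
      by_cases hvT : v ∈ T
      · rw [hT, mem_union, mem_image, mem_image] at hvT
        rcases hvT with ⟨p, hp, rfl⟩ | ⟨p, hp, rfl⟩
        · refine ⟨p.2, ?_, ?_⟩
          · rw [hT]
            exact mem_union_right _ (mem_image_of_mem _ hp)
          · simp only [N, mem_filter, mem_univ, true_and]
            exact ⟨(hM1 p hp).1, fun h => (hM1 p hp).2 h.symm⟩
        · refine ⟨p.1, ?_, ?_⟩
          · rw [hT]
            exact mem_union_left _ (mem_image_of_mem _ hp)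
          · simp only [N, mem_filter, mem_univ, true_and]
            exact ⟨(hM1 p hp).1.symm, (hM1 p hp).2⟩
      · refine ⟨u, ?_, ?_⟩
        · by_contra huT
          have hnot : ∀ p ∈ M, p.1 ≠ v ∧ p.2 ≠ v ∧ p.1 ≠ u ∧ p.2 ≠ u := by
            intro p hp
            refine ⟨?_, ?_, ?_, ?_⟩
            · rintro rfl
              exact hvT (by rw [hT]; exact mem_union_left _ (mem_image_of_mem _ hp))
            · rintro rfl
              exact hvT (by rw [hT]; exact mem_union_right _ (mem_image_of_mem _ hp))
            · rintro rfl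
              exact huT (by rw [hT]; exact mem_union_left _ (mem_image_of_mem _ hp))
            · rintro rfl
              exact huT (by rw [hT]; exact mem_union_right _ (mem_image_of_mem _ hp))
          have hnm : (v, u) ∉ M := fun h => (hnot _ h).1 rfl
          have hP : ChiP G (insert (v, u) M) := by
            constructor
            · intro p hp
              rcases mem_insert.1 hp with rfl | hp
              · exact ⟨huv.symm, hadj⟩
              · exact hM1 p hp
            · intro p hp q hq hpq
              rcases mem_insert.1 hp with rfl | hp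
              · rcases mem_insert.1 hq with rfl | hq
                · exact absurd rfl hpq
                · obtain ⟨h1, h2, h3, h4⟩ := hnot q hq
                  exact ⟨h1.symm, h2.symm, h3.symm, h4.symm⟩
              · rcases mem_insert.1 hq with rfl | hq
                · obtain ⟨h1, h2, h3, h4⟩ := hnot p hp
                  exact ⟨h1, h3, h2, h4⟩
                · exact hM2 p hp q hq hpq
          have h := hmax (insert (v, u) M) (by rw [mem_filter]; exact ⟨mem_univ _, hP⟩)
          rw [card_insert_of_notMem hnm] at h
          omega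
        · simp only [N, mem_filter, mem_univ, true_and]
          exact ⟨huv.symm, fun h => hadj h.symm⟩
    have h1 : {v | ∃ u, u ≠ v ∧ ¬ G.Adj v u}.ncard =
        (univ.filter (fun v => ∃ u, u ≠ v ∧ ¬ G.Adj v u)).card := by
      rw [Set.ncard_eq_toFinset_card']
      congr 1
      ext v
      simp
    rw [h1]
    calc _ ≤ (T.biUnion N).card := card_le_card hsub
      _ ≤ T.card * Δ := card_biUnion_le_card_mul _ _ _ (fun v _ => hN v)
      _ ≤ 2 * M.card * Δ := Nat.mul_le_mul_right _ hTcard
      _ = 2 * Δ * M.card := by ring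
  · rw [← hScard]
    exact card_le_univ S
  · -- the colouring
    have hc : ∀ v : V, ∃ x : V, x ∉ S ∧ ((v ∉ S ∧ x = v) ∨ (x, v) ∈ M) := by
      intro v
      by_cases hv : v ∈ S
      · rw [hS, mem_image] at hv
        obtain ⟨p, hp, rfl⟩ := hv
        refine ⟨p.1, ?_, Or.inr hp⟩
        intro h
        rw [hS, mem_image] at h
        obtain ⟨q, hq, hqp⟩ := h
        by_cases hpq : q = p
        · subst hpq
          exact (hM1 q hq).1 hqp.symm
        · exact (hM2 q hq p hp hpq).2.2.1 hqp
      · exact ⟨v, hv, Or.inl ⟨hv, rfl⟩⟩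
    choose c hc1 hc2 using hc
    have hcol : G.Coloring {x : V // x ∉ S} :=
      SimpleGraph.Coloring.mk (fun v => ⟨c v, hc1 v⟩) (by
        intro u v huv h
        have h' : c u = c v := congrArg Subtype.val h
        rcases hc2 u with ⟨_, hu⟩ | hu
        · rcases hc2 v with ⟨_, hv⟩ | hv
          · rw [hu, hv] at h'
            exact huv.ne h'
          · rw [← h', hu] at hv
            exact (hM1 _ hv).2 huv
        · rcases hc2 v with ⟨_, hv⟩ | hv
          · rw [h', hv] at hu
            exact (hM1 _ hu).2 huv.symm
          · by_cases hpq : (c u, u) = (c v, v)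
            · exact huv.ne (congrArg Prod.snd hpq)
            · exact (hM2 _ hu _ hv hpq).1 h')
    have h1 := hcol.colorable
    have h2 : Fintype.card {x : V // x ∉ S} = Fintype.card V - M.card := by
      rw [Fintype.card_subtype_compl, Fintype.card_coe, hScard]
    rwa [h2] at h1

end Pool.Agent.Lib.MP_1818ed_co
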