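import Mathlib
import Pool.Agent.Lib.MP_1818ed_co.Defs

/-! Chunks: disjoint independent sets of a fixed size (MP_1818ed_co). -/

set_option autoImplicit false

namespace Pool.Agent.Lib.MP_1818ed_co

open Finset

/-- `s` independent vertices in a large set of vertices. -/
theorem chunks_indep {V : Type} [Fintype V] (H : SimpleGraph V) (Δ : ℕ)
    (hd : ∀ v, {u | H.Adj v u}.ncard ≤ Δ) (s : ℕ) :
    ∀ R : Finset V, s * (Δ + 1) ≤ R.card →
      ∃ f : Fin s → V, Function.Injective f ∧ (∀ i, f i ∈ R) ∧ ∀ i j, ¬ H.Adj (f i) (f j) := by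
  classical
  induction s with
  | zero =>
    intro R _
    exact ⟨fun i => i.elim0, fun i => i.elim0, fun i => i.elim0, fun i => i.elim0⟩
  | succ s ih =>
    intro R hR
    have hpos : 0 < R.card := by
      have : 0 < (s + 1) * (Δ + 1) := by positivity
      omega
    obtain ⟨v, hv⟩ := Finset.card_pos.1 hpos
    let N : Finset V := insert v (univ.filter fun u => H.Adj v u)
    have hN : N.card ≤ Δ + 1 := by
      refine (Finset.card_insert_le _ _).trans ?_
      have h1 := hd v
      have h2 : {u | H.Adj v u} = ((univ.filter fun u => H.Adj v u : Finset V) : Set V) := by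
        ext u
        simp
      rw [h2, Set.ncard_coe_finset] at h1
      omega
    have hR' : s * (Δ + 1) ≤ (R \ N).card := by
      have h1 := Finset.le_card_sdiff N R
      have h2 : (s + 1) * (Δ + 1) = s * (Δ + 1) + (Δ + 1) := by ring
      omega
    obtain ⟨f, hf1, hf2, hf3⟩ := ih (R \ N) hR'
    have hfN : ∀ i, f i ≠ v ∧ ¬ H.Adj v (f i) := by
      intro i
      have h1 := (Finset.mem_sdiff.1 (hf2 i)).2
      simp only [N, Finset.mem_insert, Finset.mem_filter, Finset.mem_univ, true_and,
        not_or] at h1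
      exact h1
    refine ⟨Fin.cons v f, ?_, ?_, ?_⟩
    · rw [Fin.cons_injective_iff]
      refine ⟨?_, hf1⟩
      rintro ⟨i, hi⟩
      exact (hfN i).1 hi
    · intro i
      refine Fin.cases ?_ (fun i => ?_) i
      · exact hv
      · exact (Finset.mem_sdiff.1 (hf2 i)).1
    · intro i j
      refine Fin.cases ?_ (fun i => ?_) i
      · refine Fin.cases ?_ (fun j => ?_) j
        · exact H.irrefl
        · exact (hfN j).2
      · refine Fin.cases ?_ (fun j => ?_) j
        · exact fun h => (hfN i).2 h.symm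
        · exact hf3 i j

/-- **Chunks.** -/
theorem chunks : ChunksStmt := by
  intro V _ H Δ s hd hs
  classical
  let P : ℕ → Prop := fun L => ∃ Q : Fin L → Fin s → V,
    (∀ i i' b b', Q i b = Q i' b' → i = i' ∧ b = b') ∧ ∀ i b b', ¬ H.Adj (Q i b) (Q i b')
  have hP0 : P 0 := ⟨fun i => i.elim0, fun i => i.elim0, fun i => i.elim0⟩
  have hPle : ∀ L, P L → s * L ≤ Fintype.card V := by
    rintro L ⟨Q, hQ, -⟩
    have hinj : Function.Injective (fun p : Fin s × Fin L => Q p.2 p.1) := by
      rintro ⟨b, i⟩ ⟨b', i'⟩ h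
      obtain ⟨h1, h2⟩ := hQ i i' b b' h
      rw [h1, h2]
    have h := Fintype.card_le_of_injective _ hinj
    simpa using h
  have hPle' : ∀ L, P L → L ≤ Fintype.card V := fun L hL => by
    have h1 := hPle L hL
    nlinarith
  set L := Nat.findGreatest P (Fintype.card V) with hL
  have hPL : P L := Nat.findGreatest_spec (P := P) (Nat.zero_le _) hP0
  obtain ⟨Q, hQ, hQi⟩ := hPL
  refine ⟨L, Q, hQ, hQi, ?_⟩
  by_contra hlt
  rw [not_le] at hlt
  have hinj : Function.Injective (fun p : Fin s × Fin L => Q p.2 p.1) := by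
    rintro ⟨b, i⟩ ⟨b', i'⟩ h
    obtain ⟨h1, h2⟩ := hQ i i' b b' h
    rw [h1, h2]
  let Used : Finset V := univ.image (fun p : Fin s × Fin L => Q p.2 p.1)
  have hUsed : Used.card = s * L := by
    rw [Finset.card_image_of_injective _ hinj]
    simp
  have hR : s * (Δ + 1) ≤ (univ \ Used).card := by
    have h1 := Finset.le_card_sdiff Used univ
    rw [Finset.card_univ] at h1
    have h2 : s * (L + Δ + 1) = s * L + s * (Δ + 1) := by ring
    omega
  obtain ⟨f, hf1, hf2, hf3⟩ := chunks_indep H Δ hd s (univ \ Used) hR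
  have hfU : ∀ b i b', f b ≠ Q i b' := by
    intro b i b' h
    apply (Finset.mem_sdiff.1 (hf2 b)).2
    rw [h]
    exact Finset.mem_image.2 ⟨(b', i), Finset.mem_univ _, rfl⟩
  have hPL1 : P (L + 1) := by
    refine ⟨Fin.cons f Q, ?_, ?_⟩
    · intro i i' b b'
      refine Fin.cases ?_ (fun i => ?_) i
      · refine Fin.cases ?_ (fun i' => ?_) i'
        · intro h
          exact ⟨rfl, hf1 h⟩
        · intro h
          exact absurd h (hfU b i' b')
      · refine Fin.cases ?_ (fun i' => ?_) i'
        · intro h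
          exact absurd h.symm (hfU b' i b)
        · intro h
          obtain ⟨h1, h2⟩ := hQ i i' b b' h
          exact ⟨by rw [h1], h2⟩
    · intro i b b'
      refine Fin.cases ?_ (fun i => ?_) i
      · exact hf3 b b'
      · exact hQi i b b'
  have hle : L + 1 ≤ Fintype.card V := hPle' _ hPL1
  have := Nat.le_findGreatest hle hPL1
  omega

end Pool.Agent.Lib.MP_1818ed_co
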