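import Mathlib
import Pool.Agent.Lib.MP_1818ed_co.Defs3

/-!
# A clique joined to almost everything (MP_1818ed_co)
-/

set_option autoImplicit false

namespace Pool.Agent.Lib.MP_1818ed_co

open Finset

theorem clq : ClqStmt := by
  classical
  intro V _ G Δ m hΔ
  induction m with
  | zero =>
    intro _
    refine ⟨∅, Finset.univ, Finset.disjoint_empty_left _, ?_, rfl, ?_⟩
    · intro u hu
      exact absurd hu (Finset.notMem_empty u)
    · rw [Finset.card_univ]
      omega
  | succ m ih =>
    intro hm
    have hm' : (m + 1) * (Δ + 1) = m * (Δ + 1) + (Δ + 1) := by ring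
    obtain ⟨U, W, hUW, hS, hU, hW⟩ := ih (by omega)
    obtain ⟨v, hv⟩ : W.Nonempty := by
      rw [← Finset.card_pos]
      omega
    have hvU : v ∉ U := fun h => Finset.disjoint_left.1 hUW h hv
    refine ⟨insert v U, W.filter (fun w => w ≠ v ∧ G.Adj v w), ?_, ?_, ?_, ?_⟩
    · rw [Finset.disjoint_left]
      intro x hx hxW
      rw [Finset.mem_filter] at hxW
      rcases Finset.mem_insert.1 hx with h | h
      · exact hxW.2.1 h
      · exact Finset.disjoint_left.1 hUW h hxW.1
    · intro u hu x hx hxu
      rcases Finset.mem_insert.1 hu with h | h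
      · rw [h] at hxu ⊢
        rcases hx with hx | hx
        · rcases Finset.mem_insert.1 hx with h1 | h1
          · exact absurd h1 hxu
          · exact (hS x h1 v (Or.inr hv) (fun h2 => hvU (h2 ▸ h1))).symm
        · exact (Finset.mem_filter.1 hx).2.2
      · rcases hx with hx | hx
        · rcases Finset.mem_insert.1 hx with h1 | h1
          · rw [h1]
            exact hS u h v (Or.inr hv) (fun h2 => hvU (h2 ▸ h))
          · exact hS u h x (Or.inl h1) hxu
        · exact hS u h x (Or.inr (Finset.mem_filter.1 hx).1) hxu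
    · rw [Finset.card_insert_of_notMem hvU, hU]
    · have h1 : W ⊆ insert v (W.filter (fun w => w ≠ v ∧ G.Adj v w) ∪
          Finset.univ.filter (fun u => u ≠ v ∧ ¬ G.Adj v u)) := by
        intro x hx
        rw [Finset.mem_insert, Finset.mem_union, Finset.mem_filter, Finset.mem_filter]
        by_cases h1 : x = v
        · exact Or.inl h1
        · by_cases h2 : G.Adj v x
          · exact Or.inr (Or.inl ⟨hx, h1, h2⟩)
          · exact Or.inr (Or.inr ⟨Finset.mem_univ x, h1, h2⟩)
      have h2 : (Finset.univ.filter (fun u => u ≠ v ∧ ¬ G.Adj v u)).card ≤ Δ := by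
        have h3 := hΔ v
        rw [Set.ncard_eq_toFinset_card'] at h3
        have h4 : ({u | u ≠ v ∧ ¬ G.Adj v u} : Set V).toFinset =
            Finset.univ.filter (fun u => u ≠ v ∧ ¬ G.Adj v u) := by
          ext u
          simp
        rwa [h4] at h3
      have h3 := (Finset.card_le_card h1).trans (Finset.card_insert_le _ _)
      have h4 := Finset.card_union_le (W.filter (fun w => w ≠ v ∧ G.Adj v w))
        (Finset.univ.filter (fun u => u ≠ v ∧ ¬ G.Adj v u))
      omega

end Pool.Agent.Lib.MP_1818ed_co
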