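import Mathlib
import Pool.Agent.Lib.MP_1818ed_co.Defs2

/-!
# Critical graphs without universal vertices (MP_1818ed_co)
-/

set_option autoImplicit false

namespace Pool.Agent.Lib.MP_1818ed_co

open Finset Classical

section CritAux

variable {V : Type} [Fintype V] {G : SimpleGraph V} {r : ℕ} {x : V}

/-- proper colourings of `G - x` (the colour of `x` is arbitrary) -/
def CritProper (G : SimpleGraph V) (x : V) {r : ℕ} (c : V → Fin r) : Prop :=
  ∀ u v, u ≠ x → v ≠ x → G.Adj u v → c u ≠ c v

/-- the singletons of a colouring of `G - x` -/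
noncomputable def critSing (x : V) {r : ℕ} (c : V → Fin r) : Finset V :=
  univ.filter (fun s => s ≠ x ∧ ∀ v, v ≠ x → c v = c s → v = s)

theorem crit_mem_sing {c : V → Fin r} {s : V} :
    s ∈ critSing x c ↔ s ≠ x ∧ ∀ v, v ≠ x → c v = c s → v = s := by
  unfold critSing; simp

/-- all colours are used -/
theorem crit_all (hnc : ¬ G.Colorable r) {c : V → Fin r} (hc : CritProper G x c) (i : Fin r) :
    ∃ v, v ≠ x ∧ c v = i := by
  by_contra hcon
  push Not at hcon
  refine hnc ⟨SimpleGraph.Coloring.mk (fun v => if v = x then i else c v) ?_⟩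
  intro u v huv
  by_cases hu : u = x
  · by_cases hv : v = x
    · subst hu; subst hv; exact absurd huv (G.loopless.irrefl _)
    · simp only [if_pos hu, if_neg hv]
      exact (hcon v hv).symm
  · by_cases hv : v = x
    · simp only [if_pos hv, if_neg hu]
      exact hcon u hu
    · simp only [if_neg hu, if_neg hv]
      exact hc u v hu hv huv

/-- recolour two vertices -/
noncomputable def critRec (c : V → Fin r) (y z : V) (a b : Fin r) (v : V) : Fin r :=
  if v = y then a else if v = z then b else c v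

theorem critRec_proper {c : V → Fin r} (hc : CritProper G x c) {y z : V} {a b : Fin r}
    (hyz : ¬ G.Adj y z) (ha : ∀ v, v ≠ x → v ≠ y → v ≠ z → c v = a → ¬ G.Adj y v)
    (hb : ∀ v, v ≠ x → v ≠ y → v ≠ z → c v = b → ¬ G.Adj z v) :
    CritProper G x (critRec c y z a b) := by
  intro u v hu hv huv heq
  unfold critRec at heq
  by_cases h1 : u = y
  · subst h1
    by_cases h2 : v = u
    · subst h2; exact G.loopless.irrefl _ huv
    by_cases h3 : v = z
    · subst h3; exact hyz huv
    rw [if_pos rfl, if_neg h2, if_neg h3] at heq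
    exact ha v hv h2 h3 heq.symm huv
  by_cases h2 : u = z
  · subst h2
    by_cases h3 : v = y
    · subst h3; exact hyz huv.symm
    by_cases h4 : v = u
    · subst h4; exact G.loopless.irrefl _ huv
    rw [if_neg h1, if_pos rfl, if_neg h3, if_neg h4] at heq
    exact hb v hv h3 h4 heq.symm huv
  rw [if_neg h1, if_neg h2] at heq
  by_cases h3 : v = y
  · subst h3
    rw [if_pos rfl] at heq
    exact ha u hu h1 h2 heq huv.symm
  by_cases h4 : v = z
  · subst h4
    rw [if_neg h3, if_pos rfl] at heq
    exact hb u hu h1 h2 heq huv.symm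
  rw [if_neg h3, if_neg h4] at heq
  exact hc u v hu hv huv heq

variable {c : V → Fin r}

/-- the singletons form a clique -/
theorem crit_clique (hnc : ¬ G.Colorable r) (hc : CritProper G x c) {s t : V}
    (hs : s ∈ critSing x c) (ht : t ∈ critSing x c) (hst : s ≠ t) : G.Adj s t := by
  by_contra hadj
  rw [crit_mem_sing] at hs ht
  have hp : CritProper G x (critRec c s s (c t) (c t)) := by
    refine critRec_proper hc (G.loopless.irrefl _) ?_ ?_
    · intro v hv _ _ h h'
      rw [ht.2 v hv h] at h'
      exact hadj h'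
    · intro v hv _ _ h h'
      rw [ht.2 v hv h] at h'
      exact hadj h'
  obtain ⟨v, hv, hvs⟩ := crit_all hnc hp (c s)
  unfold critRec at hvs
  by_cases h1 : v = s
  · rw [if_pos h1] at hvs
    exact hst (hs.2 t ht.1 hvs).symm
  · rw [if_neg h1, if_neg h1] at hvs
    exact h1 (hs.2 v hv hvs)

/-- `x` is adjacent to the singletons -/
theorem crit_x (hnc : ¬ G.Colorable r) (hc : CritProper G x c) {s : V}
    (hs : s ∈ critSing x c) : G.Adj x s := by
  by_contra hadj
  rw [crit_mem_sing] at hs
  refine hnc ⟨SimpleGraph.Coloring.mk (fun v => if v = x then c s else c v) ?_⟩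
  intro u v huv
  by_cases hu : u = x
  · by_cases hv : v = x
    · subst hu; subst hv; exact absurd huv (G.loopless.irrefl _)
    · simp only [if_pos hu, if_neg hv]
      intro h
      rw [hu, hs.2 v hv h.symm] at huv
      exact hadj huv
  · by_cases hv : v = x
    · simp only [if_pos hv, if_neg hu]
      intro h
      rw [hv, hs.2 u hu h] at huv
      exact hadj huv.symm
    · simp only [if_neg hu, if_neg hv]
      exact hc u v hu hv huv

/-- the class of a non-neighbour of a singleton has two elements -/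
theorem crit_two (hnc : ¬ G.Colorable r) (hc : CritProper G x c)
    (hmin : ∀ c' : V → Fin r, CritProper G x c' → (critSing x c).card ≤ (critSing x c').card)
    {s y : V} (hs : s ∈ critSing x c) (hys : y ≠ s) (hadj : ¬ G.Adj s y) :
    y ≠ x ∧ y ∉ critSing x c ∧ ∃ z, z ≠ x ∧ z ≠ y ∧ c z = c y ∧
      ∀ v, v ≠ x → c v = c y → v = y ∨ v = z := by
  have hyx : y ≠ x := by
    rintro rfl
    exact hadj (crit_x hnc hc hs).symm
  have hyS : y ∉ critSing x c := fun hy => hadj (crit_clique hnc hc hs hy hys.symm)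
  refine ⟨hyx, hyS, ?_⟩
  have h1 : ∃ z, z ≠ x ∧ c z = c y ∧ z ≠ y := by
    by_contra hcon
    push Not at hcon
    exact hyS (crit_mem_sing.2 ⟨hyx, hcon⟩)
  obtain ⟨z, hzx, hzy, hne⟩ := h1
  refine ⟨z, hzx, hne, hzy, ?_⟩
  by_contra hcon
  push Not at hcon
  obtain ⟨z', hz'x, hz'y, hne', hzz'⟩ := hcon
  have hs' := crit_mem_sing.1 hs
  have hp : CritProper G x (critRec c y y (c s) (c s)) := by
    refine critRec_proper hc (G.loopless.irrefl _) ?_ ?_
    · intro v hv _ _ h h'
      rw [hs'.2 v hv h] at h'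
      exact hadj h'.symm
    · intro v hv _ _ h h'
      rw [hs'.2 v hv h] at h'
      exact hadj h'.symm
  have hr0 : ∀ v, v ≠ y → critRec c y y (c s) (c s) v = c v := fun v hv => by
    unfold critRec; rw [if_neg hv, if_neg hv]
  have hr1 : critRec c y y (c s) (c s) y = c s := by unfold critRec; rw [if_pos rfl]
  have hlt : (critSing x (critRec c y y (c s) (c s))).card < (critSing x c).card := by
    refine Finset.card_lt_card ⟨?_, ?_⟩
    · intro w hw
      obtain ⟨hwx, hw⟩ := crit_mem_sing.1 hw
      have hwy : w ≠ y := by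
        rintro rfl
        have := hw s hs'.1 (by rw [hr0 s hys.symm, hr1])
        exact hys this.symm
      rw [crit_mem_sing]
      refine ⟨hwx, fun v hv hvw => ?_⟩
      by_cases hvy : v = y
      · subst hvy
        exfalso
        have e1 : z = w := hw z hzx (by rw [hr0 z hne, hr0 w hwy, hzy, hvw])
        have e2 : z' = w := hw z' hz'x (by rw [hr0 z' hne', hr0 w hwy, hz'y, hvw])
        exact hzz' (e2.trans e1.symm)
      · exact hw v hv (by rw [hr0 v hvy, hr0 w hwy, hvw])
    · intro hsub
      have h2 := (crit_mem_sing.1 (hsub hs)).2 y hyx (by rw [hr1, hr0 s hys.symm])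
      exact hys h2
  exact absurd (hmin _ hp) (not_le.2 hlt)

/-- the partner is adjacent to all singletons -/
theorem crit_partner (hnc : ¬ G.Colorable r) (hc : CritProper G x c) {s y z t : V}
    (hs : s ∈ critSing x c) (hys : y ≠ s) (hadj : ¬ G.Adj s y) (hyx : y ≠ x) (hzx : z ≠ x)
    (hzy : z ≠ y) (hcz : c z = c y) (hcls : ∀ v, v ≠ x → c v = c y → v = y ∨ v = z)
    (ht : t ∈ critSing x c) : G.Adj z t := by
  by_contra hzt
  have hs' := crit_mem_sing.1 hs
  have ht' := crit_mem_sing.1 ht
  have hp : CritProper G x (critRec c y z (c s) (c t)) := by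
    refine critRec_proper hc (fun h => hc y z hyx hzx h hcz.symm) ?_ ?_
    · intro v hv _ _ h h'
      rw [hs'.2 v hv h] at h'
      exact hadj h'.symm
    · intro v hv _ _ h h'
      rw [ht'.2 v hv h] at h'
      exact hzt h'
  obtain ⟨v, hv, hvy⟩ := crit_all hnc hp (c y)
  unfold critRec at hvy
  by_cases h1 : v = y
  · rw [if_pos h1] at hvy
    exact hys (hs'.2 y hyx hvy.symm)
  rw [if_neg h1] at hvy
  by_cases h2 : v = z
  · rw [if_pos h2] at hvy
    have e1 := ht'.2 y hyx hvy.symm
    have e2 := ht'.2 z hzx (hcz.trans hvy.symm)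
    exact hzy (e2.trans e1.symm)
  · rw [if_neg h2] at hvy
    rcases hcls v hv hvy with h | h
    · exact h1 h
    · exact h2 h

/-- counting the classes -/
theorem crit_count (hnc : ¬ G.Colorable r) (hc : CritProper G x c) :
    2 * r + 1 ≤ Fintype.card V + (critSing x c).card := by
  have h1 : ((univ : Finset V).erase x).card =
      ∑ i : Fin r, (((univ : Finset V).erase x).filter (fun v => c v = i)).card :=
    Finset.card_eq_sum_card_fiberwise (fun _ _ => Finset.mem_univ _)
  have h2 : ∀ i : Fin r, 2 ≤ (((univ : Finset V).erase x).filter (fun v => c v = i)).card +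
      (if i ∈ (critSing x c).image c then 1 else 0) := by
    intro i
    obtain ⟨v, hv, hvi⟩ := crit_all hnc hc i
    have hmem : v ∈ ((univ : Finset V).erase x).filter (fun v => c v = i) := by
      simp [hv, hvi]
    have hpos : 1 ≤ (((univ : Finset V).erase x).filter (fun v => c v = i)).card :=
      Finset.card_pos.2 ⟨v, hmem⟩
    by_cases hi : i ∈ (critSing x c).image c
    · rw [if_pos hi]; omega
    · rw [if_neg hi]
      by_contra hlt
      have h3 : (((univ : Finset V).erase x).filter (fun v => c v = i)).card = 1 := by omega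
      rw [Finset.card_eq_one] at h3
      obtain ⟨w, hw⟩ := h3
      have hvw : v = w := by
        rw [hw] at hmem
        exact Finset.mem_singleton.1 hmem
      refine hi (Finset.mem_image.2 ⟨v, crit_mem_sing.2 ⟨hv, fun u hu huv => ?_⟩, hvi⟩)
      have hu' : u ∈ ((univ : Finset V).erase x).filter (fun v => c v = i) := by
        simp [hu, huv.trans hvi]
      rw [hw] at hu'
      rw [Finset.mem_singleton.1 hu', hvw]
  have h3 := Finset.sum_le_sum (s := (univ : Finset (Fin r))) (fun i _ => h2 i)
  rw [Finset.sum_add_distrib, ← h1, Finset.sum_const, Finset.card_univ, Fintype.card_fin,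
    smul_eq_mul, Finset.sum_boole, Finset.filter_mem_eq_inter, Finset.univ_inter] at h3
  have h4 : ((critSing x c).image c).card ≤ (critSing x c).card := Finset.card_image_le
  have h5 : ((univ : Finset V).erase x).card + 1 = Fintype.card V := by
    rw [Finset.card_erase_add_one (Finset.mem_univ x), Finset.card_univ]
  simp only [Nat.cast_id] at h3
  omega

end CritAux

/-- **Crit** -/
theorem crit (h : ViolStmt) : CritStmt := by
  intro V _ G r hnon hnc hcr
  -- `V` is nonempty
  have hne : Nonempty V := by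
    by_contra hcon
    rw [not_nonempty_iff] at hcon
    exact hnc ⟨SimpleGraph.Coloring.mk (fun v => isEmptyElim v) (fun {u} => isEmptyElim u)⟩
  obtain ⟨x⟩ := hne
  obtain ⟨u0, hu0, -⟩ := hnon x
  obtain ⟨C0⟩ := hcr x
  let i0 : Fin r := C0 ⟨u0, hu0⟩
  -- a proper colouring
  have hex : CritProper G x (fun v => if hv : v ≠ x then C0 ⟨v, hv⟩ else i0) := by
    intro u v hu hv huv
    simp only [dif_pos hu, dif_pos hv]
    exact C0.valid (by simpa using huv)
  obtain ⟨c, hcm, hmin'⟩ := Finset.exists_min_image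
    ((univ : Finset (V → Fin r)).filter (fun c => CritProper G x c))
    (fun c => (critSing x c).card) ⟨_, Finset.mem_filter.2 ⟨Finset.mem_univ _, hex⟩⟩
  have hc : CritProper G x c := (Finset.mem_filter.1 hcm).2
  have hmin : ∀ c' : V → Fin r, CritProper G x c' →
      (critSing x c).card ≤ (critSing x c').card := fun c' hc' =>
    hmin' c' (Finset.mem_filter.2 ⟨Finset.mem_univ _, hc'⟩)
  set S := critSing x c with hS
  set Y := (univ : Finset V).filter (fun y => ∃ s ∈ S, y ≠ s ∧ ¬ G.Adj s y) with hY
  have hYmem : ∀ y, y ∈ Y ↔ ∃ s ∈ S, y ≠ s ∧ ¬ G.Adj s y := by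
    intro y; rw [hY]; simp
  have hex2 : ∀ y : V, ∃ z : V, y ∈ Y → (y ≠ x ∧ y ∉ S ∧ z ≠ x ∧ z ≠ y ∧ c z = c y ∧
      (∀ v, v ≠ x → c v = c y → v = y ∨ v = z) ∧ ∀ t ∈ S, G.Adj z t) := by
    intro y
    by_cases hy : y ∈ Y
    · obtain ⟨s, hs, hys, hadj⟩ := (hYmem y).1 hy
      obtain ⟨a1, a2, z, a3, a4, a5, a6⟩ := crit_two hnc hc hmin hs hys hadj
      exact ⟨z, fun _ => ⟨a1, a2, a3, a4, a5, a6, fun t ht =>
        crit_partner hnc hc hs hys hadj a1 a3 a4 a5 a6 ht⟩⟩
    · exact ⟨y, fun h => absurd h hy⟩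
  choose π hπ using hex2
  have hviol := h V G r S Y hnon hnc hcr
    (fun s hs t ht hst => crit_clique hnc hc hs ht hst)
    (fun s hs y hys hadj => (hYmem y).2 ⟨s, hs, hys, hadj⟩)
  have hπY : ∀ y ∈ Y, π y ∉ Y := by
    intro y hy hpy
    obtain ⟨s, hs, _, hadj⟩ := (hYmem _).1 hpy
    exact hadj ((hπ y hy).2.2.2.2.2.2 s hs).symm
  have hinj : Set.InjOn π (Y : Set V) := by
    intro y hy y' hy' heq
    rw [Finset.mem_coe] at hy hy'
    obtain ⟨a1, a2, a3, a4, a5, a6, a7⟩ := hπ y hy
    obtain ⟨b1, b2, b3, b4, b5, b6, b7⟩ := hπ y' hy'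
    have : c y' = c y := by rw [← b5, ← heq, a5]
    rcases a6 y' b1 this with h1 | h1
    · exact h1.symm
    · exfalso
      exact hπY y hy (h1 ▸ hy')
  have hd1 : Disjoint S Y := by
    rw [Finset.disjoint_left]
    intro y hyS hy
    exact (hπ y hy).2.1 hyS
  have hd2 : Disjoint (S ∪ Y) (Y.image π) := by
    rw [Finset.disjoint_left]
    intro w hw hw'
    obtain ⟨y, hy, rfl⟩ := Finset.mem_image.1 hw'
    rcases Finset.mem_union.1 hw with h1 | h1
    · obtain ⟨a1, a2, a3, a4, a5, a6, a7⟩ := hπ y hy
      have := (crit_mem_sing.1 h1).2 y a1 a5.symm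
      exact a4 this.symm
    · exact hπY y hy h1
  have hsub : (S ∪ Y) ∪ Y.image π ⊆ (univ : Finset V).erase x := by
    intro w hw
    rw [Finset.mem_erase]
    refine ⟨?_, Finset.mem_univ _⟩
    rcases Finset.mem_union.1 hw with h1 | h1
    · rcases Finset.mem_union.1 h1 with h2 | h2
      · exact (crit_mem_sing.1 h2).1
      · exact (hπ w h2).1
    · obtain ⟨y, hy, rfl⟩ := Finset.mem_image.1 h1
      exact (hπ y hy).2.2.1
  have h1 := Finset.card_le_card hsub
  rw [Finset.card_union_of_disjoint hd2, Finset.card_union_of_disjoint hd1,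
    Finset.card_image_of_injOn hinj] at h1
  have h5 : ((univ : Finset V).erase x).card + 1 = Fintype.card V := by
    rw [Finset.card_erase_add_one (Finset.mem_univ x), Finset.card_univ]
  have h6 := crit_count hnc hc
  rw [← hS] at h6
  omega

end Pool.Agent.Lib.MP_1818ed_co
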