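import Mathlib
import Pool.Agent.Lib.MP_1818ed_co.Defs3

/-! The cube lemma: orientation of a set of points of a Hamming graph, or a large tree in it. -/

set_option autoImplicit false

namespace Pool.Agent.Lib.MP_1818ed_co

open Finset

/-- list lemma for the cube lemma -/
theorem cube_list {I : Type} [Fintype I] [DecidableEq I] {q : ℕ} (B : Finset (I → ZMod q))
    (hν : ∀ p ∈ B, ∀ i : I, ∃ p' ∈ B, p' ≠ p ∧ ∀ k, k ≠ i → p' k = p k) (S : Finset I) :
    ∀ p ∈ B, ∃ s : ℕ → (I → ZMod q), s 0 = p ∧ (∀ j < 2 ^ S.card, s j ∈ B) ∧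
      (∀ j < 2 ^ S.card, ∀ k, k ∉ S → s j k = p k) ∧
      (∀ i < 2 ^ S.card, ∀ j < 2 ^ S.card, s i = s j → i = j) ∧
      ∀ j < 2 ^ S.card, 0 < j → ∃ i < j, ∃ k : I, ∀ k', k' ≠ k → s j k' = s i k' := by
  induction S using Finset.induction_on with
  | empty =>
    intro p hp
    refine ⟨fun _ => p, rfl, fun _ _ => hp, fun _ _ _ _ => rfl, ?_, ?_⟩
    · intro i hi j hj _
      simp at hi hj
      omega
    · intro j hj hj0
      simp at hj
      omega
  | insert i S hi ih =>
    intro p hp
    obtain ⟨p2, hp2, hne, hag⟩ := hν p hp i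
    obtain ⟨s1, h10, h1B, h1S, h1inj, h1par⟩ := ih p hp
    obtain ⟨s2, h20, h2B, h2S, h2inj, h2par⟩ := ih p2 hp2
    have hp2i : p2 i ≠ p i := by
      intro h
      apply hne
      funext k
      by_cases hk : k = i
      · rw [hk]
        exact h
      · exact hag k hk
    have hcard : 2 ^ (insert i S).card = 2 ^ S.card + 2 ^ S.card := by
      rw [Finset.card_insert_of_notMem hi, pow_succ]
      ring
    have hN : 0 < 2 ^ S.card := by positivity
    rw [hcard]
    refine ⟨fun j => if j < 2 ^ S.card then s1 j else s2 (j - 2 ^ S.card), ?_, ?_, ?_, ?_, ?_⟩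
    · simp only [if_pos hN, h10]
    · intro j hj
      by_cases h : j < 2 ^ S.card
      · simp only [if_pos h]
        exact h1B j h
      · simp only [if_neg h]
        exact h2B _ (by omega)
    · intro j hj k hk
      rw [Finset.mem_insert, not_or] at hk
      by_cases h : j < 2 ^ S.card
      · simp only [if_pos h]
        exact h1S j h k hk.2
      · simp only [if_neg h]
        rw [h2S _ (by omega) k hk.2]
        exact hag k hk.1
    · intro a ha b hb hab
      by_cases h : a < 2 ^ S.card <;> by_cases h' : b < 2 ^ S.card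
      · simp only [if_pos h, if_pos h'] at hab
        exact h1inj a h b h' hab
      · simp only [if_pos h, if_neg h'] at hab
        exfalso
        apply hp2i
        rw [← h1S a h i hi, hab, h2S _ (by omega) i hi]
      · simp only [if_neg h, if_pos h'] at hab
        exfalso
        apply hp2i
        rw [← h1S b h' i hi, ← hab, h2S _ (by omega) i hi]
      · simp only [if_neg h, if_neg h'] at hab
        have := h2inj _ (by omega) _ (by omega) hab
        omega
    · intro j hj hj0
      by_cases h : j < 2 ^ S.card
      · obtain ⟨i', hi', k, hk⟩ := h1par j h hj0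
        refine ⟨i', hi', k, fun k' hk' => ?_⟩
        simp only [if_pos h, if_pos (lt_trans hi' h)]
        exact hk k' hk'
      · by_cases h0 : j = 2 ^ S.card
        · refine ⟨0, hj0, i, fun k' hk' => ?_⟩
          simp only [if_neg h, if_pos hN]
          rw [h0, Nat.sub_self, h20, h10]
          exact hag k' hk'
        · obtain ⟨i', hi', k, hk⟩ := h2par (j - 2 ^ S.card) (by omega) (by omega)
          refine ⟨i' + 2 ^ S.card, by omega, k, fun k' hk' => ?_⟩
          simp only [if_neg h, if_neg (show ¬ (i' + 2 ^ S.card < 2 ^ S.card) by omega)]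
          rw [Nat.add_sub_cancel]
          exact hk k' hk'

theorem cube : CubeStmt := by
  intro I _ _ q _ Bad hne
  classical
  let L : (I → ZMod q) → Finset (I × (I → ZMod q)) := fun p =>
    Finset.univ.image (fun i => (i, Function.update p i 0))
  by_cases hH : ∀ B : Finset (I → ZMod q), B ⊆ Bad → B.card ≤ (B.biUnion L).card
  · left
    have h1 : ∀ s : Finset {p // p ∈ Bad}, s.card ≤ (s.biUnion (fun p => L p.1)).card := by
      intro s
      have h2 := hH (s.image Subtype.val) (by
        intro x hx
        rw [Finset.mem_image] at hx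
        obtain ⟨y, _, rfl⟩ := hx
        exact y.2)
      rw [Finset.card_image_of_injective _ Subtype.val_injective, Finset.image_biUnion] at h2
      exact h2
    rw [Finset.all_card_le_biUnion_card_iff_exists_injective] at h1
    obtain ⟨Λ, hinj, hmem⟩ := h1
    have i0 := Classical.choice hne
    refine ⟨fun p => if h : p ∈ Bad then (Λ ⟨p, h⟩).1 else i0, ?_⟩
    intro p hp p' hp' hO hag
    simp only [dif_pos hp, dif_pos hp'] at hO hag
    have hm := hmem ⟨p, hp⟩
    have hm' := hmem ⟨p', hp'⟩
    simp only [L, Finset.mem_image, Finset.mem_univ, true_and] at hm hm'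
    obtain ⟨i, hi⟩ := hm
    obtain ⟨i', hi'⟩ := hm'
    rw [← hi] at hO hag
    rw [← hi'] at hO
    simp only at hO hag
    have h3 : Λ ⟨p, hp⟩ = Λ ⟨p', hp'⟩ := by
      rw [← hi, ← hi']
      refine Prod.ext hO ?_
      simp only
      rw [← hO]
      funext k
      by_cases hk : k = i
      · rw [hk, Function.update_self, Function.update_self]
      · rw [Function.update_of_ne hk, Function.update_of_ne hk]
        exact hag k hk
    exact congrArg Subtype.val (hinj h3)
  · right
    push Not at hH
    obtain ⟨B₀, hB₀, hB₀c⟩ := hH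
    obtain ⟨B, hBm, hmin⟩ := Finset.exists_min_image
      (Bad.powerset.filter (fun B => (B.biUnion L).card < B.card)) (fun B => B.card)
      ⟨B₀, by rw [Finset.mem_filter, Finset.mem_powerset]; exact ⟨hB₀, hB₀c⟩⟩
    rw [Finset.mem_filter, Finset.mem_powerset] at hBm
    obtain ⟨hBB, hBc⟩ := hBm
    have hBne : B.Nonempty := by
      rw [← Finset.card_pos]
      omega
    have hν : ∀ p ∈ B, ∀ i : I, ∃ p' ∈ B, p' ≠ p ∧ ∀ k, k ≠ i → p' k = p k := by
      intro p hp i
      by_contra hcon
      push Not at hcon
      have h1 : (i, Function.update p i 0) ∈ B.biUnion L := by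
        rw [Finset.mem_biUnion]
        refine ⟨p, hp, ?_⟩
        simp only [L, Finset.mem_image, Finset.mem_univ, true_and]
        exact ⟨i, rfl⟩
      have h2 : (i, Function.update p i 0) ∉ (B.erase p).biUnion L := by
        intro h
        rw [Finset.mem_biUnion] at h
        obtain ⟨p', hp', h⟩ := h
        rw [Finset.mem_erase] at hp'
        simp only [L, Finset.mem_image, Finset.mem_univ, true_and, Prod.mk.injEq] at h
        obtain ⟨i', rfl, h⟩ := h
        obtain ⟨k, hk, hkk⟩ := hcon p' hp'.2 hp'.1
        apply hkk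
        have := congrFun h k
        rw [Function.update_of_ne hk, Function.update_of_ne hk] at this
        exact this
      have h3 : ((B.erase p).biUnion L).card < (B.biUnion L).card := by
        apply Finset.card_lt_card
        rw [Finset.ssubset_iff_of_subset
          (Finset.biUnion_subset_biUnion_of_subset_left _ (Finset.erase_subset _ _))]
        exact ⟨_, h1, h2⟩
      have h4 : (B.erase p).card + 1 = B.card := Finset.card_erase_add_one hp
      have h5 := hmin (B.erase p) (by
        rw [Finset.mem_filter, Finset.mem_powerset]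
        exact ⟨(Finset.erase_subset _ _).trans hBB, by omega⟩)
      omega
    obtain ⟨p₀, hp₀⟩ := hBne
    obtain ⟨s, _, hsB, _, hsinj, hspar⟩ := cube_list B hν Finset.univ p₀ hp₀
    rw [Finset.card_univ] at hsB hsinj hspar
    refine ⟨fun j => s j.val, ?_, fun j => hBB (hsB j.val j.isLt), ?_⟩
    · intro a b hab
      exact Fin.ext (hsinj a.val a.isLt b.val b.isLt hab)
    · intro j hj
      obtain ⟨i, hij, k, hk⟩ := hspar j.val j.isLt hj
      exact ⟨⟨i, lt_trans hij j.isLt⟩, hij, k, hk⟩

end Pool.Agent.Lib.MP_1818ed_co
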