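import Mathlib
import Pool.Agent.Lib.MP_1818ed_co.Defs

/-!
# `DenseStmt`: the hat guessing number of graphs with bounded non-degrees
-/

set_option autoImplicit false

namespace Pool.Agent.Lib.MP_1818ed_co

open Finset

/-- the graph on the chunks: completely joined pairs of chunks -/
def denseGr {V : Type} (G : SimpleGraph V) {L s : ℕ} (Q : Fin L → Fin s → V) :
    SimpleGraph (Fin L) where
  Adj i i' := i ≠ i' ∧ ∀ b b', G.Adj (Q i b) (Q i' b')
  symm := ⟨by
    rintro i i' ⟨h, h2⟩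
    exact ⟨h.symm, fun b b' => (h2 b' b).symm⟩⟩
  loopless := ⟨fun i h => h.1 rfl⟩

open Classical in
/-- the complement of the graph on the chunks has small degrees -/
theorem dense_degree {V : Type} [Fintype V] (G : SimpleGraph V) {L s : ℕ}
    (Q : Fin L → Fin s → V) (Δ : ℕ) (hG : ∀ v, {u | Gᶜ.Adj v u}.ncard ≤ Δ)
    (hinj : ∀ i i' b b', Q i b = Q i' b' → i = i' ∧ b = b') (i : Fin L) :
    {i' | (denseGr G Q)ᶜ.Adj i i'}.ncard ≤ s * Δ := by
  have hsub : {i' | (denseGr G Q)ᶜ.Adj i i'} ⊆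
      (((Finset.univ : Finset (Fin s)).biUnion (fun b => Finset.univ.filter
        (fun i' => ∃ b', Gᶜ.Adj (Q i b) (Q i' b'))) : Finset (Fin L)) : Set (Fin L)) := by
    intro i' hi'
    rw [Set.mem_ofPred_eq, SimpleGraph.compl_adj] at hi'
    obtain ⟨hne, hnot⟩ := hi'
    have hnot2 : ¬ ∀ b b', G.Adj (Q i b) (Q i' b') := fun h => hnot ⟨hne, h⟩
    push Not at hnot2
    obtain ⟨b, b', hbb⟩ := hnot2
    rw [Finset.coe_biUnion]
    simp only [Set.mem_iUnion]
    refine ⟨b, by simp, ?_⟩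
    simp only [Finset.coe_filter, Finset.mem_univ, true_and, Set.mem_ofPred_eq]
    refine ⟨b', ?_⟩
    rw [SimpleGraph.compl_adj]
    exact ⟨fun h => hne (hinj _ _ _ _ h).1, hbb⟩
  have h1 := Set.ncard_le_ncard hsub (Finset.finite_toSet _)
  rw [Set.ncard_coe_finset] at h1
  refine h1.trans ?_
  have h2 : ∀ b ∈ (Finset.univ : Finset (Fin s)), ((Finset.univ : Finset (Fin L)).filter
      (fun i' => ∃ b', Gᶜ.Adj (Q i b) (Q i' b'))).card ≤ Δ := by
    intro b _
    refine le_trans ?_ (hG (Q i b))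
    have hch : ∀ i' : Fin L, ∃ u : V, (∃ b', Gᶜ.Adj (Q i b) (Q i' b')) →
        (Gᶜ.Adj (Q i b) u ∧ ∃ b', u = Q i' b') := by
      intro i'
      by_cases h : ∃ b', Gᶜ.Adj (Q i b) (Q i' b')
      · obtain ⟨b', hb'⟩ := h
        exact ⟨Q i' b', fun _ => ⟨hb', b', rfl⟩⟩
      · exact ⟨Q i b, fun h' => absurd h' h⟩
    choose g hg using hch
    have hinjg : Set.InjOn g (((Finset.univ : Finset (Fin L)).filter
      (fun i' => ∃ b', Gᶜ.Adj (Q i b) (Q i' b')) : Finset (Fin L)) : Set (Fin L)) := by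
      intro x hx y hy hxy
      simp only [Finset.coe_filter, Finset.mem_univ, true_and, Set.mem_ofPred_eq] at hx hy
      obtain ⟨_, bx, hbx⟩ := hg x hx
      obtain ⟨_, by', hby⟩ := hg y hy
      exact (hinj _ _ _ _ (hbx.symm.trans (hxy.trans hby))).1
    rw [← Set.ncard_coe_finset, ← hinjg.ncard_image]
    refine Set.ncard_le_ncard ?_ (Set.toFinite _)
    rintro u ⟨x, hx, rfl⟩
    simp only [Finset.coe_filter, Finset.mem_univ, true_and, Set.mem_ofPred_eq] at hx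
    exact (hg x hx).1
  refine (Finset.card_biUnion_le_card_mul _ _ Δ h2).trans ?_
  simp

/-- DENSE GRAPHS -/
theorem dense (h1 : ColorsStmt) (h2 : GraphStmt) (h3 : BlowStmt) (h4 : MatStmt) (h5 : PlaceStmt)
    (h6 : RepsStmt) (h7 : ChunksStmt) (h8 : ArithStmt) : DenseStmt := by
  intro Δ M hM
  obtain ⟨p, n₁, hp, hA⟩ := h8 Δ M hM
  have : Fact p.Prime := ⟨hp⟩
  refine ⟨n₁, ?_⟩
  intro V _ G hG hn q hq hqM
  obtain ⟨h, s, D, hh, hs, hsD, hcol, hL⟩ := hA _ hn
  have hG' : ∀ v, {u | Gᶜ.Adj v u}.ncard ≤ Δ := by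
    intro v
    have : {u | Gᶜ.Adj v u} = {u | u ≠ v ∧ ¬ G.Adj v u} := by
      ext u
      simp only [Set.mem_ofPred_eq, SimpleGraph.compl_adj, ne_eq]
      constructor
      · rintro ⟨a, b⟩
        exact ⟨fun e => a e.symm, b⟩
      · rintro ⟨a, b⟩
        exact ⟨fun e => a e.symm, b⟩
    rw [this]
    exact hG v
  obtain ⟨L, Q, hinj, hind, hcov⟩ := h7 V Gᶜ Δ s hG' hs
  obtain ⟨Th, hTh, hTh2⟩ := hL L hcov
  obtain ⟨R, hR0, hRep, hRc⟩ := h6 p h hh
  have hdeg : ∀ v, {u | (denseGr G Q)ᶜ.Adj v u}.ncard ≤ D := fun v =>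
    (dense_degree G Q Δ hG' hinj v).trans hsD
  obtain ⟨π, hπ, hspan⟩ := h5 p (Fin (h + 1) → ZMod p) (Fin L) (denseGr G Q)ᶜ D Th R hdeg hR0 hTh
    (by rw [Fintype.card_fin]; exact hTh2 _ hRc)
  have : NeZero s := ⟨by omega⟩
  have hpN : NeZero p := ⟨hp.ne_zero⟩
  have hW1 : Win ((denseGr G Q).comap (fun i : R => π i.1)) (Fin h → ZMod p) := by
    refine h4 p h R _ (fun i => i.1) ?_ ?_
    · intro w hw
      obtain ⟨x, hx, a, ha⟩ := hRep w hw
      exact ⟨⟨x, hx⟩, a, ha⟩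
    · intro i hi
      refine hspan i.1 i.2 ?_
      refine Submodule.span_mono ?_ hi
      rintro y ⟨j, ⟨hji, hj⟩, rfl⟩
      refine ⟨j.2, ?_⟩
      rw [SimpleGraph.compl_adj]
      refine ⟨?_, ?_⟩
      · intro e
        exact hji (Subtype.ext (hπ j.2 i.2 e.symm))
      · rwa [SimpleGraph.comap_adj] at hj
  have hW2 : Win (denseGr G Q) (Fin h → ZMod p) := by
    refine h2 (Fin L) R _ (denseGr G Q) _ (fun i => π i.1) ⟨fun _ => 0⟩ ?_ ?_ hW1
    · intro a b hab
      exact Subtype.ext (hπ a.2 b.2 hab)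
    · intro a b hab
      rwa [SimpleGraph.comap_adj] at hab
  have hW3 : Win G ((Fin h → ZMod p) × Fin s) := by
    refine h3 V (Fin L) (Fin h → ZMod p) (Fin s) G (denseGr G Q) Q hinj ?_ ?_ hW2
    · intro i b b' hbb
      have := hind i b b'
      rw [SimpleGraph.compl_adj] at this
      by_contra hc
      exact this ⟨fun e => hbb (hinj _ _ _ _ e).2, hc⟩
    · intro i i' hii b b'
      exact hii.2 b b'
  have hcard : q ≤ p ^ h * s := by
    have : M * q ≤ M * (p ^ h * s) := hqM.trans hcol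
    exact Nat.le_of_mul_le_mul_left this (by omega)
  have hcard2 : Fintype.card (Fin q) ≤ Fintype.card ((Fin h → ZMod p) × Fin s) := by
    rw [Fintype.card_prod, Fintype.card_fun, Fintype.card_fin, Fintype.card_fin, Fintype.card_fin,
      ZMod.card]
    exact hcard
  obtain ⟨e⟩ := Function.Embedding.nonempty_of_card_le hcard2
  exact h1 V _ (Fin q) G e ⟨⟨0, by omega⟩⟩ e.injective hW3

end Pool.Agent.Lib.MP_1818ed_co
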