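import Mathlib
import Pool.Agent.Lib.MP_1818ed_co.Defs3

/-!
# Dense graphs with complement degrees `O(n / log n)` (MP_1818ed_co)
-/

set_option autoImplicit false

namespace Pool.Agent.Lib.MP_1818ed_co

open Finset

theorem denseLog_greedy_card {X : Type} (G : SimpleGraph X) (A : X → Prop) (s : ℕ) :
    ∀ (l : List X) (C : Finset X), C.card ≤ s → (greedy G A s l C).card ≤ s := by
  classical
  intro l
  induction l with
  | nil =>
    intro C hC
    simpa [greedy] using hC
  | cons v l ih =>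
    intro C hC
    unfold greedy
    split_ifs with h
    · apply ih
      refine le_trans (Finset.card_insert_le _ _) ?_
      omega
    · exact ih C hC

theorem denseLog_deg {V : Type} [Fintype V] (G : SimpleGraph V) (W : Finset V) (Δ : ℕ)
    (hΔ : ∀ v, {u | u ≠ v ∧ ¬ G.Adj v u}.ncard ≤ Δ) (v : {w // w ∈ W}) :
    {u : {w // w ∈ W} | u ≠ v ∧ ¬ (G.comap Subtype.val).Adj v u}.ncard ≤ Δ := by
  refine le_trans ?_ (hΔ v.1)
  refine Set.ncard_le_ncard_of_injOn (fun u => u.1) ?_ ?_ (Set.toFinite _)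
  · rintro u ⟨h1, h2⟩
    exact ⟨fun h => h1 (Subtype.ext h), h2⟩
  · intro a _ b _ h
    exact Subtype.ext h

theorem denseLog_card_filter {α : Type} (i1 i2 : Fintype α) (p : α → Prop)
    (d1 d2 : DecidablePred p) :
    (@Finset.filter α p d1 (@Finset.univ α i1)).card =
      (@Finset.filter α p d2 (@Finset.univ α i2)).card := by
  have h1 : i1 = i2 := Subsingleton.elim _ _
  subst h1
  have h2 : d1 = d2 := Subsingleton.elim _ _
  subst h2
  rfl

theorem denseLog (h1 : ColorsStmt) (h2 : AmpStmt) (h3 : GreedyGameStmt) (h4 : GreedyProbStmt)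
    (h5 : ClqStmt) (h6 : NumLogStmt) : DenseLogStmt := by
  classical
  intro M hM
  obtain ⟨C, n₁, hC⟩ := h6 M hM
  refine ⟨C, n₁, ?_⟩
  intro V _ G Δ hΔ hn hlog q hq hMq
  obtain ⟨q₁, m, K, σ, z, hq1, hqq, hm, hK1, hK2, hσ1, hσq, hz0, hz1, hmn, hnum⟩ :=
    hC (Fintype.card V) Δ hn hlog
  have hqle : q ≤ q₁ := hqq q hMq
  have hne : NeZero q₁ := ⟨by omega⟩
  obtain ⟨U, W, hUW, hsp, hUc, hWc⟩ := h5 V G Δ m hΔ hmn
  obtain ⟨f, hf1, hf2⟩ := h3 {w // w ∈ W} (G.comap Subtype.val)
    (Finset.univ : Finset {w // w ∈ W}).toList q₁ σ hσ1 hσq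
  set l : List {w // w ∈ W} := (Finset.univ : Finset {w // w ∈ W}).toList with hl
  have hlen : l.length = W.card := by
    rw [hl, Finset.length_toList, Finset.card_univ, Fintype.card_coe]
  have hprob := h4 {w // w ∈ W} (G.comap Subtype.val) l q₁ σ σ Δ z (Finset.nodup_toList _) hσq
    (denseLog_deg G W Δ hΔ) hz0 hz1
  rw [hlen, Fintype.card_coe] at hprob
  set B : Finset ({w // w ∈ W} → ZMod q₁) := Finset.univ.filter (fun y =>
    (greedy (G.comap Subtype.val) (fun v => (y v).val < σ) σ l ∅).card < σ) with hB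
  have hprob' : (B.card : ℝ) * z ^ σ ≤
      (q₁ : ℝ) ^ W.card * (1 - (σ : ℝ) / (q₁ : ℝ) * (1 - z)) ^ (W.card - σ * Δ) := by
    refine le_trans (le_of_eq ?_) hprob
    rw [hB]
    exact congrArg (fun t : ℕ => (t : ℝ) * z ^ σ) (denseLog_card_filter _ _ _ _ _)
  have hnum' := hnum W.card B.card (Finset.card_le_univ W) hWc hprob'
  have hU : U.Nonempty := Finset.card_pos.1 (by omega)
  have hwin : Win G (ZMod q₁) := by
    refine h2 V G U W q₁ K f B hUW hsp hU ?_ ?_ hK1 (by rw [hUc]; exact hK2) ?_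
    · intro w c c' h
      exact hf1 w c c' h
    · intro y hy
      apply hf2
      have hle := denseLog_greedy_card (G.comap (Subtype.val : {w // w ∈ W} → V))
        (fun v => (y v).val < σ) σ l ∅ (by simp)
      have hge : ¬ (greedy (G.comap (Subtype.val : {w // w ∈ W} → V))
          (fun v => (y v).val < σ) σ l ∅).card < σ := by
        intro h
        apply hy
        rw [hB, Finset.mem_filter]
        exact ⟨Finset.mem_univ _, h⟩
      omega
    · rw [hUc]
      exact hnum'
  have hcard : Fintype.card (Fin q) ≤ Fintype.card (ZMod q₁) := by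
    rw [Fintype.card_fin, ZMod.card]
    exact hqle
  obtain ⟨e⟩ := Function.Embedding.nonempty_of_card_le hcard
  exact h1 V (ZMod q₁) (Fin q) G e ⟨⟨0, by omega⟩⟩ e.injective hwin

end Pool.Agent.Lib.MP_1818ed_co
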