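import Mathlib
import Pool.Agent.Lib.MP_1818ed_co.Defs

/-!
# Dissociated shifts (MP_1818ed_co, `DissStmt`)
-/

set_option autoImplicit false

namespace Pool.Agent.Lib.MP_1818ed_co

open Finset

/-- The sum of `z` over a class. -/
def dissSum {N : ℕ} {Y : Type} [DecidableEq Y] (g : Fin N → Y) (z : Fin N → ℕ) (y : Y) : ℕ :=
  ∑ i ∈ univ.filter (fun i => g i = y), z i

theorem diss_total {N : ℕ} {Y : Type} [DecidableEq Y] (g : Fin N → Y) (z : Fin N → ℕ) :
    ∑ i, z i = ∑ y ∈ univ.image g, dissSum g z y :=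
  (Finset.sum_fiberwise_of_maps_to (fun _ hi => Finset.mem_image_of_mem g hi) _).symm

theorem diss_regroup {N : ℕ} {Y R : Type} [DecidableEq Y] [CommRing R] (g : Fin N → Y)
    (z : Fin N → ℕ) (u : Y → R) :
    ∑ i, (z i : R) * u (g i) = ∑ y ∈ univ.image g, (dissSum g z y : R) * u y := by
  rw [← Finset.sum_fiberwise_of_maps_to (fun i hi => Finset.mem_image_of_mem g hi)
    (fun i => (z i : R) * u (g i))]
  refine Finset.sum_congr rfl fun y _ => ?_
  unfold dissSum
  push_cast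
  rw [Finset.sum_mul]
  refine Finset.sum_congr rfl fun i hi => ?_
  rw [(Finset.mem_filter.mp hi).2]

theorem diss_le {N B : ℕ} {Y : Type} [DecidableEq Y] (g : Fin N → Y) (z : Fin N → ℕ)
    (hz : ∀ i, z i ≤ B) (y : Y) : dissSum g z y < N * B + 1 := by
  unfold dissSum
  have h1 : ∑ i ∈ univ.filter (fun i => g i = y), z i ≤ ∑ _i : Fin N, B :=
    (Finset.sum_le_sum_of_subset (Finset.filter_subset _ _)).trans
      (Finset.sum_le_sum fun i _ => hz i)
  simp only [Finset.sum_const, Finset.card_univ, Fintype.card_fin, smul_eq_mul] at h1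
  omega

/-- The counting inequality. -/
theorem diss_arith {N b r : ℕ} (hN : 1 ≤ N) (hr : 1 ≤ r) (hbr : b + r ≤ N) :
    (N * N ^ N + 1) ^ b * (N * N ^ N + 1) ^ (r - 1) < (N ^ N + 1) ^ N := by
  set B := N ^ N with hB
  have h1 : N * B + 1 ≤ N * (B + 1) := by
    have : N * (B + 1) = N * B + N := by ring
    omega
  have h2 : (N * B + 1) ^ b * (N * B + 1) ^ (r - 1) ≤ (N * B + 1) ^ (N - 1) := by
    rw [← pow_add]
    exact Nat.pow_le_pow_right (by omega) (by omega)
  have h3 : (N * B + 1) ^ (N - 1) ≤ (N * (B + 1)) ^ (N - 1) := Nat.pow_le_pow_left h1 _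
  have h4 : (N * (B + 1)) ^ (N - 1) = N ^ (N - 1) * (B + 1) ^ (N - 1) := mul_pow _ _ _
  have h5 : N ^ (N - 1) ≤ B := Nat.pow_le_pow_right hN (by omega)
  have h6 : N ^ (N - 1) * (B + 1) ^ (N - 1) < (B + 1) * (B + 1) ^ (N - 1) :=
    Nat.mul_lt_mul_of_pos_right (by omega) (by positivity)
  have h7 : (B + 1) * (B + 1) ^ (N - 1) = (B + 1) ^ N := by
    rw [← pow_succ']
    congr 1
    omega
  omega

/-- The statement for the index set `Fin N`. -/
theorem diss_core {N q : ℕ} [NeZero q] (hN : 1 ≤ N) (hq : (N ^ N + 1) ^ N ≤ q) {J : Type}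
    [DecidableEq J] (κ : Fin N → J) (s : J → ZMod q) :
    N + 1 ≤ (univ.image κ).card +
      (univ.image (fun i : Fin N => (((N ^ N + 1) ^ (i : ℕ) : ℕ) : ZMod q) + s (κ i))).card := by
  by_contra hcon
  set B := N ^ N with hB
  set x : Fin N → ZMod q := fun i => (((B + 1) ^ (i : ℕ) : ℕ) : ZMod q) + s (κ i) with hx
  have hbr : (univ.image κ).card + (univ.image x).card ≤ N := by omega
  set i₀ : Fin N := ⟨0, by omega⟩ with hi₀
  set y₀ : ZMod q := x i₀ with hy₀
  have hy₀m : y₀ ∈ univ.image x := Finset.mem_image_of_mem x (Finset.mem_univ i₀)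
  have hr : 1 ≤ (univ.image x).card := Finset.card_pos.mpr ⟨y₀, hy₀m⟩
  have hzB : ∀ z : Fin N → Fin (B + 1), ∀ i, ((z i : ℕ)) ≤ B := fun z i => by
    have := (z i).isLt
    omega
  -- the pigeonhole
  let Φ : (Fin N → Fin (B + 1)) →
      ({j // j ∈ univ.image κ} → Fin (N * B + 1)) ×
        ({y // y ∈ (univ.image x).erase y₀} → Fin (N * B + 1)) := fun z =>
    (fun j => ⟨dissSum κ (fun i => (z i : ℕ)) j.1, diss_le κ _ (hzB z) j.1⟩,
      fun y => ⟨dissSum x (fun i => (z i : ℕ)) y.1, diss_le x _ (hzB z) y.1⟩)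
  have hcard : Fintype.card (({j // j ∈ univ.image κ} → Fin (N * B + 1)) ×
        ({y // y ∈ (univ.image x).erase y₀} → Fin (N * B + 1))) <
      Fintype.card (Fin N → Fin (B + 1)) := by
    rw [Fintype.card_prod, Fintype.card_fun, Fintype.card_fun, Fintype.card_fun, Fintype.card_fin,
      Fintype.card_fin, Fintype.card_fin, Fintype.card_coe, Fintype.card_coe,
      Finset.card_erase_of_mem hy₀m]
    exact diss_arith hN hr hbr
  obtain ⟨z, z', hne, hΦ⟩ := Fintype.exists_ne_map_eq_of_card_lt Φ hcard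
  have h1 : ∀ j ∈ univ.image κ, dissSum κ (fun i => (z i : ℕ)) j =
      dissSum κ (fun i => (z' i : ℕ)) j := by
    intro j hj
    have := congrFun (congrArg Prod.fst hΦ) ⟨j, hj⟩
    exact congrArg Fin.val this
  have h2 : ∀ y ∈ (univ.image x).erase y₀, dissSum x (fun i => (z i : ℕ)) y =
      dissSum x (fun i => (z' i : ℕ)) y := by
    intro y hy
    have := congrFun (congrArg Prod.snd hΦ) ⟨y, hy⟩
    exact congrArg Fin.val this
  have h3 : ∑ i, (z i : ℕ) = ∑ i, (z' i : ℕ) := by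
    rw [diss_total κ, diss_total κ]
    exact Finset.sum_congr rfl h1
  have h4 : ∀ y ∈ univ.image x, dissSum x (fun i => (z i : ℕ)) y =
      dissSum x (fun i => (z' i : ℕ)) y := by
    intro y hy
    by_cases hyy : y = y₀
    · subst hyy
      have e1 := diss_total x (fun i => (z i : ℕ))
      have e2 := diss_total x (fun i => (z' i : ℕ))
      rw [← Finset.add_sum_erase _ _ hy₀m] at e1 e2
      have e3 : ∑ y ∈ (univ.image x).erase y₀, dissSum x (fun i => (z i : ℕ)) y =
          ∑ y ∈ (univ.image x).erase y₀, dissSum x (fun i => (z' i : ℕ)) y :=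
        Finset.sum_congr rfl h2
      omega
    · exact h2 y (Finset.mem_erase.mpr ⟨hyy, hy⟩)
  -- the weighted sums agree modulo `q`
  have h5 : ∑ i, ((z i : ℕ) : ZMod q) * (((B + 1) ^ (i : ℕ) : ℕ) : ZMod q) =
      ∑ i, ((z' i : ℕ) : ZMod q) * (((B + 1) ^ (i : ℕ) : ℕ) : ZMod q) := by
    have e : ∀ w : Fin N → Fin (B + 1),
        ∑ i, ((w i : ℕ) : ZMod q) * (((B + 1) ^ (i : ℕ) : ℕ) : ZMod q) =
        ∑ y ∈ univ.image x, (dissSum x (fun i => (w i : ℕ)) y : ZMod q) * y -
        ∑ j ∈ univ.image κ, (dissSum κ (fun i => (w i : ℕ)) j : ZMod q) * s j := by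
      intro w
      rw [← diss_regroup κ (fun i => (w i : ℕ)) s,
        ← diss_regroup x (fun i => (w i : ℕ)) (fun y => y), ← Finset.sum_sub_distrib]
      refine Finset.sum_congr rfl fun i _ => ?_
      rw [hx]
      ring
    rw [e z, e z']
    congr 1
    · exact Finset.sum_congr rfl fun y hy => by rw [h4 y hy]
    · exact Finset.sum_congr rfl fun j hj => by rw [h1 j hj]
  have h6 : (((finFunctionFinEquiv z : Fin ((B + 1) ^ N)) : ℕ) : ZMod q) =
      (((finFunctionFinEquiv z' : Fin ((B + 1) ^ N)) : ℕ) : ZMod q) := by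
    rw [finFunctionFinEquiv_apply, finFunctionFinEquiv_apply]
    push_cast at h5 ⊢
    exact h5
  have h7 : ((finFunctionFinEquiv z : Fin ((B + 1) ^ N)) : ℕ) =
      ((finFunctionFinEquiv z' : Fin ((B + 1) ^ N)) : ℕ) := by
    rw [ZMod.natCast_eq_natCast_iff'] at h6
    rwa [Nat.mod_eq_of_lt ((Fin.isLt _).trans_le hq),
      Nat.mod_eq_of_lt ((Fin.isLt _).trans_le hq)] at h6
  exact hne (finFunctionFinEquiv.injective (Fin.ext h7))

theorem diss : DissStmt := by
  intro V J _ _ S κ q _ hS hq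
  set N := S.card with hN
  have hN1 : 1 ≤ N := Finset.card_pos.mpr hS
  let e : Fin N ≃ {v // v ∈ S} := S.equivFin.symm
  refine ⟨fun v => if h : v ∈ S then (((N ^ N + 1) ^ ((e.symm ⟨v, h⟩ : Fin N) : ℕ) : ℕ) : ZMod q)
    else 0, ?_⟩
  intro s
  have h := diss_core hN1 hq (fun i => κ (e i).1) s
  have h1 : univ.image (fun i : Fin N => κ (e i).1) = S.image κ := by
    ext j
    simp only [Finset.mem_image, Finset.mem_univ, true_and]
    constructor
    · rintro ⟨i, rfl⟩
      exact ⟨(e i).1, (e i).2, rfl⟩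
    · rintro ⟨v, hv, rfl⟩
      exact ⟨e.symm ⟨v, hv⟩, by rw [Equiv.apply_symm_apply]⟩
  have h2 : univ.image (fun i : Fin N => (((N ^ N + 1) ^ (i : ℕ) : ℕ) : ZMod q) + s (κ (e i).1)) =
      S.image (fun v => (if h : v ∈ S then
        (((N ^ N + 1) ^ ((e.symm ⟨v, h⟩ : Fin N) : ℕ) : ℕ) : ZMod q) else 0) + s (κ v)) := by
    ext y
    simp only [Finset.mem_image, Finset.mem_univ, true_and]
    constructor
    · rintro ⟨i, rfl⟩
      refine ⟨(e i).1, (e i).2, ?_⟩
      rw [dif_pos (e i).2]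
      simp
    · rintro ⟨v, hv, rfl⟩
      refine ⟨e.symm ⟨v, hv⟩, ?_⟩
      rw [dif_pos hv, Equiv.apply_symm_apply]
  rw [h1, h2] at h
  exact h

end Pool.Agent.Lib.MP_1818ed_co
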