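import Mathlib
import Pool.Agent.Lib.MP_1818ed_co.Defs

/-!
# Free vertices (MP_1818ed_co)
-/

set_option autoImplicit false

namespace Pool.Agent.Lib.MP_1818ed_co

open Finset

theorem free : FreeStmt := by
  classical
  intro V _ G X₀ X₁ I m h01 hI0 hI1 hadj hcard hcol
  obtain ⟨C⟩ := hcol
  have hprop : ∀ (u v : V) (hu : u ∉ X₁) (hv : v ∉ X₁), G.Adj u v → C ⟨u, hu⟩ ≠ C ⟨v, hv⟩ := by
    intro u v hu hv huv
    exact C.valid (show (G.induce {v | v ∉ X₁}).Adj ⟨u, hu⟩ ⟨v, hv⟩ from huv)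
  have hIX0 : ∀ i ∈ I, i ∉ X₀ := fun i hi => Finset.disjoint_left.mp hI0 hi
  have hIX1 : ∀ i ∈ I, i ∉ X₁ := fun i hi => Finset.disjoint_left.mp hI1 hi
  set I' : Finset V := I.filter (fun i => ∀ (hi : i ∉ X₁) (v : V) (hv : v ∉ X₁), v ≠ i →
    C ⟨v, hv⟩ ≠ C ⟨i, hi⟩) with hI'
  -- distinct elements of `I` have distinct colours
  have hdist : ∀ i (hi : i ∈ I) j (hj : j ∈ I), C ⟨i, hIX1 i hi⟩ = C ⟨j, hIX1 j hj⟩ → i = j := by
    intro i hi j hj e
    by_contra hne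
    exact hprop i j (hIX1 i hi) (hIX1 j hj)
      (hadj i hi j (Ne.symm hne) (hIX0 j hj) (hIX1 j hj)) e
  have hbad : (I \ I').card ≤ X₀.card := by
    have hex : ∀ i, ∃ v, i ∈ I \ I' → v ∈ X₀ ∧ ∃ (hi : i ∉ X₁) (hv : v ∉ X₁),
        C ⟨v, hv⟩ = C ⟨i, hi⟩ := by
      intro i
      by_cases hi : i ∈ I \ I'
      · rw [Finset.mem_sdiff] at hi
        obtain ⟨hi1, hi2⟩ := hi
        have h3 : ¬ (∀ (hi : i ∉ X₁) (v : V) (hv : v ∉ X₁), v ≠ i → C ⟨v, hv⟩ ≠ C ⟨i, hi⟩) :=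
          fun h => hi2 (Finset.mem_filter.mpr ⟨hi1, h⟩)
        push Not at h3
        obtain ⟨hi4, v, hv, hvi, e⟩ := h3
        refine ⟨v, fun _ => ⟨?_, hi4, hv, e⟩⟩
        by_contra hv0
        exact hprop i v hi4 hv (hadj i hi1 v hvi hv0 hv) e.symm
      · exact ⟨i, fun h => absurd h hi⟩
    choose φ hφ using hex
    refine Finset.card_le_card_of_injOn φ (fun i hi => (hφ i hi).1) ?_
    intro i hi j hj e
    obtain ⟨-, hi1, hv1, e1⟩ := hφ i hi
    obtain ⟨-, hj1, hv2, e2⟩ := hφ j hj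
    have hiI : i ∈ I := (Finset.mem_sdiff.mp hi).1
    have hjI : j ∈ I := (Finset.mem_sdiff.mp hj).1
    refine hdist i hiI j hjI ?_
    rw [← e1, ← e2]
    congr 1
    exact Subtype.ext e
  have hN : ∀ x ∈ X₁, X₁.card ≤ (I'.filter (fun i => ¬ G.Adj x i)).card := by
    intro x hx
    have h1 := hcard x hx
    have h2 : {i | i ∈ I ∧ ¬ G.Adj x i}.ncard = (I.filter (fun i => ¬ G.Adj x i)).card := by
      rw [← Set.ncard_coe_finset]
      congr 1
      ext i
      simp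
    have h3 : I.filter (fun i => ¬ G.Adj x i) ⊆ I'.filter (fun i => ¬ G.Adj x i) ∪ (I \ I') := by
      intro i hi
      rw [Finset.mem_filter] at hi
      rw [Finset.mem_union, Finset.mem_filter, Finset.mem_sdiff]
      by_cases h : i ∈ I'
      · exact Or.inl ⟨h, hi.2⟩
      · exact Or.inr ⟨hi.1, h⟩
    have h4 := (Finset.card_le_card h3).trans (Finset.card_union_le _ _)
    omega
  obtain ⟨g, hginj, hg⟩ := (Finset.all_card_le_biUnion_card_iff_exists_injective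
    (fun x : {x // x ∈ X₁} => I'.filter (fun i => ¬ G.Adj x.1 i))).mp (by
      intro s
      rcases s.eq_empty_or_nonempty with hs | ⟨x, hx⟩
      · rw [hs]; simp
      · have h1 : s.card ≤ X₁.card := by
          have := Finset.card_le_univ s
          rwa [Fintype.card_coe] at this
        refine h1.trans ((hN x.1 x.2).trans (Finset.card_le_card ?_))
        exact Finset.subset_biUnion_of_mem
          (fun x : {x // x ∈ X₁} => I'.filter (fun i => ¬ G.Adj x.1 i)) hx)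
  have hgI' : ∀ x, g x ∈ I' := fun x => (Finset.mem_filter.mp (hg x)).1
  have hgI : ∀ x, g x ∈ I := fun x => (Finset.mem_filter.mp (hgI' x)).1
  have hgadj : ∀ x, ¬ G.Adj x.1 (g x) := fun x => (Finset.mem_filter.mp (hg x)).2
  have hgs : ∀ x (v : V) (hv : v ∉ X₁), C ⟨v, hv⟩ = C ⟨g x, hIX1 _ (hgI x)⟩ → v = g x := by
    intro x v hv e
    by_contra hne
    exact (Finset.mem_filter.mp (hgI' x)).2 (hIX1 _ (hgI x)) v hv hne e
  refine ⟨SimpleGraph.Coloring.mk (fun v => if h : v ∈ X₁ then C ⟨g ⟨v, h⟩, hIX1 _ (hgI ⟨v, h⟩)⟩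
    else C ⟨v, h⟩) ?_⟩
  intro u v huv
  by_cases hu : u ∈ X₁
  · by_cases hv : v ∈ X₁
    · simp only [hu, hv, dif_pos]
      intro e
      have e1 := hdist _ (hgI ⟨u, hu⟩) _ (hgI ⟨v, hv⟩) e
      have e2 := hginj e1
      rw [Subtype.mk.injEq] at e2
      exact huv.ne e2
    · simp only [hu, hv, dif_pos, not_false_eq_true, dif_neg]
      intro e
      have e1 := hgs ⟨u, hu⟩ v hv e.symm
      rw [e1] at huv
      exact hgadj ⟨u, hu⟩ huv
  · by_cases hv : v ∈ X₁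
    · simp only [hu, hv, dif_pos, not_false_eq_true, dif_neg]
      intro e
      have e1 := hgs ⟨v, hv⟩ u hu e
      rw [e1] at huv
      exact hgadj ⟨v, hv⟩ huv.symm
    · simp only [hu, hv, not_false_eq_true, dif_neg]
      exact hprop u v hu hv huv

end Pool.Agent.Lib.MP_1818ed_co
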