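import Mathlib
import Pool.Agent.Lib.MP_1818ed_co.Defs3

/-!
# The greedy clique is large with high probability (MP_1818ed_co)
-/

set_option autoImplicit false

namespace Pool.Agent.Lib.MP_1818ed_co

open Finset

namespace GreedyProb

theorem greedy_congr {X : Type} (G : SimpleGraph X) (A A' : X → Prop) (s : ℕ) :
    ∀ (l : List X) (C : Finset X), (∀ v ∈ l, A v ↔ A' v) →
      greedy G A s l C = greedy G A' s l C := by
  intro l
  induction l with
  | nil => intro C _; rfl
  | cons v l ih =>
    intro C h
    have hv := h v (by simp)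
    have hl : ∀ u ∈ l, A u ↔ A' u := fun u hu => h u (by simp [hu])
    simp only [greedy]
    rw [ih _ hl, ih _ hl]
    by_cases h1 : C.card < s ∧ A v ∧ ∀ u ∈ C, G.Adj v u
    · rw [if_pos h1, if_pos ⟨h1.1, hv.mp h1.2.1, h1.2.2⟩]
    · rw [if_neg h1, if_neg (fun h2 => h1 ⟨h2.1, hv.mpr h2.2.1, h2.2.2⟩)]

theorem greedy_full {X : Type} (G : SimpleGraph X) (A : X → Prop) (s : ℕ) :
    ∀ (l : List X) (C : Finset X), ¬ C.card < s → greedy G A s l C = C := by
  intro l
  induction l with
  | nil => intro C _; rfl
  | cons v l ih =>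
    intro C h
    simp only [greedy, h, false_and, if_false]
    exact ih C h

theorem card_small (q σ : ℕ) [NeZero q] (h : σ ≤ q) :
    ((Finset.univ : Finset (ZMod q)).filter (fun a => a.val < σ)).card = σ := by
  have h1 : ((Finset.univ : Finset (ZMod q)).filter (fun a => a.val < σ)).card
      = (Finset.range σ).card := by
    apply Finset.card_bij (fun a _ => a.val)
    · intro a ha
      simpa using ha
    · intro a _ b _ hab
      exact ZMod.val_injective q hab
    · intro b hb
      have hb' : b < σ := by simpa using hb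
      refine ⟨(b : ZMod q), ?_, ?_⟩
      · simp only [mem_filter, mem_univ, true_and]
        rw [ZMod.val_cast_of_lt (lt_of_lt_of_le hb' h)]
        exact hb'
      · exact ZMod.val_cast_of_lt (lt_of_lt_of_le hb' h)
  rw [h1, Finset.card_range]

open Classical in
theorem indep {X : Type} [Fintype X] (q σ : ℕ) [NeZero q] (h : σ ≤ q) (v : X)
    (F : (X → ZMod q) → ℝ) (hF : ∀ (y : X → ZMod q) (t : ZMod q), F (y + Pi.single v t) = F y) :
    ∑ y : X → ZMod q, (if (y v).val < σ then F y else 0) =
      (σ : ℝ) / (q : ℝ) * ∑ y : X → ZMod q, F y := by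
  have hq : (0 : ℝ) < (q : ℝ) := by
    have := NeZero.pos q
    exact_mod_cast this
  have h1 : ∀ t : ZMod q, ∑ y : X → ZMod q, (if (y v).val < σ then F y else 0) =
      ∑ y : X → ZMod q, (if (y v + t).val < σ then F y else 0) := by
    intro t
    rw [← Equiv.sum_comp (Equiv.addRight (Pi.single v t : X → ZMod q))]
    apply Finset.sum_congr rfl
    intro y _
    simp only [Equiv.coe_addRight, hF, Pi.add_apply, Pi.single_eq_same]
  have h2 : (q : ℝ) * ∑ y : X → ZMod q, (if (y v).val < σ then F y else 0) =
      ∑ t : ZMod q, ∑ y : X → ZMod q, (if (y v + t).val < σ then F y else 0) := by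
    rw [← Finset.sum_congr rfl (fun t _ => h1 t)]
    rw [Finset.sum_const, Finset.card_univ, ZMod.card, nsmul_eq_mul]
  have h3 : ∀ y : X → ZMod q, ∑ t : ZMod q, (if (y v + t).val < σ then F y else 0) =
      (σ : ℝ) * F y := by
    intro y
    have h4 : ∑ t : ZMod q, (if (y v + t).val < σ then F y else 0) =
        ∑ a : ZMod q, (if a.val < σ then F y else 0) :=
      Fintype.sum_equiv (Equiv.addLeft (y v)) _ _ (fun t => by simp)
    rw [h4, ← Finset.sum_filter, Finset.sum_const, card_small q σ h, nsmul_eq_mul]
  rw [Finset.sum_comm] at h2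
  rw [Finset.sum_congr rfl (fun y _ => h3 y), ← Finset.mul_sum] at h2
  field_simp
  linarith

open Classical in
/-- The number of vertices of the list adjacent to everything in `C`. -/
noncomputable def avail {X : Type} (G : SimpleGraph X) (l : List X) (C : Finset X) : ℕ :=
  (l.toFinset.filter (fun v => ∀ u ∈ C, G.Adj v u)).card

open Classical in
theorem avail_skip {X : Type} (G : SimpleGraph X) (v : X) (l : List X) (C : Finset X)
    (h : ¬ ∀ u ∈ C, G.Adj v u) : avail G (v :: l) C = avail G l C := by
  unfold avail
  rw [List.toFinset_cons, Finset.filter_insert, if_neg h]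

open Classical in
theorem avail_take {X : Type} (G : SimpleGraph X) (v : X) (l : List X) (C : Finset X)
    (hv : v ∉ l) (h : ∀ u ∈ C, G.Adj v u) : avail G (v :: l) C = avail G l C + 1 := by
  unfold avail
  rw [List.toFinset_cons, Finset.filter_insert, if_pos h, Finset.card_insert_of_notMem]
  simp [hv]

open Classical in
theorem avail_insert {X : Type} [Fintype X] (G : SimpleGraph X) (v : X) (l : List X) (C : Finset X)
    (Δ : ℕ) (hΔ : {u | u ≠ v ∧ ¬ G.Adj v u}.ncard ≤ Δ) (hv : v ∉ l) :
    avail G l C ≤ avail G l (insert v C) + Δ := by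
  have key : ∀ (A B D : Finset X), (∀ w ∈ A, w ∈ B ∨ w ∈ D) → A.card ≤ B.card + D.card := by
    intro A B D h
    refine le_trans (Finset.card_le_card (t := B ∪ D) ?_) (Finset.card_union_le _ _)
    intro w hw
    exact Finset.mem_union.mpr (h w hw)
  have h2 : (Finset.univ.filter (fun u => u ≠ v ∧ ¬ G.Adj v u)).card ≤ Δ := by
    have : {u | u ≠ v ∧ ¬ G.Adj v u} =
        ((Finset.univ.filter (fun u => u ≠ v ∧ ¬ G.Adj v u) : Finset X) : Set X) := by
      ext u
      simp
    rw [this, Set.ncard_coe_finset] at hΔ
    exact hΔ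
  unfold avail
  refine le_trans (key _ _ (Finset.univ.filter (fun u => u ≠ v ∧ ¬ G.Adj v u)) ?_)
    (Nat.add_le_add_left h2 _)
  intro w hw
  simp only [mem_filter, List.mem_toFinset] at hw
  simp only [mem_filter, List.mem_toFinset, mem_univ, true_and, mem_insert,
    forall_eq_or_imp]
  by_cases ha : G.Adj v w
  · left
    exact ⟨hw.1, ha.symm, hw.2⟩
  · right
    refine ⟨?_, ha⟩
    rintro rfl
    exact hv hw.1

/-- The weighted number of failing colourings. -/
noncomputable def T {X : Type} [Fintype X] (G : SimpleGraph X) (q σ s : ℕ) [NeZero q] (z : ℝ)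
    (l : List X) (C : Finset X) (y : X → ZMod q) : ℝ :=
  if (greedy G (fun v => (y v).val < σ) s l C).card < s then
    z ^ (greedy G (fun v => (y v).val < σ) s l C).card else 0

open Classical in
theorem T_indep {X : Type} [Fintype X] (G : SimpleGraph X) (q σ s : ℕ) [NeZero q] (z : ℝ)
    (l : List X) (C : Finset X) (v : X) (hv : v ∉ l) (y : X → ZMod q) (t : ZMod q) :
    T G q σ s z l C (y + Pi.single v t) = T G q σ s z l C y := by
  have h : greedy G (fun u => ((y + Pi.single v t : X → ZMod q) u).val < σ) s l C =
      greedy G (fun u => (y u).val < σ) s l C := by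
    apply greedy_congr
    intro u hu
    have : u ≠ v := by
      rintro rfl
      exact hv hu
    simp [Pi.single_eq_of_ne this]
  unfold T
  rw [h]

open Classical in
theorem claim {X : Type} [Fintype X] (G : SimpleGraph X) (q σ s Δ : ℕ) [NeZero q] (z : ℝ)
    (hσ : σ ≤ q) (hΔ : ∀ v, {u | u ≠ v ∧ ¬ G.Adj v u}.ncard ≤ Δ) (hz : 0 < z) (hz1 : z ≤ 1) :
    ∀ (l : List X) (C : Finset X), l.Nodup → (∀ v ∈ l, v ∉ C) →
      ∑ y : X → ZMod q, T G q σ s z l C y ≤
        (q : ℝ) ^ (Fintype.card X) * z ^ C.card *
          (1 - (σ : ℝ) / (q : ℝ) * (1 - z)) ^ (avail G l C - (s - C.card) * Δ) := by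
  classical
  have hq : (0 : ℝ) < (q : ℝ) := by
    have := NeZero.pos q
    exact_mod_cast this
  have hr0 : (0 : ℝ) ≤ (σ : ℝ) / (q : ℝ) := by positivity
  have hr1 : (σ : ℝ) / (q : ℝ) ≤ 1 := by
    rw [div_le_one hq]
    exact_mod_cast hσ
  set ρ : ℝ := 1 - (σ : ℝ) / (q : ℝ) * (1 - z) with hρ
  have hρ0 : 0 ≤ ρ := by
    rw [hρ]
    nlinarith
  have hρ1 : ρ ≤ 1 := by
    rw [hρ]
    nlinarith
  have hfull : ∀ (l : List X) (C : Finset X), ¬ C.card < s →
      ∑ y : X → ZMod q, T G q σ s z l C y ≤
        (q : ℝ) ^ (Fintype.card X) * z ^ C.card * ρ ^ (avail G l C - (s - C.card) * Δ) := by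
    intro l C hC
    have h0 : ∑ y : X → ZMod q, T G q σ s z l C y = 0 := by
      apply Finset.sum_eq_zero
      intro y _
      unfold T
      rw [greedy_full G _ s l C hC, if_neg hC]
    rw [h0]
    positivity
  intro l
  induction l with
  | nil =>
    intro C _ _
    by_cases hC : C.card < s
    · have h0 : avail G ([] : List X) C = 0 := by simp [avail]
      have h1 : ∀ y : X → ZMod q, T G q σ s z [] C y = z ^ C.card := by
        intro y
        unfold T
        simp only [greedy, if_pos hC]
      rw [Finset.sum_congr rfl (fun y _ => h1 y), Finset.sum_const, h0, Nat.zero_sub, pow_zero,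
        mul_one, Finset.card_univ, Fintype.card_fun, ZMod.card, nsmul_eq_mul]
      push_cast
      exact le_rfl
    · exact hfull _ C hC
  | cons v l ih =>
    intro C hnd hC'
    by_cases hC : C.card < s
    swap
    · exact hfull _ C hC
    have hvl : v ∉ l := (List.nodup_cons.mp hnd).1
    have hnd' : l.Nodup := (List.nodup_cons.mp hnd).2
    have hvC : v ∉ C := hC' v (by simp)
    have hlC : ∀ u ∈ l, u ∉ C := fun u hu => hC' u (by simp [hu])
    by_cases hadj : ∀ u ∈ C, G.Adj v u
    · -- the vertex is available
      have hC2 : ∀ u ∈ l, u ∉ insert v C := by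
        intro u hu hu'
        rcases Finset.mem_insert.mp hu' with h | h
        · exact hvl (h ▸ hu)
        · exact hlC u hu h
      have ih1 := ih (insert v C) hnd' hC2
      have ih2 := ih C hnd' hlC
      rw [Finset.card_insert_of_notMem hvC] at ih1
      have hsplit : ∀ y : X → ZMod q, T G q σ s z (v :: l) C y =
          (if (y v).val < σ then T G q σ s z l (insert v C) y else 0) +
            (T G q σ s z l C y - (if (y v).val < σ then T G q σ s z l C y else 0)) := by
        intro y
        by_cases hy : (y v).val < σ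
        · have hg : greedy G (fun u => (y u).val < σ) s (v :: l) C =
              greedy G (fun u => (y u).val < σ) s l (insert v C) := by
            simp only [greedy]
            rw [if_pos ⟨hC, hy, hadj⟩]
          unfold T
          rw [hg]
          simp [hy]
        · have hg : greedy G (fun u => (y u).val < σ) s (v :: l) C =
              greedy G (fun u => (y u).val < σ) s l C := by
            simp only [greedy]
            rw [if_neg]
            intro h
            exact hy h.2.1
          unfold T
          rw [hg]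
          simp [hy]
      rw [Finset.sum_congr rfl (fun y _ => hsplit y), Finset.sum_add_distrib,
        Finset.sum_sub_distrib,
        indep q σ hσ v (T G q σ s z l (insert v C)) (fun y t => T_indep G q σ s z l _ v hvl y t),
        indep q σ hσ v (T G q σ s z l C) (fun y t => T_indep G q σ s z l _ v hvl y t)]
      set S1 := ∑ y : X → ZMod q, T G q σ s z l (insert v C) y with hS1
      set S2 := ∑ y : X → ZMod q, T G q σ s z l C y with hS2
      set e := avail G (v :: l) C - (s - C.card) * Δ with he
      have hav : avail G (v :: l) C = avail G l C + 1 := avail_take G v l C hvl hadj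
      have hav2 : avail G l C ≤ avail G l (insert v C) + Δ := avail_insert G v l C Δ (hΔ v) hvl
      have he2 : e - 1 ≤ avail G l C - (s - C.card) * Δ := by
        rw [he, hav]
        omega
      have he1 : e - 1 ≤ avail G l (insert v C) - (s - (C.card + 1)) * Δ := by
        have h3 : (s - C.card) * Δ = (s - (C.card + 1)) * Δ + Δ := by
          have : s - C.card = (s - (C.card + 1)) + 1 := by omega
          rw [this]
          ring
        rw [he, hav, h3]
        omega
      have hK : (0 : ℝ) ≤ (q : ℝ) ^ (Fintype.card X) * z ^ C.card := by positivity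
      have b1 : S1 ≤ (q : ℝ) ^ (Fintype.card X) * z ^ (C.card + 1) * ρ ^ (e - 1) := by
        refine le_trans ih1 ?_
        exact mul_le_mul_of_nonneg_left (pow_le_pow_of_le_one hρ0 hρ1 he1) (by positivity)
      have b2 : S2 ≤ (q : ℝ) ^ (Fintype.card X) * z ^ C.card * ρ ^ (e - 1) := by
        refine le_trans ih2 ?_
        exact mul_le_mul_of_nonneg_left (pow_le_pow_of_le_one hρ0 hρ1 he2) (by positivity)
      have b3 : ρ ^ (e - 1) * ρ ≤ ρ ^ e := by
        rw [← pow_succ]
        exact pow_le_pow_of_le_one hρ0 hρ1 (by omega)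
      calc (σ : ℝ) / (q : ℝ) * S1 + (S2 - (σ : ℝ) / (q : ℝ) * S2)
          = (σ : ℝ) / (q : ℝ) * S1 + (1 - (σ : ℝ) / (q : ℝ)) * S2 := by ring
        _ ≤ (σ : ℝ) / (q : ℝ) * ((q : ℝ) ^ (Fintype.card X) * z ^ (C.card + 1) * ρ ^ (e - 1)) +
            (1 - (σ : ℝ) / (q : ℝ)) *
              ((q : ℝ) ^ (Fintype.card X) * z ^ C.card * ρ ^ (e - 1)) := by
            apply add_le_add
            · exact mul_le_mul_of_nonneg_left b1 hr0
            · exact mul_le_mul_of_nonneg_left b2 (by linarith)
        _ = (q : ℝ) ^ (Fintype.card X) * z ^ C.card * (ρ ^ (e - 1) * ρ) := by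
            rw [hρ]
            ring
        _ ≤ (q : ℝ) ^ (Fintype.card X) * z ^ C.card * ρ ^ e :=
            mul_le_mul_of_nonneg_left b3 hK
    · -- not available
      have hg : ∀ y : X → ZMod q, T G q σ s z (v :: l) C y = T G q σ s z l C y := by
        intro y
        have hg' : greedy G (fun u => (y u).val < σ) s (v :: l) C =
              greedy G (fun u => (y u).val < σ) s l C := by
            simp only [greedy]
            rw [if_neg]
            intro h
            exact hadj h.2.2
        unfold T
        rw [hg']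
      rw [Finset.sum_congr rfl (fun y _ => hg y), avail_skip G v l C hadj]
      exact ih C hnd' hlC

end GreedyProb

open GreedyProb in
theorem greedyProb : GreedyProbStmt := by
  classical
  intro X _ G l q σ s Δ _ z hnd hσ hΔ hz hz1
  have h := claim G q σ s Δ z hσ hΔ hz hz1 l ∅ hnd (by simp)
  have hav : avail G l ∅ = l.length := by
    unfold avail
    simp [List.toFinset_card_of_nodup hnd]
  rw [hav] at h
  simp only [Finset.card_empty, pow_zero, mul_one, Nat.sub_zero] at h
  refine le_trans ?_ h
  rw [← nsmul_eq_mul, ← Finset.sum_const, Finset.sum_filter]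
  apply Finset.sum_le_sum
  intro y _
  unfold T
  split_ifs with h1
  · exact pow_le_pow_of_le_one hz.le hz1 h1.le
  · exact le_rfl

end Pool.Agent.Lib.MP_1818ed_co
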