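import Mathlib
import Pool.Agent.Lib.MP_1818ed_co.Defs

/-! The helper lemma: universal vertices cover the bad values of their sum. -/

set_option autoImplicit false

namespace Pool.Agent.Lib.MP_1818ed_co

open Finset

theorem helper : HelperStmt := by
  classical
  intro V _ G U q _ f hU hloc hbad
  have hcov : ∀ T : Finset (ZMod q), T.card ≤ U.card →
      ∃ g : V → ZMod q, ∀ σ ∈ T, ∃ u ∈ U, g u = σ := by
    intro T hT
    obtain ⟨U', hU', hcard⟩ := Finset.exists_subset_card_eq hT
    have e : U' ≃ T := Finset.equivOfCardEq hcard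
    refine ⟨fun v => if h : v ∈ U' then (e ⟨v, h⟩ : ZMod q) else 0, ?_⟩
    intro σ hσ
    refine ⟨(e.symm ⟨σ, hσ⟩).1, hU' (e.symm ⟨σ, hσ⟩).2, ?_⟩
    simp
  choose! g hg using hcov
  have hBadEq : ∀ c c' : V → ZMod q, (∀ w, w ∉ U → c w = c' w) →
      Finset.univ.filter (fun σ => ∀ v, v ∉ U → f v σ c ≠ c v) =
      Finset.univ.filter (fun σ => ∀ v, v ∉ U → f v σ c' ≠ c' v) := by
    intro c c' hcc
    refine Finset.filter_congr fun σ _ => ?_
    refine forall_congr' fun w => ?_
    refine forall_congr' fun hw => ?_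
    rw [hcc w hw, hloc w hw σ c c' (fun u hu _ => hcc u hu)]
  refine ⟨fun v c => if v ∈ U then
      g (Finset.univ.filter (fun σ => ∀ v, v ∉ U → f v σ c ≠ c v)) v - ∑ u ∈ U.erase v, c u
    else f v (∑ u ∈ U, c u) c, ?_, ?_⟩
  · intro v c c' hcc
    by_cases hv : v ∈ U
    · simp only [if_pos hv]
      have h1 : ∀ w, w ∉ U → c w = c' w := fun w hw =>
        hcc w (hU v hv w (fun h => hw (h ▸ hv)))
      rw [hBadEq c c' h1]
      congr 1
      refine Finset.sum_congr rfl fun u hu => ?_
      exact hcc u (hU v hv u (Finset.ne_of_mem_erase hu))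
    · simp only [if_neg hv]
      have h1 : ∑ u ∈ U, c u = ∑ u ∈ U, c' u := by
        refine Finset.sum_congr rfl fun u hu => ?_
        exact hcc u (hU u hu v (fun h => hv (h ▸ hu))).symm
      rw [h1]
      exact hloc v hv _ c c' (fun u _ hu => hcc u hu)
  · intro c
    by_cases hσ : (∑ u ∈ U, c u) ∈
        Finset.univ.filter (fun σ => ∀ v, v ∉ U → f v σ c ≠ c v)
    · obtain ⟨u, hu, hgu⟩ := hg _ (hbad c) _ hσ
      refine ⟨u, ?_⟩
      simp only [if_pos hu]
      rw [hgu, ← Finset.add_sum_erase U c hu]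
      ring
    · rw [Finset.mem_filter, not_and] at hσ
      have h1 := hσ (Finset.mem_univ _)
      push Not at h1
      obtain ⟨v, hv, hfv⟩ := h1
      refine ⟨v, ?_⟩
      simp only [if_neg hv]
      exact hfv

end Pool.Agent.Lib.MP_1818ed_co
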