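import Mathlib
import Pool.Agent.Lib.MP_1818ed_co.Defs

/-! The main theorem from the special case `MainAStmt` and the lemma on free vertices. -/

set_option autoImplicit false

namespace Pool.Agent.Lib.MP_1818ed_co

open Finset

theorem main_win_zero {V : Type} (G : SimpleGraph V) (v₀ : V) : Win G (Fin 0) :=
  ⟨fun v c => c v, fun v c _ _ => (c v).elim0, fun c => (c v₀).elim0⟩

theorem main_thm (h1 : MainAStmt) (h2 : FreeStmt) (h3 : GraphStmt) : MainStmt := by
  classical
  intro k
  obtain ⟨n₀, hn₀⟩ := h1 (k + 1)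
  refine ⟨n₀ + k + 1, ?_⟩
  intro V _ G X hn hX hdeg
  set X₁ : Finset V := X.filter (fun x => 2 * (k + 1) ≤
    {i | i ∉ X ∧ (∀ v, v ∉ X → v ≠ i → G.Adj i v) ∧ ¬ G.Adj x i}.ncard) with hX₁
  have hX₁X : X₁ ⊆ X := Finset.filter_subset _ _
  have hcard : Fintype.card ({v | v ∉ X₁} : Set V) + X₁.card = Fintype.card V := by
    have e1 : Fintype.card ({v | v ∉ X₁} : Set V) = (Finset.univ.filter (fun v => v ∉ X₁)).card := by
      rw [← Fintype.card_subtype]
      exact Fintype.card_congr (Equiv.refl _)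
    have e2 : Finset.univ.filter (fun v => v ∉ X₁) = X₁ᶜ := by
      ext v; simp
    rw [e1, e2, Finset.card_compl]
    have := Finset.card_le_univ X₁
    omega
  have hX₁k : X₁.card ≤ k := (Finset.card_le_card hX₁X).trans hX
  have hgood : Good (G.induce {v | v ∉ X₁}) := by
    refine hn₀ _ _ (Finset.univ.filter (fun v => v.1 ∈ X)) (by omega) ?_ ?_ ?_
    · refine le_trans ?_ (hX.trans (Nat.le_succ k))
      refine Finset.card_le_card_of_injOn (fun v => v.1) ?_ ?_
      · intro v hv
        exact (Finset.mem_filter.1 hv).2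
      · intro v _ w _ hvw
        exact Subtype.ext hvw
    · intro v hv
      have hv' : v.1 ∉ X := by simpa using hv
      refine le_trans ?_ ((hdeg v.1 hv').trans (Nat.le_succ k))
      refine Set.ncard_le_ncard_of_injOn (fun u => u.1) ?_ ?_ (Set.toFinite _)
      · rintro u ⟨hu1, hu2, hu3⟩
        refine ⟨by simpa using hu1, fun h => hu2 (Subtype.ext h), ?_⟩
        simpa using hu3
      · intro a _ b _ hab
        exact Subtype.ext hab
    · intro x hx
      have hxX : x.1 ∈ X := by simpa using hx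
      have hx1 : {i | i ∉ X ∧ (∀ v, v ∉ X → v ≠ i → G.Adj i v) ∧ ¬ G.Adj x.1 i}.ncard <
          2 * (k + 1) := by
        by_contra hcon
        exact x.2 (Finset.mem_filter.2 ⟨hxX, not_lt.1 hcon⟩)
      refine lt_of_le_of_lt ?_ hx1
      refine Set.ncard_le_ncard_of_injOn (fun u => u.1) ?_ ?_ (Set.toFinite _)
      · rintro i ⟨hi1, hi2, hi3⟩
        refine ⟨by simpa using hi1, fun v hv hvi => ?_, by simpa using hi3⟩
        have hvX₁ : v ∈ ({v | v ∉ X₁} : Set V) := fun h => hv (hX₁X h)
        have := hi2 ⟨v, hvX₁⟩ (by simpa using hv) (fun h => hvi (congrArg Subtype.val h))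
        simpa using this
      · intro a _ b _ hab
        exact Subtype.ext hab
  intro q hq
  have hne : Nonempty V := by
    rw [← Fintype.card_pos_iff]
    omega
  obtain ⟨v₀⟩ := hne
  have hq0 : q ≠ 0 := by
    rintro rfl
    exact hq (main_win_zero G v₀)
  have hq1 : Nonempty (Fin q) := ⟨⟨0, Nat.pos_of_ne_zero hq0⟩⟩
  have hnw : ¬ Win (G.induce {v | v ∉ X₁}) (Fin q) := by
    intro hw
    exact hq (h3 _ _ _ G _ (fun v => v.1) hq1 Subtype.val_injective
      (fun a b hab => by simpa using hab) hw)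
  refine h2 V G (X \ X₁) X₁ (Finset.univ.filter
    (fun i => i ∉ X ∧ ∀ v, v ∉ X → v ≠ i → G.Adj i v)) (q - 1) ?_ ?_ ?_ ?_ ?_ (hgood q hnw)
  · exact Finset.sdiff_disjoint
  · rw [Finset.disjoint_left]
    intro i hi hi2
    exact (Finset.mem_filter.1 hi).2.1 (Finset.mem_sdiff.1 hi2).1
  · rw [Finset.disjoint_left]
    intro i hi hi2
    exact (Finset.mem_filter.1 hi).2.1 (hX₁X hi2)
  · intro i hi v hvi hv0 hv1
    refine (Finset.mem_filter.1 hi).2.2 v ?_ hvi
    intro hvX
    exact hv0 (Finset.mem_sdiff.2 ⟨hvX, hv1⟩)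
  · intro x hx
    have hx2 := (Finset.mem_filter.1 hx).2
    have e1 : (X \ X₁).card + X₁.card = X.card := Finset.card_sdiff_add_card_eq_card hX₁X
    rw [e1]
    refine hX.trans (le_trans (by omega) (hx2.trans (le_of_eq ?_)))
    congr 1
    ext i
    simp [and_assoc]

end Pool.Agent.Lib.MP_1818ed_co
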