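import Mathlib
import Pool.Agent.Lib.MP_1818ed_co.Defs

/-!
# MP_1818ed_co: MainA from the three cases
-/

set_option autoImplicit false

namespace Pool.Agent.Lib.MP_1818ed_co

open Finset

open Classical in
theorem mainA (h1 : Case1Stmt) (h2 : Case2aStmt) (h3 : Case2bStmt) : MainAStmt := by
  intro k
  obtain ⟨K, hK⟩ : ∃ K, K = k + 1 := ⟨_, rfl⟩
  obtain ⟨C, hC⟩ := h3 K (K + 2 * K ^ 2)
  obtain ⟨m₀, hm₀⟩ := h2 (C + K + 2 * K ^ 2)
  obtain ⟨n₁, hn₁⟩ := h1 K (128 * K)
  refine ⟨n₁ + m₀ + C + 4 * (K + 2 * K ^ 2) + 1, ?_⟩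
  intro V _ G X hn hX hdeg hx
  have hX' : X.card ≤ K := by omega
  have hdeg' : ∀ v, v ∉ X → {u | u ∉ X ∧ u ≠ v ∧ ¬ G.Adj v u}.ncard ≤ K := fun v hv => by
    have := hdeg v hv
    omega
  have hx' : ∀ x ∈ X,
      {i | i ∉ X ∧ (∀ v, v ∉ X → v ≠ i → G.Adj i v) ∧ ¬ G.Adj x i}.ncard ≤ 2 * K := fun x hxX => by
    have := hx x hxX
    omega
  set W : Finset V := univ.filter (fun v => v ∉ X ∧ ∃ u, u ∉ X ∧ u ≠ v ∧ ¬ G.Adj v u) with hW
  set U : Finset V := univ.filter (fun v => v ∉ X ∧ ∀ u, u ≠ v → G.Adj v u) with hU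
  set J : Finset V := X.biUnion (fun x => univ.filter
    (fun i => i ∉ X ∧ (∀ v, v ∉ X → v ≠ i → G.Adj i v) ∧ ¬ G.Adj x i)) with hJ
  have hJc : J.card ≤ 2 * K ^ 2 := by
    have e1 : J.card ≤ X.card * (2 * K) := by
      refine card_biUnion_le_card_mul _ _ _ fun x hxX => ?_
      have := hx' x hxX
      rw [Set.ncard_eq_toFinset_card'] at this
      refine le_trans (card_le_card ?_) this
      intro i hi
      simp only [mem_filter, mem_univ, true_and] at hi
      simpa using hi
    calc J.card ≤ X.card * (2 * K) := e1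
      _ ≤ K * (2 * K) := Nat.mul_le_mul_right _ hX'
      _ = 2 * K ^ 2 := by ring
  have hUniv : Univ G U := by
    intro u hu v hv
    exact (mem_filter.1 hu).2.2 v hv
  have hcov : Fintype.card V ≤ U.card + W.card + (K + 2 * K ^ 2) := by
    have e1 : (univ : Finset V) ⊆ (U ∪ W) ∪ (X ∪ J) := by
      intro v _
      by_cases hvX : v ∈ X
      · simp [hvX]
      · by_cases hvW : v ∈ W
        · simp [hvW]
        · have hv1 : ∀ u, u ∉ X → u ≠ v → G.Adj v u := by
            intro u hu huv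
            by_contra hcon
            exact hvW (mem_filter.2 ⟨mem_univ _, hvX, u, hu, huv, hcon⟩)
          by_cases hvU : v ∈ U
          · simp [hvU]
          · have hv2 : ∃ u, u ≠ v ∧ ¬ G.Adj v u := by
              by_contra hcon
              push Not at hcon
              exact hvU (mem_filter.2 ⟨mem_univ _, hvX, hcon⟩)
            obtain ⟨u, huv, hadj⟩ := hv2
            have huX : u ∈ X := by
              by_contra hcon
              exact hadj (hv1 u hcon huv)
            refine mem_union_right _ (mem_union_right _ ?_)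
            rw [hJ]
            refine mem_biUnion.2 ⟨u, huX, mem_filter.2 ⟨mem_univ _, hvX, hv1, ?_⟩⟩
            intro hcon
            exact hadj hcon.symm
    have e2 := card_le_card e1
    have e3 := card_union_le (U ∪ W) (X ∪ J)
    have e4 := card_union_le U W
    have e5 := card_union_le X J
    rw [card_univ] at e2
    omega
  have hn1 : Fintype.card V ≠ 0 := by omega
  by_cases hc1 : Fintype.card V ≤ W.card * (128 * K)
  · refine hn₁ V G X hX' hdeg' ?_ (by omega)
    have e1 : {v | v ∉ X ∧ ∃ u, u ∉ X ∧ u ≠ v ∧ ¬ G.Adj v u}.ncard = W.card := by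
      rw [← Set.ncard_coe_finset]
      congr 1
      ext v
      simp [hW]
    rw [e1]
    exact hc1
  by_cases hc2 : W.card ≤ C
  · exact hm₀ V G U hUniv (by omega) (by omega)
  · push Not at hc1 hc2
    refine hC V G U W hUniv ?_ hcov hc2.le ?_ ?_ ?_
    · rw [Finset.disjoint_left]
      intro v hvU hvW
      obtain ⟨-, -, hv⟩ := mem_filter.1 hvU
      obtain ⟨-, -, u, -, huv, hadj⟩ := mem_filter.1 hvW
      exact hadj (hv u huv)
    · have e1 : W.card * (128 * K) = 2 * (64 * K * W.card) := by ring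
      have e2 : 4 * W.card ≤ W.card * (128 * K) := by
        have : 1 ≤ K := by omega
        nlinarith [Nat.zero_le W.card]
      rw [e1] at hc1 e2
      omega
    · intro v hv
      obtain ⟨-, hvX, -⟩ := mem_filter.1 hv
      refine le_trans (Set.ncard_le_ncard ?_ (Set.toFinite _)) (hdeg' v hvX)
      rintro u ⟨hu, huv, hadj⟩
      exact ⟨(mem_filter.1 hu).2.1, huv, hadj⟩
    · intro v hv
      obtain ⟨-, hvX, u, huX, huv, hadj⟩ := mem_filter.1 hv
      refine ⟨u, mem_filter.2 ⟨mem_univ _, huX, v, hvX, huv.symm, ?_⟩, huv, hadj⟩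
      intro hcon
      exact hadj hcon.symm

end Pool.Agent.Lib.MP_1818ed_co
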