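import Mathlib
import Pool.Agent.Lib.MP_1818ed_co.Defs3

/-! The main theorem for graphs with complement degrees `O(n / log n)`. -/

set_option autoImplicit false

namespace Pool.Agent.Lib.MP_1818ed_co

open Finset

theorem mainD (h1 : GraphStmt) (h2 : DenseLogStmt) (h3 : FourFifthsStmt) : MainDStmt := by
  classical
  obtain ⟨n₁, hff⟩ := h3
  obtain ⟨C', n₂, hdl⟩ := h2 30 (by norm_num)
  refine ⟨2 * C', n₁ + 2 * n₂ + 1000, ?_⟩
  intro V _ G X Δ hn hX hdeg hlog
  by_cases hχ : ∀ r, G.Colorable r → 4 * Fintype.card V ≤ 5 * r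
  · exact hff V G (by omega) hχ
  push Not at hχ
  obtain ⟨r, hr, hr5⟩ := hχ
  intro q hq
  obtain ⟨v₀⟩ : Nonempty V := by
    rw [← Fintype.card_pos_iff]
    omega
  have hq0 : q ≠ 0 := by
    rintro rfl
    exact hq ⟨fun v c => c v, fun v c _ _ => (c v).elim0, fun c => (c v₀).elim0⟩
  -- the induced graph on the complement of `X`
  let Y := {v // v ∉ X}
  have hcard : Fintype.card Y + X.card = Fintype.card V := by
    have h := Fintype.card_subtype_compl (fun v => v ∈ X)
    have h' : Fintype.card {v // v ∈ X} = X.card := Fintype.card_coe X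
    have h'' : X.card ≤ Fintype.card V := Finset.card_le_univ X
    have h3 : Fintype.card Y = Fintype.card V - Fintype.card {v // v ∈ X} := h
    rw [h'] at h3
    omega
  have hY : ¬ Win (G.comap (fun v : Y => v.1)) (Fin q) := by
    intro hw
    exact hq (h1 V Y (Fin q) G _ (fun v => v.1) ⟨⟨0, Nat.pos_of_ne_zero hq0⟩⟩
      Subtype.val_injective (fun a b hab => hab) hw)
  have hdeg' : ∀ v : Y, {u : Y | u ≠ v ∧ ¬ (G.comap (fun v : Y => v.1)).Adj v u}.ncard ≤ Δ := by
    intro v
    refine le_trans ?_ (hdeg v.1 v.2)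
    rw [← Set.ncard_image_of_injective _ (Subtype.val_injective : Function.Injective
      (fun v : Y => v.1))]
    refine Set.ncard_le_ncard ?_ (Set.toFinite _)
    rintro _ ⟨u, ⟨hu1, hu2⟩, rfl⟩
    exact ⟨u.2, fun h => hu1 (Subtype.ext h), hu2⟩
  have hlogm : Nat.log 2 (Fintype.card Y) ≤ Nat.log 2 (Fintype.card V) :=
    Nat.log_mono_right (by omega)
  have hlog' : C' * Δ * Nat.log 2 (Fintype.card Y) ≤ Fintype.card Y := by
    have h4 : C' * Δ * Nat.log 2 (Fintype.card Y) ≤ C' * Δ * Nat.log 2 (Fintype.card V) :=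
      Nat.mul_le_mul_left _ hlogm
    have h5 : 2 * (C' * Δ * Nat.log 2 (Fintype.card V)) ≤ Fintype.card V := by
      calc 2 * (C' * Δ * Nat.log 2 (Fintype.card V))
          = 2 * C' * Δ * Nat.log 2 (Fintype.card V) := by ring
        _ ≤ Fintype.card V := hlog
    omega
  have hmain : ¬ 30 * q ≤ (30 - 1) * Fintype.card Y := by
    intro h
    exact hY (hdl Y _ Δ hdeg' (by omega) hlog' q (by omega) h)
  exact hr.mono (by omega)

end Pool.Agent.Lib.MP_1818ed_co
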