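import Mathlib
import Pool.Agent.Lib.MP_1818ed_co.Defs

/-!
# The matrix strategy
-/

set_option autoImplicit false

namespace Pool.Agent.Lib.MP_1818ed_co

open Finset

private theorem mat_form {K E : Type*} [Field K] [AddCommGroup E] [Module K E] {y : E}
    {P : Submodule K E} (h : y ∉ P) : ∃ l : E →ₗ[K] K, l y = 1 ∧ ∀ z ∈ P, l z = 0 := by
  obtain ⟨l, hl, hP⟩ := Submodule.exists_le_ker_of_notMem h
  refine ⟨(l y)⁻¹ • l, ?_, ?_⟩
  · simp [hl]
  · intro z hz
    have : l z = 0 := hP hz
    simp [this]

theorem mat : MatStmt := by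
  intro p h _ R _ G' x hcov hspan
  classical
  choose l hl1 hl0 using fun i => mat_form (hspan i)
  refine ⟨fun (i : R) (c : R → (Fin h → ZMod p)) =>
    - ∑ j : R, (if G'.Adj i j then l j (x i) • c j else (0 : Fin h → ZMod p)), ?_, ?_⟩
  · intro v c c' hcc
    refine congrArg Neg.neg (Finset.sum_congr rfl fun j _ => ?_)
    by_cases hj : G'.Adj v j
    · simp [hj, hcc j hj]
    · simp [hj]
  · intro α
    let T : (Fin (h + 1) → ZMod p) →ₗ[ZMod p] (Fin h → ZMod p) :=
      ∑ j, (l j).smulRight (α j)
    have hT : ∀ w, T w = ∑ j, l j w • α j := by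
      intro w
      simp [T, LinearMap.sum_apply]
    have hker : LinearMap.ker T ≠ ⊥ := by
      apply LinearMap.ker_ne_bot_of_finrank_lt
      simp
    obtain ⟨w, hw, hw0⟩ := (Submodule.ne_bot_iff _).1 hker
    obtain ⟨i, a, rfl⟩ := hcov w hw0
    have ha : a ≠ 0 := by
      rintro rfl
      simp at hw0
    have h1 : T (x i) = 0 := by
      have h2 : T (a • x i) = 0 := hw
      rw [map_smul] at h2
      exact (smul_eq_zero.1 h2).resolve_left ha
    refine ⟨i, ?_⟩
    rw [hT] at h1
    have h3 : ∀ j, l j (x i) • α j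
        = (if j = i then α i else 0) + (if G'.Adj i j then l j (x i) • α j else 0) := by
      intro j
      by_cases hji : j = i
      · subst hji
        simp [hl1]
      · by_cases hadj : G'.Adj i j
        · simp [hji, hadj]
        · have h4 : l j (x i) = 0 := by
            apply hl0
            apply Submodule.subset_span
            exact ⟨i, ⟨fun h => hji h.symm, fun h => hadj h.symm⟩, rfl⟩
          simp [hji, hadj, h4]
    rw [Finset.sum_congr rfl fun j _ => h3 j, Finset.sum_add_distrib,
      Finset.sum_ite_eq' Finset.univ i] at h1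
    simp only [Finset.mem_univ, if_true] at h1
    exact (eq_neg_of_add_eq_zero_left h1).symm

end Pool.Agent.Lib.MP_1818ed_co
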