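import Mathlib
import Pool.Agent.Lib.MP_1818ed_co.Defs

/-!
# Nordhaus-Gaddum by induction
-/

set_option autoImplicit false

namespace Pool.Agent.Lib.MP_1818ed_co

open Finset

/-- The vertices other than `v`. -/
abbrev NGSub (V : Type) (v : V) : Type := {w : V // w ≠ v}

theorem ng_newColor {V : Type} (G : SimpleGraph V) (v : V) (a : ℕ)
    (h : (G.comap (Subtype.val : NGSub V v → V)).Colorable a) : G.Colorable (a + 1) := by
  classical
  obtain ⟨C⟩ := h
  refine ⟨SimpleGraph.Coloring.mk
    (fun w => if hw : w = v then Fin.last a else (C ⟨w, hw⟩).castSucc) ?_⟩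
  intro x y hxy
  by_cases hx : x = v
  · by_cases hy : y = v
    · subst hx; subst hy; exact absurd hxy (G.loopless.irrefl _)
    · simp only [hx, hy, dif_pos, dif_neg, not_false_iff]
      exact (Fin.castSucc_lt_last _).ne'
  · by_cases hy : y = v
    · simp only [hx, hy, dif_pos, dif_neg, not_false_iff]
      exact (Fin.castSucc_lt_last _).ne
    · simp only [hx, hy, dif_neg, not_false_iff]
      intro h1
      have h2 := Fin.castSucc_injective _ h1
      exact C.valid (v := ⟨x, hx⟩) (w := ⟨y, hy⟩) (by simpa using hxy) h2

theorem ng_extend {V : Type} [Fintype V] [DecidableEq V] (G : SimpleGraph V)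
    [DecidableRel G.Adj] (v : V) (a : ℕ)
    (h : (G.comap (Subtype.val : NGSub V v → V)).Colorable a)
    (hd : (univ.filter (fun w => G.Adj v w)).card < a) : G.Colorable a := by
  obtain ⟨C⟩ := h
  -- colours used by the neighbours
  have hex : ∃ c : Fin a, ∀ w : NGSub V v, G.Adj v w → C w ≠ c := by
    by_contra hcon
    push Not at hcon
    choose f hf1 hf2 using hcon
    have hinj : Function.Injective (fun c : Fin a => (f c : V)) := by
      intro c c' hcc
      have h1 : f c = f c' := Subtype.ext hcc
      rw [← hf2 c, ← hf2 c', h1]
    have hcard : (univ : Finset (Fin a)).card ≤ (univ.filter (fun w => G.Adj v w)).card := by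
      apply Finset.card_le_card_of_injOn (fun c : Fin a => (f c : V))
      · intro c _
        simp only [coe_filter, mem_univ, true_and]
        exact hf1 c
      · exact hinj.injOn
    rw [Finset.card_univ, Fintype.card_fin] at hcard
    omega
  obtain ⟨c, hc⟩ := hex
  refine ⟨SimpleGraph.Coloring.mk (fun w => if hw : w = v then c else C ⟨w, hw⟩) ?_⟩
  intro x y hxy
  by_cases hx : x = v
  · by_cases hy : y = v
    · subst hx; subst hy; exact absurd hxy (G.loopless.irrefl _)
    · simp only [hx, hy, dif_pos, dif_neg, not_false_iff]
      have := hc ⟨y, hy⟩ (by change G.Adj v y; exact hx ▸ hxy)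
      exact this.symm
  · by_cases hy : y = v
    · simp only [hx, hy, dif_pos, dif_neg, not_false_iff]
      exact hc ⟨x, hx⟩ (by change G.Adj v x; exact hy ▸ hxy.symm)
    · simp only [hx, hy, dif_neg, not_false_iff]
      exact C.valid (v := ⟨x, hx⟩) (w := ⟨y, hy⟩) (by simpa using hxy)

theorem ng_comap_compl {V : Type} (G : SimpleGraph V) (v : V) :
    (G.comap (Subtype.val : NGSub V v → V))ᶜ = Gᶜ.comap (Subtype.val : NGSub V v → V) := by
  ext x y
  simp only [SimpleGraph.compl_adj, SimpleGraph.comap_adj, ne_eq, Subtype.ext_iff]

theorem ng_aux (n : ℕ) : ∀ (V : Type) [Fintype V] (G : SimpleGraph V), Fintype.card V = n →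
    ∃ b, b ≤ n + 1 ∧ Gᶜ.Colorable b ∧ G.Colorable (n + 1 - b) := by
  classical
  induction n with
  | zero =>
    intro V _ G hV
    have : IsEmpty V := Fintype.card_eq_zero_iff.1 hV
    exact ⟨0, by omega, ⟨SimpleGraph.Coloring.mk (fun w => (this.false w).elim) (fun {a} => (this.false a).elim)⟩,
      ⟨SimpleGraph.Coloring.mk (fun w => (this.false w).elim) (fun {a} => (this.false a).elim)⟩⟩
  | succ n ih =>
    intro V _ G hV
    have hne : Nonempty V := by
      rw [← Fintype.card_pos_iff, hV]; omega
    obtain ⟨v⟩ := hne
    have hcW : Fintype.card (NGSub V v) = n := by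
      have := Fintype.card_subtype_compl (fun w : V => w = v)
      simp only [Fintype.card_subtype_eq] at this
      have h2 : Fintype.card (NGSub V v) = Fintype.card V - 1 := by
        simpa using this
      rw [h2, hV]; omega
    obtain ⟨b, hb, h1, h2⟩ := ih (NGSub V v) (G.comap Subtype.val) hcW
    rw [ng_comap_compl] at h1
    have hdeg : (univ.filter (fun w => G.Adj v w)).card +
        (univ.filter (fun w => Gᶜ.Adj v w)).card ≤ n := by
      rw [← Finset.card_union_of_disjoint]
      · calc (univ.filter (fun w => G.Adj v w) ∪ univ.filter (fun w => Gᶜ.Adj v w)).card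
            ≤ (univ.erase v).card := by
              apply Finset.card_le_card
              intro w hw
              simp only [mem_union, mem_filter, mem_univ, true_and] at hw
              rw [mem_erase]
              refine ⟨?_, mem_univ _⟩
              rintro rfl
              rcases hw with hw | hw
              · exact G.loopless.irrefl _ hw
              · exact Gᶜ.loopless.irrefl _ hw
          _ = n := by
              rw [Finset.card_erase_of_mem (mem_univ _), Finset.card_univ, hV]
              omega
      · rw [Finset.disjoint_left]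
        intro w hw hw'
        simp only [mem_filter, mem_univ, true_and, SimpleGraph.compl_adj] at hw hw'
        exact hw'.2 hw
    by_cases hlt : (univ.filter (fun w => G.Adj v w)).card < n + 1 - b
    · refine ⟨b + 1, by omega, ng_newColor _ v _ h1, ?_⟩
      have := ng_extend G v _ h2 hlt
      have e : n + 1 + 1 - (b + 1) = n + 1 - b := by omega
      rw [e]; exact this
    · refine ⟨b, by omega, ng_extend _ v _ h1 (by omega), ?_⟩
      have := ng_newColor _ v _ h2
      have e : n + 1 + 1 - b = n + 1 - b + 1 := by omega
      rw [e]; exact this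

theorem ng : NGStmt := by
  intro V _ G
  exact ng_aux _ V G rfl

end Pool.Agent.Lib.MP_1818ed_co
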