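import Mathlib
import Pool.Agent.Lib.MP_1818ed_co.Defs2

/-!
# MP_1818ed_co: the numbers (Num)
-/

set_option autoImplicit false

namespace Pool.Agent.Lib.MP_1818ed_co

open Finset Filter

theorem num_lim : ∃ X : ℝ, ∀ x : ℝ, X ≤ x → (Real.log x) ^ 2 ≤ (1 / 614400) * |x| := by
  have h1 := (Real.isLittleO_pow_log_id_atTop (n := 2)).bound
    (by norm_num : (0 : ℝ) < 1 / 614400)
  obtain ⟨X, hX⟩ := h1.exists_forall_of_atTop
  refine ⟨X, fun x hx => ?_⟩
  have h2 := hX x hx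
  simp only [id, Real.norm_eq_abs] at h2
  rwa [abs_of_nonneg (sq_nonneg _)] at h2

theorem num_clog (m : ℕ) (hm : 1 ≤ m) : ∃ d : ℕ, m ≤ 2 ^ d ∧ 2 ^ d ≤ 2 * m := by
  refine ⟨Nat.clog 2 m, Nat.le_pow_clog (by norm_num) m, ?_⟩
  rcases Nat.lt_or_ge 1 m with h | h
  · have h1 : 0 < Nat.clog 2 m := Nat.clog_pos (by norm_num) h
    have h2 : 2 ^ (Nat.clog 2 m).pred < m := Nat.pow_pred_clog_lt_self (by norm_num) h
    obtain ⟨k, hk⟩ := Nat.exists_eq_succ_of_ne_zero h1.ne'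
    rw [hk] at h2 ⊢
    simp only [Nat.pred_succ] at h2
    rw [Nat.succ_eq_add_one, pow_succ]
    omega
  · have : m = 1 := by omega
    subst this
    simp

theorem num (h : NumAStmt) : NumStmt := by
  obtain ⟨q1, h⟩ := h
  obtain ⟨X, hX⟩ := num_lim
  refine ⟨max q1 (max 4 ⌈X⌉₊), ?_⟩
  intro m N a q hq hq0 ha h1 h2 h3
  have hq1 : q1 ≤ q := le_trans (le_max_left _ _) hq0
  have hq4 : 4 ≤ q := le_trans (le_trans (le_max_left _ _) (le_max_right _ _)) hq0
  have hqX : X ≤ (q : ℝ) := by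
    have h4 : ⌈X⌉₊ ≤ q := le_trans (le_trans (le_max_right _ _) (le_max_right _ _)) hq0
    exact (Nat.le_ceil X).trans (by exact_mod_cast h4)
  have hA := h m N a q hq hq1 ha h1 h2
  have hm1 : 1 ≤ m := by omega
  obtain ⟨d, hd1, hd2⟩ := num_clog m hm1
  have hqR : (4 : ℝ) ≤ (q : ℝ) := by exact_mod_cast hq4
  have hqpos : (0 : ℝ) < (q : ℝ) := by linarith
  have hL := hX q hqX
  rw [abs_of_pos hqpos] at hL
  set l : ℝ := Real.log (q : ℝ) with hl
  have hl1 : 1 ≤ l := by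
    rw [hl, Real.le_log_iff_exp_le hqpos]
    have := Real.exp_one_lt_d9
    linarith
  have haR : (3 : ℝ) ≤ (a : ℝ) := by exact_mod_cast ha
  have hmR : (1 : ℝ) ≤ (m : ℝ) := by exact_mod_cast hm1
  have hqm : (q : ℝ) ≤ 2 * (m : ℝ) + 2 := by
    have : q ≤ 2 * m + 2 := by omega
    exact_mod_cast this
  have hN : (N : ℝ) ≤ 2 * (a : ℝ) := by exact_mod_cast h3
  -- d ≤ 1 + 2 log q
  have hdl : (d : ℝ) ≤ 1 + 2 * l := by
    have h4 : ((2 : ℝ)) ^ d ≤ 2 * (q : ℝ) := by
      have : 2 ^ d ≤ 2 * q := by omega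
      exact_mod_cast this
    have h5 : (d : ℝ) * Real.log 2 ≤ Real.log 2 + l := by
      have h6 := Real.log_le_log (by positivity) h4
      rw [Real.log_pow, Real.log_mul (by norm_num) hqpos.ne'] at h6
      exact h6
    have h7 : (1 / 2 : ℝ) < Real.log 2 := by
      have := Real.log_two_gt_d9
      linarith
    have h8 : Real.log 2 < 1 := by
      have := Real.log_two_lt_d9
      linarith
    by_contra hc
    push Not at hc
    have h9 : (1 + 2 * l) * Real.log 2 < (d : ℝ) * Real.log 2 :=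
      mul_lt_mul_of_pos_right hc (by linarith)
    nlinarith
  -- the key inequality
  have hkey : ((d : ℝ) + 1 + N) * l < (m : ℝ) * a / 12800 := by
    have h4 : (d : ℝ) + 1 + N ≤ a * (d + 3) := by
      have hd0 : (0 : ℝ) ≤ (d : ℝ) := Nat.cast_nonneg _
      nlinarith
    have h5 : ((d : ℝ) + 3) * l < (m : ℝ) / 12800 := by
      have h6 : ((d : ℝ) + 3) * l ≤ 6 * l ^ 2 := by
        have h7 : (d : ℝ) + 3 ≤ 6 * l := by linarith
        calc ((d : ℝ) + 3) * l ≤ (6 * l) * l := mul_le_mul_of_nonneg_right h7 (by linarith)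
          _ = 6 * l ^ 2 := by ring
      have h8 : 6 * l ^ 2 ≤ (q : ℝ) / 102400 := by linarith
      have h9 : (q : ℝ) / 102400 < (m : ℝ) / 12800 := by
        linarith
      linarith
    calc ((d : ℝ) + 1 + N) * l ≤ (a * (d + 3)) * l := mul_le_mul_of_nonneg_right h4 (by linarith)
      _ = a * ((d + 3) * l) := by ring
      _ < a * ((m : ℝ) / 12800) := mul_lt_mul_of_pos_left h5 (by linarith)
      _ = (m : ℝ) * a / 12800 := by ring
  refine ⟨d, 159 / 160, hd1, by norm_num, by norm_num, ?_⟩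
  set θ : ℝ := 1 - (1 - 1 / (q : ℝ)) ^ N with hθ
  have hb0 : 0 ≤ 1 - 1 / (q : ℝ) := by
    have : 1 / (q : ℝ) ≤ 1 := by rw [div_le_one hqpos]; linarith
    linarith
  have hθ1 : θ ≤ 1 := by
    have := pow_nonneg hb0 N
    rw [hθ]; linarith
  have hB0 : 0 ≤ 1 - (1 - 159 / 160) * θ := by linarith
  have hB : 1 - (1 - 159 / 160) * θ ≤ Real.exp (-(θ / 160)) := by
    have := Real.add_one_le_exp (-(θ / 160))
    linarith
  have e1 : (q : ℝ) ^ (d + 1) * (q : ℝ) ^ N = Real.exp (((d : ℝ) + 1 + N) * l) := by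
    rw [← pow_add]
    have : ((d : ℝ) + 1 + N) = ((d + 1 + N : ℕ) : ℝ) := by push_cast; ring
    rw [this, Real.exp_nat_mul, hl, Real.exp_log hqpos]
  have e2 : (1 - (1 - 159 / 160) * θ) ^ (m * (q - 1)) ≤
      Real.exp (-((m : ℝ) * (41 / 40 * a) / 160)) := by
    calc (1 - (1 - 159 / 160) * θ) ^ (m * (q - 1))
        ≤ Real.exp (-(θ / 160)) ^ (m * (q - 1)) := pow_le_pow_left₀ hB0 hB _
      _ = Real.exp (((m * (q - 1) : ℕ) : ℝ) * (-(θ / 160))) := by rw [Real.exp_nat_mul]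
      _ ≤ _ := by
        apply Real.exp_le_exp.2
        have h4 : ((m * (q - 1) : ℕ) : ℝ) = (m : ℝ) * ((q : ℝ) - 1) := by
          rw [Nat.cast_mul, Nat.cast_sub (by omega)]
          simp
        rw [h4]
        have h5 : (m : ℝ) * (41 / 40 * a) ≤ (m : ℝ) * (((q : ℝ) - 1) * θ) :=
          mul_le_mul_of_nonneg_left hA (by linarith)
        linarith
  have e3 : Real.exp (-((m : ℝ) * a / 159)) ≤ (159 / 160 : ℝ) ^ (m * a) := by
    have h4 : -(1 / 159 : ℝ) ≤ Real.log (159 / 160) := by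
      have := Real.one_sub_inv_le_log_of_pos (by norm_num : (0 : ℝ) < 159 / 160)
      norm_num at this ⊢
      linarith
    calc Real.exp (-((m : ℝ) * a / 159)) ≤ Real.exp (((m * a : ℕ) : ℝ) * Real.log (159 / 160)) := by
          apply Real.exp_le_exp.2
          rw [Nat.cast_mul]
          have h5 : (m : ℝ) * a * (-(1 / 159 : ℝ)) ≤ (m : ℝ) * a * Real.log (159 / 160) :=
            mul_le_mul_of_nonneg_left h4 (by positivity)
          linarith
      _ = _ := by rw [Real.exp_nat_mul, Real.exp_log (by norm_num)]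
  calc (q : ℝ) ^ (d + 1) * (q : ℝ) ^ N * (1 - (1 - 159 / 160) * θ) ^ (m * (q - 1))
      ≤ Real.exp (((d : ℝ) + 1 + N) * l) * Real.exp (-((m : ℝ) * (41 / 40 * a) / 160)) := by
        rw [e1]
        exact mul_le_mul_of_nonneg_left e2 (Real.exp_pos _).le
    _ = Real.exp (((d : ℝ) + 1 + N) * l - (m : ℝ) * (41 / 40 * a) / 160) := by
        rw [← Real.exp_add]; rfl
    _ < Real.exp (-((m : ℝ) * a / 159)) := by
        apply Real.exp_lt_exp.2
        have h4 : (0 : ℝ) < (m : ℝ) * a := by positivity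
        linarith
    _ ≤ _ := e3

end Pool.Agent.Lib.MP_1818ed_co
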