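import Mathlib
import Pool.Agent.Lib.MP_1818ed_co.Defs2

/-!
# MP_1818ed_co: half of the numbers
-/

set_option autoImplicit false

namespace Pool.Agent.Lib.MP_1818ed_co

theorem numA_exp (y : ℝ) (h0 : 0 ≤ y) (h1 : y ≤ 76 / 100) :
    Real.exp (-y) ≤ 1 - 695 / 1000 * y := by
  have hE : 1 + y + y ^ 2 / 2 + y ^ 3 / 6 ≤ Real.exp y := by
    have h := Real.sum_le_exp_of_nonneg h0 4
    have h2 : ∑ i ∈ Finset.range 4, y ^ i / (Nat.factorial i : ℝ) =
        1 + y + y ^ 2 / 2 + y ^ 3 / 6 := by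
      simp [Finset.sum_range_succ, Nat.factorial]
    rwa [h2] at h
  have hEpos : 0 < 1 + y + y ^ 2 / 2 + y ^ 3 / 6 := by positivity
  have hpoly : 1 ≤ (1 - 695 / 1000 * y) * (1 + y + y ^ 2 / 2 + y ^ 3 / 6) := by
    have h2 : y ^ 2 ≤ (76 / 100) ^ 2 := pow_le_pow_left₀ h0 h1 2
    have h3 : y ^ 3 ≤ (76 / 100) ^ 3 := pow_le_pow_left₀ h0 h1 3
    have h4 : 0 ≤ 305 / 1000 - 195 / 1000 * y - (695 / 2000 - 1 / 6) * y ^ 2 -
        695 / 6000 * y ^ 3 := by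
      norm_num at h2 h3 ⊢
      linarith
    nlinarith [mul_nonneg h0 h4]
  rw [Real.exp_neg, inv_le_comm₀ (Real.exp_pos y)]
  · refine le_trans ?_ hE
    have hpos : 0 < 1 - 695 / 1000 * y := by linarith
    rw [inv_le_iff_one_le_mul₀ hpos]
    linarith
  · linarith

theorem numA_exp2 (y : ℝ) (h0 : 0 ≤ y) (h1 : y ≤ 2 / 100) :
    Real.exp (-y) ≤ 1 - 99 / 100 * y := by
  have hE : 1 + y ≤ Real.exp y := by
    have := Real.add_one_le_exp y
    linarith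
  have hE2 : 1 + y + y ^ 2 / 2 ≤ Real.exp y := Real.quadratic_le_exp_of_nonneg h0
  rw [Real.exp_neg]
  have hpos : 0 < 1 - 99 / 100 * y := by linarith
  rw [inv_le_comm₀ (Real.exp_pos y) hpos]
  refine le_trans ?_ hE2
  rw [inv_le_iff_one_le_mul₀ hpos]
  nlinarith [mul_nonneg h0 h0, mul_nonneg (mul_nonneg h0 h0) h0]

theorem numA_pow (q N : ℕ) (hq : 1 ≤ q) :
    (1 - 1 / (q : ℝ)) ^ N ≤ Real.exp (-((N : ℝ) / q)) := by
  have hq' : (1 : ℝ) ≤ q := by exact_mod_cast hq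
  have h1 : 1 - 1 / (q : ℝ) ≤ Real.exp (-(1 / (q : ℝ))) := by
    have := Real.add_one_le_exp (-(1 / (q : ℝ)))
    linarith
  have h0 : 0 ≤ 1 - 1 / (q : ℝ) := by
    have : 1 / (q : ℝ) ≤ 1 := by
      rw [div_le_one (by linarith)]
      exact hq'
    linarith
  calc (1 - 1 / (q : ℝ)) ^ N ≤ (Real.exp (-(1 / (q : ℝ)))) ^ N := pow_le_pow_left₀ h0 h1 N
    _ = Real.exp (-((N : ℝ) / q)) := by
      rw [← Real.exp_nat_mul]
      congr 1
      ring

theorem numA : NumAStmt := by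
  refine ⟨5000, fun m N a q hq hq0 ha h1 h2 => ?_⟩
  have hqR : (5000 : ℝ) ≤ q := by exact_mod_cast hq0
  have hN4 : 4 ≤ N := by omega
  have hNR : (4 : ℝ) ≤ N := by exact_mod_cast hN4
  have h3 : 4 * N ≤ 3 * q + 4 := by omega
  have h3R : 4 * (N : ℝ) ≤ 3 * q + 4 := by exact_mod_cast h3
  have haR : 3 * (a : ℝ) ≤ 2 * N + 1 := by exact_mod_cast h1
  have hqpos : (0 : ℝ) < q := by linarith
  set y : ℝ := (N : ℝ) / q with hy
  have hy0 : 0 ≤ y := by positivity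
  have hyq : y * q = N := by
    rw [hy]
    field_simp
  have hy1 : y ≤ 76 / 100 := by
    rw [hy, div_le_iff₀ hqpos]
    linarith
  have hpow := numA_pow q N (by omega)
  rw [← hy] at hpow
  rcases Nat.lt_or_ge N 89 with hN | hN
  · have hN' : (N : ℝ) ≤ 88 := by
      have : N ≤ 88 := by omega
      exact_mod_cast this
    have hy2 : y ≤ 2 / 100 := by
      rw [hy, div_le_iff₀ hqpos]
      linarith
    have h4 := numA_exp2 y hy0 hy2
    have h5 : 99 / 100 * y ≤ 1 - (1 - 1 / (q : ℝ)) ^ N := by linarith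
    have h6 : ((q : ℝ) - 1) * (99 / 100 * y) ≤ ((q : ℝ) - 1) * (1 - (1 - 1 / (q : ℝ)) ^ N) :=
      mul_le_mul_of_nonneg_left h5 (by linarith)
    have h7 : ((q : ℝ) - 1) * (99 / 100 * y) = 99 / 100 * N - 99 / 100 * y := by
      rw [← hyq]
      ring
    rw [h7] at h6
    linarith
  · have hN' : (89 : ℝ) ≤ N := by exact_mod_cast hN
    have h4 := numA_exp y hy0 hy1
    have h5 : 695 / 1000 * y ≤ 1 - (1 - 1 / (q : ℝ)) ^ N := by linarith
    have h6 : ((q : ℝ) - 1) * (695 / 1000 * y) ≤ ((q : ℝ) - 1) * (1 - (1 - 1 / (q : ℝ)) ^ N) :=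
      mul_le_mul_of_nonneg_left h5 (by linarith)
    have h7 : ((q : ℝ) - 1) * (695 / 1000 * y) = 695 / 1000 * N - 695 / 1000 * y := by
      rw [← hyq]
      ring
    rw [h7] at h6
    linarith

end Pool.Agent.Lib.MP_1818ed_co
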