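import Mathlib
import Pool.Agent.Lib.MP_1818ed_co.Defs3

/-!
# MP_1818ed_co: the numbers (NumLog)
-/

set_option autoImplicit false

namespace Pool.Agent.Lib.MP_1818ed_co

open Finset

/-- `(L + 1)^2 ≤ 4 * 2^L` -/
theorem numLog_sq (L : ℕ) : (L + 1) ^ 2 ≤ 4 * 2 ^ L := by
  induction L with
  | zero => norm_num
  | succ k ih =>
    rcases Nat.lt_or_ge k 2 with h | h
    · interval_cases k <;> norm_num
    · have h1 : (k + 1 + 1) ^ 2 ≤ 2 * (k + 1) ^ 2 := by nlinarith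
      calc (k + 1 + 1) ^ 2 ≤ 2 * (k + 1) ^ 2 := h1
        _ ≤ 2 * (4 * 2 ^ k) := Nat.mul_le_mul_left _ ih
        _ = 4 * 2 ^ (k + 1) := by rw [pow_succ]; ring

theorem numLog_large (c n : ℕ) (hn : 4 * c ^ 2 + 1 ≤ n) : c * (Nat.log 2 n + 1) ≤ n := by
  have h1 := numLog_sq (Nat.log 2 n)
  have h2 : 2 ^ Nat.log 2 n ≤ n := Nat.pow_log_le_self 2 (by omega)
  have h3 : (Nat.log 2 n + 1) ^ 2 ≤ 4 * n := h1.trans (Nat.mul_le_mul_left _ h2)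
  have h4 : (c * (Nat.log 2 n + 1)) ^ 2 ≤ n ^ 2 := by
    calc (c * (Nat.log 2 n + 1)) ^ 2 = c ^ 2 * (Nat.log 2 n + 1) ^ 2 := by ring
      _ ≤ c ^ 2 * (4 * n) := Nat.mul_le_mul_left _ h3
      _ = (4 * c ^ 2) * n := by ring
      _ ≤ n * n := Nat.mul_le_mul_right _ (by omega)
      _ = n ^ 2 := by ring
  exact (Nat.pow_le_pow_iff_left (by norm_num)).1 h4

theorem numLog_real (M L q σ N r n B : ℕ) (z : ℝ) (hM : 2 ≤ M) (hq : 1 ≤ q)
    (hqM : (M : ℝ) * q ≤ ((M : ℝ) - 1) * n) (hr : (4 * (M : ℝ) - 1) * n ≤ 4 * M * r)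
    (hσ : (σ : ℝ) = 128 * (M : ℝ) ^ 2 * (L + 1)) (hσq : σ ≤ q) (hn : n ≤ 2 ^ (L + 1))
    (hz : z = 1 - 1 / (8 * (M : ℝ)))
    (hB : (B : ℝ) * z ^ σ ≤ (q : ℝ) ^ N * (1 - (σ : ℝ) / (q : ℝ) * (1 - z)) ^ r) :
    (B : ℝ) * (n : ℝ) ^ 8 ≤ (q : ℝ) ^ N := by
  have hM' : (2 : ℝ) ≤ M := by exact_mod_cast hM
  have hq' : (1 : ℝ) ≤ q := by exact_mod_cast hq
  have hσq' : (σ : ℝ) ≤ q := by exact_mod_cast hσq
  have hσ0 : (0 : ℝ) ≤ σ := Nat.cast_nonneg _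
  have hq0 : (0 : ℝ) < q := by linarith
  have hM0 : (0 : ℝ) < M := by linarith
  obtain ⟨d, hd⟩ : ∃ d : ℝ, d = 1 / (8 * (M : ℝ)) := ⟨_, rfl⟩
  have hd0 : 0 < d := by rw [hd]; positivity
  have hd1 : d ≤ 1 / 16 := by
    rw [hd, div_le_div_iff₀ (by positivity) (by norm_num)]
    linarith
  have hdM : d * (8 * (M : ℝ)) = 1 := by
    rw [hd]; field_simp
  rw [← hd] at hz
  have hz1 : 1 - z = d := by rw [hz]; ring
  rw [hz1] at hB
  obtain ⟨x, hx⟩ : ∃ x : ℝ, x = (σ : ℝ) / (q : ℝ) * d := ⟨_, rfl⟩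
  rw [← hx] at hB
  have hx0 : 0 ≤ x := by rw [hx]; positivity
  have hx1 : x ≤ 1 := by
    have h1 : (σ : ℝ) / q ≤ 1 := (div_le_one hq0).2 hσq'
    have h2 : (σ : ℝ) / q * d ≤ 1 * d := mul_le_mul_of_nonneg_right h1 hd0.le
    rw [hx]; linarith
  have h1x : (1 - x) ^ r ≤ Real.exp (-(x * r)) := by
    have h1 : 1 - x ≤ Real.exp (-x) := Real.one_sub_le_exp_neg x
    calc (1 - x) ^ r ≤ (Real.exp (-x)) ^ r := pow_le_pow_left₀ (by linarith) h1 r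
      _ = Real.exp (-(x * r)) := by
        rw [← Real.exp_nat_mul]
        congr 1; ring
  have hz2 : Real.exp (-(d + 2 * d ^ 2)) ≤ z := by
    rw [Real.exp_neg, inv_le_iff_one_le_mul₀ (Real.exp_pos _)]
    have h1 := Real.add_one_le_exp (d + 2 * d ^ 2)
    have hz0 : 0 ≤ z := by rw [hz]; linarith
    have h2 : z * (d + 2 * d ^ 2 + 1) ≤ z * Real.exp (d + 2 * d ^ 2) :=
      mul_le_mul_of_nonneg_left h1 hz0
    have h3 : 1 ≤ z * (d + 2 * d ^ 2 + 1) := by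
      rw [hz]
      have h4 : (1 - d) * (d + 2 * d ^ 2 + 1) = 1 + d ^ 2 * (1 - 2 * d) := by ring
      rw [h4]
      have h5 : 0 ≤ d ^ 2 * (1 - 2 * d) := mul_nonneg (sq_nonneg d) (by linarith)
      linarith
    exact h3.trans h2
  have hz3 : Real.exp (-((d + 2 * d ^ 2) * σ)) ≤ z ^ σ := by
    have h1 : (Real.exp (-(d + 2 * d ^ 2))) ^ σ ≤ z ^ σ :=
      pow_le_pow_left₀ (Real.exp_pos _).le hz2 σ
    rw [← Real.exp_nat_mul] at h1
    have h2 : (σ : ℝ) * -(d + 2 * d ^ 2) = -((d + 2 * d ^ 2) * σ) := by ring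
    rwa [h2] at h1
  have hBn : (0 : ℝ) ≤ B := Nat.cast_nonneg _
  have hqN : (0 : ℝ) ≤ (q : ℝ) ^ N := by positivity
  have hB1 : (B : ℝ) * Real.exp (-((d + 2 * d ^ 2) * σ)) ≤ (q : ℝ) ^ N * Real.exp (-(x * r)) :=
    (mul_le_mul_of_nonneg_left hz3 hBn).trans (hB.trans (mul_le_mul_of_nonneg_left h1x hqN))
  -- the exponent
  have hrq : (1 + 3 / (4 * (M : ℝ))) * q ≤ r := by
    have h1 : (4 * (M : ℝ) + 3) * (M * q) ≤ (4 * (M : ℝ) + 3) * ((M - 1) * n) :=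
      mul_le_mul_of_nonneg_left hqM (by linarith)
    have hn0 : (0 : ℝ) ≤ n := Nat.cast_nonneg _
    have h2 : (4 * (M : ℝ) + 3) * ((M - 1) * n) ≤ M * ((4 * (M : ℝ) - 1) * n) := by
      have h3 : (4 * (M : ℝ) + 3) * ((M - 1) * n) = M * ((4 * (M : ℝ) - 1) * n) - 3 * n := by ring
      linarith
    have h4 : (M : ℝ) * ((4 * (M : ℝ) - 1) * n) ≤ M * (4 * M * r) :=
      mul_le_mul_of_nonneg_left hr hM0.le
    have h5 : (M : ℝ) * ((4 * (M : ℝ) + 3) * q) ≤ M * (4 * M * r) := by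
      calc (M : ℝ) * ((4 * (M : ℝ) + 3) * q) = (4 * (M : ℝ) + 3) * (M * q) := by ring
        _ ≤ M * (4 * M * r) := h1.trans (h2.trans h4)
    have h6 : (4 * (M : ℝ) + 3) * q ≤ 4 * M * r := le_of_mul_le_mul_left h5 hM0
    have h7 : (1 + 3 / (4 * (M : ℝ))) * q = ((4 * (M : ℝ) + 3) * q) / (4 * M) := by
      field_simp
    rw [h7, div_le_iff₀ (by positivity)]
    linarith
  have hxr : (σ : ℝ) * d * (1 + 3 / (4 * (M : ℝ))) ≤ x * r := by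
    have h1 : x * r = (σ : ℝ) * d * (r / q) := by
      rw [hx]; field_simp
    rw [h1]
    apply mul_le_mul_of_nonneg_left _ (by positivity)
    rw [le_div_iff₀ hq0]
    exact hrq
  have hexp : -(x * r) + (d + 2 * d ^ 2) * σ ≤ -(8 * ((L : ℝ) + 1)) := by
    have h1 : (σ : ℝ) * d * (1 + 3 / (4 * (M : ℝ))) - (d + 2 * d ^ 2) * σ
        = 8 * ((L : ℝ) + 1) := by
      rw [hσ, hd]
      field_simp
      ring
    linarith
  have hB2 : (B : ℝ) ≤ (q : ℝ) ^ N * Real.exp (-(8 * ((L : ℝ) + 1))) := by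
    have h1 : (B : ℝ) = (B : ℝ) * Real.exp (-((d + 2 * d ^ 2) * σ))
        * Real.exp ((d + 2 * d ^ 2) * σ) := by
      rw [mul_assoc, ← Real.exp_add]
      simp
    have h2 : (B : ℝ) * Real.exp (-((d + 2 * d ^ 2) * σ)) * Real.exp ((d + 2 * d ^ 2) * σ)
        ≤ (q : ℝ) ^ N * Real.exp (-(x * r)) * Real.exp ((d + 2 * d ^ 2) * σ) :=
      mul_le_mul_of_nonneg_right hB1 (Real.exp_pos _).le
    rw [h1]
    refine h2.trans ?_
    rw [mul_assoc, ← Real.exp_add]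
    exact mul_le_mul_of_nonneg_left (Real.exp_le_exp.2 hexp) hqN
  have hn8 : (n : ℝ) ^ 8 ≤ Real.exp (8 * ((L : ℝ) + 1)) := by
    have h1 : (n : ℝ) ≤ (2 : ℝ) ^ (L + 1) := by exact_mod_cast hn
    have h2 : (2 : ℝ) ≤ Real.exp 1 := by
      have := Real.add_one_le_exp (1 : ℝ)
      linarith
    have h3 : (2 : ℝ) ^ (L + 1) ≤ (Real.exp 1) ^ (L + 1) := pow_le_pow_left₀ (by norm_num) h2 _
    have h4 : (Real.exp 1) ^ (L + 1) = Real.exp ((L : ℝ) + 1) := by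
      rw [← Real.exp_nat_mul]
      congr 1
      push_cast; ring
    have h5 : (n : ℝ) ≤ Real.exp ((L : ℝ) + 1) := by
      rw [← h4]; exact h1.trans h3
    calc (n : ℝ) ^ 8 ≤ (Real.exp ((L : ℝ) + 1)) ^ 8 :=
          pow_le_pow_left₀ (Nat.cast_nonneg _) h5 8
      _ = Real.exp (8 * ((L : ℝ) + 1)) := by
        rw [← Real.exp_nat_mul]
        congr 1
  calc (B : ℝ) * (n : ℝ) ^ 8
      ≤ ((q : ℝ) ^ N * Real.exp (-(8 * ((L : ℝ) + 1)))) * Real.exp (8 * ((L : ℝ) + 1)) :=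
        mul_le_mul hB2 hn8 (by positivity) (by positivity)
    _ = (q : ℝ) ^ N := by
      rw [mul_assoc, ← Real.exp_add]
      simp

theorem numLog_final (n m q N B : ℕ) (hn : 2 ≤ n) (hm : m ≤ n) (hq : 1 ≤ q) (hqn : q ≤ n)
    (hN : N ≤ n) (hB : B * n ^ 8 ≤ q ^ N) :
    q ^ N * q ^ m * (n * m * q) ^ n * B ^ n < (q ^ N) ^ n := by
  have hn0 : 0 < n := by omega
  have h1 : (B * n ^ 8) ^ n ≤ (q ^ N) ^ n := Nat.pow_le_pow_left hB n
  have h2 : q ^ N ≤ n ^ n :=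
    (Nat.pow_le_pow_left hqn N).trans (Nat.pow_le_pow_right hn0 hN)
  have h3 : q ^ m ≤ n ^ n :=
    (Nat.pow_le_pow_left hqn m).trans (Nat.pow_le_pow_right hn0 hm)
  have h4 : (n * m * q) ^ n ≤ (n ^ 3) ^ n := by
    apply Nat.pow_le_pow_left
    calc n * m * q ≤ n * n * n := Nat.mul_le_mul (Nat.mul_le_mul_left _ hm) hqn
      _ = n ^ 3 := by ring
  have h5 : q ^ N * q ^ m * (n * m * q) ^ n * B ^ n * (n ^ 3) ^ n ≤ (q ^ N) ^ n := by
    calc q ^ N * q ^ m * (n * m * q) ^ n * B ^ n * (n ^ 3) ^ n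
        ≤ n ^ n * n ^ n * (n ^ 3) ^ n * B ^ n * (n ^ 3) ^ n :=
          Nat.mul_le_mul_right _ (Nat.mul_le_mul_right _ (Nat.mul_le_mul (Nat.mul_le_mul h2 h3) h4))
      _ = (B * n ^ 8) ^ n := by
        rw [mul_pow B (n ^ 8) n]
        rw [show n ^ n * n ^ n * (n ^ 3) ^ n * B ^ n * (n ^ 3) ^ n
          = B ^ n * (n ^ n * n ^ n * (n ^ 3) ^ n * (n ^ 3) ^ n) by ring]
        congr 1
        rw [← mul_pow, ← mul_pow, ← mul_pow]
        congr 1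
        ring
      _ ≤ (q ^ N) ^ n := h1
  have h6 : 2 ≤ (n ^ 3) ^ n := by
    have h7 : 2 ≤ n ^ 3 := by
      calc 2 ≤ n := hn
        _ = n ^ 1 := (pow_one n).symm
        _ ≤ n ^ 3 := Nat.pow_le_pow_right hn0 (by norm_num)
    calc 2 ≤ n ^ 3 := h7
      _ = (n ^ 3) ^ 1 := (pow_one _).symm
      _ ≤ (n ^ 3) ^ n := Nat.pow_le_pow_right (by omega) hn0
  have h8 : 0 < (q ^ N) ^ n := by positivity
  by_contra hcon
  have h9 : (q ^ N) ^ n ≤ q ^ N * q ^ m * (n * m * q) ^ n * B ^ n := not_lt.1 hcon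
  have h10 : (q ^ N) ^ n * 2 ≤ (q ^ N) ^ n :=
    (Nat.mul_le_mul h9 h6).trans h5
  omega

theorem numLog : NumLogStmt := by
  intro M hM
  refine ⟨2064 * M ^ 3, 4 * (512 * M ^ 2) ^ 2 + 1, ?_⟩
  intro n Δ hn hΔ
  have hM2 : 4 ≤ M ^ 2 := by nlinarith
  have hMM : M ≤ M ^ 2 := by nlinarith
  obtain ⟨L, hL⟩ : ∃ L, L = Nat.log 2 n := ⟨_, rfl⟩
  have hlarge : 512 * M ^ 2 * (L + 1) ≤ n := by
    rw [hL]; exact numLog_large _ n hn
  rw [← hL] at hΔ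
  have hn2 : 2 ≤ n := by
    nlinarith
  have hL1 : 1 ≤ L := by
    rw [hL]
    exact Nat.log_pos (by norm_num) hn2
  have hn2L : n < 2 ^ (L + 1) := by
    rw [hL]; exact Nat.lt_pow_succ_log_self (by norm_num) n
  obtain ⟨q, hq⟩ : ∃ q, q = (M - 1) * n / M := ⟨_, rfl⟩
  obtain ⟨σ, hσ⟩ : ∃ σ, σ = 128 * M ^ 2 * (L + 1) := ⟨_, rfl⟩
  have hM0 : 0 < M := by omega
  have hqmul : M * q ≤ (M - 1) * n := by
    rw [hq]; exact Nat.mul_div_le _ _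
  have hqmax : ∀ q' : ℕ, M * q' ≤ (M - 1) * n → q' ≤ q := by
    intro q' h
    rw [hq, Nat.le_div_iff_mul_le hM0]
    calc q' * M = M * q' := mul_comm _ _
      _ ≤ (M - 1) * n := h
  have hσq : σ ≤ q := by
    apply hqmax
    -- M σ ≤ (M-1) n because 2 σ ≤ n and M ≤ 2 (M-1)
    have h1 : 4 * σ ≤ n := by
      rw [hσ]
      calc 4 * (128 * M ^ 2 * (L + 1)) = 512 * M ^ 2 * (L + 1) := by ring
        _ ≤ n := hlarge
    have h2 : M ≤ 2 * (M - 1) := by omega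
    calc M * σ ≤ (2 * (M - 1)) * σ := Nat.mul_le_mul_right _ h2
      _ = (M - 1) * (2 * σ) := by ring
      _ ≤ (M - 1) * n := Nat.mul_le_mul_left _ (by omega)
  have hσ1 : 1 ≤ σ := by
    rw [hσ]; nlinarith
  have hq1 : 1 ≤ q := hσ1.trans hσq
  have hqn : q ≤ n := by
    have h1 : M * q ≤ M * n := hqmul.trans (Nat.mul_le_mul_right _ (Nat.sub_le _ _))
    exact Nat.le_of_mul_le_mul_left h1 hM0
  -- (1)
  have hsmall : 4 * M * ((L + 1) * (Δ + 1) + σ * Δ) ≤ n := by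
    have h1 : 2 * (2 * (4 * M * (L + 1))) ≤ n := by
      calc 2 * (2 * (4 * M * (L + 1))) = 16 * (M * (L + 1)) := by ring
        _ ≤ 16 * (M ^ 2 * (L + 1)) := Nat.mul_le_mul_left _ (Nat.mul_le_mul_right _ hMM)
        _ ≤ 512 * (M ^ 2 * (L + 1)) := Nat.mul_le_mul_right _ (by norm_num)
        _ = 512 * M ^ 2 * (L + 1) := by ring
        _ ≤ n := hlarge
    have h2 : (L + 1) * Δ ≤ 2 * (L * Δ) := by nlinarith
    have h3 : (L + 1) * (Δ + 1) + σ * Δ ≤ (L + 1) + 258 * M ^ 2 * (L * Δ) := by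
      rw [hσ]
      calc (L + 1) * (Δ + 1) + 128 * M ^ 2 * (L + 1) * Δ
          = (L + 1) + (1 + 128 * M ^ 2) * ((L + 1) * Δ) := by ring
        _ ≤ (L + 1) + (1 + 128 * M ^ 2) * (2 * (L * Δ)) :=
          Nat.add_le_add_left (Nat.mul_le_mul_left _ h2) _
        _ ≤ (L + 1) + (129 * M ^ 2) * (2 * (L * Δ)) :=
          Nat.add_le_add_left (Nat.mul_le_mul_right _ (by omega)) _
        _ = (L + 1) + 258 * M ^ 2 * (L * Δ) := by ring
    have h4 : 4 * M * ((L + 1) * (Δ + 1) + σ * Δ)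
        ≤ 4 * M * ((L + 1) + 258 * M ^ 2 * (L * Δ)) := Nat.mul_le_mul_left _ h3
    have h5 : 2 * (4 * M * ((L + 1) + 258 * M ^ 2 * (L * Δ)))
        = 2 * (4 * M * (L + 1)) + 2064 * M ^ 3 * Δ * L := by ring
    omega
  have hm1 : (L + 1) * (Δ + 1) ≤ n := by
    have h1 : 1 * ((L + 1) * (Δ + 1) + σ * Δ) ≤ 4 * M * ((L + 1) * (Δ + 1) + σ * Δ) :=
      Nat.mul_le_mul_right _ (by omega)
    omega
  have hMr : (2 : ℝ) ≤ (M : ℝ) := by exact_mod_cast hM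
  refine ⟨q, L + 1, n, σ, 1 - 1 / (8 * (M : ℝ)), hq1, hqmax, by omega, by omega, hn2L.le, hσ1,
    hσq, ?_, ?_, hm1, ?_⟩
  · have h1 : 1 / (8 * (M : ℝ)) ≤ 1 / 16 := by
      rw [div_le_div_iff₀ (by positivity) (by norm_num)]
      linarith
    linarith
  · have h1 : 0 < 1 / (8 * (M : ℝ)) := by positivity
    linarith
  · intro N B hN hNn hB
    have hqR : (M : ℝ) * q ≤ ((M : ℝ) - 1) * n := by
      have h1 : ((M * q : ℕ) : ℝ) ≤ (((M - 1) * n : ℕ) : ℝ) := by exact_mod_cast hqmul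
      rw [Nat.cast_mul, Nat.cast_mul, Nat.cast_sub (by omega : 1 ≤ M), Nat.cast_one] at h1
      exact h1
    have hrN : n ≤ (N - σ * Δ) + ((L + 1) * (Δ + 1) + σ * Δ) := by omega
    have hr1 : 4 * M * n ≤ 4 * M * (N - σ * Δ) + n := by
      calc 4 * M * n ≤ 4 * M * ((N - σ * Δ) + ((L + 1) * (Δ + 1) + σ * Δ)) :=
            Nat.mul_le_mul_left _ hrN
        _ = 4 * M * (N - σ * Δ) + 4 * M * ((L + 1) * (Δ + 1) + σ * Δ) := by ring
        _ ≤ 4 * M * (N - σ * Δ) + n := Nat.add_le_add_left hsmall _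
    have hrR : (4 * (M : ℝ) - 1) * n ≤ 4 * M * ((N - σ * Δ : ℕ) : ℝ) := by
      have h1 : (4 : ℝ) * M * n ≤ 4 * M * ((N - σ * Δ : ℕ) : ℝ) + n := by exact_mod_cast hr1
      linarith
    have hσR : (σ : ℝ) = 128 * (M : ℝ) ^ 2 * ((L : ℝ) + 1) := by
      rw [hσ]; push_cast; ring
    have h8 := numLog_real M L q σ N (N - σ * Δ) n B _ hM hq1 hqR hrR hσR hσq hn2L.le rfl hB
    have h8' : B * n ^ 8 ≤ q ^ N := by exact_mod_cast h8
    apply numLog_final n (L + 1) q N B hn2 _ hq1 hqn hN h8'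
    have h9 : (L + 1) * 1 ≤ (L + 1) * (Δ + 1) := Nat.mul_le_mul_left _ (by omega)
    omega

end Pool.Agent.Lib.MP_1818ed_co
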