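import Mathlib
import Pool.Agent.Lib.MP_1818ed_co.Defs2

set_option autoImplicit false
set_option linter.unusedSectionVars false

/-!
# Orientation of the points by Hall's theorem (MP_1818ed_co)
-/

namespace Pool.Agent.Lib.MP_1818ed_co

open Finset

section orientAux

variable {V P : Type} [Fintype V] [DecidableEq V] [Fintype P] [DecidableEq P] [AddCommGroup P]
  {q : ℕ} [NeZero q]

/-- the line of direction `i` through `p` -/
def orientLine (v : V → (ZMod q →+ P)) (i : V) (p : P) : Finset P :=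
  univ.image (fun t : ZMod q => p + v i t)

theorem mem_orientLine {v : V → (ZMod q →+ P)} {i : V} {p x : P} :
    x ∈ orientLine v i p ↔ ∃ t : ZMod q, p + v i t = x := by
  unfold orientLine; simp

theorem self_mem_orientLine (v : V → (ZMod q →+ P)) (i : V) (p : P) :
    p ∈ orientLine v i p := mem_orientLine.2 ⟨0, by rw [map_zero, add_zero]⟩

theorem orientLine_add (v : V → (ZMod q →+ P)) (i : V) (p : P) (t : ZMod q) :
    orientLine v i (p + v i t) = orientLine v i p := by
  ext x
  rw [mem_orientLine, mem_orientLine]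
  constructor
  · rintro ⟨r, rfl⟩
    exact ⟨t + r, by rw [map_add, add_assoc]⟩
  · rintro ⟨r, rfl⟩
    exact ⟨r - t, by rw [map_sub]; abel⟩

theorem orient_card {v : V → (ZMod q →+ P)} {i : V} (hv : Function.Injective (v i)) (p : P)
    (Bad : Finset P) : (univ.filter (fun t : ZMod q => p + v i t ∈ Bad)).card =
      (Bad.filter (fun x => x ∈ orientLine v i p)).card := by
  have : Bad.filter (fun x => x ∈ orientLine v i p) =
      (univ.filter (fun t : ZMod q => p + v i t ∈ Bad)).image (fun t => p + v i t) := by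
    ext x
    simp only [Finset.mem_filter, Finset.mem_image, mem_orientLine, Finset.mem_univ, true_and]
    constructor
    · rintro ⟨h1, t, rfl⟩
      exact ⟨t, h1, rfl⟩
    · rintro ⟨t, h1, rfl⟩
      exact ⟨h1, t, rfl⟩
  rw [this, Finset.card_image_of_injective]
  intro a b hab
  exact hv (add_left_cancel hab)

/-- the pairs (direction, line) through `p` -/
def orientT (v : V → (ZMod q →+ P)) (U : Finset V) (p : P) : Finset (V × Finset P) :=
  U.image (fun i => (i, orientLine v i p))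

theorem mem_orientT {v : V → (ZMod q →+ P)} {U : Finset V} {p : P} {x : V × Finset P} :
    x ∈ orientT v U p ↔ x.1 ∈ U ∧ x.2 = orientLine v x.1 p := by
  unfold orientT
  rw [Finset.mem_image]
  constructor
  · rintro ⟨i, hi, rfl⟩
    exact ⟨hi, rfl⟩
  · rintro ⟨h1, h2⟩
    exact ⟨x.1, h1, by rw [← h2]⟩

/-- the harmonic mean inequality -/
theorem orient_harm {U : Finset V} (hU : U.Nonempty) (b : V → ℕ) (hb : ∀ i ∈ U, 1 ≤ b i)
    (h : ∑ i ∈ U, b i ≤ U.card ^ 2) : 1 ≤ ∑ i ∈ U, (1 : ℝ) / (b i : ℝ) := by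
  have h1 := Finset.sum_mul_sq_le_sq_mul_sq U (fun i => Real.sqrt (b i : ℝ))
    (fun i => Real.sqrt (1 / (b i : ℝ)))
  have h2 : ∑ i ∈ U, Real.sqrt (b i : ℝ) * Real.sqrt (1 / (b i : ℝ)) = (U.card : ℝ) := by
    rw [Finset.sum_congr rfl (g := fun _ => (1 : ℝ))]
    · simp
    · intro i hi
      have : (0 : ℝ) < b i := by exact_mod_cast hb i hi
      rw [← Real.sqrt_mul this.le, mul_one_div_cancel this.ne', Real.sqrt_one]
  have h3 : ∑ i ∈ U, (Real.sqrt (b i : ℝ)) ^ 2 = ∑ i ∈ U, (b i : ℝ) :=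
    Finset.sum_congr rfl fun i _ => Real.sq_sqrt (Nat.cast_nonneg _)
  have h4 : ∑ i ∈ U, (Real.sqrt (1 / (b i : ℝ))) ^ 2 = ∑ i ∈ U, 1 / (b i : ℝ) :=
    Finset.sum_congr rfl fun i _ => Real.sq_sqrt (by positivity)
  rw [h2, h3, h4] at h1
  have h5 : ∑ i ∈ U, (b i : ℝ) ≤ (U.card : ℝ) ^ 2 := by exact_mod_cast h
  have h6 : (0 : ℝ) < (U.card : ℝ) ^ 2 := by
    have : (0 : ℝ) < U.card := by exact_mod_cast hU.card_pos
    positivity
  have h7 : 0 ≤ ∑ i ∈ U, 1 / (b i : ℝ) := Finset.sum_nonneg fun i _ => by positivity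
  have h8 : (U.card : ℝ) ^ 2 * 1 ≤ (U.card : ℝ) ^ 2 * ∑ i ∈ U, 1 / (b i : ℝ) := by
    rw [mul_one]
    exact h1.trans (mul_le_mul_of_nonneg_right h5 h7)
  exact le_of_mul_le_mul_left h8 h6

end orientAux

theorem orient : OrientStmt := by
  intro V P _ _ _ _ _ U q _ v Bad hU hv hBad
  have hall : ∀ s : Finset {p // p ∈ Bad},
      s.card ≤ (s.biUnion (fun p => orientT v U p.1)).card := by
    intro s
    set Λ := s.biUnion (fun p => orientT v U p.1) with hΛ
    have h1 : (s.card : ℝ) ≤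
        ∑ p ∈ s, ∑ x ∈ orientT v U p.1, (1 : ℝ) / ((Bad.filter (fun y => y ∈ x.2)).card : ℝ) := by
      rw [Finset.card_eq_sum_ones, Nat.cast_sum]
      refine Finset.sum_le_sum fun p _ => ?_
      unfold orientT
      rw [Finset.sum_image (by
        intro i _ j _ hij
        exact (Prod.mk.inj hij).1)]
      push_cast
      have h2 := orient_harm hU
        (fun i => (univ.filter (fun t : ZMod q => p.1 + v i t ∈ Bad)).card) (by
          intro i hi
          rw [Nat.one_le_iff_ne_zero, Finset.card_ne_zero]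
          exact ⟨0, by
            rw [Finset.mem_filter]
            exact ⟨Finset.mem_univ _, by rw [map_zero, add_zero]; exact p.2⟩⟩)
        (hBad p.1 p.2)
      refine h2.trans (Finset.sum_le_sum fun i hi => ?_)
      rw [orient_card (hv i hi)]
    have h2 : ∑ p ∈ s, ∑ x ∈ orientT v U p.1,
        (1 : ℝ) / ((Bad.filter (fun y => y ∈ x.2)).card : ℝ) =
        ∑ x ∈ Λ, ∑ p ∈ s.filter (fun p => x ∈ orientT v U p.1),
          (1 : ℝ) / ((Bad.filter (fun y => y ∈ x.2)).card : ℝ) := by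
      refine Finset.sum_comm' ?_
      intro p x
      rw [hΛ, Finset.mem_filter, Finset.mem_biUnion]
      constructor
      · rintro ⟨h1, h2⟩
        exact ⟨⟨h1, h2⟩, p, h1, h2⟩
      · rintro ⟨⟨h1, h2⟩, _⟩
        exact ⟨h1, h2⟩
    have h3 : ∑ x ∈ Λ, ∑ p ∈ s.filter (fun p => x ∈ orientT v U p.1),
          (1 : ℝ) / ((Bad.filter (fun y => y ∈ x.2)).card : ℝ) ≤ ∑ x ∈ Λ, (1 : ℝ) := by
      refine Finset.sum_le_sum fun x _ => ?_
      rw [Finset.sum_const, nsmul_eq_mul, mul_one_div]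
      refine div_le_one_of_le₀ ?_ (Nat.cast_nonneg _)
      have h4 : (s.filter (fun p => x ∈ orientT v U p.1)).card ≤
          (Bad.filter (fun y => y ∈ x.2)).card := by
        refine Finset.card_le_card_of_injOn (fun p => p.1) ?_ ?_
        · intro p hp
          have hp' := (Finset.mem_filter.1 (Finset.mem_coe.1 hp)).2
          rw [mem_orientT] at hp'
          refine Finset.mem_coe.2 (Finset.mem_filter.2 ⟨p.2, ?_⟩)
          rw [hp'.2]
          exact self_mem_orientLine v x.1 p.1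
        · exact Subtype.val_injective.injOn
      exact_mod_cast h4
    have h4 : (s.card : ℝ) ≤ (Λ.card : ℝ) := by
      refine h1.trans (h2.le.trans (h3.trans ?_))
      simp
    exact_mod_cast h4
  obtain ⟨f, hf1, hf2⟩ := (Finset.all_card_le_biUnion_card_iff_exists_injective _).1 hall
  obtain ⟨u0, hu0⟩ := hU
  refine ⟨fun p => if h : p ∈ Bad then (f ⟨p, h⟩).1 else u0, ?_, ?_⟩
  · intro p hp
    simp only [hp, dif_pos]
    exact (mem_orientT.1 (hf2 ⟨p, hp⟩)).1
  · intro p hp t ht hO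
    simp only [hp, dif_pos] at ht hO ⊢
    simp only [ht, dif_pos] at hO
    have a1 := (mem_orientT.1 (hf2 ⟨p, hp⟩)).2
    have a2 := (mem_orientT.1 (hf2 ⟨_, ht⟩)).2
    rw [hO, orientLine_add, ← a1] at a2
    have a3 := hf1 (Prod.ext hO a2)
    have a4 := congrArg Subtype.val a3
    exact left_eq_add.1 a4.symm

end Pool.Agent.Lib.MP_1818ed_co
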