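import Mathlib
import Pool.Agent.Lib.MP_1818ed_co.Defs2

/-!
# MP_1818ed_co: reduction to a spine
-/

set_option autoImplicit false

namespace Pool.Agent.Lib.MP_1818ed_co

open Finset

/-- proper colouring of the vertices in `T` with colours `< n` -/
def ReduceCol {V : Type} (G : SimpleGraph V) (T : Finset V) (n : ℕ) : Prop :=
  ∃ c : V → ℕ, (∀ v ∈ T, c v < n) ∧ ∀ u ∈ T, ∀ v ∈ T, G.Adj u v → c u ≠ c v

theorem reduce_col_iff {V : Type} (G : SimpleGraph V) (T : Finset V) (n : ℕ) :
    (G.induce {v | v ∈ T}).Colorable n ↔ ReduceCol G T n := by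
  classical
  constructor
  · rintro ⟨C⟩
    refine ⟨fun v => if h : v ∈ T then (C ⟨v, h⟩ : ℕ) else 0, ?_, ?_⟩
    · intro v hv
      simp only [hv, dif_pos]
      exact (C ⟨v, hv⟩).2
    · intro u hu v hv huv
      simp only [hu, hv, dif_pos]
      intro h
      have h1 : C ⟨u, hu⟩ ≠ C ⟨v, hv⟩ := C.valid (by simpa using huv)
      exact h1 (Fin.ext h)
  · rintro ⟨c, hc, hp⟩
    refine ⟨SimpleGraph.Coloring.mk (fun v => (⟨c v.1, hc v.1 v.2⟩ : Fin n)) ?_⟩
    intro u v huv h
    have h1 : G.Adj u.1 v.1 := by simpa using huv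
    exact hp u.1 u.2 v.1 v.2 h1 (congrArg Fin.val h)

theorem reduce_add {V : Type} (G : SimpleGraph V) (U W : Finset V) (r₀ : ℕ)
    (h : ReduceCol G W r₀) (T : Finset V) (hT : ∀ v ∈ T, v ∈ U ∨ (v ∉ U ∧ v ∈ W)) :
    ReduceCol G T (r₀ + U.card) := by
  classical
  obtain ⟨c, hc, hp⟩ := h
  refine ⟨fun v => if h : v ∈ U then r₀ + (U.equivFin ⟨v, h⟩ : ℕ) else c v, ?_, ?_⟩
  · intro v hv
    by_cases h : v ∈ U
    · simp only [h, dif_pos]
      have := (U.equivFin ⟨v, h⟩).2
      omega
    · simp only [h, dif_neg, not_false_eq_true]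
      have h2 : v ∈ W := by
        rcases hT v hv with h3 | h3
        · exact absurd h3 h
        · exact h3.2
      have := hc v h2
      omega
  · intro u hu v hv huv
    have hne : u ≠ v := huv.ne
    have hW : ∀ x ∈ T, x ∉ U → x ∈ W := by
      intro x hx h
      rcases hT x hx with h3 | h3
      · exact absurd h3 h
      · exact h3.2
    by_cases h1 : u ∈ U
    · by_cases h2 : v ∈ U
      · simp only [h1, h2, dif_pos]
        intro h3
        have h4 : (U.equivFin ⟨u, h1⟩ : ℕ) = (U.equivFin ⟨v, h2⟩ : ℕ) := by omega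
        have h5 := U.equivFin.injective (Fin.ext h4)
        exact hne (congrArg Subtype.val h5)
      · simp only [h1, h2, dif_pos, dif_neg, not_false_eq_true]
        have := hc v (hW v hv h2)
        omega
    · by_cases h2 : v ∈ U
      · simp only [h1, h2, dif_pos, dif_neg, not_false_eq_true]
        have := hc u (hW u hu h1)
        omega
      · simp only [h1, h2, dif_neg, not_false_eq_true]
        exact hp u (hW u hu h1) v (hW v hv h2) huv

theorem reduce_sub {V : Type} (G : SimpleGraph V) (U W : Finset V) (r : ℕ)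
    (hcl : ∀ u ∈ U, ∀ v, v ∈ U ∨ v ∈ W → v ≠ u → G.Adj u v) (hd : Disjoint U W)
    (T : Finset V) (hU : U ⊆ T) (hWT : W ⊆ T) (h : ReduceCol G T r) :
    ReduceCol G W (r - U.card) := by
  classical
  obtain ⟨c, hc, hp⟩ := h
  set F : Finset ℕ := (Finset.range r) \ (U.image c) with hF
  have hinj : Set.InjOn c (U : Set V) := by
    intro u hu v hv huv
    by_contra hne
    have h1 := hcl u hu v (Or.inl hv) (Ne.symm hne)
    exact hp u (hU hu) v (hU hv) h1 huv
  have hcard : F.card = r - U.card := by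
    rw [hF, Finset.card_sdiff_of_subset, Finset.card_range, Finset.card_image_of_injOn hinj]
    intro x hx
    obtain ⟨u, hu, rfl⟩ := Finset.mem_image.1 hx
    exact Finset.mem_range.2 (hc u (hU hu))
  have hmem : ∀ w ∈ W, c w ∈ F := by
    intro w hw
    rw [hF, Finset.mem_sdiff]
    refine ⟨Finset.mem_range.2 (hc w (hWT hw)), fun hx => ?_⟩
    obtain ⟨u, hu, hx⟩ := Finset.mem_image.1 hx
    have hne : w ≠ u := by
      rintro rfl
      exact Finset.disjoint_left.1 hd hu hw
    exact hp u (hU hu) w (hWT hw) (hcl u hu w (Or.inr hw) hne) hx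
  refine ⟨fun v => if h : c v ∈ F then (F.equivFin ⟨c v, h⟩ : ℕ) else 0, ?_, ?_⟩
  · intro v hv
    have h := hmem v hv
    simp only [h, dif_pos]
    have h1 := (F.equivFin ⟨c v, h⟩).2
    omega
  · intro u hu v hv huv
    have h1 := hmem u hu
    have h2 := hmem v hv
    simp only [h1, h2, dif_pos]
    intro h3
    have h5 := F.equivFin.injective (Fin.ext h3)
    exact hp u (hWT hu) v (hWT hv) huv (congrArg Subtype.val h5)

theorem reduce (h1 : ColAddStmt) (h2 : CritStmt) : ReduceStmt := by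
  classical
  intro V _ G r hr
  -- minimal set
  have hex : (Finset.univ.filter (fun T : Finset V => ¬ ReduceCol G T r)).Nonempty := by
    refine ⟨Finset.univ, ?_⟩
    rw [Finset.mem_filter]
    refine ⟨Finset.mem_univ _, ?_⟩
    rintro ⟨c, hc, hp⟩
    refine hr ⟨SimpleGraph.Coloring.mk (fun v => (⟨c v, hc v (Finset.mem_univ v)⟩ : Fin r)) ?_⟩
    intro u v huv h
    exact hp u (Finset.mem_univ _) v (Finset.mem_univ _) huv (congrArg Fin.val h)
  obtain ⟨V', hV', hmin⟩ := Finset.exists_min_image _ Finset.card hex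
  rw [Finset.mem_filter] at hV'
  have hV'' : ¬ ReduceCol G V' r := hV'.2
  have hmin' : ∀ w ∈ V', ReduceCol G (V'.erase w) r := by
    intro w hw
    by_contra hcon
    have h3 := hmin (V'.erase w) (Finset.mem_filter.2 ⟨Finset.mem_univ _, hcon⟩)
    have h4 := Finset.card_erase_lt_of_mem hw
    omega
  set U : Finset V := V'.filter (fun u => ∀ v ∈ V', v ≠ u → G.Adj u v) with hUdef
  set W : Finset V := V' \ U with hWdef
  have hUV : U ⊆ V' := Finset.filter_subset _ _
  have hWV : W ⊆ V' := Finset.sdiff_subset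
  have hd : Disjoint U W := Finset.disjoint_sdiff
  have hsp : Spine G U W := by
    intro u hu v hv hne
    have h3 := (Finset.mem_filter.1 hu).2
    rcases hv with hv | hv
    · exact h3 v (hUV hv) hne
    · exact h3 v (hWV hv) hne
  refine ⟨U, W, hd, hsp, ?_⟩
  by_cases hm : r + 1 ≤ U.card
  · exact Or.inl hm
  right
  have hm' : U.card ≤ r := by omega
  set r₀ := r - U.card with hr₀
  -- (a)
  have ha : ¬ ReduceCol G W r₀ := by
    intro hcon
    have h3 := reduce_add G U W r₀ hcon V' (fun v hv => by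
      by_cases h : v ∈ U
      · exact Or.inl h
      · exact Or.inr ⟨h, Finset.mem_sdiff.2 ⟨hv, h⟩⟩)
    have h4 : r₀ + U.card = r := by omega
    rw [h4] at h3
    exact hV'' h3
  -- (b)
  have hb : ∀ w ∈ W, ReduceCol G (W.erase w) r₀ := by
    intro w hw
    have hwU : w ∉ U := (Finset.mem_sdiff.1 hw).2
    refine reduce_sub G U (W.erase w) r ?_ ?_ (V'.erase w) ?_ ?_ (hmin' w (hWV hw))
    · intro u hu v hv hne
      refine hsp u hu v ?_ hne
      rcases hv with hv | hv
      · exact Or.inl hv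
      · exact Or.inr (Finset.mem_of_mem_erase hv)
    · exact Finset.disjoint_of_subset_right (Finset.erase_subset _ _) hd
    · intro u hu
      refine Finset.mem_erase.2 ⟨?_, hUV hu⟩
      rintro rfl
      exact hwU hu
    · exact Finset.erase_subset_erase _ hWV
  -- (c)
  have hc : ∀ w ∈ W, ∃ w' ∈ W, w' ≠ w ∧ ¬ G.Adj w w' := by
    intro w hw
    have hwU : w ∉ U := (Finset.mem_sdiff.1 hw).2
    rw [hUdef, Finset.mem_filter] at hwU
    push Not at hwU
    obtain ⟨v, hv, hne, hadj⟩ := hwU (hWV hw)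
    refine ⟨v, Finset.mem_sdiff.2 ⟨hv, fun hvU => hadj ?_⟩, hne, hadj⟩
    exact (hsp v hvU w (Or.inr hw) (Ne.symm hne)).symm
  have hcrit : 3 * (r₀ + 1) ≤ 2 * Fintype.card {v : V // v ∈ W} + 1 := by
    refine h2 {v : V // v ∈ W} (G.induce {v | v ∈ W}) r₀ ?_ ?_ ?_
    · rintro ⟨w, hw⟩
      obtain ⟨w', hw', hne, hadj⟩ := hc w hw
      refine ⟨⟨w', hw'⟩, fun h => hne (congrArg Subtype.val h), fun h => hadj ?_⟩
      simpa using h
    · intro h
      exact ha ((reduce_col_iff G W r₀).1 h)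
    · rintro ⟨w, hw⟩
      obtain ⟨c, hc', hp⟩ := hb w hw
      have hin : ∀ x : {u : {v : V // v ∈ W} | u ≠ ⟨w, hw⟩}, x.1.1 ∈ W.erase w := by
        rintro ⟨⟨x, hx⟩, hx'⟩
        exact Finset.mem_erase.2 ⟨fun h => hx' (Subtype.ext h), hx⟩
      refine ⟨SimpleGraph.Coloring.mk (fun v => (⟨c v.1.1, hc' v.1.1 (hin v)⟩ : Fin r₀)) ?_⟩
      intro u v huv h
      have h3 : G.Adj u.1.1 v.1.1 := by simpa using huv
      exact hp u.1.1 (hin u) v.1.1 (hin v) h3 (congrArg Fin.val h)
  have hcardW : Fintype.card {v : V // v ∈ W} = W.card := by simp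
  rw [hcardW] at hcrit
  have hr2 : 2 ≤ r₀ := by
    by_contra hlt
    have h01 : r₀ = 0 ∨ r₀ = 1 := by omega
    rcases h01 with h0 | h0
    · rw [h0] at ha hb
      have hne : W.Nonempty := by
        by_contra hem
        rw [Finset.not_nonempty_iff_eq_empty] at hem
        exact ha ⟨fun _ => 0, by simp [hem], by simp [hem]⟩
      obtain ⟨w, hw⟩ := hne
      obtain ⟨w', hw', hne', -⟩ := hc w hw
      obtain ⟨c, hc', -⟩ := hb w hw
      exact absurd (hc' w' (Finset.mem_erase.2 ⟨hne', hw'⟩)) (by omega)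
    · rw [h0] at ha hb
      have hadj : ∃ w ∈ W, ∃ w' ∈ W, G.Adj w w' := by
        by_contra hcon
        push Not at hcon
        exact ha ⟨fun _ => 0, by simp, fun u hu v hv huv => absurd huv (hcon u hu v hv)⟩
      obtain ⟨w, hw, w', hw', hww⟩ := hadj
      obtain ⟨x, hx, hxw, hnadj⟩ := hc w hw
      have hxw' : x ≠ w' := by
        rintro rfl
        exact hnadj hww
      obtain ⟨c, hc', hp⟩ := hb x hx
      have hwm : w ∈ W.erase x := Finset.mem_erase.2 ⟨Ne.symm hxw, hw⟩
      have hwm' : w' ∈ W.erase x := Finset.mem_erase.2 ⟨Ne.symm hxw', hw'⟩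
      have h5 := hc' w hwm
      have h6 := hc' w' hwm'
      exact hp w hwm w' hwm' hww (by omega)
  constructor
  · omega
  · omega

end Pool.Agent.Lib.MP_1818ed_co
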