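import Mathlib
import Pool.Agent.Lib.MP_1818ed_co.Defs2

/-!
# MP_1818ed_co: directions (`VecStmt`)
-/

set_option autoImplicit false

namespace Pool.Agent.Lib.MP_1818ed_co

open Finset

theorem vec : VecStmt := by
  classical
  intro V _ U q d _ hU
  have hc : Fintype.card {x // x ∈ U} ≤ Fintype.card (Fin d → Bool) := by
    simpa using hU
  obtain ⟨b⟩ := Function.Embedding.nonempty_of_card_le hc
  let β : V → Fin d → Bool := fun i => if h : i ∈ U then b ⟨i, h⟩ else fun _ => false
  have hβ : ∀ i ∈ U, ∀ j ∈ U, β i = β j → i = j := by
    intro i hi j hj h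
    simp only [β, dif_pos hi, dif_pos hj] at h
    have := b.injective h
    simpa using this
  refine ⟨fun i =>
    { toFun := fun t => Fin.cons t (fun k => if β i k = true then t else 0)
      map_zero' := by
        funext k
        refine Fin.cases ?_ (fun k => ?_) k <;> simp
      map_add' := fun s t => by
        funext k
        refine Fin.cases ?_ (fun k => ?_) k
        · simp
        · by_cases h : β i k = true <;> simp [h] }, ?_⟩
  intro i hi j hj s t h
  have h0 : s = t := by
    have := congrFun h 0
    simpa using this
  subst h0
  refine ⟨rfl, ?_⟩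
  by_contra hcon
  rw [not_or] at hcon
  obtain ⟨hs, hij⟩ := hcon
  refine hij (hβ i hi j hj (funext fun k => ?_))
  have hk := congrFun h k.succ
  have hk' : (if β i k = true then s else 0) = (if β j k = true then s else 0) := by
    simpa using hk
  cases h1 : β i k <;> cases h2 : β j k
  · rfl
  · rw [h1, h2] at hk'
    simp only [Bool.false_eq_true, if_false, if_true] at hk'
    exact absurd hk'.symm hs
  · rw [h1, h2] at hk'
    simp only [Bool.false_eq_true, if_false, if_true] at hk'
    exact absurd hk' hs
  · rfl

end Pool.Agent.Lib.MP_1818ed_co
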