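import Mathlib
import Pool.Agent.Lib.MP_1818ed_co.Defs2

/-!
# No violators (MP_1818ed_co)
-/

set_option autoImplicit false

namespace Pool.Agent.Lib.MP_1818ed_co

open Finset

theorem viol : ViolStmt := by
  classical
  intro V _ G r S Y hnn hncol hcol hS hY
  by_contra hlt
  push Not at hlt
  let Nb : Finset V → Finset V := fun Z =>
    Finset.univ.filter (fun y => ∃ s ∈ Z, y ≠ s ∧ ¬ G.Adj s y)
  have hNb : ∀ Z y, y ∈ Nb Z ↔ ∃ s ∈ Z, y ≠ s ∧ ¬ G.Adj s y := by
    intro Z y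
    simp [Nb]
  have hNbS : Nb S ⊆ Y := by
    intro y hy
    obtain ⟨s, hs, h1, h2⟩ := (hNb S y).1 hy
    exact hY s hs y h1 h2
  obtain ⟨T, hT, hmin⟩ := Finset.exists_min_image
    (S.powerset.filter (fun Z => (Nb Z).card < Z.card)) Finset.card
    ⟨S, Finset.mem_filter.2 ⟨Finset.mem_powerset_self S,
      (Finset.card_le_card hNbS).trans_lt hlt⟩⟩
  obtain ⟨hTS, hTc⟩ := Finset.mem_filter.1 hT
  rw [Finset.mem_powerset] at hTS
  obtain ⟨s₀, hs₀⟩ : T.Nonempty := Finset.card_pos.1 (by omega)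
  have hdisj : ∀ y ∈ Nb T, y ∉ S := by
    intro y hy hyS
    obtain ⟨s, hs, h1, h2⟩ := (hNb T y).1 hy
    exact h2 (hS s (hTS hs) y hyS (Ne.symm h1))
  obtain ⟨f, hfinj, hf⟩ := (Finset.all_card_le_biUnion_card_iff_exists_injective
    (fun x : {x // x ∈ T.erase s₀} => Nb {x.1})).1 (by
      intro s
      by_contra hc
      push Not at hc
      let Z : Finset V := s.image Subtype.val
      have hZc : Z.card = s.card := Finset.card_image_of_injective _ Subtype.val_injective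
      have hZT : Z ⊆ T.erase s₀ := by
        intro x hx
        obtain ⟨y, -, rfl⟩ := Finset.mem_image.1 hx
        exact y.2
      have hZN : Nb Z ⊆ s.biUnion (fun x : {x // x ∈ T.erase s₀} => Nb {x.1}) := by
        intro y hy
        obtain ⟨z, hz, h1, h2⟩ := (hNb Z y).1 hy
        obtain ⟨x, hx, rfl⟩ := Finset.mem_image.1 hz
        exact Finset.mem_biUnion.2 ⟨x, hx, (hNb _ y).2 ⟨x.1, Finset.mem_singleton_self _, h1, h2⟩⟩
      have h1 : (Nb Z).card < Z.card := by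
        rw [hZc]
        exact (Finset.card_le_card hZN).trans_lt hc
      have h2 := hmin Z (Finset.mem_filter.2 ⟨Finset.mem_powerset.2
        ((hZT.trans (Finset.erase_subset _ _)).trans hTS), h1⟩)
      have h3 := Finset.card_le_card hZT
      rw [Finset.card_erase_of_mem hs₀] at h3
      have h4 : 0 < T.card := Finset.card_pos.2 ⟨s₀, hs₀⟩
      omega)
  have hfN : ∀ x, f x ≠ x.1 ∧ ¬ G.Adj x.1 (f x) := by
    intro x
    obtain ⟨s, hs, h1, h2⟩ := (hNb _ _).1 (hf x)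
    rw [Finset.mem_singleton] at hs
    subst hs
    exact ⟨h1, h2⟩
  have himg : Finset.univ.image f = Nb T := by
    apply Finset.eq_of_subset_of_card_le
    · intro y hy
      obtain ⟨x, -, rfl⟩ := Finset.mem_image.1 hy
      exact (hNb _ _).2 ⟨x.1, Finset.mem_of_mem_erase x.2, (hfN x).1, (hfN x).2⟩
    · rw [Finset.card_image_of_injective _ hfinj, Finset.card_univ, Fintype.card_coe,
        Finset.card_erase_of_mem hs₀]
      omega
  have hg : ∀ y, ∃ z, y ∈ Nb T → ∃ h : z ∈ T.erase s₀, f ⟨z, h⟩ = y := by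
    intro y
    by_cases hy : y ∈ Nb T
    · rw [← himg] at hy
      obtain ⟨x, -, rfl⟩ := Finset.mem_image.1 hy
      exact ⟨x.1, fun _ => ⟨x.2, rfl⟩⟩
    · exact ⟨y, fun h => absurd h hy⟩
  choose g hg using hg
  have hgT : ∀ y ∈ Nb T, g y ∈ T := fun y hy => by
    obtain ⟨h, -⟩ := hg y hy
    exact Finset.mem_of_mem_erase h
  have hgadj : ∀ y ∈ Nb T, ¬ G.Adj (g y) y := fun y hy => by
    obtain ⟨h, e⟩ := hg y hy
    have := (hfN ⟨g y, h⟩).2
    rwa [e] at this
  have hginj : ∀ y ∈ Nb T, ∀ y' ∈ Nb T, g y = g y' → y = y' := by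
    intro y hy y' hy' e
    obtain ⟨h, e1⟩ := hg y hy
    obtain ⟨h', e2⟩ := hg y' hy'
    rw [← e1, ← e2]
    congr 1
    exact Subtype.ext e
  obtain ⟨u₀, hu1, hu2⟩ := hnn s₀
  have hy₀ : u₀ ∈ Nb T := (hNb _ _).2 ⟨s₀, hs₀, hu1, hu2⟩
  obtain ⟨C⟩ := hcol u₀
  have hprop : ∀ (u v : V) (hu : u ≠ u₀) (hv : v ≠ u₀), G.Adj u v → C ⟨u, hu⟩ ≠ C ⟨v, hv⟩ := by
    intro u v hu hv huv
    exact C.valid (show (G.induce {u | u ≠ u₀}).Adj ⟨u, hu⟩ ⟨v, hv⟩ from huv)
  have hgu : ∀ y ∈ Nb T, g y ≠ u₀ := by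
    intro y hy e
    exact hdisj u₀ hy₀ (hTS (e ▸ hgT y hy))
  have hnu : ∀ v, v ∉ Nb T → v ≠ u₀ := by
    intro v hv e
    exact hv (e ▸ hy₀)
  -- an element of `T` is adjacent to everything outside `Nb T`
  have hout : ∀ s ∈ T, ∀ v, v ∉ Nb T → v ≠ s → G.Adj s v := by
    intro s hs v hv hvs
    by_contra hc
    exact hv ((hNb _ _).2 ⟨s, hs, hvs, hc⟩)
  apply hncol
  refine ⟨SimpleGraph.Coloring.mk (fun v => if h : v ∈ Nb T then C ⟨g v, hgu v h⟩
    else C ⟨v, hnu v h⟩) ?_⟩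
  intro u v huv
  by_cases hu : u ∈ Nb T
  · by_cases hv : v ∈ Nb T
    · simp only [hu, hv, dif_pos]
      refine hprop _ _ _ _ (hS _ (hTS (hgT u hu)) _ (hTS (hgT v hv)) ?_)
      intro e
      exact huv.ne (hginj u hu v hv e)
    · simp only [hu, hv, dif_pos, not_false_eq_true, dif_neg]
      refine hprop _ _ _ _ (hout _ (hgT u hu) v hv ?_)
      intro e
      rw [e] at huv
      exact hgadj u hu huv.symm
  · by_cases hv : v ∈ Nb T
    · simp only [hu, hv, dif_pos, not_false_eq_true, dif_neg]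
      refine hprop _ _ _ _ (hout _ (hgT v hv) u hu ?_).symm
      intro e
      rw [e] at huv
      exact hgadj v hv huv
    · simp only [hu, hv, not_false_eq_true, dif_neg]
      exact hprop u v (hnu u hu) (hnu v hv) huv

end Pool.Agent.Lib.MP_1818ed_co
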