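import Mathlib
import Pool.Agent.Lib.MP_1818ed_co.Defs

/-!
# PLACING LABELS (MP_1818ed_co)
-/

set_option autoImplicit false

namespace Pool.Agent.Lib.MP_1818ed_co

open Finset

namespace PlaceAux

open Classical

variable {p : ℕ} [Fact p.Prime] {E V : Type} [AddCommGroup E] [Module (ZMod p) E] [Fintype V]

/-- the closed neighbourhood of `w` -/
noncomputable def cnb (H : SimpleGraph V) (w : V) : Finset V :=
  univ.filter (fun v => v = w ∨ H.Adj w v)

/-- the labels placed on the closed neighbourhood of `w` -/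
noncomputable def lab (H : SimpleGraph V) (P : Finset E) (π : E → V) (w : V) : Finset E :=
  P.filter (fun x => π x ∈ cnb H w)

/-- the vertices `w` that see `y` in the span of their labels -/
noncomputable def cs (p : ℕ) [Module (ZMod p) E] (H : SimpleGraph V) (P : Finset E) (π : E → V)
    (y : E) : Finset V :=
  univ.filter (fun w => y ∈ Submodule.span (ZMod p) (lab H P π w : Set E))

omit [AddCommGroup E] in
lemma mem_lab {H : SimpleGraph V} {P : Finset E} {π : E → V} {w : V} {x : E} :
    x ∈ lab H P π w ↔ x ∈ P ∧ (π x = w ∨ H.Adj w (π x)) := by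
  unfold lab cnb
  simp

lemma mem_cnb {H : SimpleGraph V} {w v : V} : v ∈ cnb H w ↔ v = w ∨ H.Adj w v := by
  unfold cnb
  simp

lemma mem_cnb_comm {H : SimpleGraph V} {w v : V} : v ∈ cnb H w ↔ w ∈ cnb H v := by
  rw [mem_cnb, mem_cnb, H.adj_comm, eq_comm]

lemma card_cnb {H : SimpleGraph V} {D : ℕ} (hD : ∀ v, {u | H.Adj v u}.ncard ≤ D) (w : V) :
    (cnb H w).card ≤ D + 1 := by
  have h1 : cnb H w ⊆ insert w (univ.filter (fun v => H.Adj w v)) := by
    intro v hv
    rw [mem_cnb] at hv
    rw [mem_insert, mem_filter]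
    rcases hv with h | h
    · exact Or.inl h
    · exact Or.inr ⟨mem_univ _, h⟩
  have h2 : (univ.filter (fun v => H.Adj w v)).card = {u | H.Adj w u}.ncard := by
    rw [← Set.ncard_coe_finset]
    congr 1
    ext u
    simp
  have h3 := (card_le_card h1).trans (card_insert_le _ _)
  rw [h2] at h3
  exact h3.trans (by have := hD w; omega)

omit [AddCommGroup E] in
lemma card_lab {H : SimpleGraph V} {D : ℕ} (hD : ∀ v, {u | H.Adj v u}.ncard ≤ D) {P : Finset E}
    {π : E → V} (hinj : Set.InjOn π (P : Set E)) (w : V) : (lab H P π w).card ≤ D + 1 := by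
  refine le_trans ?_ (card_cnb hD w)
  refine card_le_card_of_injOn π ?_ ?_
  · intro x hx
    rw [mem_coe] at hx ⊢
    exact (mem_filter.1 hx).2
  · intro x hx y hy hxy
    exact hinj (mem_filter.1 (mem_coe.1 hx)).1 (mem_filter.1 (mem_coe.1 hy)).1 hxy

/-- few elements in the span of few vectors -/
lemma card_span (s Hv : Finset E) (D : ℕ) (hs : s.card ≤ D + 1) :
    (Hv.filter (fun y => y ∈ Submodule.span (ZMod p) (s : Set E))).card ≤ p ^ (D + 1) := by
  have hp : 0 < p := (Fact.out : p.Prime).pos
  set M : Submodule (ZMod p) E := Submodule.span (ZMod p) (s : Set E) with hM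
  have hfin : Module.Finite (ZMod p) M := Module.Finite.span_of_finite (ZMod p) s.finite_toSet
  have hcard : Nat.card M = p ^ Module.finrank (ZMod p) M := by
    rw [Module.natCard_eq_pow_finrank (K := ZMod p), Nat.card_zmod]
  have hfr : Module.finrank (ZMod p) M ≤ D + 1 := by
    refine le_trans ?_ hs
    exact finrank_span_finset_le_card s
  have hle : Nat.card M ≤ p ^ (D + 1) := by
    rw [hcard]
    exact Nat.pow_le_pow_right hp hfr
  have hpos : 0 < Nat.card M := by
    rw [hcard]
    exact Nat.pow_pos hp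
  have hfinite : (M : Set E).Finite := (Nat.card_pos_iff.1 hpos).2
  refine le_trans ?_ hle
  have h1 : (M : Set E).ncard = Nat.card M := rfl
  rw [← h1, ← Set.ncard_coe_finset]
  refine Set.ncard_le_ncard ?_ hfinite
  intro y hy
  rw [mem_coe, mem_filter] at hy
  exact hy.2

/-- bound for the number of heavy labels -/
lemma card_heavy {H : SimpleGraph V} {D Th : ℕ} (hD : ∀ v, {u | H.Adj v u}.ncard ≤ D)
    (hTh : 0 < Th) {P Hv : Finset E} {π : E → V} (hinj : Set.InjOn π (P : Set E))
    (hb : ∀ x ∈ Hv, Th ≤ (cs p H P π x).card) :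
    Hv.card ≤ Fintype.card V * p ^ (D + 1) / Th := by
  rw [Nat.le_div_iff_mul_le hTh]
  calc Hv.card * Th = ∑ _x ∈ Hv, Th := by rw [sum_const, smul_eq_mul]
    _ ≤ ∑ x ∈ Hv, (cs p H P π x).card := sum_le_sum hb
    _ = ∑ w : V, (Hv.filter (fun y => y ∈
          Submodule.span (ZMod p) (lab H P π w : Set E))).card := by
        unfold cs
        simp only [card_filter]
        rw [sum_comm]
    _ ≤ ∑ _w : V, p ^ (D + 1) := sum_le_sum fun w _ => card_span _ _ D (card_lab hD hinj w)
    _ = Fintype.card V * p ^ (D + 1) := by rw [sum_const, smul_eq_mul, card_univ]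

/-- the state of the placing procedure -/
structure Inv (p : ℕ) [Module (ZMod p) E] (H : SimpleGraph V) (D Th : ℕ) (R P : Finset E)
    (π : E → V) (Hv : Finset E) : Prop where
  sub : P ⊆ R
  inj : Set.InjOn π (P : Set E)
  ind : ∀ w, LinearIndepOn (ZMod p) id (lab H P π w : Set E)
  hv : Hv ⊆ P
  big : ∀ x ∈ Hv, Th ≤ (cs p H P π x).card
  small : ∀ y ∈ R, y ∉ P → (cs p H P π y).card ≤ Th + (D + 1) * (1 + Hv.card)

omit [AddCommGroup E] in
lemma lab_update (H : SimpleGraph V) (P : Finset E) (π : E → V) (y : E) (v : V) (hy : y ∉ P)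
    (w : V) : lab H (insert y P) (Function.update π y v) w =
      if v ∈ cnb H w then insert y (lab H P π w) else lab H P π w := by
  have h1 : ∀ x ∈ P, Function.update π y v x = π x := by
    intro x hx
    exact Function.update_of_ne (ne_of_mem_of_not_mem hx hy) _ _
  ext x
  by_cases hx : x = y
  · subst hx
    have h2 : x ∉ lab H P π w := fun h => hy (mem_filter.1 h).1
    unfold lab at h2 ⊢
    rw [mem_filter, Function.update_self]
    split_ifs with h3
    · simp [h3]
    · simp only [mem_insert_self, h3, and_false, false_iff]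
      exact h2
  · have h3 : x ∈ lab H (insert y P) (Function.update π y v) w ↔ x ∈ lab H P π w := by
      unfold lab
      rw [mem_filter, mem_filter, mem_insert, Function.update_of_ne hx]
      simp [hx]
    rw [h3]
    split_ifs with h4
    · simp [hx]
    · rfl

/-- one step -/
lemma step {H : SimpleGraph V} {D Th : ℕ} {R P : Finset E} {π : E → V} {Hv : Finset E}
    (hD : ∀ v, {u | H.Adj v u}.ncard ≤ D) (hTh : 0 < Th)
    (hN : R.card + (D + 1) * (Th + (D + 1) * (1 + Fintype.card V * p ^ (D + 1) / Th)) ≤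
      Fintype.card V)
    (hI : Inv p H D Th R P π Hv) (hne : P ≠ R) :
    ∃ (y : E) (π' : E → V) (Hv' : Finset E), y ∉ P ∧ Inv p H D Th R (insert y P) π' Hv' := by
  have hheavy := card_heavy hD hTh hI.inj hI.big
  have hlt : P.card < R.card := card_lt_card (hI.sub.ssubset_of_ne hne)
  -- the choice of `y`
  obtain ⟨y, hyR, hyP, hcase⟩ : ∃ y ∈ R, y ∉ P ∧ (Th ≤ (cs p H P π y).card ∨
      ∀ z ∈ R, z ∉ P → (cs p H P π z).card < Th) := by
    by_cases h : ∃ y ∈ R, y ∉ P ∧ Th ≤ (cs p H P π y).card
    · obtain ⟨y, h1, h2, h3⟩ := h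
      exact ⟨y, h1, h2, Or.inl h3⟩
    · push Not at h
      obtain ⟨y, hy1, hy2⟩ := exists_of_ssubset (hI.sub.ssubset_of_ne hne)
      exact ⟨y, hy1, hy2, Or.inr h⟩
  -- the forbidden vertices
  set F : Finset V := P.image π ∪ (cs p H P π y).biUnion (cnb H) with hF
  have hFcard : F.card < Fintype.card V := by
    have h1 : F.card ≤ P.card + (cs p H P π y).card * (D + 1) := by
      refine (card_union_le _ _).trans (Nat.add_le_add card_image_le ?_)
      exact card_biUnion_le_card_mul _ _ _ fun w _ => card_cnb hD w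
    have h2 := hI.small y hyR hyP
    have h3 : Th + (D + 1) * (1 + Hv.card) ≤
        Th + (D + 1) * (1 + Fintype.card V * p ^ (D + 1) / Th) := by
      gcongr
    have h4 : (cs p H P π y).card * (D + 1) ≤
        (D + 1) * (Th + (D + 1) * (1 + Fintype.card V * p ^ (D + 1) / Th)) := by
      rw [mul_comm]
      exact Nat.mul_le_mul_left _ (h2.trans h3)
    omega
  obtain ⟨v, hv⟩ : ∃ v, v ∉ F := by
    by_contra hcon
    push Not at hcon
    have h5 : F = univ := eq_univ_iff_forall.2 hcon
    rw [h5, card_univ] at hFcard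
    exact lt_irrefl _ hFcard
  have hv1 : ∀ x ∈ P, π x ≠ v := by
    intro x hx h
    exact hv (mem_union_left _ (mem_image.2 ⟨x, hx, h⟩))
  have hv2 : ∀ w, v ∈ cnb H w → y ∉ Submodule.span (ZMod p) (lab H P π w : Set E) := by
    intro w hw hy
    refine hv (mem_union_right _ (mem_biUnion.2 ⟨w, ?_, hw⟩))
    unfold cs
    exact mem_filter.2 ⟨mem_univ _, hy⟩
  set π' : E → V := Function.update π y v with hπ'
  have hlab := lab_update H P π y v hyP
  have hlabsub : ∀ w, lab H P π w ⊆ lab H (insert y P) π' w := by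
    intro w
    rw [hlab w]
    split_ifs
    · exact subset_insert _ _
    · exact Subset.refl _
  have hcsle : ∀ z, (cs p H P π z).card ≤ (cs p H (insert y P) π' z).card := by
    intro z
    apply card_le_card
    intro w hw
    unfold cs at hw ⊢
    rw [mem_filter] at hw ⊢
    exact ⟨mem_univ _, Submodule.span_mono (coe_subset.2 (hlabsub w)) hw.2⟩
  have hcsge : ∀ z, (cs p H (insert y P) π' z).card ≤ (cs p H P π z).card + (D + 1) := by
    intro z
    have h6 : cs p H (insert y P) π' z ⊆ cs p H P π z ∪ cnb H v := by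
      intro w hw
      by_cases h7 : v ∈ cnb H w
      · exact mem_union_right _ (mem_cnb_comm.1 h7)
      · apply mem_union_left
        unfold cs at hw ⊢
        rw [mem_filter] at hw ⊢
        rw [hlab w, if_neg h7] at hw
        exact hw
    exact (card_le_card h6).trans ((card_union_le _ _).trans
      (Nat.add_le_add_left (card_cnb hD v) _))
  have hsub : insert y P ⊆ R := insert_subset hyR hI.sub
  have hinj : Set.InjOn π' ((insert y P : Finset E) : Set E) := by
    rw [coe_insert, Set.injOn_insert (by simpa using hyP)]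
    refine ⟨?_, ?_⟩
    · intro a ha b hb hab
      have ha' : π' a = π a := Function.update_of_ne (ne_of_mem_of_not_mem (mem_coe.1 ha) hyP) _ _
      have hb' : π' b = π b := Function.update_of_ne (ne_of_mem_of_not_mem (mem_coe.1 hb) hyP) _ _
      rw [ha', hb'] at hab
      exact hI.inj ha hb hab
    · rintro ⟨x, hx, hxy⟩
      have hx' : π' x = π x := Function.update_of_ne (ne_of_mem_of_not_mem (mem_coe.1 hx) hyP) _ _
      have hy' : π' y = v := Function.update_self _ _ _
      rw [hx', hy'] at hxy
      exact hv1 x (mem_coe.1 hx) hxy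
  have hind : ∀ w, LinearIndepOn (ZMod p) id (lab H (insert y P) π' w : Set E) := by
    intro w
    rw [hlab w]
    split_ifs with h7
    · rw [coe_insert]
      exact (hI.ind w).id_insert (hv2 w h7)
    · exact hI.ind w
  rcases hcase with hc | hc
  · refine ⟨y, π', insert y Hv, hyP, hsub, hinj, hind, insert_subset_insert _ hI.hv, ?_, ?_⟩
    · intro x hx
      rcases mem_insert.1 hx with h | h
      · rw [h]
        exact hc.trans (hcsle y)
      · exact (hI.big x h).trans (hcsle x)
    · intro z hzR hzP
      have hyHv : y ∉ Hv := fun h => hyP (hI.hv h)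
      rw [card_insert_of_notMem hyHv]
      have h8 := hI.small z hzR (fun h => hzP (mem_insert_of_mem h))
      have h9 := hcsge z
      have h10 : (D + 1) * (1 + (Hv.card + 1)) = (D + 1) * (1 + Hv.card) + (D + 1) := by ring
      omega
  · refine ⟨y, π', Hv, hyP, hsub, hinj, hind, hI.hv.trans (subset_insert _ _), ?_, ?_⟩
    · intro x hx
      exact (hI.big x hx).trans (hcsle x)
    · intro z hzR hzP
      have h8 := hc z hzR (fun h => hzP (mem_insert_of_mem h))
      have h9 := hcsge z
      have h10 : (D + 1) * (1 + Hv.card) = (D + 1) + (D + 1) * Hv.card := by ring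
      omega

end PlaceAux

open Classical in
open PlaceAux in
theorem place : PlaceStmt := by
  intro p _ E V _ _ _ H D Th R hD h0 hTh hN
  have hVne : Nonempty V := by
    by_contra hcon
    rw [not_nonempty_iff] at hcon
    have h1 : Fintype.card V = 0 := Fintype.card_eq_zero
    rw [h1] at hN
    have h2 : (D + 1) * Th ≤ (D + 1) * (Th + (D + 1) * (1 + 0 * p ^ (D + 1) / Th)) :=
      Nat.mul_le_mul_left _ (Nat.le_add_right _ _)
    have h3 : 0 < (D + 1) * Th := Nat.mul_pos (Nat.succ_pos D) hTh
    omega
  obtain ⟨v₀⟩ := hVne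
  -- induction on the number of placed labels
  have key : ∀ n : ℕ, n ≤ R.card → ∃ (P : Finset E) (π : E → V) (Hv : Finset E),
      P.card = n ∧ Inv p H D Th R P π Hv := by
    intro n
    induction n with
    | zero =>
      intro _
      refine ⟨∅, fun _ => v₀, ∅, rfl, empty_subset _, by simp, ?_, Subset.refl _, by simp, ?_⟩
      · intro w
        have : lab H (∅ : Finset E) (fun _ => v₀) w = ∅ := by
          unfold lab
          simp
        rw [this, coe_empty]
        exact linearIndepOn_empty _ _
      · intro y hy _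
        have h4 : cs p H (∅ : Finset E) (fun _ => v₀) y = ∅ := by
          unfold cs lab
          rw [filter_eq_empty_iff]
          intro w _ hcon
          simp only [filter_empty, coe_empty, Submodule.span_empty, Submodule.mem_bot] at hcon
          exact h0 (hcon ▸ hy)
        rw [h4, card_empty]
        exact Nat.zero_le _
    | succ n ih =>
      intro hn
      obtain ⟨P, π, Hv, hP, hI⟩ := ih (by omega)
      obtain ⟨y, π', Hv', hy, hI'⟩ := step hD hTh hN hI (by rintro rfl; omega)
      exact ⟨insert y P, π', Hv', by rw [card_insert_of_notMem hy, hP], hI'⟩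
  obtain ⟨P, π, Hv, hP, hI⟩ := key R.card le_rfl
  have hPR : P = R := eq_of_subset_of_card_le hI.sub hP.ge
  subst hPR
  refine ⟨π, hI.inj, ?_⟩
  intro x hx hcon
  have hxl : x ∈ lab H P π (π x) := mem_lab.2 ⟨hx, Or.inl rfl⟩
  have h5 := (hI.ind (π x)).notMem_span (mem_coe.2 hxl)
  apply h5
  refine Submodule.span_mono ?_ hcon
  rintro y ⟨hy1, hy2⟩
  refine ⟨y, ⟨mem_coe.2 (mem_lab.2 ⟨hy1, Or.inr hy2⟩), ?_⟩, rfl⟩
  intro hyx
  rw [Set.mem_singleton_iff] at hyx
  rw [hyx] at hy2
  exact H.loopless.irrefl _ hy2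

end Pool.Agent.Lib.MP_1818ed_co
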