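import Mathlib
import Pool.Agent.Lib.MP_1818ed_co.Defs

/-!
# Representatives of the points of the projective space
-/

set_option autoImplicit false

namespace Pool.Agent.Lib.MP_1818ed_co

open Finset

/-- A set of vectors that is determined by the last `m + 1` coordinates. -/
private lemma reps_card1 (p m : ℕ) [Fact p.Prime] (R : Finset (Fin (m + 2) → ZMod p))
    (hR : ∀ x ∈ R, ∀ y ∈ R, x 0 = y 0) : R.card ≤ p ^ (m + 1) := by
  have h : R.card ≤ (Finset.univ : Finset (Fin (m + 1) → ZMod p)).card := by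
    refine Finset.card_le_card_of_injOn (fun x => Fin.tail x) (fun _ _ => Finset.mem_univ _) ?_
    intro x hx y hy hxy
    have h0 := hR x hx y hy
    rw [← Fin.cons_self_tail x, ← Fin.cons_self_tail y, h0]
    simp only at hxy
    rw [hxy]
  rw [Finset.card_univ, Fintype.card_fun, ZMod.card, Fintype.card_fin] at h
  exact h

/-- A set of vectors that is determined by the last `m` coordinates. -/
private lemma reps_card2 (p m : ℕ) [Fact p.Prime] (R : Finset (Fin (m + 2) → ZMod p))
    (hR : ∀ x ∈ R, ∀ y ∈ R, x 0 = y 0 ∧ x 1 = y 1) : R.card ≤ p ^ m := by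
  have h : R.card ≤ (Finset.univ : Finset (Fin m → ZMod p)).card := by
    refine Finset.card_le_card_of_injOn (fun x => fun i : Fin m => x i.succ.succ)
      (fun _ _ => Finset.mem_univ _) ?_
    intro x hx y hy hxy
    obtain ⟨h0, h1⟩ := hR x hx y hy
    funext i
    refine Fin.cases h0 (fun j => ?_) i
    refine Fin.cases h1 (fun k => ?_) j
    exact congrFun hxy k
  rw [Finset.card_univ, Fintype.card_fun, ZMod.card, Fintype.card_fin] at h
  exact h

theorem reps : RepsStmt := by
  classical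
  intro p h _ hh
  obtain ⟨m, rfl⟩ : ∃ m, h = m + 1 := ⟨h - 1, by omega⟩
  have hp : p.Prime := Fact.out
  set R1 : Finset (Fin (m + 1 + 1) → ZMod p) := Finset.univ.filter (fun x => x 0 = 1) with hR1
  set R2 : Finset (Fin (m + 1 + 1) → ZMod p) :=
    Finset.univ.filter (fun x => x 0 = 0 ∧ x 1 = 1) with hR2
  set R3 : Finset (Fin (m + 1 + 1) → ZMod p) :=
    Finset.univ.filter (fun x => x 0 = 0 ∧ x 1 = 0 ∧ x ≠ 0) with hR3
  have c1 : R1.card ≤ p ^ (m + 1) := by
    apply reps_card1
    intro x hx y hy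
    rw [hR1, Finset.mem_filter] at hx hy
    rw [hx.2, hy.2]
  have c2 : R2.card ≤ p ^ m := by
    apply reps_card2
    intro x hx y hy
    rw [hR2, Finset.mem_filter] at hx hy
    exact ⟨by rw [hx.2.1, hy.2.1], by rw [hx.2.2, hy.2.2]⟩
  have c3 : R3.card ≤ p ^ m := by
    apply reps_card2
    intro x hx y hy
    rw [hR3, Finset.mem_filter] at hx hy
    exact ⟨by rw [hx.2.1, hy.2.1], by rw [hx.2.2.1, hy.2.2.1]⟩
  refine ⟨R1 ∪ R2 ∪ R3, ?_, ?_, ?_⟩
  · intro h0
    simp only [hR1, hR2, hR3, Finset.mem_union, Finset.mem_filter, Finset.mem_univ, true_and,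
      Pi.zero_apply, ne_eq, not_true_eq_false, and_false, or_false] at h0
    rcases h0 with h0 | h0
    · exact zero_ne_one h0
    · exact zero_ne_one h0
  · intro w hw
    by_cases w0 : w 0 = 0
    · by_cases w1 : w 1 = 0
      · refine ⟨w, ?_, 1, by rw [one_smul]⟩
        simp only [hR3, Finset.mem_union, Finset.mem_filter, Finset.mem_univ, true_and]
        exact Or.inr ⟨w0, w1, hw⟩
      · refine ⟨(w 1)⁻¹ • w, ?_, w 1, ?_⟩
        · simp only [hR2, Finset.mem_union, Finset.mem_filter, Finset.mem_univ, true_and]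
          refine Or.inl (Or.inr ⟨?_, ?_⟩)
          · rw [Pi.smul_apply, w0, smul_zero]
          · rw [Pi.smul_apply, smul_eq_mul, inv_mul_cancel₀ w1]
        · rw [smul_smul, mul_inv_cancel₀ w1, one_smul]
    · refine ⟨(w 0)⁻¹ • w, ?_, w 0, ?_⟩
      · simp only [hR1, Finset.mem_union, Finset.mem_filter, Finset.mem_univ, true_and]
        refine Or.inl (Or.inl ?_)
        rw [Pi.smul_apply, smul_eq_mul, inv_mul_cancel₀ w0]
      · rw [smul_smul, mul_inv_cancel₀ w0, one_smul]
  · have h1 : (R1 ∪ R2 ∪ R3).card ≤ p ^ (m + 1) + p ^ m + p ^ m := by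
      have a1 := Finset.card_union_le (R1 ∪ R2) R3
      have a2 := Finset.card_union_le R1 R2
      omega
    calc (R1 ∪ R2 ∪ R3).card * p ≤ (p ^ (m + 1) + p ^ m + p ^ m) * p := Nat.mul_le_mul_right _ h1
      _ = p ^ (m + 1) * (p + 2) := by ring

end Pool.Agent.Lib.MP_1818ed_co
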