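import Mathlib
import Pool.Agent.Lib.MP_1818ed_co.Defs

/-!
# Multiplication of strategies (MP_1818ed_co)
-/

set_option autoImplicit false

namespace Pool.Agent.Lib.MP_1818ed_co

open Finset

theorem winMult (h : HelperStmt) : WinMultStmt := by
  classical
  intro V _ G U q q' κ _ hU hκ hq hqU ⟨g, hloc, hwin⟩
  have hq0 : 0 < q := Nat.pos_of_ne_zero (NeZero.ne q)
  -- the coarse colour
  have hdv : ∀ x : ZMod q, x.val / κ < q' := fun x =>
    Nat.div_lt_of_lt_mul ((ZMod.val_lt x).trans_le hq)
  let dv : ZMod q → Fin q' := fun x => ⟨x.val / κ, hdv x⟩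
  let f : V → ZMod q → (V → ZMod q) → ZMod q := fun v σ c =>
    if hv : v ∉ U then
      ((κ * (g ⟨v, hv⟩ (fun w => dv (c w.1))).val + σ.val % κ : ℕ) : ZMod q)
    else 0
  refine h V G U q f hU ?_ ?_
  · intro v hv σ c c' hcc
    simp only [f, dif_pos hv]
    have h1 : g ⟨v, hv⟩ (fun w => dv (c w.1)) = g ⟨v, hv⟩ (fun w => dv (c' w.1)) := by
      apply hloc
      intro w hw
      rw [hcc w.1 w.2 hw]
    rw [h1]
  · intro c
    obtain ⟨v, hv⟩ := hwin (fun w => dv (c w.1))
    let ρ : ℕ := (c v.1).val % κ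
    have hρκ : ρ < κ := Nat.mod_lt _ hκ
    have hgood : ∀ σ : ZMod q, σ.val % κ = ρ → f v.1 σ c = c v.1 := by
      intro σ hσ
      have hvU : v.1 ∉ U := v.2
      simp only [f, dif_pos hvU]
      have h1 : (g ⟨v.1, hvU⟩ (fun w => dv (c w.1))).val = (c v.1).val / κ :=
        congrArg Fin.val hv
      rw [h1, hσ, Nat.div_add_mod, ZMod.natCast_zmod_val]
    -- many good shifts
    let T : Finset (ZMod q) := (Finset.range (q / κ)).image (fun i => ((ρ + i * κ : ℕ) : ZMod q))
    have hval : ∀ i ∈ Finset.range (q / κ), ((ρ + i * κ : ℕ) : ZMod q).val = ρ + i * κ := by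
      intro i hi
      rw [Finset.mem_range] at hi
      apply ZMod.val_cast_of_lt
      have h1 : (i + 1) * κ ≤ q / κ * κ := Nat.mul_le_mul_right κ hi
      have h2 : q / κ * κ ≤ q := Nat.div_mul_le_self q κ
      have h3 : (i + 1) * κ = i * κ + κ := by ring
      omega
    have hTcard : T.card = q / κ := by
      rw [Finset.card_image_of_injOn, Finset.card_range]
      intro i hi j hj hij
      have h1 := congrArg ZMod.val hij
      dsimp only at h1
      rw [hval i (Finset.mem_coe.1 hi), hval j (Finset.mem_coe.1 hj)] at h1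
      exact Nat.eq_of_mul_eq_mul_right hκ (Nat.add_left_cancel h1)
    have hsub : (Finset.univ.filter (fun σ => ∀ v, v ∉ U → f v σ c ≠ c v)) ⊆
        Finset.univ \ T := by
      intro σ hσ
      rw [Finset.mem_filter] at hσ
      rw [Finset.mem_sdiff]
      refine ⟨Finset.mem_univ _, fun hT => ?_⟩
      obtain ⟨i, hi, rfl⟩ := Finset.mem_image.1 hT
      apply hσ.2 v.1 v.2
      apply hgood
      rw [hval i hi, Nat.add_mul_mod_self_right, Nat.mod_eq_of_lt hρκ]
    refine (Finset.card_le_card hsub).trans ?_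
    rw [Finset.card_sdiff_of_subset (Finset.subset_univ _), hTcard, Finset.card_univ, ZMod.card]
    omega

end Pool.Agent.Lib.MP_1818ed_co
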