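import Mathlib
import Pool.Agent.Lib.MP_1818ed_co.Defs

/-! Translation strategies (`WinTrStmt`). -/

set_option autoImplicit false

namespace Pool.Agent.Lib.MP_1818ed_co

open Finset

theorem winTr (h : HelperStmt) : WinTrStmt := by
  classical
  intro V J _ G U q _ κ t hU hcl hs
  -- the sum over the class of `v`
  set S : (V → ZMod q) → J → ZMod q := fun c j =>
    ∑ v' ∈ Finset.univ.filter (fun v' => v' ∉ U ∧ κ v' = j), c v' with hS
  set R : V → (V → ZMod q) → ZMod q := fun v c =>
    ∑ v' ∈ (Finset.univ.filter (fun v' => v' ∉ U ∧ κ v' = κ v)).erase v, c v' with hR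
  have hSR : ∀ v, v ∉ U → ∀ c, S c (κ v) = c v + R v c := by
    intro v hv c
    simp only [hS, hR]
    rw [Finset.add_sum_erase]
    exact Finset.mem_filter.2 ⟨Finset.mem_univ _, hv, rfl⟩
  refine h V G U q (fun v σ c => t v + σ - R v c) hU ?_ ?_
  · intro v hv σ c c' hcc
    have : R v c = R v c' := by
      simp only [hR]
      refine Finset.sum_congr rfl fun v' hv' => ?_
      obtain ⟨hne, hmem⟩ := Finset.mem_erase.1 hv'
      obtain ⟨_, hv'U, hk⟩ := Finset.mem_filter.1 hmem
      exact hcc v' hv'U (hcl v hv v' hv'U (Ne.symm hne) hk.symm)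
    simp only [this]
  · intro c
    have hq : Fintype.card (ZMod q) = q := ZMod.card q
    set good : Finset (ZMod q) := (Finset.univ \ U).image (fun v => S c (κ v) - t v) with hgood
    have hcard : good.card = ((Finset.univ \ U).image (fun v => t v + -(S c (κ v)))).card := by
      have h1 : (Finset.univ \ U).image (fun v => t v + -(S c (κ v))) =
          good.image (fun x => -x) := by
        rw [hgood, Finset.image_image]
        refine Finset.image_congr fun v _ => ?_
        simp only [Function.comp]
        ring
      rw [h1, Finset.card_image_of_injective _ neg_injective]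
    have hbad : Finset.univ.filter (fun σ => ∀ v, v ∉ U → t v + σ - R v c ≠ c v) ⊆ goodᶜ := by
      intro σ hσ
      rw [Finset.mem_compl]
      intro hg
      rw [hgood, Finset.mem_image] at hg
      obtain ⟨v, hv, hvσ⟩ := hg
      have hvU : v ∉ U := (Finset.mem_sdiff.1 hv).2
      refine (Finset.mem_filter.1 hσ).2 v hvU ?_
      rw [← hvσ, hSR v hvU c]
      ring
    have h2 := Finset.card_le_card hbad
    rw [Finset.card_compl, hq] at h2
    have h3 := hs (fun j => -(S c j))
    have h4 : ((Finset.univ \ U).image (fun v => t v + -(S c (κ v)))).card =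
        ((Finset.univ \ U).image (fun v => t v + (fun j => -(S c j)) (κ v))).card := rfl
    rw [← h4, ← hcard] at h3
    omega

end Pool.Agent.Lib.MP_1818ed_co
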